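import Mathlib

set_option autoImplicit false

/-!
# Capture and expulsion, part A: sign and monotonicity lemmas
-/

namespace Pool.Agent.CyGN.Capt

open Set Filter Topology

theorem mono_of_nonneg {f f' : ℝ → ℝ} {a b : ℝ} (hab : a ≤ b)
    (hf : ∀ t ∈ Icc a b, HasDerivAt f (f' t) t) (h : ∀ t ∈ Ioo a b, 0 ≤ f' t) : f a ≤ f b := by
  have hc : ContinuousOn f (Icc a b) := fun t ht => (hf t ht).continuousAt.continuousWithinAt
  have hm : MonotoneOn f (Icc a b) := by
    refine monotoneOn_of_deriv_nonneg (convex_Icc a b) hc ?_ ?_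
    · intro t ht
      rw [interior_Icc] at ht
      exact (hf t (Ioo_subset_Icc_self ht)).differentiableAt.differentiableWithinAt
    · intro t ht
      rw [interior_Icc] at ht
      rw [(hf t (Ioo_subset_Icc_self ht)).deriv]
      exact h t ht
  exact hm ⟨le_rfl, hab⟩ ⟨hab, le_rfl⟩ hab

theorem anti_of_nonpos {f f' : ℝ → ℝ} {a b : ℝ} (hab : a ≤ b)
    (hf : ∀ t ∈ Icc a b, HasDerivAt f (f' t) t) (h : ∀ t ∈ Ioo a b, f' t ≤ 0) : f b ≤ f a := by
  have := mono_of_nonneg (f := fun t => - f t) (f' := fun t => - f' t) hab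
    (fun t ht => (hf t ht).neg) (fun t ht => by have := h t ht; linarith)
  simpa using this

theorem strict_of_pos {f f' : ℝ → ℝ} {a b : ℝ} (hab : a < b)
    (hf : ∀ t ∈ Icc a b, HasDerivAt f (f' t) t) (h : ∀ t ∈ Ioo a b, 0 < f' t) : f a < f b := by
  have hc : ContinuousOn f (Icc a b) := fun t ht => (hf t ht).continuousAt.continuousWithinAt
  have hm : StrictMonoOn f (Icc a b) := by
    refine strictMonoOn_of_deriv_pos (convex_Icc a b) hc ?_
    intro t ht
    rw [interior_Icc] at ht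
    rw [(hf t (Ioo_subset_Icc_self ht)).deriv]
    exact h t ht
  exact hm ⟨le_rfl, hab.le⟩ ⟨hab.le, le_rfl⟩ hab

/-- If `f' ≥ C f` whenever `f < 0`, then `f ≥ 0` persists. -/
theorem nonneg_persists {f f' : ℝ → ℝ} {a b C : ℝ} (hf : ∀ t ∈ Icc a b, HasDerivAt f (f' t) t)
    (h : ∀ t ∈ Icc a b, f t < 0 → C * f t ≤ f' t) (h0 : 0 ≤ f a) : ∀ t ∈ Icc a b, 0 ≤ f t := by
  intro t ht
  by_contra hneg
  push Not at hneg
  have hc : ContinuousOn f (Icc a t) := fun r hr =>
    (hf r ⟨hr.1, hr.2.trans ht.2⟩).continuousAt.continuousWithinAt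
  -- the last zero before `t`
  let B : Set ℝ := Icc a t ∩ f ⁻¹' Ici 0
  have hBc : IsClosed B := hc.preimage_isClosed_of_isClosed isClosed_Icc isClosed_Ici
  have hBne : B.Nonempty := ⟨a, ⟨⟨le_rfl, ht.1⟩, h0⟩⟩
  have hBb : BddAbove B := ⟨t, fun r hr => hr.1.2⟩
  have hmem := hBc.csSup_mem hBne hBb
  set t₀ := sSup B with ht₀
  have hlt : t₀ < t := by
    rcases lt_or_eq_of_le hmem.1.2 with h1 | h1
    · exact h1
    · have h2 : 0 ≤ f t₀ := hmem.2
      rw [h1] at h2
      linarith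
  have hneg' : ∀ r ∈ Ioc t₀ t, f r < 0 := by
    intro r hr
    by_contra hc'
    push Not at hc'
    have : r ≤ t₀ := le_csSup hBb ⟨⟨hmem.1.1.trans hr.1.le, hr.2⟩, hc'⟩
    linarith [hr.1]
  have hd : ∀ r ∈ Icc t₀ t, HasDerivAt (fun r => f r * Real.exp (-C * r))
      (f' r * Real.exp (-C * r) + f r * (Real.exp (-C * r) * -C)) r := by
    intro r hr
    have h1 : HasDerivAt (fun r : ℝ => Real.exp (-C * r)) (Real.exp (-C * r) * -C) r := by
      have := ((hasDerivAt_id r).const_mul (-C)).exp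
      simpa using this
    exact (hf r ⟨hmem.1.1.trans hr.1, hr.2.trans ht.2⟩).mul h1
  have := mono_of_nonneg hlt.le hd (fun r hr => by
    have h1 := hneg' r ⟨hr.1, hr.2.le⟩
    have h2 := h r ⟨hmem.1.1.trans hr.1.le, hr.2.le.trans ht.2⟩ h1
    have h3 := Real.exp_pos (-C * r)
    nlinarith)
  have h4 : 0 ≤ f t₀ * Real.exp (-C * t₀) := mul_nonneg hmem.2 (Real.exp_pos _).le
  have h5 : f t * Real.exp (-C * t) < 0 := mul_neg_of_neg_of_pos hneg (Real.exp_pos _)
  linarith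

/-- If `f ≥ 0`, `f' > - C f` inside and `f a ≥ 0`, then `f > 0` after `a`. -/
theorem pos_after {f f' : ℝ → ℝ} {a b C : ℝ} (hf : ∀ t ∈ Icc a b, HasDerivAt f (f' t) t)
    (h : ∀ t ∈ Ioo a b, -C * f t < f' t) (h0 : 0 ≤ f a) : ∀ t ∈ Ioc a b, 0 < f t := by
  intro t ht
  have hd : ∀ r ∈ Icc a t, HasDerivAt (fun r => f r * Real.exp (C * r))
      (f' r * Real.exp (C * r) + f r * (Real.exp (C * r) * C)) r := by
    intro r hr
    have h1 : HasDerivAt (fun r : ℝ => Real.exp (C * r)) (Real.exp (C * r) * C) r := by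
      have := ((hasDerivAt_id r).const_mul C).exp
      simpa using this
    exact (hf r ⟨hr.1, hr.2.trans ht.2⟩).mul h1
  have := strict_of_pos ht.1 hd (fun r hr => by
    have h2 := h r ⟨hr.1, hr.2.trans_le ht.2⟩
    have h3 := Real.exp_pos (C * r)
    nlinarith)
  have h4 : 0 ≤ f a * Real.exp (C * a) := mul_nonneg h0 (Real.exp_pos _).le
  have h5 : 0 < f t * Real.exp (C * t) := h4.trans_lt this
  exact pos_of_mul_pos_left h5 (Real.exp_pos _).le |> fun h => h

/-- First time at which a closed condition holds. -/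
theorem exists_first {B : Set ℝ} {a : ℝ} (hB : IsClosed B) (hne : (B ∩ Ici a).Nonempty) :
    ∃ t ∈ B, a ≤ t ∧ ∀ r, a ≤ r → r < t → r ∉ B := by
  have hc : IsClosed (B ∩ Ici a) := hB.inter isClosed_Ici
  have hb : BddBelow (B ∩ Ici a) := ⟨a, fun r hr => hr.2⟩
  have hm := hc.csInf_mem hne hb
  refine ⟨sInf (B ∩ Ici a), hm.1, hm.2, fun r hr hlt hrB => ?_⟩
  have := csInf_le hb ⟨hrB, hr⟩
  linarith

/-- A function with derivative `≥ c > 0` on `[a, ∞)` is unbounded. -/
theorem exists_ge_of_deriv_ge {f f' : ℝ → ℝ} {a c : ℝ} (hc : 0 < c)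
    (hf : ∀ t, a ≤ t → HasDerivAt f (f' t) t) (h : ∀ t, a ≤ t → c ≤ f' t) (L : ℝ) :
    ∃ t, a ≤ t ∧ L ≤ f t := by
  set T : ℝ := max 0 ((L - f a) / c) with hT
  have hT0 : 0 ≤ T := le_max_left _ _
  refine ⟨a + T, by linarith, ?_⟩
  have := mono_of_nonneg (f := fun t => f t - c * t) (f' := fun t => f' t - c) (a := a)
    (b := a + T) (by linarith) (fun t ht => by
      have h1 : HasDerivAt (fun t : ℝ => c * t) c t := by
        simpa using (hasDerivAt_id t).const_mul c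
      exact (hf t ht.1).sub h1) (fun t ht => by
      have := h t ht.1.le
      linarith)
  have h2 : (L - f a) / c ≤ T := le_max_right _ _
  rw [div_le_iff₀ hc] at h2
  nlinarith

end Pool.Agent.CyGN.Capt
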