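import Pool.Agent.CyGN.CaptA

set_option autoImplicit false

/-!
# Capture and expulsion, part B: the profiles and the orbits in the region `y ≥ 2`
-/

namespace Pool.Agent.CyGN.Capt

open Set Filter Topology

/-- The profile functions of the region `y ≥ 2`. -/
structure Prof where
  Y : ℝ → ℝ
  Z : ℝ → ℝ
  z : ℝ → ℝ
  zp : ℝ → ℝ
  A0 : ℝ
  A0_ge : 2 ≤ A0
  A0_le : A0 ≤ 9 / 4
  dY : ∀ y, 2 ≤ y → HasDerivAt Y 1 y
  dZ : ∀ y, 2 ≤ y → HasDerivAt Z (z y) y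
  dz : ∀ y, 2 ≤ y → HasDerivAt z (zp y) y
  zp_nonneg : ∀ y, 2 ≤ y → 0 ≤ zp y
  z_two : z 2 = 0
  z_pos : ∀ y, 2 < y → 0 < z y
  z_le : ∀ y, 2 ≤ y → z y ≤ 1
  z_one : ∀ y, 3 ≤ y → z y = 1
  Y_eq : ∀ y, 2 ≤ y → Y y = Y 2 + (y - 2)
  Y_two_ge : 1000001 ≤ Y 2
  Y_two_le : Y 2 ≤ 1000002
  Z_ge : ∀ y, 2 ≤ y → 1000002 ≤ Z y
  Y_le_Z : ∀ y, 2 ≤ y → Y y ≤ Z y
  Z_eq : ∀ y, 3 ≤ y → Z y = Y y

namespace Prof

variable (p : Prof)

/-- `β = 10⁸ / Y`. -/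
noncomputable def bt (y : ℝ) : ℝ := 100000000 / p.Y y

/-- `A = A₀ ((10⁶ + 2) / Z)³`. -/
noncomputable def A (y : ℝ) : ℝ := p.A0 * (1000002 / p.Z y) ^ 3

/-- the derivative of `A` -/
noncomputable def Ap (y : ℝ) : ℝ := -(3 * p.A y * p.z y / p.Z y)

/-- `Q = - β A'` -/
noncomputable def Q (y : ℝ) : ℝ := 3 * p.A y * p.bt y * p.z y / p.Z y

/-- the derivative of `Q` -/
noncomputable def Qp (y : ℝ) : ℝ :=
  3 * p.A y * p.bt y * p.zp y / p.Z y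
    - p.Q y * (4 * p.z y / p.Z y + 1 / p.Y y)

/-- `a = A / β` -/
noncomputable def a (y : ℝ) : ℝ := p.A y / p.bt y

/-- the derivative of `a` -/
noncomputable def ap (y : ℝ) : ℝ := p.a y * (1 / p.Y y - 3 * p.z y / p.Z y)

theorem Y_ge {y : ℝ} (hy : 2 ≤ y) : 1000001 ≤ p.Y y := by
  rw [p.Y_eq y hy]; linarith [p.Y_two_ge]

theorem Y_pos {y : ℝ} (hy : 2 ≤ y) : 0 < p.Y y := by linarith [p.Y_ge hy]

theorem Z_pos {y : ℝ} (hy : 2 ≤ y) : 0 < p.Z y := by linarith [p.Z_ge y hy]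

theorem bt_pos {y : ℝ} (hy : 2 ≤ y) : 0 < p.bt y := by
  have := p.Y_pos hy
  unfold bt; positivity

theorem A0_pos : 0 < p.A0 := by linarith [p.A0_ge]

theorem A_pos {y : ℝ} (hy : 2 ≤ y) : 0 < p.A y := by
  have := p.Z_pos hy
  have := p.A0_pos
  unfold A; positivity

theorem z_nonneg {y : ℝ} (hy : 2 ≤ y) : 0 ≤ p.z y := by
  rcases eq_or_lt_of_le hy with h | h
  · rw [← h, p.z_two]
  · exact (p.z_pos y h).le

theorem a_pos {y : ℝ} (hy : 2 ≤ y) : 0 < p.a y := div_pos (p.A_pos hy) (p.bt_pos hy)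

theorem Q_nonneg {y : ℝ} (hy : 2 ≤ y) : 0 ≤ p.Q y := by
  have h1 := p.Z_pos hy
  have h2 := p.A_pos hy
  have h3 := p.bt_pos hy
  have h4 := p.z_nonneg hy
  unfold Q; positivity

theorem Q_pos {y : ℝ} (hy : 2 < y) : 0 < p.Q y := by
  have h1 := p.Z_pos hy.le
  have h2 := p.A_pos hy.le
  have h3 := p.bt_pos hy.le
  have h4 := p.z_pos y hy
  unfold Q; positivity

theorem Ap_nonpos {y : ℝ} (hy : 2 ≤ y) : p.Ap y ≤ 0 := by
  have h1 := p.Z_pos hy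
  have h2 := p.A_pos hy
  have h4 := p.z_nonneg hy
  have : 0 ≤ 3 * p.A y * p.z y / p.Z y := by positivity
  unfold Ap; linarith

theorem Q_eq {y : ℝ} : p.Q y = -(p.bt y * p.Ap y) := by unfold Q Ap; ring

theorem dbt {y : ℝ} (hy : 2 ≤ y) : HasDerivAt p.bt (-(p.bt y / p.Y y)) y := by
  have h1 := p.Y_pos hy
  have h2 := (p.dY y hy).inv h1.ne'
  have h3 := h2.const_mul 100000000
  have e : p.bt = fun y => 100000000 * (p.Y y)⁻¹ := by funext y; unfold bt; ring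
  rw [e]
  refine h3.congr_deriv ?_
  field_simp

theorem dA {y : ℝ} (hy : 2 ≤ y) : HasDerivAt p.A (p.Ap y) y := by
  have h1 := p.Z_pos hy
  have h2 := (((p.dZ y hy).inv h1.ne').const_mul 1000002).pow 3
  have h3 := h2.const_mul p.A0
  have e : p.A = fun y => p.A0 * (1000002 * (p.Z y)⁻¹) ^ 3 := by funext y; unfold A; ring
  rw [e]
  refine h3.congr_deriv ?_
  unfold Ap A
  simp only [Pi.inv_apply]
  push_cast
  field_simp

theorem dQ {y : ℝ} (hy : 2 ≤ y) : HasDerivAt p.Q (p.Qp y) y := by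
  have h1 := p.Z_pos hy
  have h0 := p.Y_pos hy
  have h2 := (((p.dA hy).const_mul 3).mul (p.dbt hy)).mul (p.dz y hy)
  have h3 := h2.div (p.dZ y hy) h1.ne'
  refine h3.congr_deriv ?_
  unfold Qp Q Ap
  simp only [Pi.mul_apply]
  field_simp
  ring

theorem da {y : ℝ} (hy : 2 ≤ y) : HasDerivAt p.a (p.ap y) y := by
  have h1 := p.Z_pos hy
  have h0 := p.Y_pos hy
  have hb := p.bt_pos hy
  have h3 := (p.dA hy).div (p.dbt hy) hb.ne'
  refine h3.congr_deriv ?_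
  unfold ap a Ap
  field_simp
  ring

theorem Qp_ge {y : ℝ} (hy : 2 ≤ y) : -(5 * p.Q y / p.Y y) ≤ p.Qp y := by
  have h1 := p.Z_pos hy
  have h0 := p.Y_pos hy
  have h2 := p.A_pos hy
  have h3 := p.bt_pos hy
  have h4 := p.zp_nonneg y hy
  have h5 := p.Q_nonneg hy
  have h6 : 0 ≤ 3 * p.A y * p.bt y * p.zp y / p.Z y := by positivity
  have h7 : p.z y / p.Z y ≤ 1 / p.Y y := by
    rw [div_le_div_iff₀ h1 h0]
    have := p.z_le y hy
    have := p.Y_le_Z y hy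
    nlinarith [p.z_nonneg hy]
  have h8 : p.Q y * (4 * p.z y / p.Z y + 1 / p.Y y) ≤ 5 * p.Q y / p.Y y := by
    have : 4 * p.z y / p.Z y + 1 / p.Y y ≤ 5 * (1 / p.Y y) := by
      have e : 4 * p.z y / p.Z y = 4 * (p.z y / p.Z y) := by ring
      rw [e]; linarith
    calc _ ≤ p.Q y * (5 * (1 / p.Y y)) := mul_le_mul_of_nonneg_left this h5
      _ = _ := by ring
  unfold Qp
  linarith

theorem bt_le {y : ℝ} (hy : 2 ≤ y) : p.bt y ≤ 100 := by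
  have := p.Y_ge hy
  unfold bt
  rw [div_le_iff₀ (p.Y_pos hy)]
  linarith

theorem bt_mul_Y {y : ℝ} (hy : 2 ≤ y) : p.bt y * p.Y y = 100000000 := by
  unfold bt; field_simp [(p.Y_pos hy).ne']

theorem A_le {y : ℝ} (hy : 2 ≤ y) : p.A y ≤ 9 / 4 := by
  have h1 := p.Z_ge y hy
  have h2 := p.Z_pos hy
  have h3 : 1000002 / p.Z y ≤ 1 := (div_le_one h2).2 h1
  have h4 : (1000002 / p.Z y) ^ 3 ≤ 1 := pow_le_one₀ (by positivity) h3
  have h5 : 0 ≤ (1000002 / p.Z y) ^ 3 := by positivity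
  unfold A
  nlinarith [p.A0_le, p.A0_pos]

/-- `A ≤ 2.26·10⁻⁶ β³`. -/
theorem A_le_cube {y : ℝ} (hy : 2 ≤ y) : p.A y ≤ 226 / 100000000 * p.bt y ^ 3 := by
  have h1 := p.Z_pos hy
  have h0 := p.Y_pos hy
  have h2 : (1 / p.Z y) ^ 3 ≤ (1 / p.Y y) ^ 3 :=
    pow_le_pow_left₀ (by positivity) (one_div_le_one_div_of_le h0 (p.Y_le_Z y hy)) 3
  have h3 : 0 ≤ (1 / p.Y y) ^ 3 := by positivity
  have e1 : p.A y = p.A0 * (1000002 ^ 3 * (1 / p.Z y) ^ 3) := by unfold A; ring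
  have e2 : p.bt y ^ 3 = 100000000 ^ 3 * (1 / p.Y y) ^ 3 := by unfold bt; ring
  rw [e1, e2]
  calc p.A0 * (1000002 ^ 3 * (1 / p.Z y) ^ 3) ≤ 9 / 4 * (1000002 ^ 3 * (1 / p.Y y) ^ 3) := by
        refine mul_le_mul p.A0_le ?_ (by positivity) (by norm_num)
        exact mul_le_mul_of_nonneg_left h2 (by norm_num)
    _ = 9 / 4 * 1000002 ^ 3 * (1 / p.Y y) ^ 3 := by ring
    _ ≤ (226 / 100000000 * 100000000 ^ 3) * (1 / p.Y y) ^ 3 := by
        refine mul_le_mul_of_nonneg_right (by norm_num) h3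
    _ = _ := by ring

theorem a_le_sq {y : ℝ} (hy : 2 ≤ y) : p.a y ≤ 226 / 100000000 * p.bt y ^ 2 := by
  have hb := p.bt_pos hy
  unfold a
  rw [div_le_iff₀ hb]
  have := p.A_le_cube hy
  calc p.A y ≤ _ := this
    _ = _ := by ring

theorem a_le_bt {y : ℝ} (hy : 2 ≤ y) : p.a y ≤ 226 / 1000000 * p.bt y := by
  have hb := p.bt_pos hy
  have := p.a_le_sq hy
  have := p.bt_le hy
  nlinarith

theorem a_le {y : ℝ} (hy : 2 ≤ y) : p.a y ≤ 226 / 10000 := by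
  have := p.a_le_bt hy
  have := p.bt_le hy
  linarith

theorem zZ_le {y : ℝ} (hy : 2 ≤ y) : p.z y / p.Z y ≤ 1 / 1000000 := by
  have h1 := p.Z_pos hy
  rw [div_le_div_iff₀ h1 (by norm_num)]
  have := p.z_le y hy
  have := p.Z_ge y hy
  nlinarith

theorem Q_le {y : ℝ} (hy : 2 ≤ y) : p.Q y ≤ 7 / 10000 := by
  have h1 := p.zZ_le hy
  have h2 := p.A_le hy
  have h3 := p.bt_le hy
  have h4 := p.A_pos hy
  have h5 := p.bt_pos hy
  have h6 : 0 ≤ p.z y / p.Z y := div_nonneg (p.z_nonneg hy) (p.Z_pos hy).le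
  have e : p.Q y = 3 * (p.A y * p.bt y) * (p.z y / p.Z y) := by unfold Q; ring
  have h7 : p.A y * p.bt y ≤ 9 / 4 * 100 := mul_le_mul h2 h3 h5.le (by norm_num)
  rw [e]
  calc 3 * (p.A y * p.bt y) * (p.z y / p.Z y) ≤ 3 * (9 / 4 * 100) * (1 / 1000000) :=
        mul_le_mul (by linarith) h1 h6 (by norm_num)
    _ ≤ _ := by norm_num

/-- `Q ≤ 7·10⁻⁸ β²`. -/
theorem Q_le_sq {y : ℝ} (hy : 2 ≤ y) : p.Q y ≤ 7 / 100000000 * p.bt y ^ 2 := by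
  have h1 := p.zZ_le hy
  have h2 := p.a_le hy
  have h4 := p.a_pos hy
  have h5 := p.bt_pos hy
  have h6 : 0 ≤ p.z y / p.Z y := div_nonneg (p.z_nonneg hy) (p.Z_pos hy).le
  have e : p.Q y = 3 * p.a y * (p.z y / p.Z y) * p.bt y ^ 2 := by
    unfold Q a; field_simp
  rw [e]
  refine mul_le_mul_of_nonneg_right ?_ (sq_nonneg _)
  calc 3 * p.a y * (p.z y / p.Z y) ≤ 3 * (226 / 10000) * (1 / 1000000) :=
        mul_le_mul (by linarith) h1 h6 (by norm_num)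
    _ ≤ _ := by norm_num

/-- `- a' ≤ Q / β²`. -/
theorem neg_ap_le {y : ℝ} (hy : 2 ≤ y) : -p.ap y * p.bt y ^ 2 ≤ p.Q y := by
  have h1 := p.Z_pos hy
  have h0 := p.Y_pos hy
  have h4 := p.a_pos hy
  have h5 := p.bt_pos hy
  have e : p.Q y = 3 * p.a y * (p.z y / p.Z y) * p.bt y ^ 2 := by
    unfold Q a; field_simp
  rw [e]
  refine mul_le_mul_of_nonneg_right ?_ (sq_nonneg _)
  unfold ap
  have : 0 ≤ p.a y * (1 / p.Y y) := by positivity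
  have e2 : -(p.a y * (1 / p.Y y - 3 * p.z y / p.Z y)) = 3 * p.a y * (p.z y / p.Z y)
    - p.a y * (1 / p.Y y) := by ring
  rw [e2]; linarith

/-- `a' ≤ 2.3·10⁻⁸`. -/
theorem ap_le {y : ℝ} (hy : 2 ≤ y) : p.ap y ≤ 23 / 1000000000 := by
  have h1 := p.Z_pos hy
  have h0 := p.Y_pos hy
  have h4 := p.a_pos hy
  have h2 := p.a_le hy
  have h6 : 0 ≤ p.z y / p.Z y := div_nonneg (p.z_nonneg hy) h1.le
  have h7 : 1 / p.Y y ≤ 1 / 1000000 :=
    one_div_le_one_div_of_le (by norm_num) (by linarith [p.Y_ge hy])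
  have h8 : 0 ≤ 1 / p.Y y := by positivity
  have e : p.ap y = p.a y * (1 / p.Y y) - 3 * p.a y * (p.z y / p.Z y) := by unfold ap; ring
  rw [e]
  have h9 : 0 ≤ 3 * p.a y * (p.z y / p.Z y) := by positivity
  have h10 : p.a y * (1 / p.Y y) ≤ 226 / 10000 * (1 / 1000000) :=
    mul_le_mul h2 h7 h8 (by norm_num)
  linarith

theorem ap_nonpos {y : ℝ} (hy : 3 ≤ y) : p.ap y ≤ 0 := by
  have hy2 : 2 ≤ y := by linarith
  have h4 := p.a_pos hy2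
  have h0 := p.Y_pos hy2
  unfold ap
  rw [p.z_one y hy, p.Z_eq y hy]
  have : 1 / p.Y y - 3 * 1 / p.Y y = -(2 / p.Y y) := by ring
  rw [this]
  have h5 : 0 < 2 / p.Y y := by positivity
  nlinarith

/-- `|a'| ≤ 10⁻⁷`. -/
theorem abs_ap_le {y : ℝ} (hy : 2 ≤ y) : |p.ap y| ≤ 1 / 10000000 := by
  rw [abs_le]
  refine ⟨?_, (p.ap_le hy).trans (by norm_num)⟩
  have h1 := p.Z_pos hy
  have h0 := p.Y_pos hy
  have h4 := p.a_pos hy
  have h2 := p.a_le hy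
  have h6 : 0 ≤ p.z y / p.Z y := div_nonneg (p.z_nonneg hy) h1.le
  have h8 : 0 ≤ 1 / p.Y y := by positivity
  have e : p.ap y = p.a y * (1 / p.Y y) - 3 * p.a y * (p.z y / p.Z y) := by unfold ap; ring
  rw [e]
  have h9 : 0 ≤ p.a y * (1 / p.Y y) := by positivity
  have h10 : 3 * p.a y * (p.z y / p.Z y) ≤ 3 * (226 / 10000) * (1 / 1000000) :=
    mul_le_mul (by linarith) (p.zZ_le hy) h6 (by norm_num)
  linarith

/-- `|A'| ≤ 7·10⁻⁶`. -/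
theorem neg_Ap_le {y : ℝ} (hy : 2 ≤ y) : -p.Ap y ≤ 7 / 1000000 := by
  have h6 : 0 ≤ p.z y / p.Z y := div_nonneg (p.z_nonneg hy) (p.Z_pos hy).le
  have e : -p.Ap y = 3 * p.A y * (p.z y / p.Z y) := by unfold Ap; ring
  rw [e]
  calc 3 * p.A y * (p.z y / p.Z y) ≤ 3 * (9 / 4) * (1 / 1000000) :=
        mul_le_mul (by linarith [p.A_le hy]) (p.zZ_le hy) h6 (by norm_num)
    _ ≤ _ := by norm_num

/-- The identity behind the formula for `K'`. -/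
theorem ap_bt_sq {y : ℝ} (hy : 2 ≤ y) :
    p.ap y * p.bt y ^ 2 = p.Ap y * p.bt y + p.A y * (p.bt y / p.Y y) := by
  have h1 := p.Z_pos hy
  have h0 := p.Y_pos hy
  have hb := p.bt_pos hy
  unfold ap a Ap
  field_simp
  ring

theorem a_mul_bt {y : ℝ} (hy : 2 ≤ y) : p.a y * p.bt y = p.A y := by
  unfold a; field_simp [(p.bt_pos hy).ne']

/-- `Y⁵ Q` for `y ≥ 3`. -/
theorem Q_mul_Y {y : ℝ} (hy : 3 ≤ y) :
    p.Q y * p.Y y ^ 5 = 3 * p.A0 * 1000002 ^ 3 * 100000000 := by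
  have h0 := p.Y_pos (by linarith : (2 : ℝ) ≤ y)
  unfold Q A bt
  rw [p.z_one y hy, p.Z_eq y hy]
  field_simp

theorem Q_mul_Y_ge {y : ℝ} (hy : 3 ≤ y) : 6 * 10 ^ 26 ≤ p.Q y * p.Y y ^ 5 := by
  rw [p.Q_mul_Y hy]
  nlinarith [p.A0_ge]

/-- `Y⁵ Q` is nondecreasing. -/
theorem Q_mono {y y' : ℝ} (hy : 2 ≤ y) (h : y ≤ y') : p.Q y * p.Y y ^ 5 ≤ p.Q y' * p.Y y' ^ 5 := by
  refine mono_of_nonneg (f := fun y => p.Q y * p.Y y ^ 5)
    (f' := fun y => p.Qp y * p.Y y ^ 5 + p.Q y * (5 * p.Y y ^ 4)) h ?_ ?_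
  · intro t ht
    have h2 : 2 ≤ t := hy.trans ht.1
    have h3 := (p.dY t h2).pow 5
    have h4 := (p.dQ h2).mul h3
    refine h4.congr_deriv ?_
    push_cast
    ring_nf
    rfl
  · intro t ht
    have h2 : 2 ≤ t := hy.trans ht.1.le
    have h3 := p.Qp_ge h2
    have h0 := p.Y_pos h2
    have h5 : -(5 * p.Q t / p.Y t) * p.Y t ^ 5 ≤ p.Qp t * p.Y t ^ 5 :=
      mul_le_mul_of_nonneg_right h3 (by positivity)
    have e : -(5 * p.Q t / p.Y t) * p.Y t ^ 5 = -(p.Q t * (5 * p.Y t ^ 4)) := by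
      field_simp
    linarith

end Prof

end Pool.Agent.CyGN.Capt
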