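import Pool.Agent.CyGN.CaptB

set_option autoImplicit false

/-!
# Capture and expulsion, part C: orbits in the region `y ≥ 2`
-/

namespace Pool.Agent.CyGN.Capt

open Set Filter Topology

/-- `sin (π x)` -/
noncomputable def sx (x : ℝ) : ℝ := Real.sin (Real.pi * x)

/-- `cos (π x)` -/
noncomputable def cx (x : ℝ) : ℝ := Real.cos (Real.pi * x)

theorem sx_sq_add (x : ℝ) : sx x ^ 2 + cx x ^ 2 = 1 := Real.sin_sq_add_cos_sq _

theorem hasDerivAt_sx (x : ℝ) : HasDerivAt sx (Real.pi * cx x) x := by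
  have h1 : HasDerivAt (fun x : ℝ => Real.pi * x) Real.pi x := by
    simpa using (hasDerivAt_id x).const_mul Real.pi
  have := h1.sin
  refine this.congr_deriv ?_
  unfold cx; ring

theorem hasDerivAt_cx (x : ℝ) : HasDerivAt cx (-(Real.pi * sx x)) x := by
  have h1 : HasDerivAt (fun x : ℝ => Real.pi * x) Real.pi x := by
    simpa using (hasDerivAt_id x).const_mul Real.pi
  have := h1.cos
  refine this.congr_deriv ?_
  unfold sx; ring

theorem sx_le_one (x : ℝ) : sx x ≤ 1 := Real.sin_le_one _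

theorem sx_pos {x : ℝ} (h0 : 0 < x) (h1 : x < 1) : 0 < sx x :=
  Real.sin_pos_of_pos_of_lt_pi (mul_pos Real.pi_pos h0) (by nlinarith [Real.pi_pos])

theorem sx_nonneg {x : ℝ} (h0 : 0 ≤ x) (h1 : x ≤ 1) : 0 ≤ sx x :=
  Real.sin_nonneg_of_nonneg_of_le_pi (mul_nonneg Real.pi_pos.le h0) (by nlinarith [Real.pi_pos])

theorem sx_le_mul {x : ℝ} (h0 : 0 ≤ x) : sx x ≤ Real.pi * x :=
  Real.sin_le (mul_nonneg Real.pi_pos.le h0)

theorem sx_one_sub (x : ℝ) : sx (1 - x) = sx x := by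
  unfold sx
  rw [mul_sub, mul_one, Real.sin_pi_sub]

theorem sx_le_mul' {x : ℝ} (h1 : x ≤ 1) : sx x ≤ Real.pi * (1 - x) := by
  rw [← sx_one_sub]
  exact sx_le_mul (by linarith)

namespace Prof

variable (p : Prof)

/-- `w₁ = 1 + (A/2) u` -/
noncomputable def w1 (x y : ℝ) : ℝ := 1 + p.A y / 2 * sx x ^ 2

/-- `P = s w₁` -/
noncomputable def P (x y : ℝ) : ℝ := sx x * p.w1 x y

/-- `P_x` -/
noncomputable def Px (x y : ℝ) : ℝ := Real.pi * cx x * (1 + 3 / 2 * p.A y * sx x ^ 2)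

/-- `P_y` -/
noncomputable def Py (x y : ℝ) : ℝ := p.Ap y / 2 * sx x ^ 3

/-- `E = β² + P²` -/
noncomputable def E (x y : ℝ) : ℝ := p.bt y ^ 2 + p.P x y ^ 2

/-- `X = Q + a' K` -/
noncomputable def X (y K : ℝ) : ℝ := p.Q y + p.ap y * K

theorem E_pos (x : ℝ) {y : ℝ} (hy : 2 ≤ y) : 0 < p.E x y := by
  have := p.bt_pos hy
  unfold E; positivity

/-- The derivative of `P` along a curve. -/
theorem hasDerivAt_P {x y : ℝ → ℝ} {x' y' t : ℝ} (hx : HasDerivAt x x' t)
    (hy : HasDerivAt y y' t) (h2 : 2 ≤ y t) :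
    HasDerivAt (fun t => p.P (x t) (y t)) (p.Px (x t) (y t) * x' + p.Py (x t) (y t) * y') t := by
  have h3 := (hasDerivAt_sx (x t)).comp t hx
  have h4 := (p.dA h2).comp t hy
  have h5 := h3.mul (((h4.div_const 2).mul (h3.pow 2)).const_add 1)
  have e : (fun t => p.P (x t) (y t)) = fun t => sx (x t) * (1 + p.A (y t) / 2 * sx (x t) ^ 2) := rfl
  rw [e]
  refine h5.congr_deriv ?_
  simp only [Function.comp_def, Pi.mul_apply, Pi.pow_apply]
  unfold Px Py
  push_cast
  ring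

end Prof

/-- An orbit, at the times with `y ≥ 2`. -/
structure Orb (p : Prof) (x y q η : ℝ → ℝ) : Prop where
  cx : Continuous x
  cy : Continuous y
  cq : Continuous q
  cη : Continuous η
  dx : ∀ t, 2 ≤ y t → HasDerivAt x (q t / p.E (x t) (y t)) t
  dy : ∀ t, 2 ≤ y t → HasDerivAt y ((η t + p.a (y t) * sx (x t) ^ 2 * q t) / p.E (x t) (y t)) t
  dq : ∀ t, 2 ≤ y t → HasDerivAt q ((2 * p.P (x t) (y t) * p.Px (x t) (y t)
    + p.a (y t) * sx (x t) ^ 2 * (2 * p.bt (y t) * (-(p.bt (y t) / p.Y (y t)))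
      + 2 * p.P (x t) (y t) * p.Py (x t) (y t))) / (2 * p.E (x t) (y t))
    + p.ap (y t) * sx (x t) ^ 2 * η t ^ 2 / p.E (x t) (y t)) t
  dη : ∀ t, 2 ≤ y t → HasDerivAt η ((2 * p.bt (y t) * (-(p.bt (y t) / p.Y (y t)))
      + 2 * p.P (x t) (y t) * p.Py (x t) (y t)) / (2 * p.E (x t) (y t))
    - p.ap (y t) * sx (x t) ^ 2 * q t * η t / p.E (x t) (y t)) t
  en : ∀ t, 2 ≤ y t → q t ^ 2 + η t ^ 2 = p.E (x t) (y t)

namespace Orb

variable {p : Prof} {x y q η : ℝ → ℝ}

/-- `K = β² - η²` -/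
noncomputable def K (p : Prof) (y η : ℝ → ℝ) (t : ℝ) : ℝ := p.bt (y t) ^ 2 - η t ^ 2

/-- `U₊ = P + q` -/
noncomputable def Up (p : Prof) (x y q : ℝ → ℝ) (t : ℝ) : ℝ := p.P (x t) (y t) + q t

/-- `U₋ = P - q` -/
noncomputable def Um (p : Prof) (x y q : ℝ → ℝ) (t : ℝ) : ℝ := p.P (x t) (y t) - q t

theorem K_eq (o : Orb p x y q η) {t : ℝ} (h : 2 ≤ y t) :
    K p y η t = q t ^ 2 - p.P (x t) (y t) ^ 2 := by
  have := o.en t h
  unfold Prof.E at this
  unfold K; linarith

theorem K_eq_U (o : Orb p x y q η) {t : ℝ} (h : 2 ≤ y t) :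
    K p y η t = -(Up p x y q t * Um p x y q t) := by
  rw [o.K_eq h]; unfold Up Um; ring

theorem dK (o : Orb p x y q η) {t : ℝ} (h : 2 ≤ y t) : HasDerivAt (K p y η)
    (2 * sx (x t) ^ 2 / p.E (x t) (y t) * (-(q t * p.X (y t) (K p y η t))
      + 1 / 2 * -p.Ap (y t) * sx (x t) ^ 2 * p.w1 (x t) (y t) * η t)) t := by
  have hE := p.E_pos (x t) h
  have h1 := ((p.dbt h).comp t (o.dy t h)).pow 2
  have h2 := (o.dη t h).pow 2
  have h3 := h1.sub h2
  refine h3.congr_deriv ?_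
  have hab := p.ap_bt_sq h
  have haA := p.a_mul_bt h
  have hη : η t ^ 2 = p.bt (y t) ^ 2 - K p y η t := by unfold K; ring
  have hPP : p.P (x t) (y t) * p.Py (x t) (y t)
      = 1 / 2 * p.Ap (y t) * (sx (x t) ^ 2) ^ 2 * p.w1 (x t) (y t) := by
    unfold Prof.P Prof.Py; ring
  have hQ : p.Q (y t) = -(p.bt (y t) * p.Ap (y t)) := p.Q_eq
  simp only [Function.comp_def]
  push_cast
  unfold Prof.X
  rw [hQ]
  generalize hKK : K p y η t = KK at *
  generalize p.E (x t) (y t) = E at *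
  generalize hu : sx (x t) ^ 2 = u at *
  generalize p.P (x t) (y t) = P at *
  generalize p.Py (x t) (y t) = Py at *
  generalize p.ap (y t) = ap at *
  generalize p.Ap (y t) = Ap at *
  generalize p.w1 (x t) (y t) = w at *
  generalize p.a (y t) = a at *
  generalize p.A (y t) = A at *
  generalize hbY : p.bt (y t) / p.Y (y t) = bY at *
  generalize p.bt (y t) = b at *
  generalize q t = q at *
  generalize η t = e at *
  have hne := hE.ne'
  field_simp
  -- everything is polynomial now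
  have e1 : ap * u * q * e ^ 2 = ap * u * q * (b ^ 2 - KK) := by rw [hη]
  linear_combination (2 * u * q * bY) * haA * (-1) + (2 * q * u) * hab - (2 * e) * hPP + 2 * e1
    + 0 * hη

theorem a_bt_sq (p : Prof) {y : ℝ} (h : 2 ≤ y) (K : ℝ) :
    p.a y * (p.bt y * -(p.bt y / p.Y y)) + p.ap y * (p.bt y ^ 2 - K) = -p.X y K := by
  have hab := p.ap_bt_sq h
  have haA := p.a_mul_bt h
  have hQ : p.Q y = -(p.bt y * p.Ap y) := p.Q_eq
  unfold Prof.X
  rw [hQ]
  linear_combination hab - (p.bt y / p.Y y) * haA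

theorem dUp (o : Orb p x y q η) {t : ℝ} (h : 2 ≤ y t) : HasDerivAt (Up p x y q)
    ((p.Px (x t) (y t) * Up p x y q t - sx (x t) ^ 2 * p.X (y t) (K p y η t)
      + p.a (y t) * sx (x t) ^ 2 * p.Py (x t) (y t) * Up p x y q t
      + η t * p.Py (x t) (y t)) / p.E (x t) (y t)) t := by
  have hE := (p.E_pos (x t) h).ne'
  have h1 := p.hasDerivAt_P (o.dx t h) (o.dy t h) h
  refine (h1.add (o.dq t h)).congr_deriv ?_
  have hX := a_bt_sq p h (K p y η t)
  have hη : η t ^ 2 = p.bt (y t) ^ 2 - K p y η t := by unfold K; ring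
  rw [hη]
  unfold Up
  generalize K p y η t = KK at *
  generalize p.E (x t) (y t) = E at *
  generalize sx (x t) ^ 2 = u at *
  generalize p.P (x t) (y t) = P at *
  generalize p.Px (x t) (y t) = Px at *
  generalize p.Py (x t) (y t) = Py at *
  generalize p.X (y t) KK = X at *
  generalize p.ap (y t) = ap at *
  generalize p.a (y t) = a at *
  generalize p.bt (y t) / p.Y (y t) = bY at *
  generalize p.bt (y t) = b at *
  field_simp
  linear_combination u * hX

theorem dUm (o : Orb p x y q η) {t : ℝ} (h : 2 ≤ y t) : HasDerivAt (Um p x y q)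
    ((-(p.Px (x t) (y t) * Um p x y q t) + sx (x t) ^ 2 * p.X (y t) (K p y η t)
      - p.a (y t) * sx (x t) ^ 2 * p.Py (x t) (y t) * Um p x y q t
      + η t * p.Py (x t) (y t)) / p.E (x t) (y t)) t := by
  have hE := (p.E_pos (x t) h).ne'
  have h1 := p.hasDerivAt_P (o.dx t h) (o.dy t h) h
  refine (h1.sub (o.dq t h)).congr_deriv ?_
  have hX := a_bt_sq p h (K p y η t)
  have hη : η t ^ 2 = p.bt (y t) ^ 2 - K p y η t := by unfold K; ring
  rw [hη]
  unfold Um
  generalize K p y η t = KK at *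
  generalize p.E (x t) (y t) = E at *
  generalize sx (x t) ^ 2 = u at *
  generalize p.P (x t) (y t) = P at *
  generalize p.Px (x t) (y t) = Px at *
  generalize p.Py (x t) (y t) = Py at *
  generalize p.X (y t) KK = X at *
  generalize p.ap (y t) = ap at *
  generalize p.a (y t) = a at *
  generalize p.bt (y t) / p.Y (y t) = bY at *
  generalize p.bt (y t) = b at *
  field_simp
  linear_combination (-u) * hX

end Orb

end Pool.Agent.CyGN.Capt
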