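import Pool.Agent.CyGN.CaptC

set_option autoImplicit false

/-!
# Capture and expulsion, part D: the invariants of the captured state
-/

namespace Pool.Agent.CyGN.Capt

open Set Filter Topology

namespace Prof

variable (p : Prof)

theorem w1_ge {x y : ℝ} (hy : 2 ≤ y) : 1 ≤ p.w1 x y := by
  have := p.A_pos hy
  unfold w1
  nlinarith [sq_nonneg (sx x)]

theorem sx_sq_le (x : ℝ) : sx x ^ 2 ≤ 1 := by
  have := sx_sq_add x
  nlinarith [sq_nonneg (cx x)]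

theorem w1_le {x y : ℝ} (hy : 2 ≤ y) : p.w1 x y ≤ 17 / 8 := by
  have h1 := p.A_pos hy
  have h2 := p.A_le hy
  have h3 := sx_sq_le x
  unfold w1
  nlinarith [sq_nonneg (sx x)]

theorem P_nonneg {x y : ℝ} (hy : 2 ≤ y) (h0 : 0 ≤ x) (h1 : x ≤ 1) : 0 ≤ p.P x y :=
  mul_nonneg (sx_nonneg h0 h1) (by linarith [p.w1_ge (x := x) hy])

theorem P_pos {x y : ℝ} (hy : 2 ≤ y) (h0 : 0 < x) (h1 : x < 1) : 0 < p.P x y :=
  mul_pos (sx_pos h0 h1) (by linarith [p.w1_ge (x := x) hy])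

theorem P_le {x y : ℝ} (hy : 2 ≤ y) (h0 : 0 ≤ x) (h1 : x ≤ 1) : p.P x y ≤ 17 / 8 := by
  have := p.w1_le (x := x) hy
  have := sx_le_one x
  have := sx_nonneg h0 h1
  have := p.w1_ge (x := x) hy
  unfold P
  nlinarith

theorem P_le_mul {x y : ℝ} (hy : 2 ≤ y) (h0 : 0 ≤ x) (h1 : x ≤ 1) : p.P x y ≤ 7 * x := by
  have h2 := p.w1_le (x := x) hy
  have h3 := sx_le_mul h0
  have h4 := sx_nonneg h0 h1
  have h5 := Real.pi_lt_d2
  have h6 : sx x ≤ 3.15 * x := h3.trans (by nlinarith)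
  unfold P
  nlinarith [p.w1_ge (x := x) hy]

theorem P_le_mul' {x y : ℝ} (hy : 2 ≤ y) (h0 : 0 ≤ x) (h1 : x ≤ 1) :
    p.P x y ≤ 7 * (1 - x) := by
  have h2 := p.w1_le (x := x) hy
  have h3 := sx_le_mul' h1
  have h4 := sx_nonneg h0 h1
  have h5 := Real.pi_lt_d2
  have h6 : sx x ≤ 3.15 * (1 - x) := h3.trans (by nlinarith)
  unfold P
  nlinarith [p.w1_ge (x := x) hy]

theorem P_ge_sx {x y : ℝ} (hy : 2 ≤ y) (h0 : 0 ≤ x) (h1 : x ≤ 1) : sx x ≤ p.P x y := by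
  have := p.w1_ge (x := x) hy
  have := sx_nonneg h0 h1
  unfold P
  nlinarith

theorem abs_Px_le {x y : ℝ} (hy : 2 ≤ y) : |p.Px x y| ≤ 14 := by
  have h1 := p.A_pos hy
  have h2 := p.A_le hy
  have h3 := sx_sq_le x
  have h4 : |cx x| ≤ 1 := Real.abs_cos_le_one _
  have h5 := Real.pi_lt_d2
  have h6 : 0 ≤ 1 + 3 / 2 * p.A y * sx x ^ 2 := by positivity
  have h7 : 1 + 3 / 2 * p.A y * sx x ^ 2 ≤ 35 / 8 := by nlinarith [sq_nonneg (sx x)]
  unfold Px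
  rw [abs_mul, abs_mul, abs_of_pos Real.pi_pos, abs_of_nonneg h6]
  calc Real.pi * |cx x| * (1 + 3 / 2 * p.A y * sx x ^ 2) ≤ (3.15 * 1) * (35 / 8) := by
        refine mul_le_mul (mul_le_mul h5.le h4 (abs_nonneg _) (by norm_num)) h7 h6 (by norm_num)
    _ ≤ 14 := by norm_num

theorem Py_nonpos {x y : ℝ} (hy : 2 ≤ y) (h0 : 0 ≤ x) (h1 : x ≤ 1) : p.Py x y ≤ 0 := by
  have h2 := p.Ap_nonpos hy
  have h3 := sx_nonneg h0 h1
  have h4 : 0 ≤ sx x ^ 3 := by positivity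
  unfold Py
  nlinarith

theorem neg_Py_le {x y : ℝ} (hy : 2 ≤ y) (h0 : 0 ≤ x) (h1 : x ≤ 1) :
    -p.Py x y ≤ 4 / 1000000 := by
  have h2 := p.neg_Ap_le hy
  have h2' := p.Ap_nonpos hy
  have h3 := sx_nonneg h0 h1
  have h4 : 0 ≤ sx x ^ 3 := by positivity
  have h5 : sx x ^ 3 ≤ 1 := pow_le_one₀ h3 (sx_le_one x)
  unfold Py
  nlinarith

/-- `u Q + β P_y = Q s² (1 - s/2)` -/
theorem uQ_add (x y : ℝ) : sx x ^ 2 * p.Q y + p.bt y * p.Py x y
    = p.Q y * sx x ^ 2 * (1 - sx x / 2) := by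
  rw [p.Q_eq]; unfold Py; ring

end Prof

/-- A nonnegative function on `[a, b)` is nonnegative at `b`. -/
theorem closed_left {F : ℝ → ℝ} {a b : ℝ} (hab : a < b) (hF : ContinuousAt F b)
    (h : ∀ r ∈ Ico a b, 0 ≤ F r) : 0 ≤ F b := by
  by_contra hneg
  push Not at hneg
  have h1 : ∀ᶠ r in 𝓝[<] b, F r < 0 :=
    (hF.eventually (gt_mem_nhds hneg)).filter_mono nhdsWithin_le_nhds
  have h2 : ∀ᶠ r in 𝓝[<] b, r ∈ Ioo a b := Ioo_mem_nhdsLT hab
  obtain ⟨r, hr1, hr2⟩ := (h1.and h2).exists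
  linarith [h r ⟨hr2.1.le, hr2.2⟩]

namespace Orb

variable {p : Prof} {x y q η : ℝ → ℝ}

theorem abs_auq_le {t : ℝ} (h : 2 ≤ y t) (h0 : 0 < x t) (h1 : x t < 1)
    (hq : |q t| ≤ p.P (x t) (y t)) :
    |p.a (y t) * sx (x t) ^ 2 * q t| ≤ 1 / 1000 * p.bt (y t) := by
  have h2 := p.a_pos h
  have h3 := p.a_le_bt h
  have h4 := p.P_le h h0.le h1.le
  have h5 := Prof.sx_sq_le (x t)
  have h6 := p.bt_pos h
  rw [abs_mul, abs_mul, abs_of_pos h2, abs_of_nonneg (sq_nonneg _)]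
  calc p.a (y t) * sx (x t) ^ 2 * |q t| ≤ (226 / 1000000 * p.bt (y t) * 1) * (17 / 8) := by
        refine mul_le_mul (mul_le_mul h3 h5 (sq_nonneg _) (by positivity)) (hq.trans h4)
          (abs_nonneg _) (by positivity)
    _ ≤ _ := by nlinarith

/-- Local bounds to the right of a good time. -/
theorem near (o : Orb p x y q η) {t : ℝ} (h : 2 ≤ y t) (h0 : 0 < x t) (h1 : x t < 1)
    (hη : p.bt (y t) ≤ η t) (hq : |q t| ≤ p.P (x t) (y t)) :
    ∃ d > 0, ∃ e > 0, ∃ M > 0, ∀ r ∈ Icc t (t + d), 2 ≤ y r ∧ (t < r → 2 < y r) ∧ 0 < x r ∧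
      x r < 1 ∧ 0 < η r ∧
      e ≤ p.E (x r) (y r) ∧ |Up p x y q r| ≤ M ∧ |Um p x y q r| ≤ M := by
  have hb := p.bt_pos h
  have hη0 : 0 < η t := hb.trans_le hη
  have hE := p.E_pos (x t) h
  have hyp : 0 < (η t + p.a (y t) * sx (x t) ^ 2 * q t) / p.E (x t) (y t) := by
    have := (abs_le.1 (abs_auq_le h h0 h1 hq)).1
    exact div_pos (by linarith) hE
  have e1 : ∀ᶠ r in 𝓝[>] t, y t < y r := by
    have h1 := hasDerivAt_iff_tendsto_slope.1 (o.dy t h)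
    have h2 : ∀ᶠ r in 𝓝[≠] t, 0 < slope y t r := h1.eventually (lt_mem_nhds hyp)
    have h3 : ∀ᶠ r in 𝓝[>] t, 0 < slope y t r :=
      h2.filter_mono (nhdsWithin_mono _ fun r hr => ne_of_gt hr)
    filter_upwards [h3, self_mem_nhdsWithin] with r hr hr'
    rw [slope_def_field] at hr
    have h4 : 0 < r - t := sub_pos.2 hr'
    have h5 := mul_pos hr h4
    rw [div_mul_cancel₀ _ h4.ne'] at h5
    linarith
  have e2 : ∀ᶠ r in 𝓝 t, 0 < x r := o.cx.continuousAt.eventually (lt_mem_nhds h0)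
  have e3 : ∀ᶠ r in 𝓝 t, x r < 1 := o.cx.continuousAt.eventually (gt_mem_nhds h1)
  have e4 : ∀ᶠ r in 𝓝 t, 0 < η r := o.cη.continuousAt.eventually (lt_mem_nhds hη0)
  have hen := o.en t h
  have hs : Continuous fun r => q r ^ 2 + η r ^ 2 := (o.cq.pow 2).add (o.cη.pow 2)
  have e5 : ∀ᶠ r in 𝓝 t, p.E (x t) (y t) / 2 < q r ^ 2 + η r ^ 2 :=
    hs.continuousAt.eventually (lt_mem_nhds (by
      show p.E (x t) (y t) / 2 < q t ^ 2 + η t ^ 2
      rw [hen]; linarith))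
  have e6 : ∀ᶠ r in 𝓝 t, |q r| < |q t| + 1 :=
    o.cq.abs.continuousAt.eventually (gt_mem_nhds (by linarith))
  have e7 : ∀ᶠ r in 𝓝[>] t, y t < y r ∧ 0 < x r ∧ x r < 1 ∧ 0 < η r ∧
      p.E (x t) (y t) / 2 < q r ^ 2 + η r ^ 2 ∧ |q r| < |q t| + 1 := by
    filter_upwards [e1, e2.filter_mono nhdsWithin_le_nhds, e3.filter_mono nhdsWithin_le_nhds,
      e4.filter_mono nhdsWithin_le_nhds, e5.filter_mono nhdsWithin_le_nhds,
      e6.filter_mono nhdsWithin_le_nhds] with r a1 a2 a3 a4 a5 a6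
    exact ⟨a1, a2, a3, a4, a5, a6⟩
  obtain ⟨u, hu, hsub⟩ := mem_nhdsGT_iff_exists_Ioc_subset.1 e7
  have hu' : t < u := hu
  refine ⟨u - t, by linarith, p.E (x t) (y t) / 2, by linarith, |q t| + 4, by positivity,
    fun r hr => ?_⟩
  rcases eq_or_lt_of_le hr.1 with hr0 | hr0
  · subst hr0
    have hP := p.P_le h h0.le h1.le
    have hP0 := p.P_nonneg h h0.le h1.le
    refine ⟨h, fun hh => absurd hh (lt_irrefl _), h0, h1, hη0, by linarith, ?_, ?_⟩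
    · unfold Up
      rw [abs_le]; constructor <;> linarith [abs_nonneg (q t), neg_abs_le (q t), le_abs_self (q t)]
    · unfold Um
      rw [abs_le]; constructor <;> linarith [abs_nonneg (q t), neg_abs_le (q t), le_abs_self (q t)]
  · obtain ⟨a1, a2, a3, a4, a5, a6⟩ := hsub ⟨hr0, by linarith [hr.2]⟩
    have hyr : 2 ≤ y r := by linarith
    have hP := p.P_le hyr a2.le a3.le
    have hP0 := p.P_nonneg hyr a2.le a3.le
    refine ⟨hyr, fun _ => by linarith, a2, a3, a4, by rw [← o.en r hyr]; exact a5.le, ?_, ?_⟩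
    · unfold Up
      rw [abs_le]; constructor <;> linarith [abs_nonneg (q r), neg_abs_le (q r), le_abs_self (q r)]
    · unfold Um
      rw [abs_le]; constructor <;> linarith [abs_nonneg (q r), neg_abs_le (q r), le_abs_self (q r)]

/-- The coefficient of `U₋` in its equation. -/
noncomputable def cm (p : Prof) (x y q : ℝ → ℝ) (t : ℝ) : ℝ :=
  -p.Px (x t) (y t) - sx (x t) ^ 2 * p.ap (y t) * Up p x y q t
    - p.a (y t) * sx (x t) ^ 2 * p.Py (x t) (y t)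

/-- The coefficient of `U₊` in its equation. -/
noncomputable def cp (p : Prof) (x y q : ℝ → ℝ) (t : ℝ) : ℝ :=
  p.Px (x t) (y t) + sx (x t) ^ 2 * p.ap (y t) * Um p x y q t
    + p.a (y t) * sx (x t) ^ 2 * p.Py (x t) (y t)

theorem dUm' (o : Orb p x y q η) {t : ℝ} (h : 2 ≤ y t) : HasDerivAt (Um p x y q)
    ((cm p x y q t * Um p x y q t + (sx (x t) ^ 2 * p.Q (y t) + η t * p.Py (x t) (y t)))
      / p.E (x t) (y t)) t := by
  refine (o.dUm h).congr_deriv ?_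
  rw [o.K_eq_U h]
  unfold Prof.X cm
  congr 1
  ring

theorem dUp' (o : Orb p x y q η) {t : ℝ} (h : 2 ≤ y t) : HasDerivAt (Up p x y q)
    ((cp p x y q t * Up p x y q t - (sx (x t) ^ 2 * p.Q (y t) - η t * p.Py (x t) (y t)))
      / p.E (x t) (y t)) t := by
  refine (o.dUp h).congr_deriv ?_
  rw [o.K_eq_U h]
  unfold Prof.X cp
  congr 1
  ring

theorem abs_c_le {t M V : ℝ} (h : 2 ≤ y t) (h0 : 0 < x t) (h1 : x t < 1) (hV : |V| ≤ M) :
    |p.Px (x t) (y t) + sx (x t) ^ 2 * p.ap (y t) * V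
      + p.a (y t) * sx (x t) ^ 2 * p.Py (x t) (y t)| ≤ 15 + M := by
  have hM : 0 ≤ M := (abs_nonneg _).trans hV
  have h2 := p.abs_Px_le (x := x t) h
  have h3 := p.abs_ap_le h
  have h4 := Prof.sx_sq_le (x t)
  have h5 := p.a_le h
  have h6 := p.a_pos h
  have h7 := p.neg_Py_le h h0.le h1.le
  have h8 := p.Py_nonpos h h0.le h1.le
  have h9 : |sx (x t) ^ 2 * p.ap (y t) * V| ≤ 1 * (1 / 10000000) * M := by
    rw [abs_mul, abs_mul, abs_of_nonneg (sq_nonneg _)]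
    exact mul_le_mul (mul_le_mul h4 h3 (abs_nonneg _) (by norm_num)) hV (abs_nonneg _)
      (by norm_num)
  have h10 : |p.a (y t) * sx (x t) ^ 2 * p.Py (x t) (y t)| ≤ (226 / 10000) * 1 * (4 / 1000000) := by
    rw [abs_mul, abs_mul, abs_of_pos h6, abs_of_nonneg (sq_nonneg _), abs_of_nonpos h8]
    exact mul_le_mul (mul_le_mul h5 h4 (sq_nonneg _) (by norm_num)) h7 (by linarith)
      (by norm_num)
  have h11 := abs_add_le (p.Px (x t) (y t) + sx (x t) ^ 2 * p.ap (y t) * V)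
    (p.a (y t) * sx (x t) ^ 2 * p.Py (x t) (y t))
  have h12 := abs_add_le (p.Px (x t) (y t)) (sx (x t) ^ 2 * p.ap (y t) * V)
  linarith

theorem abs_cp_le {t M : ℝ} (h : 2 ≤ y t) (h0 : 0 < x t) (h1 : x t < 1)
    (hV : |Um p x y q t| ≤ M) : |cp p x y q t| ≤ 15 + M := abs_c_le h h0 h1 hV

theorem abs_cm_le {t M : ℝ} (h : 2 ≤ y t) (h0 : 0 < x t) (h1 : x t < 1)
    (hV : |Up p x y q t| ≤ M) : |cm p x y q t| ≤ 15 + M := by
  have := abs_c_le (p := p) h h0 h1 hV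
  have e : cm p x y q t = -(p.Px (x t) (y t) + sx (x t) ^ 2 * p.ap (y t) * Up p x y q t
      + p.a (y t) * sx (x t) ^ 2 * p.Py (x t) (y t)) := by unfold cm; ring
  rw [e, abs_neg]; exact this

/-- `U₋ ≥ 0` persists for a short time. -/
theorem um_nonneg_on (o : Orb p x y q η) {t b e M : ℝ} (he : 0 < e)
    (hg : ∀ r ∈ Icc t b, 2 ≤ y r ∧ 0 < x r ∧ x r < 1 ∧ 0 < η r ∧ e ≤ p.E (x r) (y r) ∧
      |Up p x y q r| ≤ M ∧ 0 ≤ Up p x y q r) (h0 : 0 ≤ Um p x y q t) :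
    ∀ r ∈ Icc t b, 0 ≤ Um p x y q r := by
  refine nonneg_persists (C := (15 + M) / e) (fun r hr => o.dUm' (hg r hr).1) ?_ h0
  intro r hr hneg
  obtain ⟨g1, g2, g3, g4, g5, g6, g7⟩ := hg r hr
  have hM : 0 ≤ M := (abs_nonneg _).trans g6
  have hE := p.E_pos (x r) g1
  have hc := abs_cm_le (p := p) (q := q) g1 g2 g3 g6
  have hK : η r ≤ p.bt (y r) := by
    have h1 : 0 ≤ K p y η r := by
      rw [o.K_eq_U g1]
      nlinarith
    unfold K at h1
    have := p.bt_pos g1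
    nlinarith
  have hPy := p.Py_nonpos g1 g2.le g3.le
  have hs := sx_nonneg g2.le g3.le
  have hh : 0 ≤ sx (x r) ^ 2 * p.Q (y r) + η r * p.Py (x r) (y r) := by
    have h1 := p.uQ_add (x r) (y r)
    have h2 : 0 ≤ p.Q (y r) * sx (x r) ^ 2 * (1 - sx (x r) / 2) := by
      have := p.Q_nonneg g1
      have := sx_le_one (x r)
      have : 0 ≤ 1 - sx (x r) / 2 := by linarith
      positivity
    have h3 : p.bt (y r) * p.Py (x r) (y r) ≤ η r * p.Py (x r) (y r) := by nlinarith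
    linarith
  rw [le_div_iff₀ hE, div_mul_eq_mul_div, div_mul_eq_mul_div, div_le_iff₀ he]
  have h4 : cm p x y q r * Um p x y q r ≥ (15 + M) * Um p x y q r := by
    have := (abs_le.1 hc).2
    nlinarith
  have h5 : (15 + M) * Um p x y q r * p.E (x r) (y r) ≤ (15 + M) * Um p x y q r * e := by
    have : (15 + M) * Um p x y q r ≤ 0 := by nlinarith
    nlinarith
  nlinarith

end Orb

end Pool.Agent.CyGN.Capt
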