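import Pool.Agent.CyGN.CaptD

set_option autoImplicit false

/-!
# Capture and expulsion, part E: the captured state persists while `U₊ > 0`
-/

namespace Pool.Agent.CyGN.Capt

open Set Filter Topology

/-- If `f' ≥ - C f` inside and `f a > 0`, then `f b > 0`. -/
theorem pos_of_ge {f f' : ℝ → ℝ} {a b C : ℝ} (hab : a ≤ b)
    (hf : ∀ t ∈ Icc a b, HasDerivAt f (f' t) t)
    (h : ∀ t ∈ Ioo a b, -(C * f t) ≤ f' t) (h0 : 0 < f a) : 0 < f b := by
  have hd : ∀ r ∈ Icc a b, HasDerivAt (fun r => f r * Real.exp (C * r))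
      (f' r * Real.exp (C * r) + f r * (Real.exp (C * r) * C)) r := by
    intro r hr
    have h1 : HasDerivAt (fun r : ℝ => Real.exp (C * r)) (Real.exp (C * r) * C) r := by
      have := ((hasDerivAt_id r).const_mul C).exp
      simpa using this
    exact (hf r hr).mul h1
  have := mono_of_nonneg hab hd (fun r hr => by
    have h2 := h r hr
    have h3 := Real.exp_pos (C * r)
    nlinarith)
  have h4 : 0 < f a * Real.exp (C * a) := mul_pos h0 (Real.exp_pos _)
  have h5 : 0 < f b * Real.exp (C * b) := h4.trans_le this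
  exact pos_of_mul_pos_left h5 (Real.exp_pos _).le

namespace Prof

variable (p : Prof)

theorem Y_mono {y y' : ℝ} (hy : 2 ≤ y) (h : y ≤ y') : p.Y y ≤ p.Y y' := by
  rw [p.Y_eq y hy, p.Y_eq y' (hy.trans h)]; linarith

theorem bt_anti {y y' : ℝ} (hy : 2 ≤ y) (h : y ≤ y') : p.bt y' ≤ p.bt y := by
  unfold bt
  exact div_le_div_of_nonneg_left (by norm_num) (p.Y_pos hy) (p.Y_mono hy h)

theorem E_ge (x : ℝ) {y : ℝ} : p.bt y ^ 2 ≤ p.E x y := by
  unfold E; nlinarith [sq_nonneg (p.P x y)]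

end Prof

namespace Orb

variable {p : Prof} {x y q η : ℝ → ℝ}

/-- The captured state. -/
structure Good (p : Prof) (x y q η : ℝ → ℝ) (t : ℝ) : Prop where
  hy : 2 ≤ y t
  x0 : 0 < x t
  x1 : x t < 1
  um : 0 ≤ Um p x y q t
  up : 0 ≤ Up p x y q t
  eta : p.bt (y t) ≤ η t

namespace Good

variable {t : ℝ}

theorem q_le (g : Good p x y q η t) : q t ≤ p.P (x t) (y t) := by
  have := g.um; unfold Um at this; linarith

theorem q_ge (g : Good p x y q η t) : -p.P (x t) (y t) ≤ q t := by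
  have := g.up; unfold Up at this; linarith

theorem abs_q_le (g : Good p x y q η t) : |q t| ≤ p.P (x t) (y t) :=
  abs_le.2 ⟨g.q_ge, g.q_le⟩

theorem P_pos (g : Good p x y q η t) : 0 < p.P (x t) (y t) := p.P_pos g.hy g.x0 g.x1

theorem bt_pos (g : Good p x y q η t) : 0 < p.bt (y t) := p.bt_pos g.hy

theorem eta_pos (g : Good p x y q η t) : 0 < η t := g.bt_pos.trans_le g.eta

theorem E_pos (g : Good p x y q η t) : 0 < p.E (x t) (y t) := p.E_pos _ g.hy

theorem K_nonpos (g : Good p x y q η t) : K p y η t ≤ 0 := by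
  have h1 := g.eta
  have h2 := g.bt_pos
  unfold K; nlinarith

end Good

/-- The captured state is closed from the left. -/
theorem good_closed (o : Orb p x y q η) {a b : ℝ} (hab : a < b)
    (h : ∀ r ∈ Ico a b, Good p x y q η r) : Good p x y q η b := by
  have hyb : 2 ≤ y b := by
    have := closed_left (F := fun r => y r - 2) hab (o.cy.sub continuous_const).continuousAt
      (fun r hr => by have := (h r hr).hy; show 0 ≤ y r - 2; linarith)
    linarith
  have hI : ∀ r ∈ Icc a b, 2 ≤ y r := by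
    intro r hr
    rcases lt_or_eq_of_le hr.2 with h1 | h1
    · exact (h r ⟨hr.1, h1⟩).hy
    · rw [h1]; exact hyb
  obtain ⟨M, hM⟩ := (isCompact_Icc (a := a) (b := b)).bddAbove_image o.cy.continuousOn
  have hM' : ∀ r ∈ Icc a b, y r ≤ M := fun r hr => hM (mem_image_of_mem _ hr)
  have hM2 : 2 ≤ M := hyb.trans (hM' b ⟨hab.le, le_rfl⟩)
  have he : 0 < p.bt M ^ 2 := pow_pos (p.bt_pos hM2) 2
  have hE : ∀ r ∈ Icc a b, p.bt M ^ 2 ≤ p.E (x r) (y r) := by
    intro r hr
    have h1 := p.bt_anti (hI r hr) (hM' r hr)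
    have h2 := p.bt_pos hM2
    exact (pow_le_pow_left₀ h2.le h1 2).trans (p.E_ge _)
  have ha := h a ⟨le_rfl, hab⟩
  have hx0 : 0 < x b := by
    refine pos_of_ge (C := 7 / p.bt M ^ 2) hab.le (fun r hr => o.dx r (hI r hr)) ?_ ha.x0
    intro r hr
    have g := h r ⟨hr.1.le, hr.2⟩
    have h1 := hE r ⟨hr.1.le, hr.2.le⟩
    have h2 := g.q_ge
    have h3 := p.P_le_mul g.hy g.x0.le g.x1.le
    have h4 := g.x0
    rw [div_mul_eq_mul_div, ← neg_div, div_le_div_iff₀ he g.E_pos]
    have h5 : 0 ≤ 7 * x r := by linarith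
    nlinarith [mul_le_mul_of_nonneg_left h1 h5]
  have hx1 : 0 < 1 - x b := by
    refine pos_of_ge (f := fun r => 1 - x r) (f' := fun r => -(q r / p.E (x r) (y r)))
      (C := 7 / p.bt M ^ 2) hab.le (fun r hr => (o.dx r (hI r hr)).const_sub 1) ?_
      (by show 0 < 1 - x a; linarith [ha.x1])
    intro r hr
    have g := h r ⟨hr.1.le, hr.2⟩
    have h1 := hE r ⟨hr.1.le, hr.2.le⟩
    have h2 := g.q_le
    have h3 := p.P_le_mul' g.hy g.x0.le g.x1.le
    have h4 := g.x1
    show -(7 / p.bt M ^ 2 * (1 - x r)) ≤ -(q r / p.E (x r) (y r))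
    rw [neg_le_neg_iff, div_mul_eq_mul_div, div_le_div_iff₀ g.E_pos he]
    have h5 : 0 ≤ 7 * (1 - x r) := by linarith
    nlinarith [mul_le_mul_of_nonneg_left h1 h5]
  refine ⟨hyb, hx0, by linarith, ?_, ?_, ?_⟩
  · exact closed_left hab (o.dUm hyb).continuousAt (fun r hr => (h r hr).um)
  · exact closed_left hab (o.dUp hyb).continuousAt (fun r hr => (h r hr).up)
  · have hc : ContinuousAt (fun r => η r - p.bt (y r)) b :=
      o.cη.continuousAt.sub (((p.dbt hyb).comp b (o.dy b hyb)).continuousAt)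
    have := closed_left hab hc (fun r hr => by
      have := (h r hr).eta
      show 0 ≤ η r - p.bt (y r)
      linarith)
    simpa using this

/-- The captured state persists as long as `U₊ > 0`. -/
theorem good_on (o : Orb p x y q η) {a T : ℝ} (haT : a ≤ T) (h0 : Good p x y q η a)
    (hUp : ∀ r ∈ Ico a T, 0 < Up p x y q r) : ∀ r ∈ Icc a T, Good p x y q η r := by
  let B : Set ℝ := {r | r ∈ Icc a T ∧ ∀ u ∈ Icc a r, Good p x y q η u}
  have hBa : a ∈ B := ⟨⟨le_rfl, haT⟩, fun u hu => by rw [le_antisymm hu.2 hu.1]; exact h0⟩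
  have hBb : BddAbove B := ⟨T, fun r hr => hr.1.2⟩
  have ham : a ≤ sSup B := le_csSup hBb hBa
  have hmT : sSup B ≤ T := csSup_le ⟨a, hBa⟩ fun r hr => hr.1.2
  have hlt : ∀ u ∈ Ico a (sSup B), Good p x y q η u := by
    intro u hu
    obtain ⟨r, hr, hur⟩ := exists_lt_of_lt_csSup ⟨a, hBa⟩ hu.2
    exact hr.2 u ⟨hu.1, hur.le⟩
  have hm : Good p x y q η (sSup B) := by
    rcases eq_or_lt_of_le ham with h1 | h1
    · rw [← h1]; exact h0
    · exact o.good_closed h1 hlt
  have hall : ∀ u ∈ Icc a (sSup B), Good p x y q η u := by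
    intro u hu
    rcases lt_or_eq_of_le hu.2 with h1 | h1
    · exact hlt u ⟨hu.1, h1⟩
    · rw [h1]; exact hm
  rcases lt_or_eq_of_le hmT with h | h
  swap
  · rw [h] at hall; exact hall
  exfalso
  obtain ⟨d, hd, e, he, M, hM, hn⟩ := o.near hm.hy hm.x0 hm.x1 hm.eta hm.abs_q_le
  set m := sSup B with hmdef
  set b := min (m + d) ((m + T) / 2) with hb
  have hb1 : b ≤ m + d := min_le_left _ _
  have hb2 : b ≤ (m + T) / 2 := min_le_right _ _
  have hb3 : m < b := lt_min (by linarith) (by linarith)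
  have hbT : b < T := by linarith
  have hum := o.um_nonneg_on (t := m) (b := b) he (M := M) (fun r hr => by
    obtain ⟨n1, n2, n3, n4, n5, n6, n7, n8⟩ := hn r ⟨hr.1, hr.2.trans hb1⟩
    exact ⟨n1, n3, n4, n5, n6, n7, (hUp r ⟨ham.trans hr.1, hr.2.trans_lt hbT⟩).le⟩) hm.um
  have hbB : b ∈ B := by
    refine ⟨⟨ham.trans hb3.le, hbT.le⟩, fun u hu => ?_⟩
    rcases le_or_gt u m with h1 | h1
    · exact hall u ⟨hu.1, h1⟩
    · obtain ⟨n1, n2, n3, n4, n5, n6, n7, n8⟩ := hn u ⟨h1.le, hu.2.trans hb1⟩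
      have hup := hUp u ⟨hu.1, hu.2.trans_lt hbT⟩
      have hu' := hum u ⟨h1.le, hu.2⟩
      refine ⟨n1, n3, n4, hu', hup.le, ?_⟩
      have hK : K p y η u ≤ 0 := by
        rw [o.K_eq_U n1]
        have := mul_nonneg hup.le hu'
        linarith
      unfold K at hK
      exact (sq_le_sq₀ (p.bt_pos n1).le n5.le).1 (by linarith)
  have := le_csSup hBb hbB
  linarith

end Orb

end Pool.Agent.CyGN.Capt
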