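import Pool.Agent.CyGN.FunB

set_option autoImplicit false

/-!
# Ranges of the functions for `y ≥ 2`, and the inequality `E_y + |b_y| E < 0`
-/

namespace Pool.Agent.CyGN

open Set Filter Topology
open scoped ContDiff

/-! ### Powers of `Y` and `Z` -/

/-- `a = A / β`. -/
noncomputable def aa (y : ℝ) : ℝ := AA y / beta y

/-- The derivative of `a`. -/
noncomputable def aa' (y : ℝ) : ℝ := (AA' y * beta y - AA y * beta' y) / beta y ^ 2

/-- `Q = - β A'`. -/
noncomputable def QQ (y : ℝ) : ℝ := -(beta y * AA' y)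

/-- `(10⁶ + 2)³ A0 / 10²⁴`. -/
noncomputable def epsA : ℝ := A0 * (10 ^ 6 + 2) ^ 3 / 10 ^ 24

/-- `3 A0 (10⁶ + 2)³ 10⁸`. -/
noncomputable def qs : ℝ := 3 * A0 * (10 ^ 6 + 2) ^ 3 * 10 ^ 8

theorem epsA_pos : 0 < epsA := by unfold epsA; have := A0_pos; positivity

theorem epsA_le : epsA ≤ 2.26e-6 := by
  unfold epsA
  have := A0_le
  rw [div_le_iff₀ (by positivity)]
  norm_num
  linarith

theorem qs_ge : 6e26 ≤ qs := by
  unfold qs
  have := two_le_A0
  norm_num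
  linarith

theorem qs_pos : 0 < qs := lt_of_lt_of_le (by norm_num) qs_ge

theorem qs_le : qs ≤ 6.76e26 := by
  unfold qs
  have := A0_le
  norm_num
  linarith

theorem aa_pos (y : ℝ) : 0 < aa y := div_pos (AA_pos y) (beta_pos y)

theorem aa_hasDerivAt (y : ℝ) : HasDerivAt aa (aa' y) y :=
  (AA_hasDerivAt y).div (beta_hasDerivAt y) (beta_pos y).ne'

theorem aa_smooth : ContDiff ℝ ∞ aa := AA_smooth.div beta_smooth fun y => (beta_pos y).ne'

/-- For `y ≥ 1`: `a' = a (1/Y - 3 Z'/Z)`. -/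
theorem aa'_eq {y : ℝ} (hy : 1 ≤ y) : aa' y = aa y * (1 / YY y - 3 * st (y - 2) / ZZ y) := by
  unfold aa' aa
  rw [beta'_eq hy]
  unfold AA'
  have h1 := (beta_pos y).ne'
  have h2 := (YY_pos y).ne'
  have h3 := (ZZ_pos y).ne'
  field_simp
  ring

theorem three_st_div_le (y : ℝ) : 3 * st (y - 2) / ZZ y ≤ 3 / YY y := by
  have h1 := YY_pos y
  have h2 := YY_le_ZZ y
  have h3 := st_le_one (y - 2)
  have h4 := st_nonneg (y - 2)
  rw [div_le_div_iff₀ (ZZ_pos y) h1]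
  nlinarith

theorem three_st_div_nonneg (y : ℝ) : 0 ≤ 3 * st (y - 2) / ZZ y := by
  have h2 := ZZ_pos y
  have h4 := st_nonneg (y - 2)
  positivity

theorem aa'_le {y : ℝ} (hy : 1 ≤ y) : aa' y ≤ aa y / YY y := by
  rw [aa'_eq hy, div_eq_mul_one_div (aa y)]
  apply mul_le_mul_of_nonneg_left _ (aa_pos y).le
  have := three_st_div_nonneg y
  linarith

theorem aa'_ge {y : ℝ} (hy : 1 ≤ y) : -(2 * aa y / YY y) ≤ aa' y := by
  rw [aa'_eq hy]
  have h := three_st_div_le y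
  have h1 := aa_pos y
  have e : -(2 * aa y / YY y) = aa y * (1 / YY y - 3 / YY y) := by
    have := (YY_pos y).ne'
    field_simp
    ring
  rw [e]
  apply mul_le_mul_of_nonneg_left _ h1.le
  linarith

theorem abs_aa'_le {y : ℝ} (hy : 1 ≤ y) : |aa' y| ≤ 2 * aa y / YY y := by
  rw [abs_le]
  refine ⟨aa'_ge hy, (aa'_le hy).trans ?_⟩
  have h1 := aa_pos y
  have h2 := YY_pos y
  apply div_le_div_of_nonneg_right _ h2.le
  linarith

theorem aa'_eq_of_three_le {y : ℝ} (hy : 3 ≤ y) : aa' y = -(2 * aa y / YY y) := by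
  rw [aa'_eq (by linarith), st_one (by linarith), ← YY_eq_ZZ hy]
  have := (YY_pos y).ne'
  field_simp
  ring

theorem aa'_nonpos {y : ℝ} (hy : 3 ≤ y) : aa' y ≤ 0 := by
  rw [aa'_eq_of_three_le hy]
  have h1 := aa_pos y
  have h2 := YY_pos y
  have : 0 ≤ 2 * aa y / YY y := by positivity
  linarith

theorem AA_le_epsA {y : ℝ} (hy : 1 ≤ y) : AA y ≤ epsA * beta y ^ 3 := by
  rw [beta_eq hy]
  unfold AA epsA
  have h1 := YY_pos y
  have h2 := YY_le_ZZ y
  have h3 := A0_pos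
  have e : A0 * (10 ^ 6 + 2) ^ 3 / 10 ^ 24 * (10 ^ 8 / YY y) ^ 3
      = A0 * ((10 ^ 6 + 2) / YY y) ^ 3 := by
    field_simp
  rw [e]
  apply mul_le_mul_of_nonneg_left _ h3.le
  apply pow_le_pow_left₀ (by have := ZZ_pos y; positivity)
  exact div_le_div_of_nonneg_left (by norm_num) h1 h2

theorem AA_le_beta {y : ℝ} (hy : 1 ≤ y) : AA y ≤ 2.26e-6 * beta y ^ 3 := by
  refine (AA_le_epsA hy).trans ?_
  have := beta_pos y
  exact mul_le_mul_of_nonneg_right epsA_le (by positivity)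

theorem aa_le_beta {y : ℝ} (hy : 1 ≤ y) : aa y ≤ 2.26e-6 * beta y ^ 2 := by
  unfold aa
  rw [div_le_iff₀ (beta_pos y)]
  have := AA_le_beta hy
  linarith

theorem aa_le {y : ℝ} (hy : 1 ≤ y) : aa y ≤ 0.0226 := by
  have h1 := aa_le_beta hy
  have h2 := beta_le hy
  have h3 := beta_pos y
  have h4 : beta y ^ 2 ≤ 100 ^ 2 := pow_le_pow_left₀ h3.le h2 2
  norm_num at h1 h4 ⊢
  linarith

theorem abs_PP_le (x y : ℝ) : |PP AA x y| ≤ 17 / 8 * |sn x| := by
  rw [PP_eq]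
  have h1 := AA_pos y
  have h2 := AA_le' y
  have h3 := uu_nonneg x
  have h4 := uu_le_one x
  rw [abs_mul, mul_comm]
  apply mul_le_mul_of_nonneg_right _ (abs_nonneg _)
  rw [abs_of_nonneg (by positivity)]
  nlinarith

theorem abs_sn_le_abs_PP (x y : ℝ) : |sn x| ≤ |PP AA x y| := by
  rw [PP_eq]
  have h1 := AA_pos y
  have h3 := uu_nonneg x
  rw [abs_mul]
  have h5 : 1 ≤ |1 + AA y / 2 * uu x| := by
    rw [abs_of_nonneg (by positivity)]
    have : 0 ≤ AA y / 2 * uu x := by positivity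
    linarith
  have := abs_nonneg (sn x)
  nlinarith

theorem PP_sq_le (x y : ℝ) : PP AA x y ^ 2 ≤ 4.6 := by
  have h1 := abs_PP_le x y
  have h2 := abs_sn_le_one x
  have h3 : |PP AA x y| ≤ 17 / 8 := by linarith
  rw [abs_le] at h3
  norm_num
  nlinarith [h3.1, h3.2]

theorem AA_mul_le {y : ℝ} (x : ℝ) (hy : 1 ≤ y) :
    AA y * (beta y ^ 2 + PP AA x y ^ 2) ≤ 0.0227 * beta y ^ 3 := by
  have h1 := AA_le_beta hy
  have h2 := beta_le hy
  have h3 := beta_pos y
  have h4 : beta y ^ 2 ≤ 100 ^ 2 := pow_le_pow_left₀ h3.le h2 2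
  have h5 := PP_sq_le x y
  have h6 : 0 ≤ PP AA x y ^ 2 := sq_nonneg _
  have h7 : beta y ^ 2 + PP AA x y ^ 2 ≤ 10004.6 := by norm_num at h4 h5 ⊢; linarith
  have h8 : 0 ≤ beta y ^ 2 + PP AA x y ^ 2 := by positivity
  have h9 : 0 ≤ beta y ^ 3 := by positivity
  calc AA y * (beta y ^ 2 + PP AA x y ^ 2) ≤ (2.26e-6 * beta y ^ 3) * 10004.6 :=
        mul_le_mul h1 h7 h8 (by positivity)
    _ ≤ 0.0227 * beta y ^ 3 := by norm_num; linarith

/-! ### `Q` -/

theorem QQ_eq (y : ℝ) : QQ y = 3 * AA y * beta y * st (y - 2) / ZZ y := by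
  unfold QQ AA'; ring

theorem QQ_nonneg (y : ℝ) : 0 ≤ QQ y := by
  rw [QQ_eq]
  have := AA_pos y
  have := beta_pos y
  have := st_nonneg (y - 2)
  have := ZZ_pos y
  positivity

theorem QQ_pos {y : ℝ} (hy : 2 < y) : 0 < QQ y := by
  rw [QQ_eq]
  have := AA_pos y
  have := beta_pos y
  have := st_pos (x := y - 2) (by linarith)
  have := ZZ_pos y
  positivity

theorem QQ_zero {y : ℝ} (hy : y ≤ 2) : QQ y = 0 := by
  unfold QQ; rw [AA'_zero hy]; simp

theorem QQ_smooth : ContDiff ℝ ∞ QQ := (beta_smooth.mul AA'_smooth).neg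

theorem QQ_hasDerivAt (y : ℝ) : HasDerivAt QQ (deriv QQ y) y :=
  (QQ_smooth.differentiable (by simp) y).hasDerivAt

theorem QQ_le {y : ℝ} (hy : 1 ≤ y) : QQ y ≤ 7e-4 := by
  rw [QQ_eq, div_le_iff₀ (ZZ_pos y)]
  have h1 := AA_pos y
  have h2 := AA_le' y
  have h3 := beta_pos y
  have h4 := beta_le hy
  have h5 := st_nonneg (y - 2)
  have h6 := st_le_one (y - 2)
  have h7 := ZZ_ge y
  have h8 : AA y * beta y ≤ 9 / 4 * 100 := mul_le_mul h2 h4 h3.le (by norm_num)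
  have h9 : AA y * beta y * st (y - 2) ≤ 9 / 4 * 100 * 1 :=
    mul_le_mul h8 h6 h5 (by norm_num)
  norm_num at h7 h9 ⊢
  linarith

/-- `Y⁵ Q = qs st(y-2) (Y/Z)⁴`. -/
theorem YQ_eq {y : ℝ} (hy : 1 ≤ y) : YY y ^ 5 * QQ y = qs * (st (y - 2) * (YY y / ZZ y) ^ 4) := by
  rw [QQ_eq, beta_eq hy]
  unfold AA qs
  have h2 := (YY_pos y).ne'
  have h3 := (ZZ_pos y).ne'
  field_simp

theorem QQ_eq_of_three_le {y : ℝ} (hy : 3 ≤ y) : QQ y = qs / YY y ^ 5 := by
  have h := YQ_eq (y := y) (by linarith)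
  rw [st_one (by linarith), ← YY_eq_ZZ hy, div_self (YY_pos y).ne'] at h
  rw [eq_div_iff (pow_pos (YY_pos y) 5).ne']
  linarith

theorem ratio_mono : Monotone fun y => YY y / ZZ y := by
  apply monotone_of_hasDerivAt_nonneg (f' := fun y => (st y * ZZ y - YY y * st (y - 2)) / ZZ y ^ 2)
  · intro y
    exact (YY_hasDerivAt y).div (ZZ_hasDerivAt y) (ZZ_pos y).ne'
  · intro y
    have h1 := st_mono (show y - 2 ≤ y by linarith)
    have h2 := YY_le_ZZ y
    have h3 := YY_pos y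
    have h4 := st_nonneg (y - 2)
    have h5 := ZZ_pos y
    simp only [Pi.zero_apply]
    apply div_nonneg _ (by positivity)
    nlinarith

/-- `Y⁵ Q` is nondecreasing for `y ≥ 1`. -/
theorem YQ_mono {y z : ℝ} (hy : 1 ≤ y) (hz : y ≤ z) : YY y ^ 5 * QQ y ≤ YY z ^ 5 * QQ z := by
  rw [YQ_eq hy, YQ_eq (hy.trans hz)]
  apply mul_le_mul_of_nonneg_left _ qs_pos.le
  apply mul_le_mul (st_mono (by linarith)) _ (by have := YY_pos y; have := ZZ_pos y; positivity)
    (st_nonneg _)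
  apply pow_le_pow_left₀ (by have := YY_pos y; have := ZZ_pos y; positivity)
  exact ratio_mono hz

/-- `Q' ≥ - 5 Q / Y`. -/
theorem QQ'_ge (y : ℝ) : -(5 * QQ y / YY y) ≤ deriv QQ y := by
  rcases le_or_gt y 2 with h | h
  · -- here `Q = 0` and `Q` is minimal
    have h0 : deriv QQ y = 0 := by
      have hmin : IsLocalMin QQ y := by
        apply Filter.Eventually.of_forall
        intro z
        rw [QQ_zero h]; exact QQ_nonneg z
      exact hmin.deriv_eq_zero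
    rw [h0, QQ_zero h]; simp
  · -- the function `Y⁵ Q` is nondecreasing on `[1, ∞)`
    have hd : HasDerivAt (fun z => YY z ^ 5 * QQ z)
        (5 * YY y ^ 4 * st y * QQ y + YY y ^ 5 * deriv QQ y) y := by
      have := ((YY_hasDerivAt y).pow 5).mul (QQ_hasDerivAt y)
      refine this.congr_deriv ?_
      show ((5 : ℕ) : ℝ) * YY y ^ 4 * st y * QQ y + YY y ^ 5 * deriv QQ y = _
      push_cast
      ring
    have hn : 0 ≤ 5 * YY y ^ 4 * st y * QQ y + YY y ^ 5 * deriv QQ y := by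
      have hmon : MonotoneOn (fun z => YY z ^ 5 * QQ z) (Ioi 1) := fun a ha b _ hab =>
        YQ_mono (le_of_lt ha) hab
      have hdw := hd.hasDerivWithinAt (s := Ioi 1)
      have := hmon.derivWithin_nonneg (x := y)
      rw [hdw.derivWithin (isOpen_Ioi.uniqueDiffWithinAt (by simp; linarith))] at this
      exact this
    rw [st_one (by linarith)] at hn
    have hY := YY_pos y
    have h4 : 0 < YY y ^ 4 := by positivity
    have h5 : 0 ≤ YY y ^ 4 * (5 * QQ y + YY y * deriv QQ y) := by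
      have e : YY y ^ 4 * (5 * QQ y + YY y * deriv QQ y)
        = 5 * YY y ^ 4 * 1 * QQ y + YY y ^ 5 * deriv QQ y := by ring
      rw [e]; exact hn
    have h6 : 0 ≤ 5 * QQ y + YY y * deriv QQ y := by
      by_contra hc
      have := mul_neg_of_pos_of_neg h4 (not_le.1 hc)
      linarith
    rw [neg_le_iff_add_nonneg, ← mul_le_mul_iff_right₀ hY]
    have e : YY y * (deriv QQ y + 5 * QQ y / YY y) = 5 * QQ y + YY y * deriv QQ y := by
      field_simp
      ring
    rw [e, mul_zero]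
    exact h6

end Pool.Agent.CyGN
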