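import Pool.Agent.CyG.FlowEx

set_option autoImplicit false

/-!
# The metrics `E (dx² + (dy - b dx)²)` and their geodesics in Hamiltonian form

For a unit speed geodesic `(x(s), y(s))` put `q = E x'` and `η = E (y' - b x')`.  Then
`q² + η² = E`, `x' = q / E`, `y' = (η + b q) / E`, `q' = (E_x + b E_y) / (2E) + b_y η² / E` and
`η' = E_y / (2E) - b_y q η / E`.
-/

namespace Pool.Agent.CyGN

open Pool.Agent.CyG Set Filter Topology
open scoped ContDiff

theorem hasDerivAt_dx {f : ℝ × ℝ → ℝ} (hf : ContDiff ℝ ∞ f) (x y : ℝ) :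
    HasDerivAt (fun a => f (a, y)) (dx f (x, y)) x := by
  have h := hasDerivAt_comp_curve hf (hasDerivAt_id x) (hasDerivAt_const x y)
  simpa using h

theorem hasDerivAt_dt {f : ℝ × ℝ → ℝ} (hf : ContDiff ℝ ∞ f) (x y : ℝ) :
    HasDerivAt (fun a => f (x, a)) (dt f (x, y)) y := by
  have h := hasDerivAt_comp_curve hf (hasDerivAt_const y x) (hasDerivAt_id y)
  simpa using h

/-- The data of a metric `E (dx² + (dy - b dx)²)` on the cylinder `(ℝ/ℤ) × ℝ`. -/
structure EB where
  /-- the conformal factor -/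
  E : ℝ × ℝ → ℝ
  /-- the slope -/
  b : ℝ × ℝ → ℝ
  smooth_E : ContDiff ℝ ∞ E
  smooth_b : ContDiff ℝ ∞ b
  per_E : ∀ x t, E (x + 1, t) = E (x, t)
  per_b : ∀ x t, b (x + 1, t) = b (x, t)
  pos_E : ∀ p, 0 < E p

/-- The metric `E (dx² + (dy - b dx)²)`. -/
def EB.metric (m : EB) : CylMetric where
  E p := m.E p * (1 + m.b p ^ 2)
  F p := -(m.E p * m.b p)
  G p := m.E p
  smooth_E := m.smooth_E.mul (contDiff_const.add (m.smooth_b.pow 2))
  smooth_F := (m.smooth_E.mul m.smooth_b).neg
  smooth_G := m.smooth_E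
  per_E x t := by simp only [m.per_E, m.per_b]
  per_F x t := by simp only [m.per_E, m.per_b]
  per_G x t := m.per_E x t
  pos_E p := mul_pos (m.pos_E p) (by positivity)
  pos_det p := by
    have h := m.pos_E p
    have e : m.E p * (1 + m.b p ^ 2) * m.E p - (-(m.E p * m.b p)) ^ 2 = m.E p ^ 2 := by ring
    rw [e]
    positivity

namespace EB

variable {m : EB}

/-- A unit speed geodesic in the variables `(x, y, q, η)`. -/
structure Orbit (m : EB) (x y q η : ℝ → ℝ) : Prop where
  dx : ∀ s, HasDerivAt x (q s / m.E (x s, y s)) s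
  dy : ∀ s, HasDerivAt y ((η s + m.b (x s, y s) * q s) / m.E (x s, y s)) s
  dq : ∀ s, HasDerivAt q ((CyG.dx m.E (x s, y s) + m.b (x s, y s) * CyG.dt m.E (x s, y s))
    / (2 * m.E (x s, y s)) + CyG.dt m.b (x s, y s) * η s ^ 2 / m.E (x s, y s)) s
  dη : ∀ s, HasDerivAt η (CyG.dt m.E (x s, y s) / (2 * m.E (x s, y s))
    - CyG.dt m.b (x s, y s) * q s * η s / m.E (x s, y s)) s
  en : ∀ s, q s ^ 2 + η s ^ 2 = m.E (x s, y s)

theorem dx_E (m : EB) (x y : ℝ) : CyG.dx m.metric.E (x, y) =
    CyG.dx m.E (x, y) * (1 + m.b (x, y) ^ 2)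
      + 2 * m.E (x, y) * m.b (x, y) * CyG.dx m.b (x, y) := by
  have h1 := hasDerivAt_dx m.smooth_E x y
  have h2 := hasDerivAt_dx m.smooth_b x y
  have h := h1.mul ((h2.pow 2).const_add 1)
  have e : CyG.dx m.metric.E (x, y) = _ := h.deriv
  rw [e]
  simp
  ring

theorem dt_E (m : EB) (x y : ℝ) : CyG.dt m.metric.E (x, y) =
    CyG.dt m.E (x, y) * (1 + m.b (x, y) ^ 2)
      + 2 * m.E (x, y) * m.b (x, y) * CyG.dt m.b (x, y) := by
  have h1 := hasDerivAt_dt m.smooth_E x y
  have h2 := hasDerivAt_dt m.smooth_b x y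
  have h := h1.mul ((h2.pow 2).const_add 1)
  have e : CyG.dt m.metric.E (x, y) = _ := h.deriv
  rw [e]
  simp
  ring

theorem dx_F (m : EB) (x y : ℝ) : CyG.dx m.metric.F (x, y) =
    -(CyG.dx m.E (x, y) * m.b (x, y) + m.E (x, y) * CyG.dx m.b (x, y)) := by
  have h1 := hasDerivAt_dx m.smooth_E x y
  have h2 := hasDerivAt_dx m.smooth_b x y
  exact (h1.mul h2).neg.deriv

theorem dt_F (m : EB) (x y : ℝ) : CyG.dt m.metric.F (x, y) =
    -(CyG.dt m.E (x, y) * m.b (x, y) + m.E (x, y) * CyG.dt m.b (x, y)) := by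
  have h1 := hasDerivAt_dt m.smooth_E x y
  have h2 := hasDerivAt_dt m.smooth_b x y
  exact (h1.mul h2).neg.deriv

theorem dx_G (m : EB) (x y : ℝ) : CyG.dx m.metric.G (x, y) = CyG.dx m.E (x, y) := rfl

theorem dt_G (m : EB) (x y : ℝ) : CyG.dt m.metric.G (x, y) = CyG.dt m.E (x, y) := rfl

/-- A geodesic line is a unit speed orbit. -/
theorem exists_orbit {c : ℝ → AddCircle (1 : ℝ) × ℝ} (hc : m.metric.IsLine c) :
    ∃ x y q η : ℝ → ℝ, Orbit m x y q η ∧ ∀ s, c s = ((x s : AddCircle (1 : ℝ)), y s) := by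
  obtain ⟨x, t, hg, h1, hcs⟩ := hc
  have hxd : ∀ s, HasDerivAt x (deriv x s) s := fun s =>
    (hg.smooth_x.differentiable (by simp) s).hasDerivAt
  have htd : ∀ s, HasDerivAt t (deriv t s) s := fun s =>
    (hg.smooth_t.differentiable (by simp) s).hasDerivAt
  have hx1 := (contDiff_infty_iff_deriv.1 hg.smooth_x)
  have ht1 := (contDiff_infty_iff_deriv.1 hg.smooth_t)
  have hxt : ContDiff ℝ ∞ (fun r => (x r, t r)) := hg.smooth_x.prodMk hg.smooth_t
  have hE : ContDiff ℝ ∞ (fun r => m.metric.E (x r, t r)) := m.metric.smooth_E.comp hxt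
  have hF : ContDiff ℝ ∞ (fun r => m.metric.F (x r, t r)) := m.metric.smooth_F.comp hxt
  have hG : ContDiff ℝ ∞ (fun r => m.metric.G (x r, t r)) := m.metric.smooth_G.comp hxt
  have hp : ContDiff ℝ ∞ (fun r => m.metric.E (x r, t r) * deriv x r
      + m.metric.F (x r, t r) * deriv t r) := (hE.mul hx1.2).add (hF.mul ht1.2)
  have hq : ContDiff ℝ ∞ (fun r => m.metric.F (x r, t r) * deriv x r
      + m.metric.G (x r, t r) * deriv t r) := (hF.mul hx1.2).add (hG.mul ht1.2)
  refine ⟨x, t, fun s => m.E (x s, t s) * deriv x s,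
    fun s => m.E (x s, t s) * (deriv t s - m.b (x s, t s) * deriv x s), ?_, hcs⟩
  have hEp : ∀ s, m.E (x s, t s) ≠ 0 := fun s => (m.pos_E _).ne'
  have hen : ∀ s, m.E (x s, t s) * (deriv x s ^ 2
      + (deriv t s - m.b (x s, t s) * deriv x s) ^ 2) = 1 := by
    intro s
    rw [← h1 s]
    simp only [metric]
    ring
  have hη' : ∀ s, HasDerivAt (fun s => m.E (x s, t s) * (deriv t s - m.b (x s, t s) * deriv x s))
      (CyG.dt m.E (x s, t s) / (2 * m.E (x s, t s))
      - CyG.dt m.b (x s, t s) * (m.E (x s, t s) * deriv x s)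
        * (m.E (x s, t s) * (deriv t s - m.b (x s, t s) * deriv x s)) / m.E (x s, t s)) s := by
    intro s
    have d4 := (hq.differentiable (by simp) s).hasDerivAt
    rw [hg.eq_t s] at d4
    have e : (fun r => m.metric.F (x r, t r) * deriv x r + m.metric.G (x r, t r) * deriv t r) =
        fun s => m.E (x s, t s) * (deriv t s - m.b (x s, t s) * deriv x s) := by
      funext r
      simp only [metric]
      ring
    rw [e] at d4
    refine d4.congr_deriv ?_
    rw [m.dt_E, m.dt_F, m.dt_G]
    have h := hEp s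
    have h2 := hen s
    field_simp
    linear_combination (CyG.dt m.E (x s, t s)) * h2
  refine ⟨fun s => ?_, fun s => ?_, fun s => ?_, hη', fun s => ?_⟩
  · refine (hxd s).congr_deriv ?_
    have h := hEp s
    field_simp
  · refine (htd s).congr_deriv ?_
    have h := hEp s
    field_simp
    ring
  · have d3 := (hp.differentiable (by simp) s).hasDerivAt
    rw [hg.eq_x s] at d3
    have hb := hasDerivAt_comp_curve m.smooth_b (hxd s) (htd s)
    have hsum := d3.add (hb.mul (hη' s))
    have e : (fun r => m.metric.E (x r, t r) * deriv x r + m.metric.F (x r, t r) * deriv t r)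
        + ((fun r => m.b (x r, t r)) * fun s =>
          m.E (x s, t s) * (deriv t s - m.b (x s, t s) * deriv x s))
        = fun s => m.E (x s, t s) * deriv x s := by
      funext r
      simp only [metric, Pi.add_apply, Pi.mul_apply]
      ring
    rw [e] at hsum
    refine hsum.congr_deriv ?_
    rw [m.dx_E, m.dx_F, m.dx_G]
    have h := hEp s
    have h2 := hen s
    field_simp
    linear_combination (CyG.dx m.E (x s, t s)) * h2
  · have h2 := hen s
    linear_combination (m.E (x s, t s)) * h2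

namespace Orbit

variable {x y q η : ℝ → ℝ}

theorem E_pos (_h : Orbit m x y q η) (s : ℝ) : 0 < m.E (x s, y s) := m.pos_E _

theorem E_ne (_h : Orbit m x y q η) (s : ℝ) : m.E (x s, y s) ≠ 0 := (m.pos_E _).ne'

theorem continuous_x (h : Orbit m x y q η) : Continuous x :=
  continuous_iff_continuousAt.2 fun s => (h.dx s).continuousAt

theorem continuous_y (h : Orbit m x y q η) : Continuous y :=
  continuous_iff_continuousAt.2 fun s => (h.dy s).continuousAt

theorem continuous_q (h : Orbit m x y q η) : Continuous q :=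
  continuous_iff_continuousAt.2 fun s => (h.dq s).continuousAt

theorem continuous_η (h : Orbit m x y q η) : Continuous η :=
  continuous_iff_continuousAt.2 fun s => (h.dη s).continuousAt

/-- Translation in time. -/
theorem translate (h : Orbit m x y q η) (a : ℝ) :
    Orbit m (fun s => x (s + a)) (fun s => y (s + a)) (fun s => q (s + a))
      (fun s => η (s + a)) where
  dx s := (h.dx (s + a)).comp_add_const s a
  dy s := (h.dy (s + a)).comp_add_const s a
  dq s := (h.dq (s + a)).comp_add_const s a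
  dη s := (h.dη (s + a)).comp_add_const s a
  en s := h.en (s + a)

/-- Time reversal. -/
theorem rev (h : Orbit m x y q η) :
    Orbit m (fun s => x (-s)) (fun s => y (-s)) (fun s => -q (-s)) (fun s => -η (-s)) where
  dx s := by
    have := (h.dx (-s)).scomp s (hasDerivAt_neg s)
    refine this.congr_deriv ?_
    simp [neg_div]
  dy s := by
    have := (h.dy (-s)).scomp s (hasDerivAt_neg s)
    refine this.congr_deriv ?_
    simp only [smul_eq_mul]
    ring
  dq s := by
    have := ((h.dq (-s)).scomp s (hasDerivAt_neg s)).neg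
    refine this.congr_deriv ?_
    simp only [smul_eq_mul]
    ring
  dη s := by
    have := ((h.dη (-s)).scomp s (hasDerivAt_neg s)).neg
    refine this.congr_deriv ?_
    simp only [smul_eq_mul]
    ring
  en s := by
    have := h.en (-s)
    simpa using this

theorem E_add_int (m : EB) (x y : ℝ) (n : ℤ) : m.E (x + n, y) = m.E (x, y) := by
  have hp : Function.Periodic (fun a => m.E (a, y)) 1 := fun a => m.per_E a y
  have := hp.int_mul n x
  simpa using this

theorem b_add_int (m : EB) (x y : ℝ) (n : ℤ) : m.b (x + n, y) = m.b (x, y) := by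
  have hp : Function.Periodic (fun a => m.b (a, y)) 1 := fun a => m.per_b a y
  have := hp.int_mul n x
  simpa using this

theorem dxE_add_int (m : EB) (x y : ℝ) (n : ℤ) :
    CyG.dx m.E (x + n, y) = CyG.dx m.E (x, y) := by
  have hp : Function.Periodic (fun a => CyG.dx m.E (a, y)) 1 := fun a => dx_per m.per_E a y
  have := hp.int_mul n x
  simpa using this

theorem dtE_add_int (m : EB) (x y : ℝ) (n : ℤ) :
    CyG.dt m.E (x + n, y) = CyG.dt m.E (x, y) := by
  have hp : Function.Periodic (fun a => CyG.dt m.E (a, y)) 1 := fun a => dt_per m.per_E a y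
  have := hp.int_mul n x
  simpa using this

theorem dtb_add_int (m : EB) (x y : ℝ) (n : ℤ) :
    CyG.dt m.b (x + n, y) = CyG.dt m.b (x, y) := by
  have hp : Function.Periodic (fun a => CyG.dt m.b (a, y)) 1 := fun a => dt_per m.per_b a y
  have := hp.int_mul n x
  simpa using this

/-- Translation by an integer in the `x` direction. -/
theorem shift (h : Orbit m x y q η) (n : ℤ) : Orbit m (fun s => x s + n) y q η where
  dx s := by simp only [E_add_int]; exact (h.dx s).add_const _
  dy s := by simp only [E_add_int, b_add_int]; exact h.dy s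
  dq s := by
    simp only [E_add_int, b_add_int, dxE_add_int, dtE_add_int, dtb_add_int]; exact h.dq s
  dη s := by simp only [E_add_int, dtE_add_int, dtb_add_int]; exact h.dη s
  en s := by simp only [E_add_int]; exact h.en s

/-- The vector field of `Orbit`. -/
noncomputable def field (m : EB) (z : State) : State :=
  (z.2.2.1 / m.E (z.1, z.2.1), (z.2.2.2 + m.b (z.1, z.2.1) * z.2.2.1) / m.E (z.1, z.2.1),
    (CyG.dx m.E (z.1, z.2.1) + m.b (z.1, z.2.1) * CyG.dt m.E (z.1, z.2.1))
      / (2 * m.E (z.1, z.2.1)) + CyG.dt m.b (z.1, z.2.1) * z.2.2.2 ^ 2 / m.E (z.1, z.2.1),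
    CyG.dt m.E (z.1, z.2.1) / (2 * m.E (z.1, z.2.1))
      - CyG.dt m.b (z.1, z.2.1) * z.2.2.1 * z.2.2.2 / m.E (z.1, z.2.1))

theorem contDiff_field (m : EB) : ContDiff ℝ ∞ (field m) := by
  have hpos : ContDiff ℝ ∞ (fun z : State => (z.1, z.2.1)) :=
    contDiff_fst.prodMk (contDiff_fst.comp contDiff_snd)
  have h1 : ∀ f : ℝ × ℝ → ℝ, ContDiff ℝ ∞ f → ContDiff ℝ ∞ (fun z : State => f (z.1, z.2.1)) :=
    fun f hf => hf.comp hpos
  have hE := h1 _ m.smooth_E
  have hb := h1 _ m.smooth_b
  have hxE := h1 _ (contDiff_dx m.smooth_E)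
  have htE := h1 _ (contDiff_dt m.smooth_E)
  have htb := h1 _ (contDiff_dt m.smooth_b)
  have hq : ContDiff ℝ ∞ (fun z : State => z.2.2.1) := by fun_prop
  have he : ContDiff ℝ ∞ (fun z : State => z.2.2.2) := by fun_prop
  have hne : ∀ z : State, m.E (z.1, z.2.1) ≠ 0 := fun z => (m.pos_E _).ne'
  have hne2 : ∀ z : State, 2 * m.E (z.1, z.2.1) ≠ 0 := fun z => mul_ne_zero two_ne_zero (hne z)
  refine (hq.div hE hne).prodMk (((he.add (hb.mul hq)).div hE hne).prodMk
    (ContDiff.prodMk ?_ ?_))
  · exact ((hxE.add (hb.mul htE)).div (contDiff_const.mul hE) hne2).add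
      ((htb.mul (he.pow 2)).div hE hne)
  · exact (htE.div (contDiff_const.mul hE) hne2).sub (((htb.mul hq).mul he).div hE hne)

/-- Uniqueness. -/
theorem unique {x' y' q' η' : ℝ → ℝ} (h : Orbit m x y q η) (h' : Orbit m x' y' q' η') {s₀ : ℝ}
    (hx : x s₀ = x' s₀) (hy : y s₀ = y' s₀) (hq : q s₀ = q' s₀) (hη : η s₀ = η' s₀) :
    x = x' ∧ y = y' ∧ q = q' ∧ η = η' := by
  have h1 : ∀ s, HasDerivAt (fun s => (x s, y s, q s, η s)) (field m (x s, y s, q s, η s)) s :=
    fun s => (h.dx s).prodMk ((h.dy s).prodMk ((h.dq s).prodMk (h.dη s)))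
  have h2 : ∀ s, HasDerivAt (fun s => (x' s, y' s, q' s, η' s))
      (field m (x' s, y' s, q' s, η' s)) s :=
    fun s => (h'.dx s).prodMk ((h'.dy s).prodMk ((h'.dq s).prodMk (h'.dη s)))
  have hc : ContDiff ℝ 1 (field m) := (contDiff_field m).of_le (by simp)
  have := ode_unique hc h1 h2 (t₀ := s₀) (by simp only [hx, hy, hq, hη])
  have key : ∀ s, x s = x' s ∧ y s = y' s ∧ q s = q' s ∧ η s = η' s := by
    intro s
    have := congrFun this s
    simpa [Prod.ext_iff] using this
  exact ⟨funext fun s => (key s).1, funext fun s => (key s).2.1,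
    funext fun s => (key s).2.2.1, funext fun s => (key s).2.2.2⟩

/-- A unit speed orbit is a geodesic of the metric. -/
theorem line (h : Orbit m x y q η) :
    m.metric.IsLine (fun s => ((x s : AddCircle (1 : ℝ)), y s)) := by
  have h1 : ∀ s, HasDerivAt (fun s => (x s, y s, q s, η s)) (field m (x s, y s, q s, η s)) s :=
    fun s => (h.dx s).prodMk ((h.dy s).prodMk ((h.dq s).prodMk (h.dη s)))
  have hs : ContDiff ℝ ∞ (fun s => (x s, y s, q s, η s)) :=
    contDiff_of_integral (contDiff_field m) h1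
  have hdx : deriv x = fun s => q s / m.E (x s, y s) := funext fun s => (h.dx s).deriv
  have hdy : deriv y = fun s => (η s + m.b (x s, y s) * q s) / m.E (x s, y s) :=
    funext fun s => (h.dy s).deriv
  refine ⟨x, y, ⟨contDiff_fst.comp hs, (contDiff_fst.comp contDiff_snd).comp hs, fun s => ?_,
    fun s => ?_⟩, fun s => ?_, fun s => rfl⟩
  · rw [hdx, hdy]
    have e : (fun r => m.metric.E (x r, y r) * (q r / m.E (x r, y r))
        + m.metric.F (x r, y r) * ((η r + m.b (x r, y r) * q r) / m.E (x r, y r)))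
        = fun r => q r - m.b (x r, y r) * η r := by
      funext r
      have := h.E_ne r
      simp only [metric]
      field_simp
      ring
    rw [e]
    have hb := hasDerivAt_comp_curve m.smooth_b (h.dx s) (h.dy s)
    have hd : deriv (fun r => q r - m.b (x r, y r) * η r) s = _ :=
      ((h.dq s).sub (hb.mul (h.dη s))).deriv
    rw [hd, m.dx_E, m.dx_F, m.dx_G]
    have h2 := h.en s
    have h3 := h.E_ne s
    field_simp
    linear_combination (-CyG.dx m.E (x s, y s)) * h2
  · rw [hdx, hdy]
    have e : (fun r => m.metric.F (x r, y r) * (q r / m.E (x r, y r))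
        + m.metric.G (x r, y r) * ((η r + m.b (x r, y r) * q r) / m.E (x r, y r)))
        = fun r => η r := by
      funext r
      have := h.E_ne r
      simp only [metric]
      field_simp
      ring
    rw [e, (h.dη s).deriv, m.dt_E, m.dt_F, m.dt_G]
    have h2 := h.en s
    have h3 := h.E_ne s
    field_simp
    linear_combination (-CyG.dt m.E (x s, y s)) * h2
  · rw [hdx, hdy]
    have h2 := h.en s
    have h3 := h.E_ne s
    simp only [metric]
    field_simp
    linear_combination h2

end Orbit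

end EB

end Pool.Agent.CyGN
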