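import Pool.Agent.CyGN.FunB
import Pool.Agent.CyGN.Ham

set_option autoImplicit false

/-!
# The metric of the counterexample: partial derivatives of `EE` and `bb`
-/

namespace Pool.Agent.CyGN

open Pool.Agent.CyG Set Filter Topology
open scoped ContDiff

/-- The metric of the counterexample. -/
noncomputable def metNO : EB := ⟨EE, bb, EE_smooth, bb_smooth, EE_per, bb_per, EE_pos⟩

theorem metNO_E : metNO.E = EE := rfl

theorem metNO_b : metNO.b = bb := rfl

/-! ### The building blocks -/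

/-- The partial derivative `S_x`. -/
noncomputable def SSx (x y : ℝ) : ℝ := chi' y * (gg x - A0 * uu x)

/-- The partial derivative `S_y`. -/
noncomputable def SSy (x y : ℝ) : ℝ := beta' y + chi'' y * Theta x

/-- The partial derivative `P_x`. -/
noncomputable def PPx (x y : ℝ) : ℝ :=
  Real.pi * Real.cos (Real.pi * x) * (1 + 3 / 2 * AA y * uu x)

/-- The partial derivative `P_y`. -/
noncomputable def PPy (x y : ℝ) : ℝ := AA' y / 2 * sn x ^ 3

/-- The derivative of `P0`. -/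
noncomputable def P0' (x : ℝ) : ℝ := Real.pi * Real.cos (Real.pi * x) * (1 + 3 / 2 * A0 * uu x)

/-- The derivative of `g`. -/
noncomputable def gg' (x : ℝ) : ℝ := deriv gg x

theorem gg_hasDerivAt (x : ℝ) : HasDerivAt gg (gg' x) x :=
  (gg_smooth.differentiable (by simp) x).hasDerivAt

theorem SS_dx (x y : ℝ) : HasDerivAt (fun x => SS x y) (SSx x y) x :=
  ((Theta_hasDerivAt x).const_mul (chi' y)).const_add (beta y)

theorem SS_dy (x y : ℝ) : HasDerivAt (fun y => SS x y) (SSy x y) y :=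
  (beta_hasDerivAt y).add ((chi'_hasDerivAt y).mul_const (Theta x))

theorem PP_dx (x y : ℝ) : HasDerivAt (fun x => PP AA x y) (PPx x y) x := by
  have h := (sn_hasDerivAt x).mul (((uu_hasDerivAt x).const_mul (AA y / 2)).const_add 1)
  refine h.congr_deriv ?_
  unfold PPx uu sn
  ring

theorem PP_dy (x y : ℝ) : HasDerivAt (fun y => PP AA x y) (PPy x y) y := by
  have h := ((((AA_hasDerivAt y).div_const 2).mul_const (uu x)).const_add 1).const_mul (sn x)
  refine h.congr_deriv ?_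
  unfold PPy uu sn
  ring

theorem P0_hasDerivAt (x : ℝ) : HasDerivAt P0 (P0' x) x := by
  have h := (sn_hasDerivAt x).mul (((uu_hasDerivAt x).const_mul (A0 / 2)).const_add 1)
  refine h.congr_deriv ?_
  unfold P0' uu sn
  ring

theorem DD_hasDerivAt (x : ℝ) : HasDerivAt DD (2 * P0 x * P0' x - 2 * gg x * gg' x) x := by
  have h := ((P0_hasDerivAt x).pow 2).sub ((gg_hasDerivAt x).pow 2)
  refine h.congr_deriv ?_
  simp

theorem PPx_eq_P0' {y : ℝ} (x : ℝ) (hy : y ≤ 2) : PPx x y = P0' x := by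
  unfold PPx P0'; rw [AA_eq hy]

theorem PPy_zero {y : ℝ} (x : ℝ) (hy : y ≤ 2) : PPy x y = 0 := by
  unfold PPy; rw [AA'_zero hy]; ring

/-! ### Global formulas -/

theorem EE_slice_x (x y : ℝ) : HasDerivAt (fun x => EE (x, y))
    (2 * hh y ^ 2 * SS x y * SSx x y + 2 * chi y ^ 2 * gg x * gg' x
      + (1 - zeta y) * (2 * P0 x * P0' x - 2 * gg x * gg' x)
      + 2 * PP AA x y * PPx x y - 2 * P0 x * P0' x) x := by
  have h := ((((((SS_dx x y).pow 2).const_mul (hh y ^ 2)).add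
    (((gg_hasDerivAt x).pow 2).const_mul (chi y ^ 2))).add
    ((DD_hasDerivAt x).const_mul (1 - zeta y))).add ((PP_dx x y).pow 2)).sub
    ((P0_hasDerivAt x).pow 2)
  refine h.congr_deriv ?_
  simp
  ring

theorem EE_slice_y (x y : ℝ) : HasDerivAt (fun y => EE (x, y))
    (2 * hh y * hh' y * SS x y ^ 2 + 2 * hh y ^ 2 * SS x y * SSy x y
      + 2 * chi y * chi' y * gg x ^ 2 - zeta' y * DD x + 2 * PP AA x y * PPy x y) y := by
  have h := (((((((hh_hasDerivAt y).pow 2).mul ((SS_dy x y).pow 2))).add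
    (((chi_hasDerivAt y).pow 2).mul_const (gg x ^ 2))).add
    (((zeta_hasDerivAt y).const_sub 1).mul_const (DD x))).add ((PP_dy x y).pow 2)).sub_const
    (P0 x ^ 2)
  refine h.congr_deriv ?_
  simp
  ring

theorem bb_slice_x (x y : ℝ) : HasDerivAt (fun x => bb (x, y))
    (AA y * chi y * ((2 * sn x * (Real.pi * Real.cos (Real.pi * x))) * SS x y - uu x * SSx x y)
      / SS x y ^ 2) x := by
  have h := ((uu_hasDerivAt x).const_mul (AA y * chi y)).div (SS_dx x y) (SS_pos x y).ne'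
  refine h.congr_deriv ?_
  ring

theorem bb_slice_y (x y : ℝ) : HasDerivAt (fun y => bb (x, y))
    (((AA' y * chi y + AA y * chi' y) * SS x y - AA y * chi y * SSy x y) * uu x
      / SS x y ^ 2) y := by
  have h := (((AA_hasDerivAt y).mul (chi_hasDerivAt y)).mul_const (uu x)).div (SS_dy x y)
    (SS_pos x y).ne'
  refine h.congr_deriv ?_
  simp
  ring

theorem dx_EE (x y : ℝ) : dx EE (x, y) =
    2 * hh y ^ 2 * SS x y * SSx x y + 2 * chi y ^ 2 * gg x * gg' x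
      + (1 - zeta y) * (2 * P0 x * P0' x - 2 * gg x * gg' x)
      + 2 * PP AA x y * PPx x y - 2 * P0 x * P0' x := (EE_slice_x x y).deriv

theorem dt_EE (x y : ℝ) : dt EE (x, y) =
    2 * hh y * hh' y * SS x y ^ 2 + 2 * hh y ^ 2 * SS x y * SSy x y
      + 2 * chi y * chi' y * gg x ^ 2 - zeta' y * DD x + 2 * PP AA x y * PPy x y :=
  (EE_slice_y x y).deriv

theorem dx_bb (x y : ℝ) : dx bb (x, y) =
    AA y * chi y * ((2 * sn x * (Real.pi * Real.cos (Real.pi * x))) * SS x y - uu x * SSx x y)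
      / SS x y ^ 2 := (bb_slice_x x y).deriv

theorem dt_bb (x y : ℝ) : dt bb (x, y) =
    ((AA' y * chi y + AA y * chi' y) * SS x y - AA y * chi y * SSy x y) * uu x
      / SS x y ^ 2 := (bb_slice_y x y).deriv

/-! ### Region (R0): `y ≤ 1/4` -/

theorem SSx_zero_left {y : ℝ} (x : ℝ) (hy : y ≤ 1 / 4) : SSx x y = 0 := by
  unfold SSx; rw [chi'_zero_left hy]; ring

theorem SSy_left {y : ℝ} (x : ℝ) (hy : y ≤ 1 / 4) : SSy x y = beta' y := by
  unfold SSy; rw [chi''_zero_left hy]; ring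

theorem SSx_zero_right {y : ℝ} (x : ℝ) (hy : 1 / 2 ≤ y) : SSx x y = 0 := by
  unfold SSx; rw [chi'_zero_right hy]; ring

theorem SSy_right {y : ℝ} (x : ℝ) (hy : 1 / 2 ≤ y) : SSy x y = beta' y := by
  unfold SSy; rw [chi''_zero_right hy]; ring

theorem dx_EE_R0 {y : ℝ} (x : ℝ) (hy : y ≤ 1 / 4) : dx EE (x, y) = 0 := by
  rw [dx_EE, SSx_zero_left x hy, chi_zero hy, zeta_one (by linarith), PP_eq_P0 x (by linarith),
    PPx_eq_P0' x (by linarith)]
  ring

theorem dt_EE_R0 {y : ℝ} (x : ℝ) (hy : y ≤ 1 / 4) : dt EE (x, y) =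
    2 * hh y * hh' y * beta y ^ 2 + 2 * hh y ^ 2 * beta y * beta' y := by
  rw [dt_EE, SS_eq_left x hy, SSy_left x hy, chi_zero hy, zeta'_zero_left (by linarith),
    PPy_zero x (by linarith)]
  ring

theorem dx_bb_R0 {y : ℝ} (x : ℝ) (hy : y ≤ 1 / 4) : dx bb (x, y) = 0 := by
  rw [dx_bb, chi_zero hy]; simp

theorem dt_bb_R0 {y : ℝ} (x : ℝ) (hy : y ≤ 1 / 4) : dt bb (x, y) = 0 := by
  rw [dt_bb, chi_zero hy, chi'_zero_left hy]; simp

/-- For `-1 ≤ y ≤ 1/4` the coefficient `E = β²` has `E_y = 2 β β'`. -/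
theorem dt_EE_R0' {y : ℝ} (x : ℝ) (hy0 : -1 ≤ y) (hy : y ≤ 1 / 4) : dt EE (x, y) =
    2 * beta y * beta' y := by
  rw [dt_EE_R0 x hy, hh_one hy0, hh'_zero hy0]; ring

/-! ### Region (R1): `-1 ≤ y ≤ 1`, in particular the kick band -/

theorem dx_EE_R1 {y : ℝ} (x : ℝ) (hy0 : -1 ≤ y) (hy : y ≤ 1) : dx EE (x, y) =
    2 * SS x y * SSx x y + 2 * chi y ^ 2 * gg x * gg' x := by
  rw [dx_EE, hh_one hy0, zeta_one hy, PP_eq_P0 x (by linarith), PPx_eq_P0' x (by linarith)]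
  ring

theorem dt_EE_R1 {y : ℝ} (x : ℝ) (hy0 : -1 ≤ y) (hy : y ≤ 1) : dt EE (x, y) =
    2 * SS x y * SSy x y + 2 * chi y * chi' y * gg x ^ 2 := by
  rw [dt_EE, hh_one hy0, hh'_zero hy0, zeta'_zero_left hy, PPy_zero x (by linarith)]
  ring

theorem dt_bb_le2 {y : ℝ} (x : ℝ) (hy : y ≤ 2) : dt bb (x, y) =
    A0 * uu x * (chi' y * SS x y - chi y * SSy x y) / SS x y ^ 2 := by
  rw [dt_bb, AA_eq hy, AA'_zero hy]; ring

/-- `S_x + b_y S + b S_y = χ' g` for `y ≤ 2`. -/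
theorem SS_kick {y : ℝ} (x : ℝ) (hy : y ≤ 2) :
    SSx x y + dt bb (x, y) * SS x y + bb (x, y) * SSy x y = chi' y * gg x := by
  have h := (SS_pos x y).ne'
  rw [dt_bb_le2 x hy, bb_le2 x hy]
  unfold SSx
  field_simp
  ring

/-! ### Region (R2): `1/2 ≤ y ≤ 2` -/

theorem dx_EE_R2 {y : ℝ} (x : ℝ) (hy0 : 1 / 2 ≤ y) (hy : y ≤ 2) : dx EE (x, y) =
    2 * P0 x * P0' x - zeta y * (2 * P0 x * P0' x - 2 * gg x * gg' x) := by
  rw [dx_EE, SSx_zero_right x hy0, chi_one hy0, PP_eq_P0 x hy, PPx_eq_P0' x hy]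
  ring

theorem dt_EE_R2 {y : ℝ} (x : ℝ) (hy0 : 1 / 2 ≤ y) (hy : y ≤ 2) : dt EE (x, y) =
    2 * beta y * beta' y - zeta' y * DD x := by
  rw [dt_EE, hh_one (by linarith), hh'_zero (by linarith), SS_eq_right x hy0, SSy_right x hy0,
    chi'_zero_right hy0, PPy_zero x hy]
  ring

theorem dt_bb_R2 {y : ℝ} (x : ℝ) (hy0 : 1 / 2 ≤ y) (hy : y ≤ 2) : dt bb (x, y) =
    -(A0 * uu x * beta' y / beta y ^ 2) := by
  rw [dt_bb_le2 x hy, chi_one hy0, chi'_zero_right hy0, SS_eq_right x hy0, SSy_right x hy0]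
  ring

/-! ### Region (R3): `2 ≤ y` -/

theorem dx_EE_R3 {y : ℝ} (x : ℝ) (hy : 2 ≤ y) : dx EE (x, y) = 2 * PP AA x y * PPx x y := by
  rw [dx_EE, SSx_zero_right x (by linarith), chi_one (by linarith), zeta_zero hy]
  ring

theorem dt_EE_R3 {y : ℝ} (x : ℝ) (hy : 2 ≤ y) : dt EE (x, y) =
    2 * beta y * beta' y + 2 * PP AA x y * PPy x y := by
  rw [dt_EE, hh_one (by linarith), hh'_zero (by linarith), SS_eq_right x (by linarith),
    SSy_right x (by linarith), chi'_zero_right (by linarith), zeta'_zero_right hy]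
  ring

theorem dt_bb_R3 {y : ℝ} (x : ℝ) (hy : 2 ≤ y) : dt bb (x, y) =
    (AA' y * beta y - AA y * beta' y) / beta y ^ 2 * uu x := by
  rw [dt_bb, chi_one (by linarith), chi'_zero_right (by linarith), SS_eq_right x (by linarith),
    SSy_right x (by linarith)]
  ring

/-! ### The axes `x = k` -/

theorem sn_int (k : ℤ) : sn (k : ℝ) = 0 := by
  unfold sn
  rw [mul_comm]
  exact Real.sin_int_mul_pi k

theorem uu_int (k : ℤ) : uu (k : ℝ) = 0 := by
  have h : uu (k : ℝ) = sn (k : ℝ) ^ 2 := rfl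
  rw [h, sn_int]; ring

theorem P0_int (k : ℤ) : P0 (k : ℝ) = 0 := by unfold P0; rw [sn_int]; ring

theorem gg_int (k : ℤ) : gg (k : ℝ) = 0 := by unfold gg; rw [P0_int]; ring

theorem PP_int (k : ℤ) (y : ℝ) : PP AA (k : ℝ) y = 0 := by
  have h : PP AA (k : ℝ) y = sn (k : ℝ) * (1 + AA y / 2 * uu (k : ℝ)) := rfl
  rw [h, sn_int]; ring

theorem bb_int (k : ℤ) (y : ℝ) : bb ((k : ℝ), y) = 0 := by
  unfold bb; simp only; rw [uu_int]; simp

theorem dx_EE_int (k : ℤ) (y : ℝ) : dx EE ((k : ℝ), y) = 0 := by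
  rw [dx_EE, PP_int, gg_int, P0_int]
  unfold SSx
  rw [gg_int, uu_int]
  ring

theorem dt_bb_int (k : ℤ) (y : ℝ) : dt bb ((k : ℝ), y) = 0 := by
  rw [dt_bb, uu_int]; simp

/-! ### Bounds for `b` -/

theorem AA_div_beta_le (y : ℝ) : AA y / beta y ≤ 0.0226 := by
  have h1 := A0_le
  have h1' := A0_pos
  have hb := beta_pos y
  rw [div_le_iff₀ hb]
  rcases le_total y 2 with hy | hy
  · have h2 := beta_ge hy
    rw [AA_eq hy]
    norm_num at *
    linarith
  · rw [beta_eq (by linarith)]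
    have h3 := YY_le_ZZ y
    have h4 := ZZ_ge y
    have h5 := YY_pos y
    have h6 := ZZ_pos y
    unfold AA
    rw [mul_div_assoc', le_div_iff₀ h5, div_pow, mul_div_assoc', div_mul_eq_mul_div,
      div_le_iff₀ (by positivity)]
    have h7 : (10 ^ 6 + 2 : ℝ) ^ 2 ≤ ZZ y ^ 2 := pow_le_pow_left₀ (by norm_num) h4 2
    calc A0 * (10 ^ 6 + 2) ^ 3 * YY y ≤ 9 / 4 * (10 ^ 6 + 2) ^ 3 * ZZ y := by gcongr
      _ = (9 / 4 * (10 ^ 6 + 2)) * ((10 ^ 6 + 2) ^ 2 * ZZ y) := by ring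
      _ ≤ (0.0226 * 10 ^ 8) * (ZZ y ^ 2 * ZZ y) :=
        mul_le_mul (by norm_num) (mul_le_mul_of_nonneg_right h7 h6.le) (by positivity)
          (by positivity)
      _ = 0.0226 * 10 ^ 8 * ZZ y ^ 3 := by ring

theorem bb_nonneg (x y : ℝ) : 0 ≤ bb (x, y) := by
  have h1 := AA_pos y
  have h2 := chi_nonneg y
  have h3 := uu_nonneg x
  have h4 := SS_pos x y
  unfold bb
  positivity

theorem bb_le (x y : ℝ) : bb (x, y) ≤ 0.0226 := by
  have h1 := AA_pos y
  have h2 := chi_nonneg y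
  have h2' := chi_le_one y
  have h3 := uu_nonneg x
  have h3' := uu_le_one x
  rcases le_total y 2 with hy | hy
  · have h4 := SS_ge x hy
    have h4' := SS_pos x y
    have h5 := A0_le
    have h6 := A0_pos
    rw [bb_le2 x hy, div_le_iff₀ h4']
    have h7 : chi y * uu x ≤ 1 := mul_le_one₀ h2' h3 h3'
    have h8 : A0 * chi y * uu x ≤ 9 / 4 := by
      calc A0 * chi y * uu x = A0 * (chi y * uu x) := by ring
        _ ≤ 9 / 4 * 1 := by gcongr
        _ = 9 / 4 := by ring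
    norm_num at *
    linarith
  · rw [bb_R3 x hy]
    have h4 := AA_div_beta_le y
    have h5 := beta_pos y
    calc AA y / beta y * uu x ≤ 0.0226 * 1 := by gcongr
      _ = 0.0226 := by ring

/-! ### Lower bound for `E` -/

theorem DD_le_P0_sq (x : ℝ) : DD x ≤ P0 x ^ 2 := by
  have := sq_nonneg (gg x); unfold DD; linarith

theorem EE_ge_beta_sq {y : ℝ} (x : ℝ) (hy : 1 / 2 ≤ y) : beta y ^ 2 ≤ EE (x, y) := by
  rcases le_total y 2 with h | h
  · rw [EE_R2 x hy h]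
    have h1 := DD_le_P0_sq x
    have h2 := DD_nonneg x
    have h3 := zeta_le_one y
    have h4 := zeta_nonneg y
    have h5 : zeta y * DD x ≤ DD x := by nlinarith
    linarith
  · rw [EE_R3 x h]
    have := sq_nonneg (PP AA x y)
    linarith

theorem EE_ge (x y : ℝ) : 1 ≤ (1 + y ^ 2) * EE (x, y) := by
  rcases le_total y (1 / 4) with h | h
  · rw [EE_R0 x h]
    have h1 := hh_ge y
    have h2 := beta_ge (y := y) (by linarith)
    have h3 : 0 < 1 + |y| := by positivity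
    have h4 : (1 / (1 + |y|)) ^ 2 ≤ hh y ^ 2 := pow_le_pow_left₀ (by positivity) h1 2
    have h5 : (1 + |y|) ^ 2 ≤ 2 * (1 + y ^ 2) := by
      have := sq_abs y
      nlinarith [sq_nonneg (1 - |y|)]
    have h6 : (2 : ℝ) ≤ beta y ^ 2 := by norm_num at h2; nlinarith
    have h7 : 1 ≤ (1 + y ^ 2) * ((1 / (1 + |y|)) ^ 2 * 2) := by
      rw [div_pow, one_pow, div_mul_eq_mul_div, one_mul, mul_div_assoc', le_div_iff₀ (by positivity)]
      linarith
    calc (1 : ℝ) ≤ (1 + y ^ 2) * ((1 / (1 + |y|)) ^ 2 * 2) := h7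
      _ ≤ (1 + y ^ 2) * (hh y ^ 2 * beta y ^ 2) := by gcongr
  rcases le_total y 1 with h1 | h1
  · have h2 : 1 ≤ EE (x, y) := by
      rw [EE_R1 x (by linarith) h1]
      have h3 := SS_ge x (y := y) (by linarith)
      norm_num at h3
      nlinarith [sq_nonneg (chi y * gg x)]
    nlinarith [sq_nonneg y]
  · have h2 := EE_ge_beta_sq x (y := y) (by linarith)
    have h3 := YY_pos y
    have h4 := YY_le y (by linarith)
    have h5 : 1 ≤ (1 + y ^ 2) * beta y ^ 2 := by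
      rw [beta_eq h1, div_pow, mul_div_assoc', le_div_iff₀ (by positivity), one_mul]
      have h6 : YY y ^ 2 ≤ (10 ^ 6 + y) ^ 2 := pow_le_pow_left₀ h3.le h4 2
      nlinarith [sq_nonneg y, sq_nonneg (10 ^ 6 - y)]
    nlinarith [sq_nonneg y]

/-! ### Completeness -/

theorem metNO_form (x t v w : ℝ) : v ^ 2 + w ^ 2 ≤ 3 * (1 + t ^ 2) *
    (metNO.metric.E (x, t) * v ^ 2 + 2 * metNO.metric.F (x, t) * v * w
      + metNO.metric.G (x, t) * w ^ 2) := by
  have e : metNO.metric.E (x, t) * v ^ 2 + 2 * metNO.metric.F (x, t) * v * w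
      + metNO.metric.G (x, t) * w ^ 2
      = EE (x, t) * (v ^ 2 + (w - bb (x, t) * v) ^ 2) := by
    show EE (x, t) * (1 + bb (x, t) ^ 2) * v ^ 2 + 2 * (-(EE (x, t) * bb (x, t))) * v * w
      + EE (x, t) * w ^ 2 = _
    ring
  rw [e]
  have h1 := EE_ge x t
  have h2 := bb_nonneg x t
  have h3 := bb_le x t
  set b := bb (x, t)
  have h4 : v ^ 2 + w ^ 2 ≤ 3 * (v ^ 2 + (w - b * v) ^ 2) := by
    have h5 : b ^ 2 ≤ 1 := by norm_num at h3; nlinarith
    have h6 : w ^ 2 ≤ 2 * (w - b * v) ^ 2 + 2 * (b ^ 2 * v ^ 2) := by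
      nlinarith [sq_nonneg (w - 2 * (b * v))]
    nlinarith [sq_nonneg v, sq_nonneg (w - b * v)]
  have h7 : 0 ≤ v ^ 2 + (w - b * v) ^ 2 := by positivity
  nlinarith

end Pool.Agent.CyGN
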