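import Pool.Agent.CyGN.CaptC
import Pool.Agent.CyGN.Metric
import Pool.Agent.CyGN.FunC

set_option autoImplicit false

/-!
# The profile and the orbits of `metNO` in the form of section 6
-/

namespace Pool.Agent.CyGN

open Pool.Agent.CyG Set Filter Topology

/-- The profile of `metNO`. -/
noncomputable def profNO : Capt.Prof where
  Y := YY
  Z := ZZ
  z y := st (y - 2)
  zp y := deriv st (y - 2)
  A0 := A0
  A0_ge := two_le_A0
  A0_le := A0_le
  dY y hy := by
    have := YY_hasDerivAt y
    rwa [st_one (by linarith)] at this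
  dZ y _ := ZZ_hasDerivAt y
  dz y _ := by
    have h := (st_hasDerivAt (y - 2)).comp y ((hasDerivAt_id y).sub_const 2)
    rw [mul_one] at h
    exact h
  zp_nonneg y _ := st'_nonneg _
  z_two := st_zero (by norm_num)
  z_pos y hy := st_pos (by linarith)
  z_le y _ := st_le_one _
  z_one y hy := st_one (by linarith)
  Y_eq y hy := by
    rw [YY_eq (y := y) (by linarith), YY_eq (y := 2) (by norm_num)]
    ring
  Y_two_ge := by
    rw [YY_eq (y := 2) (by norm_num)]
    have := YY_one_mem.1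
    norm_num at this ⊢
    linarith
  Y_two_le := by
    rw [YY_eq (y := 2) (by norm_num)]
    have := YY_one_mem.2
    norm_num at this ⊢
    linarith
  Z_ge y _ := by
    have := ZZ_ge y
    norm_num at this
    exact this
  Y_le_Z y _ := YY_le_ZZ y
  Z_eq y hy := (YY_eq_ZZ hy).symm

theorem profNO_bt {y : ℝ} (hy : 2 ≤ y) : profNO.bt y = beta y := by
  rw [beta_eq (by linarith)]
  unfold Capt.Prof.bt profNO
  norm_num

theorem profNO_A (y : ℝ) : profNO.A y = AA y := by
  unfold Capt.Prof.A AA profNO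
  norm_num

theorem profNO_Ap (y : ℝ) : profNO.Ap y = AA' y := by
  unfold Capt.Prof.Ap AA'
  rw [profNO_A]
  rfl

theorem profNO_a {y : ℝ} (hy : 2 ≤ y) : profNO.a y = AA y / beta y := by
  unfold Capt.Prof.a
  rw [profNO_A, profNO_bt hy]

theorem profNO_ap {y : ℝ} (hy : 2 ≤ y) :
    profNO.ap y = (AA' y * beta y - AA y * beta' y) / beta y ^ 2 := by
  unfold Capt.Prof.ap
  rw [profNO_a hy, beta'_eq (by linarith)]
  have h1 := (beta_pos y).ne'
  have h2 := (YY_pos y).ne'
  have h3 := (ZZ_pos y).ne'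
  change AA y / beta y * (1 / YY y - 3 * st (y - 2) / ZZ y) = _
  unfold AA'
  field_simp
  ring

theorem profNO_P (x y : ℝ) : profNO.P x y = PP AA x y := by
  unfold Capt.Prof.P Capt.Prof.w1
  rw [profNO_A]
  rfl

theorem profNO_Px (x y : ℝ) : profNO.Px x y = PPx x y := by
  unfold Capt.Prof.Px PPx
  rw [profNO_A]
  rfl

theorem profNO_Py (x y : ℝ) : profNO.Py x y = PPy x y := by
  unfold Capt.Prof.Py PPy
  rw [profNO_Ap]
  rfl

theorem profNO_E (x : ℝ) {y : ℝ} (hy : 2 ≤ y) : profNO.E x y = metNO.E (x, y) := by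
  unfold Capt.Prof.E
  rw [profNO_bt hy, profNO_P]
  exact (EE_R3 x hy).symm

/-- Orbits of `metNO`. -/
theorem orbNO {x y q η : ℝ → ℝ} (h : metNO.Orbit x y q η) : Capt.Orb profNO x y q η where
  cx := h.continuous_x
  cy := h.continuous_y
  cq := h.continuous_q
  cη := h.continuous_η
  dx t ht := by rw [profNO_E _ ht]; exact h.dx t
  dy t ht := by
    rw [profNO_E _ ht, profNO_a ht]
    have h1 := h.dy t
    have h2 : metNO.b (x t, y t) = AA (y t) / beta (y t) * uu (x t) := bb_R3 _ ht
    rw [h2] at h1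
    exact h1
  dq t ht := by
    rw [profNO_E _ ht, profNO_a ht, profNO_ap ht, profNO_P, profNO_Px, profNO_Py, profNO_bt ht]
    have h1 := h.dq t
    have h2 : metNO.b (x t, y t) = AA (y t) / beta (y t) * uu (x t) := bb_R3 _ ht
    have h3 : CyG.dx metNO.E (x t, y t) = 2 * PP AA (x t) (y t) * PPx (x t) (y t) :=
      dx_EE_R3 _ ht
    have h4 : CyG.dt metNO.E (x t, y t) = 2 * beta (y t) * beta' (y t)
      + 2 * PP AA (x t) (y t) * PPy (x t) (y t) := dt_EE_R3 _ ht
    have h5 : CyG.dt metNO.b (x t, y t) = (AA' (y t) * beta (y t) - AA (y t) * beta' (y t))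
      / beta (y t) ^ 2 * uu (x t) := dt_bb_R3 _ ht
    rw [h2, h3, h4, h5, beta'_eq (y := y t) (by linarith)] at h1
    rw [beta'_eq (y := y t) (by linarith)]
    exact h1
  dη t ht := by
    rw [profNO_E _ ht, profNO_ap ht, profNO_P, profNO_Py, profNO_bt ht]
    have h1 := h.dη t
    have h4 : CyG.dt metNO.E (x t, y t) = 2 * beta (y t) * beta' (y t)
      + 2 * PP AA (x t) (y t) * PPy (x t) (y t) := dt_EE_R3 _ ht
    have h5 : CyG.dt metNO.b (x t, y t) = (AA' (y t) * beta (y t) - AA (y t) * beta' (y t))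
      / beta (y t) ^ 2 * uu (x t) := dt_bb_R3 _ ht
    rw [h4, h5, beta'_eq (y := y t) (by linarith)] at h1
    rw [beta'_eq (y := y t) (by linarith)]
    exact h1
  en t ht := by rw [profNO_E _ ht]; exact h.en t

end Pool.Agent.CyGN
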