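import Pool.Agent.CyGN.Ham

set_option autoImplicit false

/-!
# Section 7 of the page: the end of the argument from the contracts of sections 2 - 6

The contracts are stated for an arbitrary metric `m : EB`, an arbitrary function `β` (only its
value at `y = 2` along the orbit matters here) and numbers `M`, `δ`, `κ`.
-/

namespace Pool.Agent.CyGN

open Set Pool.Agent.CyG

namespace EB

/-- Section 2: every orbit visits `y ≤ 0`. -/
def CVisit (m : EB) : Prop :=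
  ∀ x y q η : ℝ → ℝ, Orbit m x y q η → ∃ t, y t ≤ 0

/-- Section 3, first half: an injective orbit has `q = 0` wherever `y ≤ 0`. -/
def CCusp (m : EB) : Prop :=
  ∀ x y q η : ℝ → ℝ, Orbit m x y q η →
    Function.Injective (fun s => ((x s : AddCircle (1 : ℝ)), y s)) → ∀ t, y t ≤ 0 → q t = 0

/-- Section 3, second half: a vertical orbit with `η > 0` in `y ≤ 0` reaches `y = 0` with
`η = M`. -/
def CVert (m : EB) (M : ℝ) : Prop :=
  ∀ x y q η : ℝ → ℝ, Orbit m x y q η → ∀ t, y t ≤ 0 → q t = 0 → 0 < η t →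
    ∃ t', t ≤ t' ∧ y t' = 0 ∧ q t' = 0 ∧ η t' = M

/-- The state in which the family lines arrive at `y = 2`. -/
def Start (β : ℝ → ℝ) (δ κ : ℝ) (x y q η : ℝ → ℝ) (t : ℝ) : Prop :=
  y t = 2 ∧ 0 < η t ∧ 0 < x t ∧ x t < 1 ∧
    ((β 2 ^ 2 - η t ^ 2 = 0 ∧ 0 < q t) ∨
      (1 - δ ≤ x t ∧ -κ ≤ β 2 ^ 2 - η t ^ 2 ∧ β 2 ^ 2 - η t ^ 2 ≤ 0))

/-- Section 4, Lemma F. -/
def CFam (m : EB) (β : ℝ → ℝ) (M δ κ : ℝ) : Prop :=
  ∀ x y q η : ℝ → ℝ, Orbit m x y q η → ∀ t, y t = 0 → q t = 0 → η t = M →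
    ∃ t₂, t < t₂ ∧ y t₂ = 2 ∧ (∀ s ∈ Ioo t t₂, 0 < y s ∧ y s < 2) ∧
      β 2 ^ 2 - η t₂ ^ 2 ≤ 0 ∧
      ((∀ n : ℤ, x t ≠ n) → ∃ n : ℤ, Start β δ κ (fun s => x s + n) y q η t₂)

/-- The situation in which the orbit starts to be expelled. -/
def Graze (β : ℝ → ℝ) (y q η : ℝ → ℝ) (t : ℝ) : Prop :=
  2 ≤ y t ∧ β (y t) ^ 2 - η t ^ 2 = 0 ∧ q t < 0 ∧ 0 < η t ∧
    ∃ d, 0 < d ∧ ∀ s ∈ Ioo t (t + d), 0 < β (y s) ^ 2 - η s ^ 2 ∧ q s < 0

/-- Section 6, Lemma E. -/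
def CExp (m : EB) (β : ℝ → ℝ) (δ κ : ℝ) : Prop :=
  ∀ x y q η : ℝ → ℝ, Orbit m x y q η → ∀ t, Start β δ κ x y q η t →
    ∃ t', t ≤ t' ∧ (∀ s ∈ Icc t t', 2 ≤ y s) ∧ Graze β y q η t'

/-- Section 5, (RET). -/
def CRet (m : EB) (β : ℝ → ℝ) : Prop :=
  ∀ x y q η : ℝ → ℝ, Orbit m x y q η → ∀ t, Graze β y q η t →
    ∃ t₁ t₂, t < t₁ ∧ t₁ < t₂ ∧ y t₁ = 2 ∧ 0 < β 2 ^ 2 - η t₁ ^ 2 ∧ y t₂ = 0 ∧ η t₂ < 0 ∧
      StrictAntiOn y (Icc t₁ t₂)

/-- The orbit is through the point `(0, 0)` of the cylinder, or it comes back. -/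
theorem integer_of_contracts {m : EB} {β : ℝ → ℝ} {M δ κ : ℝ} (hM : 0 < M)
    (hE0 : ∀ a, m.E (a, 0) = M ^ 2) (hcusp : CCusp m) (hfam : CFam m β M δ κ)
    (hexp : CExp m β δ κ) (hret : CRet m β) {x y q η : ℝ → ℝ} (h : Orbit m x y q η)
    (hinj : Function.Injective (fun s => ((x s : AddCircle (1 : ℝ)), y s))) {t : ℝ}
    (hy : y t = 0) (hq : q t = 0) (hη : η t = M) : ∃ n : ℤ, x t = n := by
  by_contra hne
  push Not at hne
  obtain ⟨t₂, -, -, -, -, hS⟩ := hfam x y q η h t hy hq hη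
  obtain ⟨n, hn⟩ := hS hne
  have hsh := h.shift n
  obtain ⟨tg, -, -, hG⟩ := hexp _ _ _ _ hsh t₂ hn
  obtain ⟨t₁, tI, -, h1I, hy1, hK1, hyI, hηI, hanti⟩ := hret _ _ _ _ hsh tg hG
  have hqI : q tI = 0 := hcusp x y q η h hinj tI hyI.le
  have hηI' : η tI = -M := by
    have e := h.en tI
    rw [hyI, hE0, hqI] at e
    have e2 : (η tI - M) * (η tI + M) = 0 := by linear_combination e
    rcases mul_eq_zero.1 e2 with e3 | e3
    · linarith
    · linarith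
  have hrev := h.rev
  obtain ⟨T, hT1, hT2, hT3, hT4, -⟩ := hfam _ _ _ _ hrev (-tI) (by simpa using hyI)
    (by simpa using hqI) (by simp only [neg_neg, hηI'])
  have hT2' : y (-T) = 2 := hT2
  have hTt : T = -t₁ := by
    rcases lt_trichotomy T (-t₁) with hlt | heq | hgt
    · exfalso
      have ha : t₁ ∈ Icc t₁ tI := ⟨le_rfl, h1I.le⟩
      have hb : -T ∈ Icc t₁ tI := ⟨by linarith, by linarith⟩
      have := hanti ha hb (by linarith)
      linarith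
    · exact heq
    · exfalso
      have := (hT3 (-t₁) ⟨by linarith, hgt⟩).2
      simp only [neg_neg] at this
      linarith
  subst hTt
  simp only [neg_neg, neg_sq] at hT4
  linarith

/-- The end of the argument: an injective line of the metric passes through the point
`(0, 0)`. -/
theorem end_line {m : EB} {β : ℝ → ℝ} {M δ κ : ℝ} (hM : 0 < M)
    (hE0 : ∀ a, m.E (a, 0) = M ^ 2) (hvisit : CVisit m) (hcusp : CCusp m) (hvert : CVert m M)
    (hfam : CFam m β M δ κ) (hexp : CExp m β δ κ) (hret : CRet m β)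
    {c : ℝ → AddCircle (1 : ℝ) × ℝ} (hc : m.metric.IsLine c) (hinj : Function.Injective c) :
    ∃ s, c s = (0, 0) := by
  obtain ⟨x, y, q, η, h, hcs⟩ := exists_orbit hc
  have hc' : c = fun s => ((x s : AddCircle (1 : ℝ)), y s) := funext hcs
  have hinj1 : Function.Injective (fun s => ((x s : AddCircle (1 : ℝ)), y s)) := hc' ▸ hinj
  have key : ∀ x y q η : ℝ → ℝ, Orbit m x y q η →
      Function.Injective (fun s => ((x s : AddCircle (1 : ℝ)), y s)) →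
      ∀ t, y t ≤ 0 → 0 < η t → ∃ s, ((x s : AddCircle (1 : ℝ)), y s) = (0, 0) := by
    intro x y q η h hi t hy hη
    obtain ⟨t', -, h1, h2, h3⟩ := hvert x y q η h t hy (hcusp x y q η h hi t hy) hη
    obtain ⟨n, hn⟩ := integer_of_contracts hM hE0 hcusp hfam hexp hret h hi h1 h2 h3
    refine ⟨t', ?_⟩
    rw [hn, h1]
    refine Prod.ext ?_ rfl
    have : ((n : ℝ) : AddCircle (1 : ℝ)) = 0 := by
      rw [AddCircle.coe_eq_zero_iff]
      exact ⟨n, by simp⟩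
    exact this
  obtain ⟨t, ht⟩ := hvisit x y q η h
  have hqt := hcusp x y q η h hinj1 t ht
  have hηt : η t ≠ 0 := by
    intro h0
    have e := h.en t
    have hp := h.E_pos t
    rw [hqt, h0] at e
    simp at e
    linarith
  rcases lt_or_gt_of_ne hηt with hneg | hpos
  · have hi2 : Function.Injective (fun s => ((x (-s) : AddCircle (1 : ℝ)), y (-s))) := by
      intro a b hab
      have : -a = -b := hinj1 hab
      linarith
    obtain ⟨s, hs⟩ := key _ _ _ _ h.rev hi2 (-t) (by simpa using ht) (by simpa using hneg)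
    exact ⟨-s, by rw [hcs]; exact hs⟩
  · obtain ⟨s, hs⟩ := key x y q η h hinj1 t ht hpos
    exact ⟨s, by rw [hcs]; exact hs⟩

/-- Consequence: two injective lines always have a common point. -/
theorem no_disjoint_lines {g : CylMetric}
    (hg : ∀ c, g.IsLine c → Function.Injective c → ∃ s, c s = (0, 0))
    {c₁ c₂ : ℝ → AddCircle (1 : ℝ) × ℝ} (h₁ : g.IsLine c₁) (i₁ : Function.Injective c₁)
    (h₂ : g.IsLine c₂) (i₂ : Function.Injective c₂) :
    ¬ Disjoint (range c₁) (range c₂) := by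
  obtain ⟨s₁, e₁⟩ := hg c₁ h₁ i₁
  obtain ⟨s₂, e₂⟩ := hg c₂ h₂ i₂
  rw [Set.not_disjoint_iff]
  exact ⟨(0, 0), ⟨s₁, e₁⟩, ⟨s₂, e₂⟩⟩

end EB

end Pool.Agent.CyGN
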