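import Pool.Agent.CyGN.CaptK
import Pool.Agent.CyGN.CaptMet
import Pool.Agent.CyGN.EndA

set_option autoImplicit false

/-!
# Section 6, Lemma E, for `metNO`
-/

namespace Pool.Agent.CyGN

open Pool.Agent.CyG Set Filter Topology

open Capt Capt.Orb in
/-- Section 6 (capture and expulsion) for the metric `metNO`. -/
theorem metNO_cExp : EB.CExp metNO beta (2 / NN) 7e-6 := by
  intro x y q η h t hS
  have o := orbNO h
  obtain ⟨hy, hη, hx0, hx1, hs⟩ := hS
  have h2 : (2 : ℝ) ≤ y t := hy.ge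
  have hbt : ∀ {u : ℝ}, 2 ≤ u → profNO.bt u = beta u := fun hu => profNO_bt hu
  have hKs : K profNO y η t = beta 2 ^ 2 - η t ^ 2 := by
    unfold K; rw [hbt h2, hy]
  have hK0 : K profNO y η t ≤ 0 := by
    rw [hKs]
    rcases hs with hs | hs
    · exact hs.1.le
    · exact hs.2.2
  have hP := profNO.P_pos h2 hx0 hx1
  have hKq := o.K_eq h2
  have hq : |q t| ≤ profNO.P (x t) (y t) := abs_le_of_sq_le_sq (by linarith) hP.le
  have g : Good profNO x y q η t := by
    refine ⟨h2, hx0, hx1, ?_, ?_, ?_⟩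
    · unfold Um; linarith [(abs_le.1 hq).2]
    · unfold Up; linarith [(abs_le.1 hq).1]
    · refine (sq_le_sq₀ (profNO.bt_pos h2).le hη.le).1 ?_
      unfold K at hK0
      linarith
  have hN : 2 / NN ≤ 1 / 1000 := by
    have := inv_NN_le
    have e : 2 / NN = 2 * (1 / NN) := by ring
    rw [e]; linarith
  obtain ⟨t', htt', hG, hU⟩ := o.expulsion g (by
    rcases hs with hs | hs
    · exact Or.inl ⟨by rw [hKs]; exact hs.1, hs.2⟩
    · refine Or.inr ⟨hy, by linarith [hs.1], ?_⟩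
      rw [hKs]
      have := hs.2.1
      norm_num at this ⊢
      linarith)
  have g' := hG t' ⟨htt', le_rfl⟩
  obtain ⟨d, hd, hafter⟩ := o.after g' hU
  refine ⟨t', htt', fun s hs => (hG s hs).hy, g'.hy, ?_, ?_, g'.eta_pos, ?_⟩
  · have h3 := o.K_eq_U g'.hy
    rw [hU, zero_mul, neg_zero] at h3
    unfold K at h3
    rwa [hbt g'.hy] at h3
  · have := g'.P_pos
    unfold Up at hU
    linarith
  · obtain ⟨d', hd', e, he, M, hM, hn⟩ := o.near g'.hy g'.x0 g'.x1 g'.eta g'.abs_q_le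
    refine ⟨min d d', lt_min hd hd', fun s hs => ?_⟩
    have h3 := hafter s ⟨hs.1, hs.2.trans_le (by linarith [min_le_left d d'])⟩
    have h4 := (hn s ⟨hs.1.le, (hs.2.trans_le (by linarith [min_le_right d d'])).le⟩).1
    refine ⟨?_, h3.2⟩
    have h5 := h3.1
    unfold K at h5
    rwa [hbt h4] at h5

end Pool.Agent.CyGN
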