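import Pool.Agent.CyGN.CaptE

set_option autoImplicit false

/-!
# Capture and expulsion, part F: trigonometric functions of the estimates
-/

namespace Pool.Agent.CyGN.Capt

open Set Filter Topology

theorem cos_two (x : ℝ) : Real.cos (2 * (Real.pi * x)) = 1 - 2 * sx x ^ 2 := by
  rw [Real.cos_two_mul']
  have := sx_sq_add x
  unfold sx cx at *
  linarith

theorem half_le_sx_sq {x : ℝ} (h0 : 1 / 4 ≤ x) (h1 : x ≤ 3 / 4) : 1 / 2 ≤ sx x ^ 2 := by
  have h := Real.cos_nonpos_of_pi_div_two_le_of_le (x := 2 * (Real.pi * x))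
    (by nlinarith [Real.pi_pos]) (by nlinarith [Real.pi_pos])
  rw [cos_two] at h
  linarith

theorem sx_sq_le_half {x : ℝ} (h0 : 3 / 4 ≤ x) (h1 : x ≤ 1) : sx x ^ 2 ≤ 1 / 2 := by
  have h : 0 ≤ Real.cos (2 * (Real.pi * x) - 2 * Real.pi) :=
    Real.cos_nonneg_of_neg_pi_div_two_le_of_le (by nlinarith [Real.pi_pos])
      (by nlinarith [Real.pi_pos])
  rw [Real.cos_sub_two_pi, cos_two] at h
  linarith

theorem sx_sq_le_half' {x : ℝ} (h0 : 0 ≤ x) (h1 : x ≤ 1 / 4) : sx x ^ 2 ≤ 1 / 2 := by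
  rw [← sx_one_sub]
  exact sx_sq_le_half (by linarith) (by linarith)

theorem sx_ge {x : ℝ} (h0 : 1 / 4 ≤ x) (h1 : x ≤ 3 / 4) : 707 / 1000 ≤ sx x := by
  have h := half_le_sx_sq h0 h1
  have h2 := sx_nonneg (x := x) (by linarith) (by linarith)
  by_contra hc
  push Not at hc
  nlinarith

theorem sx_le_of {x : ℝ} (h0 : 3 / 4 ≤ x) (h1 : x ≤ 1) : sx x ≤ 708 / 1000 := by
  have h := sx_sq_le_half h0 h1
  by_contra hc
  push Not at hc
  nlinarith

theorem cx_nonpos {x : ℝ} (h0 : 1 / 2 ≤ x) (h1 : x ≤ 1) : cx x ≤ 0 :=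
  Real.cos_nonpos_of_pi_div_two_le_of_le (by nlinarith [Real.pi_pos]) (by nlinarith [Real.pi_pos])

theorem cx_nonneg {x : ℝ} (h0 : 0 ≤ x) (h1 : x ≤ 1 / 2) : 0 ≤ cx x :=
  Real.cos_nonneg_of_neg_pi_div_two_le_of_le (by nlinarith [Real.pi_pos])
    (by nlinarith [Real.pi_pos])

theorem cx_le {x : ℝ} (h0 : 3 / 4 ≤ x) (h1 : x ≤ 1) : cx x ≤ -(7071 / 10000) := by
  have h := sx_sq_le_half h0 h1
  have h2 := sx_sq_add x
  have h3 := cx_nonpos (x := x) (by linarith) h1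
  by_contra hc
  push Not at hc
  nlinarith

theorem cx_ge {x : ℝ} (h0 : 0 ≤ x) (h1 : x ≤ 1 / 4) : 7071 / 10000 ≤ cx x := by
  have h := sx_sq_le_half' h0 h1
  have h2 := sx_sq_add x
  have h3 := cx_nonneg (x := x) h0 (by linarith)
  by_contra hc
  push Not at hc
  nlinarith

theorem sx_34 : sx (3 / 4) = √2 / 2 := by
  unfold sx
  rw [show Real.pi * (3 / 4) = Real.pi - Real.pi / 4 by ring, Real.sin_pi_sub, Real.sin_pi_div_four]

theorem cx_34 : cx (3 / 4) = -(√2 / 2) := by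
  unfold cx
  rw [show Real.pi * (3 / 4) = Real.pi - Real.pi / 4 by ring, Real.cos_pi_sub, Real.cos_pi_div_four]

theorem sx_14 : sx (1 / 4) = √2 / 2 := by
  unfold sx
  rw [show Real.pi * (1 / 4) = Real.pi / 4 by ring, Real.sin_pi_div_four]

theorem cx_14 : cx (1 / 4) = √2 / 2 := by
  unfold cx
  rw [show Real.pi * (1 / 4) = Real.pi / 4 by ring, Real.cos_pi_div_four]

/-- `G₂(x) = x - sin (2 π x) / (2 π)` -/
noncomputable def g2 (x : ℝ) : ℝ := x - sx x * cx x / Real.pi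

theorem hasDerivAt_g2 (x : ℝ) : HasDerivAt g2 (2 * sx x ^ 2) x := by
  have h := (hasDerivAt_id x).sub (((hasDerivAt_sx x).mul (hasDerivAt_cx x)).div_const Real.pi)
  refine h.congr_deriv ?_
  have h2 := sx_sq_add x
  have hp := Real.pi_ne_zero
  field_simp
  linear_combination (-1) * h2

theorem g2_mono {x x' : ℝ} (h : x ≤ x') : g2 x ≤ g2 x' :=
  mono_of_nonneg h (fun t _ => hasDerivAt_g2 t) (fun t _ => by positivity)

theorem g2_zero : g2 0 = 0 := by
  unfold g2 sx; simp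

theorem g2_one : g2 1 = 1 := by
  unfold g2 sx; simp

theorem g2_34 : g2 (3 / 4) = 3 / 4 + 1 / (2 * Real.pi) := by
  unfold g2
  rw [sx_34, cx_34]
  have h2 : √2 * √2 = 2 := Real.mul_self_sqrt (by norm_num)
  have hp := Real.pi_ne_zero
  field_simp
  linear_combination 4 * h2

theorem g2_14 : g2 (1 / 4) = 1 / 4 - 1 / (2 * Real.pi) := by
  unfold g2
  rw [sx_14, cx_14]
  have h2 : √2 * √2 = 2 := Real.mul_self_sqrt (by norm_num)
  have hp := Real.pi_ne_zero
  field_simp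
  linear_combination (-4) * h2

theorem inv_pi_ge' : 15915 / 100000 ≤ 1 / (2 * Real.pi) := by
  have := Real.pi_lt_d4
  rw [le_div_iff₀ (by positivity)]
  nlinarith

theorem inv_pi_le : 1 / (2 * Real.pi) ≤ 15916 / 100000 := by
  have := Real.pi_gt_d4
  rw [div_le_iff₀ (by positivity)]
  nlinarith

/-- `H(x) = x - sin(2πx)/(2π) - (2/3 - cos πx + cos³ πx / 3)/π` -/
noncomputable def hx (x : ℝ) : ℝ := g2 x - (2 / 3 - cx x + cx x ^ 3 / 3) / Real.pi

theorem hasDerivAt_hx (x : ℝ) : HasDerivAt hx (2 * sx x ^ 2 - sx x ^ 3) x := by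
  have h := (hasDerivAt_g2 x).sub
    ((((hasDerivAt_cx x).const_sub (2 / 3)).add (((hasDerivAt_cx x).pow 3).div_const 3)).div_const
      Real.pi)
  refine h.congr_deriv ?_
  have h2 := sx_sq_add x
  have hp := Real.pi_ne_zero
  push_cast
  field_simp
  linear_combination (sx x) * h2

theorem hx_mono {x x' : ℝ} (h : x ≤ x') : hx x ≤ hx x' :=
  mono_of_nonneg h (fun t _ => hasDerivAt_hx t) (fun t _ => by
    have h1 := sx_le_one t
    have : 0 ≤ sx t ^ 2 * (2 - sx t) := mul_nonneg (sq_nonneg _) (by linarith)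
    nlinarith)

theorem hx_zero : hx 0 = 0 := by
  unfold hx
  rw [g2_zero]
  unfold cx
  norm_num

theorem hx_nonneg {x : ℝ} (h : 0 ≤ x) : 0 ≤ hx x := by
  rw [← hx_zero]; exact hx_mono h

theorem hx_34_le : hx (3 / 4) ≤ 5095 / 10000 := by
  unfold hx
  rw [g2_34, cx_34]
  have h2 : √2 * √2 = 2 := Real.mul_self_sqrt (by norm_num)
  have h3 : 14142 / 10000 ≤ √2 := by
    rw [Real.le_sqrt' (by norm_num)]; norm_num
  have h4 := inv_pi_le
  have h5 := inv_pi_ge'
  have h6 : (-(√2 / 2)) ^ 3 = -(√2 / 4) := by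
    have : √2 ^ 3 = 2 * √2 := by rw [pow_succ, pow_two, h2]
    linear_combination (-1 / 8) * this
  rw [h6]
  have e : (2 / 3 - -(√2 / 2) + -(√2 / 4) / 3) / Real.pi
      = (2 / 3 + 5 / 12 * √2) * (2 * (1 / (2 * Real.pi))) := by
    have hp := Real.pi_ne_zero
    field_simp
    ring
  rw [e]
  nlinarith

theorem hx_le {x : ℝ} (h0 : 0 ≤ x) (h1 : x ≤ 3 / 4) : hx x ≤ 2 * sx x ^ 3 := by
  rcases le_total (1 / 4) x with h | h
  · have h2 := (hx_mono h1).trans hx_34_le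
    have h3 := sx_ge h h1
    have h4 : (707 / 1000 : ℝ) ^ 3 ≤ sx x ^ 3 := pow_le_pow_left₀ (by norm_num) h3 3
    norm_num at h4
    linarith
  · have := mono_of_nonneg (f := fun x => 2 * sx x ^ 3 - hx x)
      (f' := fun x => 2 * (3 * sx x ^ 2 * (Real.pi * cx x)) - (2 * sx x ^ 2 - sx x ^ 3)) h0
      (fun t _ => by
        have h1 := (((hasDerivAt_sx t).pow 3).const_mul 2).sub (hasDerivAt_hx t)
        refine h1.congr_deriv ?_
        push_cast
        ring) (fun t ht => by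
        have h2 := cx_ge ht.1.le (ht.2.le.trans h)
        have h3 := sx_nonneg (x := t) ht.1.le (by linarith [ht.2])
        have h4 := Real.pi_gt_three
        have h5 : 2 ≤ Real.pi * cx t := by nlinarith
        have h6 : 0 ≤ sx t ^ 2 * (6 * (Real.pi * cx t) - 2 + sx t) :=
          mul_nonneg (sq_nonneg _) (by linarith)
        show 0 ≤ 2 * (3 * sx t ^ 2 * (Real.pi * cx t)) - (2 * sx t ^ 2 - sx t ^ 3)
        nlinarith)
    have e0 : 2 * sx 0 ^ 3 - hx 0 = 0 := by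
      rw [hx_zero]; unfold sx; simp
    simp only [e0] at this
    linarith

end Pool.Agent.CyGN.Capt
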