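import Pool.Agent.CyGN.CaptF

set_option autoImplicit false

/-!
# Capture and expulsion, part G: bounds in the captured state
-/

namespace Pool.Agent.CyGN.Capt

open Set Filter Topology

/-- A function with positive derivative at `t` is larger just after `t`. -/
theorem lt_right {f : ℝ → ℝ} {f' t : ℝ} (h : HasDerivAt f f' t) (hpos : 0 < f') :
    ∀ᶠ r in 𝓝[>] t, f t < f r := by
  have h1 := hasDerivAt_iff_tendsto_slope.1 h
  have h2 : ∀ᶠ r in 𝓝[≠] t, 0 < slope f t r := h1.eventually (lt_mem_nhds hpos)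
  have h3 : ∀ᶠ r in 𝓝[>] t, 0 < slope f t r :=
    h2.filter_mono (nhdsWithin_mono _ fun r hr => ne_of_gt hr)
  filter_upwards [h3, self_mem_nhdsWithin] with r hr hr'
  rw [slope_def_field] at hr
  have h4 : 0 < r - t := sub_pos.2 hr'
  have h5 := mul_pos hr h4
  rw [div_mul_cancel₀ _ h4.ne'] at h5
  linarith

namespace Prof

variable (p : Prof)

theorem Px_le {x y : ℝ} (hy : 2 ≤ y) (h0 : 3 / 4 ≤ x) (h1 : x ≤ 1) : p.Px x y ≤ -(222 / 100) := by
  have h2 := cx_le h0 h1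
  have h3 := Real.pi_gt_d4
  have h4 := p.A_pos hy
  have h5 : 0 ≤ 3 / 2 * p.A y * sx x ^ 2 := by positivity
  have h6 : Real.pi * cx x ≤ -(222 / 100) := by nlinarith
  unfold Px
  nlinarith

theorem P_le_34 {x y : ℝ} (hy : 2 ≤ y) (h0 : 3 / 4 ≤ x) (h1 : x ≤ 1) : p.P x y ≤ 111 / 100 := by
  have h2 := sx_le_of h0 h1
  have h3 := sx_sq_le_half h0 h1
  have h4 := p.A_pos hy
  have h5 := p.A_le hy
  have h6 := sx_nonneg (x := x) (by linarith) h1
  have h7 : p.w1 x y ≤ 25 / 16 := by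
    unfold w1; nlinarith [sq_nonneg (sx x)]
  have h8 := p.w1_ge (x := x) hy
  unfold P
  nlinarith

theorem E_le {x y : ℝ} (hy : 2 ≤ y) (h0 : 0 ≤ x) (h1 : x ≤ 1) : p.E x y ≤ 10005 := by
  have h2 := p.bt_le hy
  have h3 := p.bt_pos hy
  have h4 := p.P_le hy h0 h1
  have h5 := p.P_nonneg hy h0 h1
  unfold E
  nlinarith

end Prof

namespace Orb

variable {p : Prof} {x y q η : ℝ → ℝ}

namespace Good

variable {t : ℝ}

theorem E_le (g : Good p x y q η t) : p.E (x t) (y t) ≤ 10005 := p.E_le g.hy g.x0.le g.x1.le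

theorem up_le (g : Good p x y q η t) : Up p x y q t ≤ 17 / 4 := by
  have h1 := g.q_le
  have h2 := p.P_le g.hy g.x0.le g.x1.le
  unfold Up; linarith

theorem um_le (g : Good p x y q η t) : Um p x y q t ≤ 17 / 4 := by
  have h1 := g.q_ge
  have h2 := p.P_le g.hy g.x0.le g.x1.le
  unfold Um; linarith

theorem yE_ge (g : Good p x y q η t) :
    999 / 1000 * p.bt (y t) ≤ η t + p.a (y t) * sx (x t) ^ 2 * q t := by
  have := (abs_le.1 (abs_auq_le g.hy g.x0 g.x1 g.abs_q_le)).1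
  linarith [g.eta]

theorem eta_le (g : Good p x y q η t) (o : Orb p x y q η) : η t ≤ 10003 / 100 := by
  have h1 := o.en t g.hy
  have h2 := g.E_le
  have h3 := g.eta_pos
  by_contra hc
  push Not at hc
  nlinarith [sq_nonneg (q t)]

theorem yE_le (g : Good p x y q η t) (o : Orb p x y q η) :
    η t + p.a (y t) * sx (x t) ^ 2 * q t ≤ 101 := by
  have := (abs_le.1 (abs_auq_le g.hy g.x0 g.x1 g.abs_q_le)).2
  have h1 := g.eta_le o
  have h2 := p.bt_le g.hy
  linarith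

/-- `(η - β) |P_y| ≤ 10⁻⁶ U₋` -/
theorem eta_Py_m (g : Good p x y q η t) (o : Orb p x y q η) :
    (η t - p.bt (y t)) * -p.Py (x t) (y t) ≤ 1 / 1000000 * Um p x y q t := by
  have hb := g.bt_pos
  have h1 : (η t - p.bt (y t)) * (η t + p.bt (y t)) = Up p x y q t * Um p x y q t := by
    have := o.K_eq_U g.hy
    unfold K at this
    linarith
  have h2 := g.up_le
  have h3 := g.um
  have h4 := g.up
  have h5 := g.eta
  have h6 : (η t - p.bt (y t)) * (2 * p.bt (y t)) ≤ 17 / 4 * Um p x y q t := by nlinarith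
  have h7 : -p.Py (x t) (y t) * p.bt (y t) ≤ 35 / 1000000000 * p.bt (y t) ^ 2 := by
    have e : -p.Py (x t) (y t) * p.bt (y t) = 1 / 2 * p.Q (y t) * sx (x t) ^ 3 := by
      rw [p.Q_eq]; unfold Prof.Py; ring
    rw [e]
    have h8 := p.Q_nonneg g.hy
    have h9 := p.Q_le_sq g.hy
    have h10 : sx (x t) ^ 3 ≤ 1 :=
      pow_le_one₀ (sx_nonneg g.x0.le g.x1.le) (sx_le_one _)
    nlinarith
  have h11 : 0 ≤ -p.Py (x t) (y t) := by linarith [p.Py_nonpos g.hy g.x0.le g.x1.le]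
  have h12 : 0 ≤ η t - p.bt (y t) := by linarith
  have h13 : (η t - p.bt (y t)) * (2 * p.bt (y t)) * (-p.Py (x t) (y t) * p.bt (y t))
      ≤ (17 / 4 * Um p x y q t) * (35 / 1000000000 * p.bt (y t) ^ 2) :=
    mul_le_mul h6 h7 (mul_nonneg h11 hb.le) (by linarith)
  have h14 : ((η t - p.bt (y t)) * -p.Py (x t) (y t)) * p.bt (y t) ^ 2
      ≤ (1 / 1000000 * Um p x y q t) * p.bt (y t) ^ 2 := by
    have : 0 ≤ Um p x y q t * p.bt (y t) ^ 2 := by positivity
    nlinarith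
  exact le_of_mul_le_mul_right h14 (pow_pos hb 2)

theorem src_m (g : Good p x y q η t) (o : Orb p x y q η) :
    p.Q (y t) * sx (x t) ^ 2 * (1 - sx (x t) / 2) - 1 / 1000000 * Um p x y q t
      ≤ sx (x t) ^ 2 * p.Q (y t) + η t * p.Py (x t) (y t) := by
  have h1 := g.eta_Py_m o
  have h2 := p.uQ_add (x t) (y t)
  linarith

theorem src_p (g : Good p x y q η t) : 0 ≤ sx (x t) ^ 2 * p.Q (y t) - η t * p.Py (x t) (y t) := by
  have h1 := p.Py_nonpos g.hy g.x0.le g.x1.le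
  have h2 := p.Q_nonneg g.hy
  have h3 := g.eta_pos
  have h4 : 0 ≤ sx (x t) ^ 2 * p.Q (y t) := by positivity
  nlinarith

theorem auPy (g : Good p x y q η t) :
    |p.a (y t) * sx (x t) ^ 2 * p.Py (x t) (y t)| ≤ 1 / 1000000 := by
  have h5 := p.a_le g.hy
  have h6 := p.a_pos g.hy
  have h4 := Prof.sx_sq_le (x t)
  have h7 := p.neg_Py_le g.hy g.x0.le g.x1.le
  have h8 := p.Py_nonpos g.hy g.x0.le g.x1.le
  rw [abs_mul, abs_mul, abs_of_pos h6, abs_of_nonneg (sq_nonneg _), abs_of_nonpos h8]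
  calc p.a (y t) * sx (x t) ^ 2 * -p.Py (x t) (y t)
      ≤ (226 / 10000) * 1 * (4 / 1000000) :=
        mul_le_mul (mul_le_mul h5 h4 (sq_nonneg _) (by norm_num)) h7 (by linarith) (by norm_num)
    _ ≤ _ := by norm_num

theorem uaU (g : Good p x y q η t) {V : ℝ} (h0 : 0 ≤ V) (h1 : V ≤ 17 / 4) :
    |sx (x t) ^ 2 * p.ap (y t) * V| ≤ 1 / 1000000 := by
  have h3 := p.abs_ap_le g.hy
  have h4 := Prof.sx_sq_le (x t)
  rw [abs_mul, abs_mul, abs_of_nonneg (sq_nonneg _), abs_of_nonneg h0]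
  calc sx (x t) ^ 2 * |p.ap (y t)| * V ≤ 1 * (1 / 10000000) * (17 / 4) :=
        mul_le_mul (mul_le_mul h4 h3 (abs_nonneg _) (by norm_num)) h1 h0 (by norm_num)
    _ ≤ _ := by norm_num

theorem cm_ge (g : Good p x y q η t) (h : 3 / 4 ≤ x t) : 221 / 100 ≤ cm p x y q t := by
  have h1 := p.Px_le g.hy h g.x1.le
  have h2 := (abs_le.1 g.auPy).2
  have h3 := (abs_le.1 (g.uaU g.up g.up_le)).2
  unfold cm; linarith

theorem cp_le (g : Good p x y q η t) (h : 3 / 4 ≤ x t) : cp p x y q t ≤ -(221 / 100) := by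
  have h1 := p.Px_le g.hy h g.x1.le
  have h2 := (abs_le.1 g.auPy).2
  have h3 := (abs_le.1 (g.uaU g.um g.um_le)).2
  unfold cp; linarith

end Good

/-- The derivative of `m = -K`. -/
noncomputable def dm (p : Prof) (x y q η : ℝ → ℝ) (t : ℝ) : ℝ :=
  2 * sx (x t) ^ 2 / p.E (x t) (y t) * (q t * (p.Q (y t) - p.ap (y t) * -K p y η t)
      - 1 / 2 * -p.Ap (y t) * sx (x t) ^ 2 * p.w1 (x t) (y t) * η t)

theorem hasDerivAt_m (o : Orb p x y q η) {t : ℝ} (h : 2 ≤ y t) :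
    HasDerivAt (fun t => -K p y η t) (dm p x y q η t) t := by
  refine (o.dK h).neg.congr_deriv ?_
  unfold dm Prof.X
  ring

/-- The derivative of `q`. -/
theorem dq' (o : Orb p x y q η) {t : ℝ} (h : 2 ≤ y t) : HasDerivAt q
    (((cp p x y q t * Up p x y q t - cm p x y q t * Um p x y q t) / 2
      - sx (x t) ^ 2 * p.Q (y t)) / p.E (x t) (y t)) t := by
  have h1 := ((o.dUp' h).sub (o.dUm' h)).div_const 2
  have e : (fun t => (Up p x y q - Um p x y q) t / 2) = q := by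
    funext t; simp only [Pi.sub_apply]; unfold Up Um; ring
  rw [e] at h1
  exact h1.congr_deriv (by ring)

end Orb

end Pool.Agent.CyGN.Capt
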