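import Pool.Agent.CyGN.CaptG

set_option autoImplicit false

/-!
# Capture and expulsion, part H: the second phase, `3/4 ≤ x < 1`
-/

namespace Pool.Agent.CyGN.Capt

open Set Filter Topology

namespace Orb

variable {p : Prof} {x y q η : ℝ → ℝ}

/-- Captured for ever. -/
structure Ever (p : Prof) (x y q η : ℝ → ℝ) (a : ℝ) : Prop where
  good : ∀ t, a ≤ t → Good p x y q η t
  upos : ∀ t, a ≤ t → 0 < Up p x y q t

namespace Ever

variable {a : ℝ}

theorem mono (e : Ever p x y q η a) {b : ℝ} (h : a ≤ b) : Ever p x y q η b :=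
  ⟨fun t ht => e.good t (h.trans ht), fun t ht => e.upos t (h.trans ht)⟩

theorem y_lt (e : Ever p x y q η a) (o : Orb p x y q η) {s t : ℝ} (hs : a ≤ s) (hst : s < t) :
    y s < y t := by
  refine strict_of_pos hst (fun r hr => o.dy r (e.good r (hs.trans hr.1)).hy) (fun r hr => ?_)
  have g := e.good r (hs.trans hr.1.le)
  exact div_pos (by linarith [g.yE_ge, g.bt_pos]) g.E_pos

theorem y_le (e : Ever p x y q η a) (o : Orb p x y q η) {s t : ℝ} (hs : a ≤ s) (hst : s ≤ t) :
    y s ≤ y t := by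
  rcases eq_or_lt_of_le hst with h | h
  · rw [h]
  · exact (e.y_lt o hs h).le

theorem y_gt (e : Ever p x y q η a) (o : Orb p x y q η) {t : ℝ} (ht : a < t) : 2 < y t :=
  (e.good a le_rfl).hy.trans_lt (e.y_lt o le_rfl ht)

theorem dx_le (e : Ever p x y q η a) {t : ℝ} (ht : a ≤ t) : |q t| ≤ 17 / 8 := by
  have g := e.good t ht
  exact g.abs_q_le.trans (p.P_le g.hy g.x0.le g.x1.le)

/-- `U₋` grows while `x ≥ 3/4`. -/
theorem um_growth (e : Ever p x y q η a) (o : Orb p x y q η) {t : ℝ} (ht : a ≤ t)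
    (hx : 3 / 4 ≤ x t) : 22 / 10 * Um p x y q t + p.Q (y t) * sx (x t) ^ 2 * (1 - sx (x t) / 2)
      ≤ cm p x y q t * Um p x y q t + (sx (x t) ^ 2 * p.Q (y t) + η t * p.Py (x t) (y t)) := by
  have g := e.good t ht
  have h1 := g.cm_ge hx
  have h2 := g.src_m o
  have h3 := g.um
  nlinarith

theorem src_pos (e : Ever p x y q η a) (o : Orb p x y q η) {t : ℝ} (ht : a < t) :
    0 < p.Q (y t) * sx (x t) ^ 2 * (1 - sx (x t) / 2) := by
  have g := e.good t ht.le
  have h1 := p.Q_pos (e.y_gt o ht)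
  have h2 := sx_pos g.x0 g.x1
  have h3 := sx_le_one (x t)
  have h4 : 0 < 1 - sx (x t) / 2 := by linarith
  positivity

theorem exists_lt (e : Ever p x y q η a) (o : Orb p x y q η) : ∃ t, a ≤ t ∧ x t < 3 / 4 := by
  by_contra hc
  push Not at hc
  have hd : ∀ t, a ≤ t → HasDerivAt (Um p x y q)
    ((cm p x y q t * Um p x y q t + (sx (x t) ^ 2 * p.Q (y t) + η t * p.Py (x t) (y t)))
      / p.E (x t) (y t)) t := fun t ht => o.dUm' (e.good t ht).hy
  have h1 : 0 < Um p x y q (a + 1) := by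
    refine (e.good a le_rfl).um.trans_lt (strict_of_pos (by linarith) (fun t ht => hd t ht.1) ?_)
    intro t ht
    have g := e.good t ht.1.le
    have h2 := e.um_growth o ht.1.le (hc t ht.1.le)
    have h3 := e.src_pos o ht.1
    have h4 := g.um
    exact div_pos (by linarith) g.E_pos
  have hmono : ∀ t, a + 1 ≤ t → Um p x y q (a + 1) ≤ Um p x y q t := by
    intro t ht
    refine mono_of_nonneg ht (fun r hr => hd r (by linarith [hr.1])) ?_
    intro r hr
    have har : a < r := by linarith [hr.1]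
    have g := e.good r har.le
    have h2 := e.um_growth o har.le (hc r har.le)
    have h3 := e.src_pos o har
    have h4 := g.um
    exact div_nonneg (by linarith) g.E_pos.le
  obtain ⟨t, ht, hL⟩ := exists_ge_of_deriv_ge (f := Um p x y q) (a := a + 1)
    (c := 22 / 10 * Um p x y q (a + 1) / 10005) (by positivity)
    (fun t ht => hd t (by linarith)) (fun t ht => by
      have har : a < t := by linarith
      have g := e.good t har.le
      have h2 := e.um_growth o har.le (hc t har.le)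
      have h3 := e.src_pos o har
      have h4 := hmono t ht
      have h5 := g.E_le
      rw [div_le_div_iff₀ (by norm_num) g.E_pos]
      have h6 : 22 / 10 * Um p x y q (a + 1) ≤ cm p x y q t * Um p x y q t
        + (sx (x t) ^ 2 * p.Q (y t) + η t * p.Py (x t) (y t)) := by linarith
      exact mul_le_mul h6 h5 g.E_pos.le (by linarith)) 5
  have := (e.good t (by linarith)).um_le
  linarith

/-- The exit of the second phase. -/
theorem exit34 (e : Ever p x y q η a) (o : Orb p x y q η) (hxa : 3 / 4 ≤ x a) :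
    ∃ b, a ≤ b ∧ x b = 3 / 4 ∧ q b ≤ 0 ∧ ∀ t ∈ Icc a b, 3 / 4 ≤ x t := by
  obtain ⟨t₀, ht₀, hxt₀⟩ := e.exists_lt o
  let S : Set ℝ := {t | a ≤ t ∧ x t < 3 / 4}
  have hne : S.Nonempty := ⟨t₀, ht₀, hxt₀⟩
  have hbd : BddBelow S := ⟨a, fun t ht => ht.1⟩
  have hab : a ≤ sInf S := le_csInf hne fun t ht => ht.1
  have hbefore : ∀ t, a ≤ t → t < sInf S → 3 / 4 ≤ x t := by
    intro t h1 h2
    by_contra h3
    push Not at h3
    exact absurd (csInf_le hbd (show t ∈ S from ⟨h1, h3⟩)) (not_le.2 h2)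
  have hxb : 3 / 4 ≤ x (sInf S) := by
    rcases eq_or_lt_of_le hab with h | h
    · rw [← h]; exact hxa
    · have := closed_left (F := fun t => x t - 3 / 4) h (o.cx.sub continuous_const).continuousAt
        (fun r hr => by have := hbefore r hr.1 hr.2; show 0 ≤ x r - 3 / 4; linarith)
      linarith
  have hS : ∀ d > 0, ∃ t ∈ S, t < sInf S + d := fun d hd => exists_lt_of_csInf_lt hne (by linarith)
  have hSb : ∀ t ∈ S, sInf S < t := by
    intro t ht
    rcases eq_or_lt_of_le (csInf_le hbd ht) with h | h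
    · exfalso
      have := ht.2
      rw [← h] at this
      linarith
    · exact h
  have key : ∀ (R : ℝ → Prop), (∀ᶠ r in 𝓝[>] (sInf S), R r) → ∃ t ∈ S, R t := by
    intro R hR
    obtain ⟨u, hu, hsub⟩ := mem_nhdsGT_iff_exists_Ioo_subset.1 hR
    obtain ⟨t, htS, htu⟩ := hS (u - sInf S) (by have : sInf S < u := hu; linarith)
    exact ⟨t, htS, hsub ⟨hSb t htS, by linarith⟩⟩
  refine ⟨sInf S, hab, ?_, ?_, ?_⟩
  · refine le_antisymm ?_ hxb
    by_contra hc
    push Not at hc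
    obtain ⟨t, htS, ht⟩ := key (fun r => 3 / 4 < x r)
      ((o.cx.continuousAt.eventually (lt_mem_nhds hc)).filter_mono nhdsWithin_le_nhds)
    linarith [htS.2]
  · by_contra hc
    push Not at hc
    have g := e.good _ hab
    obtain ⟨t, htS, ht⟩ := key (fun r => x (sInf S) < x r)
      (lt_right (o.dx _ g.hy) (div_pos hc g.E_pos))
    linarith [htS.2]
  · intro t ht
    rcases lt_or_eq_of_le ht.2 with h | h
    · exact hbefore t ht.1 h
    · rw [h]; exact hxb

/-- `U₊` decays while `x ≥ 3/4`. -/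
theorem up_decay (e : Ever p x y q η a) (o : Orb p x y q η) {b : ℝ} (hab : a ≤ b)
    (hx : ∀ t ∈ Icc a b, 3 / 4 ≤ x t) :
    Up p x y q b * Real.exp (y b / 50) ≤ Up p x y q a * Real.exp (y a / 50) := by
  refine anti_of_nonpos (f := fun t => Up p x y q t * Real.exp (y t / 50)) hab
    (fun t ht => (o.dUp' (e.good t ht.1).hy).mul (((o.dy t (e.good t ht.1).hy).div_const 50).exp))
    ?_
  intro t ht
  have g := e.good t ht.1.le
  have h1 := g.cp_le (hx t ⟨ht.1.le, ht.2.le⟩)
  have h2 := g.src_p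
  have h3 := g.yE_le o
  have h4 := e.upos t ht.1.le
  have h5 := g.E_pos
  have h6 := Real.exp_pos (y t / 50)
  have e1 : (cp p x y q t * Up p x y q t - (sx (x t) ^ 2 * p.Q (y t) - η t * p.Py (x t) (y t)))
      / p.E (x t) (y t) * Real.exp (y t / 50)
      + Up p x y q t * (Real.exp (y t / 50)
        * ((η t + p.a (y t) * sx (x t) ^ 2 * q t) / p.E (x t) (y t) / 50))
      = Real.exp (y t / 50) / p.E (x t) (y t) * (cp p x y q t * Up p x y q t
        - (sx (x t) ^ 2 * p.Q (y t) - η t * p.Py (x t) (y t))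
        + Up p x y q t * (η t + p.a (y t) * sx (x t) ^ 2 * q t) / 50) := by
    field_simp
  rw [e1]
  refine mul_nonpos_of_nonneg_of_nonpos (by positivity) ?_
  nlinarith

/-- `q` decreases while `x ≥ 3/4`. -/
theorem q_anti (e : Ever p x y q η a) (o : Orb p x y q η) {s t : ℝ} (has : a ≤ s) (hst : s ≤ t)
    (hx : ∀ r ∈ Icc s t, 3 / 4 ≤ x r) : q t ≤ q s := by
  refine anti_of_nonpos hst (fun r hr => o.dq' (e.good r (has.trans hr.1)).hy) ?_
  intro r hr
  have g := e.good r (has.trans hr.1.le)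
  have h1 := g.cp_le (hx r ⟨hr.1.le, hr.2.le⟩)
  have h2 := g.cm_ge (hx r ⟨hr.1.le, hr.2.le⟩)
  have h3 := g.up
  have h4 := g.um
  have h5 := p.Q_nonneg g.hy
  have h6 : 0 ≤ sx (x r) ^ 2 * p.Q (y r) := by positivity
  refine div_nonpos_of_nonpos_of_nonneg ?_ g.E_pos.le
  nlinarith

theorem half_nonneg (e : Ever p x y q η a) {t : ℝ} (ht : a ≤ t) :
    0 ≤ 1 / 2 * -p.Ap (y t) * sx (x t) ^ 2 * p.w1 (x t) (y t) * η t := by
  have g := e.good t ht
  have h1 := p.Ap_nonpos g.hy
  have h2 := p.w1_ge (x := x t) g.hy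
  have h3 := g.eta_pos
  have h4 : 0 ≤ -p.Ap (y t) := by linarith
  have h5 : 0 ≤ p.w1 (x t) (y t) := by linarith
  positivity

theorem exp_le_one {x : ℝ} (h : 0 ≤ x) : Real.exp (-(1 / 10000000 * g2 x)) ≤ 1 := by
  have h1 : 0 ≤ g2 x := by rw [← g2_zero]; exact g2_mono h
  rw [Real.exp_le_one_iff]
  linarith

/-- The energy gain while `q ≥ 0`. -/
theorem m_q_nonneg (e : Ever p x y q η a) (o : Orb p x y q η) {c Qm : ℝ} (hac : a ≤ c)
    (hq : ∀ t ∈ Icc a c, 0 ≤ q t) (hQ : ∀ t ∈ Icc a c, p.Q (y t) ≤ Qm) (hQm : 0 ≤ Qm) :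
    -K p y η c * Real.exp (-(1 / 10000000 * g2 (x c))) - Qm * g2 (x c)
      ≤ -K p y η a * Real.exp (-(1 / 10000000 * g2 (x a))) - Qm * g2 (x a) := by
  have hg : ∀ t ∈ Icc a c, HasDerivAt (fun t => g2 (x t))
      (2 * sx (x t) ^ 2 * (q t / p.E (x t) (y t))) t := fun t ht =>
    (hasDerivAt_g2 (x t)).comp t (o.dx t (e.good t ht.1).hy)
  refine anti_of_nonpos
    (f := fun t => -K p y η t * Real.exp (-(1 / 10000000 * g2 (x t))) - Qm * g2 (x t)) hac
    (fun t ht => ((o.hasDerivAt_m (e.good t ht.1).hy).mul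
      ((hg t ht).const_mul (1 / 10000000)).neg.exp).sub ((hg t ht).const_mul Qm)) ?_
  intro t ht
  have hI : t ∈ Icc a c := ⟨ht.1.le, ht.2.le⟩
  have g := e.good t hI.1
  have hE := g.E_pos
  have hh := e.half_nonneg hI.1
  have hm := g.K_nonpos
  have ha := (abs_le.1 (p.abs_ap_le g.hy)).1
  have hex := Real.exp_pos (-(1 / 10000000 * g2 (x t)))
  have hex1 := exp_le_one g.x0.le
  have hq' := hq t hI
  have hQ' := hQ t hI
  unfold dm
  generalize hex' : Real.exp (-(1 / 10000000 * g2 (x t))) = ex at *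
  generalize 1 / 2 * -p.Ap (y t) * sx (x t) ^ 2 * p.w1 (x t) (y t) * η t = hf at *
  generalize K p y η t = KK at *
  generalize p.Q (y t) = QQ at *
  generalize p.ap (y t) = ap at *
  have e1 : 2 * sx (x t) ^ 2 / p.E (x t) (y t) * (q t * (QQ - ap * -KK) - hf) * ex
      + -KK * (ex * -(1 / 10000000 * (2 * sx (x t) ^ 2 * (q t / p.E (x t) (y t)))))
      - Qm * (2 * sx (x t) ^ 2 * (q t / p.E (x t) (y t)))
      = 2 * sx (x t) ^ 2 / p.E (x t) (y t)
        * (ex * (q t * (QQ - ap * -KK) - hf - 1 / 10000000 * q t * -KK) - Qm * q t) := by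
    field_simp
    ring
  rw [e1]
  refine mul_nonpos_of_nonneg_of_nonpos (by positivity) ?_
  have h1 : q t * (QQ - ap * -KK) - hf - 1 / 10000000 * q t * -KK ≤ q t * Qm := by
    have h2 : QQ - ap * -KK - 1 / 10000000 * -KK ≤ Qm := by nlinarith
    have h3 := mul_le_mul_of_nonneg_left h2 hq'
    nlinarith
  have h4 : ex * (q t * (QQ - ap * -KK) - hf - 1 / 10000000 * q t * -KK) ≤ ex * (q t * Qm) :=
    mul_le_mul_of_nonneg_left h1 hex.le
  have h5 : ex * (q t * Qm) ≤ 1 * (q t * Qm) :=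
    mul_le_mul_of_nonneg_right hex1 (mul_nonneg hq' hQm)
  linarith

/-- The energy loss while `q ≤ 0`. -/
theorem m_q_nonpos (e : Ever p x y q η a) (o : Orb p x y q η) {c b : ℝ} (hac : a ≤ c) (hcb : c ≤ b)
    (hq : ∀ t ∈ Icc c b, q t ≤ 0) :
    -K p y η b * Real.exp (1 / 10000000 * g2 (x b))
      ≤ -K p y η c * Real.exp (1 / 10000000 * g2 (x c)) := by
  have hg : ∀ t ∈ Icc c b, HasDerivAt (fun t => g2 (x t))
      (2 * sx (x t) ^ 2 * (q t / p.E (x t) (y t))) t := fun t ht =>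
    (hasDerivAt_g2 (x t)).comp t (o.dx t (e.good t (hac.trans ht.1)).hy)
  refine anti_of_nonpos
    (f := fun t => -K p y η t * Real.exp (1 / 10000000 * g2 (x t))) hcb
    (fun t ht => (o.hasDerivAt_m (e.good t (hac.trans ht.1)).hy).mul
      ((hg t ht).const_mul (1 / 10000000)).exp) ?_
  intro t ht
  have hI : t ∈ Icc c b := ⟨ht.1.le, ht.2.le⟩
  have g := e.good t (hac.trans hI.1)
  have hE := g.E_pos
  have hh := e.half_nonneg (hac.trans hI.1)
  have hm := g.K_nonpos
  have ha := (abs_le.1 (p.abs_ap_le g.hy)).2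
  have hex := Real.exp_pos (1 / 10000000 * g2 (x t))
  have hq' := hq t hI
  have hQ' := p.Q_nonneg g.hy
  unfold dm
  generalize hex' : Real.exp (1 / 10000000 * g2 (x t)) = ex at *
  generalize 1 / 2 * -p.Ap (y t) * sx (x t) ^ 2 * p.w1 (x t) (y t) * η t = hf at *
  generalize K p y η t = KK at *
  generalize p.Q (y t) = QQ at *
  generalize p.ap (y t) = ap at *
  have e1 : 2 * sx (x t) ^ 2 / p.E (x t) (y t) * (q t * (QQ - ap * -KK) - hf) * ex
      + -KK * (ex * (1 / 10000000 * (2 * sx (x t) ^ 2 * (q t / p.E (x t) (y t)))))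
      = 2 * sx (x t) ^ 2 / p.E (x t) (y t)
        * (ex * (q t * (QQ - ap * -KK) - hf + 1 / 10000000 * q t * -KK)) := by
    field_simp
  rw [e1]
  refine mul_nonpos_of_nonneg_of_nonpos (by positivity) ?_
  refine mul_nonpos_of_nonneg_of_nonpos hex.le ?_
  have h2 : 0 ≤ QQ - ap * -KK + 1 / 10000000 * -KK := by nlinarith
  have h3 := mul_nonneg_of_nonpos_of_nonpos (show -(-q t) ≤ 0 by linarith)
    (show -(QQ - ap * -KK + 1 / 10000000 * -KK) ≤ 0 by linarith)
  nlinarith

end Ever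

end Orb

end Pool.Agent.CyGN.Capt
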