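import Pool.Agent.CyGN.CaptH

set_option autoImplicit false

/-!
# Capture and expulsion, part I: numbers of the second phase
-/

namespace Pool.Agent.CyGN.Capt

open Set Filter Topology

theorem exp_small : Real.exp (2 / 10000000) ≤ 1 + 1 / 1000000 := by
  have h1 := Real.add_one_le_exp (-(2 / 10000000 : ℝ))
  have h2 : Real.exp (2 / 10000000) * Real.exp (-(2 / 10000000 : ℝ)) = 1 := by
    rw [← Real.exp_add]; simp
  have h3 := Real.exp_pos (2 / 10000000 : ℝ)
  nlinarith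

namespace Orb

variable {p : Prof} {x y q η : ℝ → ℝ}

namespace Ever

variable {a : ℝ}

theorem exists_turn (e : Ever p x y q η a) (o : Orb p x y q η) {b : ℝ} (hab : a ≤ b)
    (hx : ∀ t ∈ Icc a b, 3 / 4 ≤ x t) (hqb : q b ≤ 0) :
    ∃ c, a ≤ c ∧ c ≤ b ∧ (∀ t ∈ Icc a c, 0 ≤ q t ∨ c = a) ∧ ∀ t ∈ Icc c b, q t ≤ 0 := by
  rcases le_or_gt (q a) 0 with h | h
  · refine ⟨a, le_rfl, hab, fun t _ => Or.inr rfl, fun t ht => ?_⟩
    exact (e.q_anti o le_rfl ht.1 (fun r hr => hx r ⟨hr.1, hr.2.trans ht.2⟩)).trans h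
  · obtain ⟨c, hc, hqc⟩ := intermediate_value_Icc' hab o.cq.continuousOn
      (show (0 : ℝ) ∈ Icc (q b) (q a) from ⟨hqb, h.le⟩)
    refine ⟨c, hc.1, hc.2, fun t ht => Or.inl ?_, fun t ht => ?_⟩
    · rw [← hqc]
      exact e.q_anti o ht.1 ht.2 (fun r hr => hx r ⟨ht.1.trans hr.1, hr.2.trans hc.2⟩)
    · rw [← hqc]
      exact e.q_anti o hc.1 ht.1 (fun r hr => hx r ⟨hc.1.trans hr.1, hr.2.trans ht.2⟩)

theorem g2_mem {x : ℝ} (h0 : 0 ≤ x) (h1 : x ≤ 1) : 0 ≤ g2 x ∧ g2 x ≤ 1 :=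
  ⟨by rw [← g2_zero]; exact g2_mono h0, by rw [← g2_one]; exact g2_mono h1⟩

theorem m_phase2 (e : Ever p x y q η a) (o : Orb p x y q η) {b Qm : ℝ} (hab : a ≤ b)
    (hx : ∀ t ∈ Icc a b, 3 / 4 ≤ x t) (hqb : q b ≤ 0)
    (hQ : ∀ t ∈ Icc a b, p.Q (y t) ≤ Qm) (hQm : 0 ≤ Qm) :
    -K p y η b ≤ (-K p y η a + 91 / 1000 * Qm) * (1 + 1 / 1000000) := by
  obtain ⟨c, hac, hcb, hq1, hq2⟩ := e.exists_turn o hab hx hqb
  have ga := e.good a le_rfl
  have gb := e.good b hab
  have gc := e.good c hac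
  have hma := ga.K_nonpos
  have hmb := gb.K_nonpos
  have hmc := gc.K_nonpos
  have h2 := e.m_q_nonpos o hac hcb hq2
  obtain ⟨ga0, ga1⟩ := g2_mem ga.x0.le ga.x1.le
  obtain ⟨gb0, gb1⟩ := g2_mem gb.x0.le gb.x1.le
  obtain ⟨gc0, gc1⟩ := g2_mem gc.x0.le gc.x1.le
  -- the second half
  have h3 : -K p y η b ≤ -K p y η c * Real.exp (1 / 10000000 * g2 (x c)) := by
    refine le_trans ?_ h2
    have : 1 ≤ Real.exp (1 / 10000000 * g2 (x b)) := Real.one_le_exp (by positivity)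
    nlinarith
  -- the first half
  have h4 : -K p y η c ≤ (-K p y η a + 91 / 1000 * Qm) * Real.exp (1 / 10000000 * g2 (x c)) := by
    rcases eq_or_lt_of_le hac with hca | hca
    · rw [← hca]
      have : 1 ≤ Real.exp (1 / 10000000 * g2 (x a)) := Real.one_le_exp (by positivity)
      nlinarith
    have h1 := e.m_q_nonneg o hac (fun t ht => (hq1 t ht).resolve_right hca.ne')
      (fun t ht => hQ t ⟨ht.1, ht.2.trans hcb⟩) hQm
    have h5 : g2 (x c) - g2 (x a) ≤ 91 / 1000 := by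
      have h6 := g2_mono (hx a ⟨le_rfl, hab⟩)
      rw [g2_34] at h6
      have := inv_pi_ge'
      linarith
    have h7 := exp_le_one ga.x0.le
    have h8 : -K p y η c * Real.exp (-(1 / 10000000 * g2 (x c))) ≤ -K p y η a + 91 / 1000 * Qm := by
      have h9 : -K p y η a * Real.exp (-(1 / 10000000 * g2 (x a))) ≤ -K p y η a := by nlinarith
      nlinarith
    have h10 := mul_le_mul_of_nonneg_right h8 (Real.exp_pos (1 / 10000000 * g2 (x c))).le
    rw [mul_assoc, ← Real.exp_add, neg_add_cancel, Real.exp_zero, mul_one] at h10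
    exact h10
  have h11 : 0 ≤ -K p y η a + 91 / 1000 * Qm := by nlinarith
  calc -K p y η b ≤ -K p y η c * Real.exp (1 / 10000000 * g2 (x c)) := h3
    _ ≤ ((-K p y η a + 91 / 1000 * Qm) * Real.exp (1 / 10000000 * g2 (x c)))
        * Real.exp (1 / 10000000 * g2 (x c)) :=
      mul_le_mul_of_nonneg_right h4 (Real.exp_pos _).le
    _ = (-K p y η a + 91 / 1000 * Qm) * Real.exp (2 / 10000000 * g2 (x c)) := by
      rw [mul_assoc, ← Real.exp_add]; ring_nf
    _ ≤ (-K p y η a + 91 / 1000 * Qm) * (1 + 1 / 1000000) := by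
      refine mul_le_mul_of_nonneg_left ?_ h11
      exact (Real.exp_le_exp.2 (by nlinarith)).trans exp_small

/-- Far exits. -/
theorem m_far (e : Ever p x y q η a) (o : Orb p x y q η) {b : ℝ} (hab : a ≤ b)
    (hx : ∀ t ∈ Icc a b, 3 / 4 ≤ x t) (hY : 1002 / 1000 * p.Y (y a) ≤ p.Y (y b)) :
    -K p y η b ≤ 7 / 10 * p.Q (y b) := by
  have ga := e.good a le_rfl
  have gb := e.good b hab
  have h1 := e.up_decay o hab hx
  have h2 := ga.up_le
  have h3 := gb.um_le
  have h4 := gb.um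
  have h5 := e.upos b hab
  have hYa := p.Y_ge ga.hy
  have hYb := p.Y_ge gb.hy
  have hYY : p.Y (y b) - p.Y (y a) = y b - y a := by
    rw [p.Y_eq _ ga.hy, p.Y_eq _ gb.hy]; ring
  have hyb : 3 ≤ y b := by linarith [ga.hy]
  have hQ := p.Q_mul_Y_ge hyb
  set Yb := p.Y (y b) with hYb'
  have hv : Yb / 25050 ≤ (y b - y a) / 50 := by
    rw [← hYY]; linarith
  -- the decay of U₊
  have h6 : Up p x y q b * Real.exp (Yb / 25050) ≤ 17 / 4 := by
    have e1 : Real.exp (y b / 50) = Real.exp ((y b - y a) / 50) * Real.exp (y a / 50) := by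
      rw [← Real.exp_add]; ring_nf
    rw [e1, ← mul_assoc] at h1
    have h7 := le_of_mul_le_mul_right h1 (Real.exp_pos _)
    have h8 := Real.exp_le_exp.2 hv
    calc Up p x y q b * Real.exp (Yb / 25050) ≤ Up p x y q b * Real.exp ((y b - y a) / 50) :=
          mul_le_mul_of_nonneg_left h8 h5.le
      _ ≤ Up p x y q a := h7
      _ ≤ 17 / 4 := h2
  have h9 : -K p y η b = Up p x y q b * Um p x y q b := by rw [o.K_eq_U gb.hy]; ring
  have h10 := Real.pow_div_factorial_le_exp (Yb / 25050) (by positivity) 6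
  have h11 : Up p x y q b * Yb ^ 6 ≤ 17 / 4 * (720 * 25050 ^ 6) := by
    have e2 : (Yb / 25050) ^ 6 / (Nat.factorial 6 : ℝ) = Yb ^ 6 / (720 * 25050 ^ 6) := by
      rw [div_pow, div_div]; norm_num [Nat.factorial]
    rw [e2] at h10
    have h12 : Up p x y q b * (Yb ^ 6 / (720 * 25050 ^ 6)) ≤ 17 / 4 :=
      (mul_le_mul_of_nonneg_left h10 h5.le).trans h6
    rw [← mul_div_assoc, div_le_iff₀ (by norm_num)] at h12
    exact h12
  have hYpos : 0 < Yb := by linarith
  have h13 : Up p x y q b * Yb ^ 5 * 1000000 ≤ 17 / 4 * (720 * 25050 ^ 6) := by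
    refine le_trans ?_ h11
    have : 0 ≤ Up p x y q b * Yb ^ 5 := by positivity
    have e3 : Up p x y q b * Yb ^ 6 = Up p x y q b * Yb ^ 5 * Yb := by ring
    rw [e3]
    nlinarith
  have h14 : -K p y η b * Yb ^ 5 ≤ 7 / 10 * p.Q (y b) * Yb ^ 5 := by
    rw [h9]
    have h15 : Up p x y q b * Um p x y q b * Yb ^ 5 ≤ 17 / 4 * (Up p x y q b * Yb ^ 5) := by
      have : 0 ≤ Up p x y q b * Yb ^ 5 := by positivity
      nlinarith
    norm_num at h13 hQ ⊢
    nlinarith
  exact le_of_mul_le_mul_right h14 (pow_pos hYpos 5)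

/-- `Q` before a near exit. -/
theorem Q_near (e : Ever p x y q η a) (o : Orb p x y q η) {b : ℝ}
    (hY : p.Y (y b) ≤ 1002 / 1000 * p.Y (y a)) :
    ∀ t ∈ Icc a b, p.Q (y t) ≤ 10101 / 10000 * p.Q (y b) := by
  intro t ht
  have gt := e.good t ht.1
  have ga := e.good a le_rfl
  have h1 := p.Q_mono gt.hy (e.y_le o ht.1 ht.2)
  have h2 := p.Y_mono ga.hy (e.y_le o le_rfl ht.1)
  have h3 : p.Y (y b) ≤ 1002 / 1000 * p.Y (y t) := by linarith
  have hYt := p.Y_pos gt.hy
  have hyb := (e.good b (ht.1.trans ht.2)).hy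
  have hYb := p.Y_pos hyb
  have hQb := p.Q_nonneg hyb
  have h4 : p.Y (y b) ^ 5 ≤ 10101 / 10000 * p.Y (y t) ^ 5 := by
    have := pow_le_pow_left₀ hYb.le h3 5
    have h6 : 0 < p.Y (y t) ^ 5 := by positivity
    rw [mul_pow] at this
    norm_num at this
    linarith
  have h5 : p.Q (y t) * p.Y (y t) ^ 5 ≤ 10101 / 10000 * p.Q (y b) * p.Y (y t) ^ 5 := by
    refine h1.trans ?_
    have := mul_le_mul_of_nonneg_left h4 hQb
    linarith
  exact le_of_mul_le_mul_right h5 (by positivity)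

/-- The state at the end of the second phase. -/
theorem m_exit (e : Ever p x y q η a) (o : Orb p x y q η) {b : ℝ} (hab : a ≤ b)
    (hx : ∀ t ∈ Icc a b, 3 / 4 ≤ x t) (hxb : x b = 3 / 4) (hqb : q b ≤ 0)
    (hs : -K p y η a ≤ 515 / 1000 * p.Q (y a) ∨
      (y a = 2 ∧ 999 / 1000 ≤ x a ∧ -K p y η a ≤ 7 / 1000000)) :
    -K p y η b ≤ 7 / 10 * p.Q (y b) := by
  have ga := e.good a le_rfl
  have gb := e.good b hab
  rcases le_total (1002 / 1000 * p.Y (y a)) (p.Y (y b)) with hY | hY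
  · exact e.m_far o hab hx hY
  have hQ := e.Q_near o hY
  have hQb := p.Q_nonneg gb.hy
  have h1 := e.m_phase2 o hab hx hqb hQ (by positivity)
  rcases hs with hs | ⟨hya, hxa, hs⟩
  · have h2 := hQ a ⟨le_rfl, hab⟩
    nlinarith
  · -- `y b ≥ 3`
    have hyb : 3 ≤ y b := by
      by_contra hc
      push Not at hc
      have h2 := mono_of_nonneg (f := fun t => y t + 80 * x t) hab
        (fun t ht => (o.dy t (e.good t ht.1).hy).add ((o.dx t (e.good t ht.1).hy).const_mul 80))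
        (fun t ht => by
          have g := e.good t ht.1.le
          have h3 := g.yE_ge
          have h4 := g.q_ge
          have h5 := p.P_le_34 g.hy (hx t ⟨ht.1.le, ht.2.le⟩) g.x1.le
          have h6 : y t ≤ 3 := (e.y_le o ht.1.le ht.2.le).trans hc.le
          have h7 : 99 ≤ p.bt (y t) := by
            have h8 : p.Y (y t) ≤ 1000003 := by
              rw [p.Y_eq _ g.hy]; linarith [p.Y_two_le]
            unfold Prof.bt
            rw [le_div_iff₀ (p.Y_pos g.hy)]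
            linarith
          have e1 : (η t + p.a (y t) * sx (x t) ^ 2 * q t) / p.E (x t) (y t)
            + 80 * (q t / p.E (x t) (y t))
            = (η t + p.a (y t) * sx (x t) ^ 2 * q t + 80 * q t) / p.E (x t) (y t) := by ring
          rw [e1]
          exact div_nonneg (by linarith) g.E_pos.le)
      simp only [hya, hxb] at h2
      linarith
    have h2 := p.Q_mul_Y_ge hyb
    have h3 : p.Y (y b) ≤ 1002003 := by
      rw [hya] at hY; linarith [p.Y_two_le]
    have h4 : p.Y (y b) ^ 5 ≤ 1002003 ^ 5 := pow_le_pow_left₀ (p.Y_pos gb.hy).le h3 5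
    have h5 : 59 / 100000 ≤ p.Q (y b) := by
      by_contra hc
      push Not at hc
      have h6 : p.Q (y b) * p.Y (y b) ^ 5 ≤ 59 / 100000 * 1002003 ^ 5 :=
        mul_le_mul hc.le h4 (pow_pos (p.Y_pos gb.hy) 5).le (by norm_num)
      norm_num at h6 h2
      linarith
    nlinarith

end Ever

end Orb

end Pool.Agent.CyGN.Capt
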