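import Pool.Agent.CyGN.CaptI

set_option autoImplicit false

/-!
# Capture and expulsion, part J: the first and the third phase
-/

namespace Pool.Agent.CyGN.Capt

open Set Filter Topology

/-- The continuation principle. -/
theorem bootstrap {f : ℝ → ℝ} {a T : ℝ} (hc : ContinuousOn f (Icc a T))
    (h : ∀ t ∈ Icc a T, (∀ r ∈ Ico a t, 0 < f r) → 0 < f t) : ∀ t ∈ Icc a T, 0 < f t := by
  by_contra hcon
  push Not at hcon
  obtain ⟨t, ht, hft⟩ := hcon
  let V : Set ℝ := Icc a T ∩ f ⁻¹' Iic 0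
  have hV : IsClosed V := hc.preimage_isClosed_of_isClosed isClosed_Icc isClosed_Iic
  have hne : V.Nonempty := ⟨t, ht, hft⟩
  have hbd : BddBelow V := ⟨a, fun r hr => hr.1.1⟩
  have hm := hV.csInf_mem hne hbd
  have := h _ hm.1 (fun r hr => by
    by_contra hc'
    push Not at hc'
    exact absurd (csInf_le hbd (show r ∈ V from ⟨⟨hr.1, hr.2.le.trans hm.1.2⟩, hc'⟩))
      (not_le.2 hr.2))
  exact absurd hm.2 (not_le.2 this)

namespace Orb

variable {p : Prof} {x y q η : ℝ → ℝ}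

namespace Ever

variable {a : ℝ}

theorem cont_m (e : Ever p x y q η a) (o : Orb p x y q η) {T : ℝ} :
    ContinuousOn (fun t => -K p y η t) (Icc a T) := fun t ht =>
  (o.hasDerivAt_m (e.good t ht.1).hy).continuousAt.continuousWithinAt

/-- The derivative of `m - 1.01 H Q` is nonpositive in the first phase. -/
theorem dL_nonpos (e : Ever p x y q η a) (o : Orb p x y q η) {t : ℝ} (ht : a ≤ t)
    (hx : x t ≤ 3 / 4) (h1 : -K p y η t ≤ sx (x t) ^ 2 / 10)
    (h2 : -K p y η t ≤ p.bt (y t) ^ 2 / 1000) (hq : 0 < q t) :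
    dm p x y q η t - 101 / 100 * ((2 * sx (x t) ^ 2 - sx (x t) ^ 3) * (q t / p.E (x t) (y t))
      * p.Q (y t) + Capt.hx (x t) * (p.Qp (y t) * ((η t + p.a (y t) * sx (x t) ^ 2 * q t)
        / p.E (x t) (y t)))) ≤ 0 := by
  have g := e.good t ht
  have hE := g.E_pos
  have hm := g.K_nonpos
  have hs0 := sx_pos g.x0 g.x1
  have hs1 := sx_le_one (x t)
  have hQ := p.Q_nonneg g.hy
  have hPs := p.P_ge_sx g.hy g.x0.le g.x1.le
  have hqP := g.q_le
  have hK := o.K_eq g.hy
  -- lower bound for `q`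
  have hq94 : 94 / 100 * sx (x t) ≤ q t := by
    by_contra hc
    push Not at hc
    nlinarith
  -- upper bound for the gain
  have hX : p.Q (y t) - p.ap (y t) * -K p y η t ≤ 1001 / 1000 * p.Q (y t) := by
    rcases le_total 0 (p.ap (y t)) with h | h
    · nlinarith
    · have h3 := p.neg_ap_le g.hy
      nlinarith
  have hA : sx (x t) ^ 2 * (q t * (p.Q (y t) - p.ap (y t) * -K p y η t))
      ≤ sx (x t) ^ 2 * (q t * (1001 / 1000 * p.Q (y t))) :=
    mul_le_mul_of_nonneg_left (mul_le_mul_of_nonneg_left hX hq.le) (sq_nonneg _)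
  -- the loss
  have hB : sx (x t) ^ 3 * q t * p.Q (y t) ≤ 2 * sx (x t) ^ 2
      * (1 / 2 * -p.Ap (y t) * sx (x t) ^ 2 * p.w1 (x t) (y t) * η t) := by
    have e1 : 2 * sx (x t) ^ 2 * (1 / 2 * -p.Ap (y t) * sx (x t) ^ 2 * p.w1 (x t) (y t) * η t)
        = sx (x t) ^ 3 * p.P (x t) (y t) * (-p.Ap (y t) * η t) := by
      unfold Prof.P; ring
    rw [e1]
    have h3 : p.Q (y t) ≤ -p.Ap (y t) * η t := by
      rw [p.Q_eq]
      have := p.Ap_nonpos g.hy
      have := g.eta
      nlinarith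
    exact mul_le_mul (mul_le_mul_of_nonneg_left hqP (by positivity)) h3 hQ (by
      have := g.P_pos
      positivity)
  -- the drift of `Q`
  have hC : -(104 / 100000 * (sx (x t) ^ 3 * p.Q (y t)))
      ≤ Capt.hx (x t) * (p.Qp (y t) * (η t + p.a (y t) * sx (x t) ^ 2 * q t)) := by
    have h3 := p.Qp_ge g.hy
    have h4 := g.yE_le o
    have h5 := g.yE_ge
    have h6 := g.bt_pos
    have h7 := hx_le g.x0.le hx
    have h8 := hx_nonneg g.x0.le
    have h9 := p.Y_ge g.hy
    have h10 : -(51 / 10000000 * p.Q (y t)) ≤ p.Qp (y t) := by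
      refine le_trans ?_ h3
      rw [neg_le_neg_iff, div_le_iff₀ (p.Y_pos g.hy)]
      nlinarith
    have h11 : -(51 / 100000 * (101 / 100) * p.Q (y t))
        ≤ p.Qp (y t) * (η t + p.a (y t) * sx (x t) ^ 2 * q t) := by
      have h12 : 0 ≤ η t + p.a (y t) * sx (x t) ^ 2 * q t := by linarith
      nlinarith
    have h13 : Capt.hx (x t) * (51 / 100000 * (101 / 100) * p.Q (y t))
        ≤ 2 * sx (x t) ^ 3 * (51 / 100000 * (101 / 100) * p.Q (y t)) :=
      mul_le_mul_of_nonneg_right h7 (by positivity)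
    have h14 := mul_le_mul_of_nonneg_left h11 h8
    nlinarith [mul_nonneg (pow_nonneg hs0.le 3) hQ]
  -- assembly
  have hsqQ : 0 ≤ sx (x t) ^ 2 * q t * p.Q (y t) := by positivity
  have hD : sx (x t) ^ 3 * q t * p.Q (y t) ≤ sx (x t) ^ 2 * q t * p.Q (y t) := by
    have e1 : sx (x t) ^ 3 * q t * p.Q (y t) = sx (x t) * (sx (x t) ^ 2 * q t * p.Q (y t)) := by
      ring
    rw [e1]
    nlinarith
  have hF : 94 / 100 * (sx (x t) ^ 3 * p.Q (y t)) ≤ sx (x t) ^ 2 * q t * p.Q (y t) := by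
    have e1 : 94 / 100 * (sx (x t) ^ 3 * p.Q (y t))
        = (94 / 100 * sx (x t)) * (sx (x t) ^ 2 * p.Q (y t)) := by ring
    have e2 : sx (x t) ^ 2 * q t * p.Q (y t) = q t * (sx (x t) ^ 2 * p.Q (y t)) := by ring
    rw [e1, e2]
    exact mul_le_mul_of_nonneg_right hq94 (by positivity)
  have hS : 0 ≤ sx (x t) ^ 3 * p.Q (y t) := by positivity
  have e3 : dm p x y q η t - 101 / 100 * ((2 * sx (x t) ^ 2 - sx (x t) ^ 3)
      * (q t / p.E (x t) (y t))
      * p.Q (y t) + Capt.hx (x t) * (p.Qp (y t) * ((η t + p.a (y t) * sx (x t) ^ 2 * q t)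
        / p.E (x t) (y t))))
      = (2 * (sx (x t) ^ 2 * (q t * (p.Q (y t) - p.ap (y t) * -K p y η t)))
        - 2 * sx (x t) ^ 2 * (1 / 2 * -p.Ap (y t) * sx (x t) ^ 2 * p.w1 (x t) (y t) * η t)
        - 101 / 100 * (2 * (sx (x t) ^ 2 * q t * p.Q (y t)) - sx (x t) ^ 3 * q t * p.Q (y t))
        - 101 / 100 * (Capt.hx (x t) * (p.Qp (y t) * (η t + p.a (y t) * sx (x t) ^ 2 * q t))))
        / p.E (x t) (y t) := by
    unfold dm
    field_simp
    ring
  rw [e3]
  refine div_nonpos_of_nonpos_of_nonneg ?_ hE.le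
  nlinarith

/-- The first phase. -/
theorem boot1 (e : Ever p x y q η a) (o : Orb p x y q η) {T : ℝ}
    (hx : ∀ t ∈ Icc a T, x t ≤ 3 / 4) (hK : K p y η a = 0) (hqa : 0 < q a) :
    ∀ t ∈ Icc a T, 94 / 100 * sx (x t) ≤ q t ∧
      -K p y η t ≤ 101 / 100 * (Capt.hx (x t) * p.Q (y t)) := by
  -- monotonicity of `L`
  have hL : ∀ t ∈ Icc a T, (∀ r ∈ Ico a t, -K p y η r < sx (x r) ^ 2 / 10 ∧
      -K p y η r < p.bt (y r) ^ 2 / 1000 ∧ 0 < q r) →
      -K p y η t ≤ 101 / 100 * (Capt.hx (x t) * p.Q (y t)) := by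
    intro t ht hr
    have h1 := anti_of_nonpos
      (f := fun t => -K p y η t - 101 / 100 * (Capt.hx (x t) * p.Q (y t))) ht.1
      (fun r hr' => (o.hasDerivAt_m (e.good r hr'.1).hy).sub
        ((((hasDerivAt_hx (x r)).comp r (o.dx r (e.good r hr'.1).hy)).mul
          ((p.dQ (e.good r hr'.1).hy).comp r (o.dy r (e.good r hr'.1).hy))).const_mul (101 / 100)))
      (fun r hr' => by
        obtain ⟨k1, k2, k3⟩ := hr r ⟨hr'.1.le, hr'.2⟩
        exact e.dL_nonpos o hr'.1.le (hx r ⟨hr'.1.le, hr'.2.le.trans ht.2⟩) k1.le k2.le k3)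
    have ga := e.good a le_rfl
    have h2 := hx_nonneg ga.x0.le
    have h3 := p.Q_nonneg ga.hy
    have h4 : 0 ≤ Capt.hx (x a) * p.Q (y a) := mul_nonneg h2 h3
    simp only [hK] at h1
    linarith
  -- the strict inequalities
  have hS : ∀ t ∈ Icc a T, -K p y η t ≤ 101 / 100 * (Capt.hx (x t) * p.Q (y t)) → 0 ≤ q t →
      -K p y η t < sx (x t) ^ 2 / 10 ∧ -K p y η t < p.bt (y t) ^ 2 / 1000 ∧ 0 < q t ∧
        94 / 100 * sx (x t) ≤ q t := by
    intro t ht hm hq
    have g := e.good t ht.1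
    have hs0 := sx_pos g.x0 g.x1
    have hs1 := sx_le_one (x t)
    have hQ := p.Q_nonneg g.hy
    have hQ1 := p.Q_le g.hy
    have hQ2 := p.Q_le_sq g.hy
    have hb := g.bt_pos
    have h7 := hx_le g.x0.le (hx t ht)
    have hPs := p.P_ge_sx g.hy g.x0.le g.x1.le
    have hKq := o.K_eq g.hy
    have h8 : Capt.hx (x t) * p.Q (y t) ≤ 2 * sx (x t) ^ 3 * p.Q (y t) :=
      mul_le_mul_of_nonneg_right h7 hQ
    have hs3 : sx (x t) ^ 3 ≤ sx (x t) ^ 2 := by nlinarith [sq_nonneg (sx (x t))]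
    have hs2 : sx (x t) ^ 2 ≤ 1 := Prof.sx_sq_le _
    have hs2' : 0 < sx (x t) ^ 2 := by positivity
    have hs3' : 0 < sx (x t) ^ 3 := by positivity
    have k1 : -K p y η t < sx (x t) ^ 2 / 10 := by
      have : 2 * sx (x t) ^ 3 * p.Q (y t) ≤ 2 * sx (x t) ^ 3 * (7 / 10000) :=
        mul_le_mul_of_nonneg_left hQ1 (by positivity)
      linarith
    have k2 : -K p y η t < p.bt (y t) ^ 2 / 1000 := by
      have h9 : 2 * sx (x t) ^ 3 * p.Q (y t) ≤ 2 * 1 * (7 / 100000000 * p.bt (y t) ^ 2) :=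
        mul_le_mul (by linarith) hQ2 hQ (by norm_num)
      have : 0 < p.bt (y t) ^ 2 := by positivity
      linarith
    have k3 : 94 / 100 * sx (x t) ≤ q t := by
      by_contra hc
      push Not at hc
      nlinarith
    exact ⟨k1, k2, by nlinarith, k3⟩
  have hb := bootstrap
    (f := fun t => min (sx (x t) ^ 2 / 10 - -K p y η t)
      (min (p.bt (y t) ^ 2 / 1000 - -K p y η t) (q t))) (a := a) (T := T) (by
      have c1 := e.cont_m o (T := T)
      have c2 : ContinuousOn (fun t => sx (x t) ^ 2 / 10) (Icc a T) := by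
        have : Continuous sx := continuous_iff_continuousAt.2 fun x => (hasDerivAt_sx x).continuousAt
        exact (((this.comp o.cx).pow 2).div_const 10).continuousOn
      have c3 : ContinuousOn (fun t => p.bt (y t) ^ 2 / 1000) (Icc a T) := fun t ht =>
        ((((p.dbt (e.good t ht.1).hy).comp t (o.dy t (e.good t ht.1).hy)).continuousAt.pow
          2).div_const 1000).continuousWithinAt
      exact (c2.sub c1).inf ((c3.sub c1).inf o.cq.continuousOn)) (by
      intro t ht hr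
      have hr' : ∀ r ∈ Ico a t, -K p y η r < sx (x r) ^ 2 / 10 ∧
          -K p y η r < p.bt (y r) ^ 2 / 1000 ∧ 0 < q r := by
        intro r hr1
        have h1 := hr r hr1
        simp only [lt_min_iff] at h1
        exact ⟨by linarith [h1.1], by linarith [h1.2.1], h1.2.2⟩
      have h2 := hL t ht hr'
      have h3 : 0 ≤ q t := by
        rcases eq_or_lt_of_le ht.1 with h | h
        · rw [← h]; exact hqa.le
        · exact closed_left h o.cq.continuousAt (fun r hr1 => (hr' r hr1).2.2.le)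
      obtain ⟨k1, k2, k3, k4⟩ := hS t ht h2 h3
      simp only [lt_min_iff]
      exact ⟨by linarith, by linarith, k3⟩)
  intro t ht
  have hr' : ∀ r ∈ Icc a T, -K p y η r < sx (x r) ^ 2 / 10 ∧
      -K p y η r < p.bt (y r) ^ 2 / 1000 ∧ 0 < q r := by
    intro r hr1
    have h1 := hb r hr1
    simp only [lt_min_iff] at h1
    exact ⟨by linarith [h1.1], by linarith [h1.2.1], h1.2.2⟩
  have h2 := hL t ht (fun r hr => hr' r ⟨hr.1, hr.2.le.trans ht.2⟩)
  obtain ⟨k1, k2, k3, k4⟩ := hS t ht h2 (hr' t ht).2.2.le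
  exact ⟨k4, h2⟩

theorem sx_ge_half {u v : ℝ} (h0 : 0 < u) (huv : u ≤ v) (hv : v ≤ 3 / 4) : u / 2 ≤ sx v := by
  rcases le_total (1 / 4) v with h | h
  · have := sx_ge h hv
    linarith
  · have h1 := Real.mul_le_sin (x := Real.pi * v) (by have := Real.pi_pos; nlinarith)
      (by have := Real.pi_pos; nlinarith)
    have e1 : 2 / Real.pi * (Real.pi * v) = 2 * v := by
      have := Real.pi_ne_zero
      field_simp
    rw [e1] at h1
    unfold sx
    linarith

/-- The first phase ends at `x = 3/4` with `m ≤ 0.515 Q`. -/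
theorem phase1 (e : Ever p x y q η a) (o : Orb p x y q η)
    (hxa : x a < 3 / 4) (hK : K p y η a = 0) (hqa : 0 < q a) :
    ∃ c, a ≤ c ∧ x c = 3 / 4 ∧ -K p y η c ≤ 515 / 1000 * p.Q (y c) := by
  have hex : ∃ t, a ≤ t ∧ 3 / 4 ≤ x t := by
    by_contra hc
    push Not at hc
    have h1 : ∀ T, a ≤ T → 94 / 100 * sx (x T) ≤ q T := fun T hT =>
      (e.boot1 o (T := T) (fun t ht => (hc t ht.1).le) hK hqa T ⟨hT, le_rfl⟩).1
    have ga := e.good a le_rfl
    have h2 : ∀ T, a ≤ T → x a ≤ x T := by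
      intro T hT
      refine mono_of_nonneg hT (fun t ht => o.dx t (e.good t ht.1).hy) (fun t ht => ?_)
      have g := e.good t ht.1.le
      have := h1 t ht.1.le
      have := sx_pos g.x0 g.x1
      exact div_nonneg (by linarith) g.E_pos.le
    obtain ⟨t, ht, hL⟩ := exists_ge_of_deriv_ge (f := x) (a := a)
      (c := 94 / 100 * (x a / 2) / 10005) (by have := ga.x0; positivity)
      (fun t ht => o.dx t (e.good t ht).hy) (fun t ht => by
        have g := e.good t ht
        have h3 := h1 t ht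
        have h4 := sx_ge_half ga.x0 (h2 t ht) (hc t ht).le
        have h5 := ga.x0
        have h6 : 94 / 100 * (x a / 2) ≤ q t := by linarith
        rw [div_le_div_iff₀ (by norm_num) g.E_pos]
        exact mul_le_mul h6 g.E_le g.E_pos.le (by linarith)) 1
    have := hc t ht
    linarith
  obtain ⟨t₀, ht₀, hxt₀⟩ := hex
  obtain ⟨c, hcB, hac, hbef⟩ := exists_first (B := {t | 3 / 4 ≤ x t}) (a := a)
    (isClosed_le continuous_const o.cx) ⟨t₀, hxt₀, ht₀⟩
  have hcB' : 3 / 4 ≤ x c := hcB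
  have hbef' : ∀ r, a ≤ r → r < c → x r < 3 / 4 := fun r h1 h2 => not_le.1 (hbef r h1 h2)
  have hac' : a < c := by
    rcases eq_or_lt_of_le hac with h | h
    · rw [← h] at hcB'; linarith
    · exact h
  have hxc : x c = 3 / 4 := by
    refine le_antisymm ?_ hcB'
    have := closed_left (F := fun t => 3 / 4 - x t) hac' (continuous_const.sub o.cx).continuousAt
      (fun r hr => by have := hbef' r hr.1 hr.2; show 0 ≤ 3 / 4 - x r; linarith)
    linarith
  refine ⟨c, hac, hxc, ?_⟩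
  have h1 := (e.boot1 o (T := c) (fun t ht => by
    rcases lt_or_eq_of_le ht.2 with h | h
    · exact (hbef' t ht.1 h).le
    · rw [h]; exact hxc.le) hK hqa c ⟨hac, le_rfl⟩).2
  rw [hxc] at h1
  have h2 := hx_34_le
  have h3 := p.Q_nonneg (e.good c hac).hy
  nlinarith

end Ever

end Orb

end Pool.Agent.CyGN.Capt
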