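import Pool.Agent.CyGN.CaptJ

set_option autoImplicit false

/-!
# Capture and expulsion, part K: the third phase and the expulsion
-/

namespace Pool.Agent.CyGN.Capt

open Set Filter Topology

namespace Orb

variable {p : Prof} {x y q η : ℝ → ℝ}

namespace Ever

variable {a : ℝ}

theorem q_lt3 (e : Ever p x y q η a) (o : Orb p x y q η) {t : ℝ} (ht : a ≤ t)
    (h1 : 1 / 4 ≤ x t) (h3 : x t ≤ 3 / 4) (hm : -K p y η t ≤ 3 / 4 * p.Q (y a)) (hq : q t ≤ 0) :
    q t ≤ -(7 / 10) := by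
  have g := e.good t ht
  have hQ := p.Q_le (e.good a le_rfl).hy
  have hPs := p.P_ge_sx g.hy g.x0.le g.x1.le
  have hs := sx_ge h1 h3
  have hK := o.K_eq g.hy
  by_contra hc
  push Not at hc
  nlinarith

theorem boot3 (e : Ever p x y q η a) (o : Orb p x y q η) {T : ℝ}
    (hx : ∀ t ∈ Icc a T, 1 / 4 ≤ x t) (hxa : x a = 3 / 4) (hqa : q a ≤ 0)
    (hm : -K p y η a ≤ 7 / 10 * p.Q (y a)) (hQa : 0 < p.Q (y a)) :
    ∀ t ∈ Icc a T, q t ≤ -(7 / 10) ∧
      -K p y η t ≤ -K p y η a + 98 / 100 * p.Q (y a) * (g2 (x t) - g2 (3 / 4)) := by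
  have ga := e.good a le_rfl
  -- `x` decreases
  have hX : ∀ t ∈ Icc a T, (∀ r ∈ Ico a t, q r < 0) → x t ≤ 3 / 4 := by
    intro t ht hr
    rw [← hxa]
    refine anti_of_nonpos ht.1 (fun r hr' => o.dx r (e.good r hr'.1).hy) (fun r hr' => ?_)
    exact div_nonpos_of_nonpos_of_nonneg (hr r ⟨hr'.1.le, hr'.2⟩).le (e.good r hr'.1.le).E_pos.le
  have hS : ∀ t ∈ Icc a T, (∀ r ∈ Ico a t, -K p y η r < 3 / 4 * p.Q (y a) ∧ q r < 0) →
      x t ≤ 3 / 4 ∧
      -K p y η t ≤ -K p y η a + 98 / 100 * p.Q (y a) * (g2 (x t) - g2 (3 / 4)) := by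
    intro t ht hr
    have hXt := hX t ht (fun r hr' => (hr r hr').2)
    have hXr : ∀ r ∈ Ico a t, x r ≤ 3 / 4 := fun r hr' =>
      hX r ⟨hr'.1, hr'.2.le.trans ht.2⟩ (fun s hs => (hr s ⟨hs.1, hs.2.trans hr'.2⟩).2)
    have hq : ∀ r ∈ Ico a t, q r ≤ -(7 / 10) := fun r hr' =>
      e.q_lt3 o hr'.1 (hx r ⟨hr'.1, hr'.2.le.trans ht.2⟩) (hXr r hr') (hr r hr').1.le
        (hr r hr').2.le
    have hy145 : ∀ r ∈ Ico a t, y r + 145 * x r ≤ y a + 145 * x a := by
      intro r hr'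
      refine anti_of_nonpos (f := fun t => y t + 145 * x t) hr'.1
        (fun s hs => (o.dy s (e.good s hs.1).hy).add ((o.dx s (e.good s hs.1).hy).const_mul 145))
        (fun s hs => ?_)
      have g := e.good s hs.1.le
      have h1 := g.yE_le o
      have h2 := hq s ⟨hs.1.le, hs.2.trans hr'.2⟩
      have e1 : (η s + p.a (y s) * sx (x s) ^ 2 * q s) / p.E (x s) (y s)
        + 145 * (q s / p.E (x s) (y s))
        = (η s + p.a (y s) * sx (x s) ^ 2 * q s + 145 * q s) / p.E (x s) (y s) := by ring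
      rw [e1]
      exact div_nonpos_of_nonpos_of_nonneg (by linarith) g.E_pos.le
    have hXX : ∀ r ∈ Ico a t, 98 / 100 * p.Q (y a) ≤ p.Q (y r) - p.ap (y r) * -K p y η r := by
      intro r hr'
      have g := e.good r hr'.1
      have h1 := hy145 r hr'
      have h2 := hx r ⟨hr'.1, hr'.2.le.trans ht.2⟩
      rw [hxa] at h1
      have h3 : p.Y (y r) ≤ p.Y (y a) + 725 / 10 := by
        rw [p.Y_eq _ g.hy, p.Y_eq _ ga.hy]; linarith
      have h4 := p.Y_ge ga.hy
      have h5 : p.Y (y r) ≤ 100008 / 100000 * p.Y (y a) := by linarith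
      have h6 := pow_le_pow_left₀ (p.Y_pos g.hy).le h5 5
      have hYa : 0 < p.Y (y a) ^ 5 := pow_pos (p.Y_pos ga.hy) 5
      have h7 : p.Y (y r) ^ 5 ≤ 1001 / 1000 * p.Y (y a) ^ 5 := by
        rw [mul_pow] at h6
        norm_num at h6
        linarith
      have h8 := p.Q_mono ga.hy (e.y_le o le_rfl hr'.1)
      have hQr := p.Q_nonneg g.hy
      have h9 : p.Q (y a) ≤ 1001 / 1000 * p.Q (y r) := by
        have h10 : p.Q (y a) * p.Y (y a) ^ 5 ≤ (1001 / 1000 * p.Q (y r)) * p.Y (y a) ^ 5 := by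
          refine h8.trans ?_
          have := mul_le_mul_of_nonneg_left h7 hQr
          linarith
        exact le_of_mul_le_mul_right h10 hYa
      have h11 := (abs_le.1 (p.abs_ap_le g.hy)).2
      have h12 := g.K_nonpos
      have h13 := (hr r hr').1
      have h14 : p.ap (y r) * -K p y η r ≤ 1 / 10000000 * -K p y η r :=
        mul_le_mul_of_nonneg_right h11 (by linarith)
      linarith
    refine ⟨hXt, ?_⟩
    have h1 := anti_of_nonpos
      (f := fun t => -K p y η t - 98 / 100 * p.Q (y a) * g2 (x t)) ht.1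
      (fun r hr' => (o.hasDerivAt_m (e.good r hr'.1).hy).sub
        (((hasDerivAt_g2 (x r)).comp r (o.dx r (e.good r hr'.1).hy)).const_mul
          (98 / 100 * p.Q (y a))))
      (fun r hr' => by
        have hI : r ∈ Ico a t := ⟨hr'.1.le, hr'.2⟩
        have g := e.good r hI.1
        have hE := g.E_pos
        have hh := e.half_nonneg hI.1
        have hXr' := hXX r hI
        have hqr := hq r hI
        unfold dm
        generalize 1 / 2 * -p.Ap (y r) * sx (x r) ^ 2 * p.w1 (x r) (y r) * η r = hf at *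
        have e1 : 2 * sx (x r) ^ 2 / p.E (x r) (y r)
              * (q r * (p.Q (y r) - p.ap (y r) * -K p y η r) - hf)
            - 98 / 100 * p.Q (y a) * (2 * sx (x r) ^ 2 * (q r / p.E (x r) (y r)))
            = 2 * sx (x r) ^ 2 / p.E (x r) (y r)
              * (q r * (p.Q (y r) - p.ap (y r) * -K p y η r) - hf
                - 98 / 100 * p.Q (y a) * q r) := by
          field_simp
        rw [e1]
        refine mul_nonpos_of_nonneg_of_nonpos (by positivity) ?_
        nlinarith)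
    simp only [hxa] at h1
    linarith
  have hfin : ∀ t ∈ Icc a T, (∀ r ∈ Ico a t, -K p y η r < 3 / 4 * p.Q (y a) ∧ q r < 0) →
      q t ≤ 0 → q t ≤ -(7 / 10) ∧ -K p y η t < 3 / 4 * p.Q (y a) ∧
      -K p y η t ≤ -K p y η a + 98 / 100 * p.Q (y a) * (g2 (x t) - g2 (3 / 4)) := by
    intro t ht hr hqt
    obtain ⟨h1, h2⟩ := hS t ht hr
    have h3 := g2_mono h1
    have h4 : -K p y η t < 3 / 4 * p.Q (y a) := by
      have : 98 / 100 * p.Q (y a) * (g2 (x t) - g2 (3 / 4)) ≤ 0 :=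
        mul_nonpos_of_nonneg_of_nonpos (by positivity) (by linarith)
      linarith
    exact ⟨e.q_lt3 o ht.1 (hx t ht) h1 h4.le hqt, h4, h2⟩
  have hb := bootstrap
    (f := fun t => min (3 / 4 * p.Q (y a) - -K p y η t) (-q t)) (a := a) (T := T)
    ((continuousOn_const.sub (e.cont_m o)).inf o.cq.neg.continuousOn) (by
      intro t ht hr
      have hr' : ∀ r ∈ Ico a t, -K p y η r < 3 / 4 * p.Q (y a) ∧ q r < 0 := by
        intro r hr1
        have h1 := hr r hr1
        simp only [lt_min_iff] at h1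
        exact ⟨by linarith [h1.1], by linarith [h1.2]⟩
      have h3 : q t ≤ 0 := by
        rcases eq_or_lt_of_le ht.1 with h | h
        · rw [← h]; exact hqa
        · have := closed_left (F := fun t => -q t) h o.cq.neg.continuousAt
            (fun r hr1 => by have := (hr' r hr1).2; show 0 ≤ -q r; linarith)
          linarith
      obtain ⟨k1, k2, k3⟩ := hfin t ht hr' h3
      simp only [lt_min_iff]
      exact ⟨by linarith, by linarith⟩)
  intro t ht
  have hr' : ∀ r ∈ Icc a T, -K p y η r < 3 / 4 * p.Q (y a) ∧ q r < 0 := by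
    intro r hr1
    have h1 := hb r hr1
    simp only [lt_min_iff] at h1
    exact ⟨by linarith [h1.1], by linarith [h1.2]⟩
  obtain ⟨k1, k2, k3⟩ := hfin t ht (fun r hr => hr' r ⟨hr.1, hr.2.le.trans ht.2⟩) (hr' t ht).2.le
  exact ⟨k1, k3⟩

/-- The third phase is impossible. -/
theorem phase3 (e : Ever p x y q η a) (o : Orb p x y q η)
    (hxa : x a = 3 / 4) (hqa : q a ≤ 0)
    (hm : -K p y η a ≤ 7 / 10 * p.Q (y a)) (hQa : 0 < p.Q (y a)) : False := by
  have hex : ∃ t, a ≤ t ∧ x t ≤ 1 / 4 := by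
    by_contra hc
    push Not at hc
    obtain ⟨t, ht, hL⟩ := exists_ge_of_deriv_ge (f := fun t => -x t) (a := a)
      (c := 7 / 10 / 10005) (by norm_num)
      (fun t ht => (o.dx t (e.good t ht).hy).neg) (fun t ht => by
        have g := e.good t ht
        have h3 := (e.boot3 o (T := t) (fun r hr => (hc r hr.1).le) hxa hqa hm hQa t
          ⟨ht, le_rfl⟩).1
        rw [← neg_div, div_le_div_iff₀ (by norm_num) g.E_pos]
        have := g.E_le
        have := g.E_pos
        nlinarith) 0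
    have := (e.good t ht).x0
    linarith
  obtain ⟨t₀, ht₀, hxt₀⟩ := hex
  obtain ⟨c, hcB, hac, hbef⟩ := exists_first (B := {t | x t ≤ 1 / 4}) (a := a)
    (isClosed_le o.cx continuous_const) ⟨t₀, hxt₀, ht₀⟩
  have hcB' : x c ≤ 1 / 4 := hcB
  have hbef' : ∀ r, a ≤ r → r < c → 1 / 4 < x r := fun r h1 h2 => not_le.1 (hbef r h1 h2)
  have hac' : a < c := by
    rcases eq_or_lt_of_le hac with h | h
    · rw [← h] at hcB'; linarith
    · exact h
  have hxc : x c = 1 / 4 := by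
    refine le_antisymm hcB' ?_
    have := closed_left (F := fun t => x t - 1 / 4) hac' (o.cx.sub continuous_const).continuousAt
      (fun r hr => by have := hbef' r hr.1 hr.2; show 0 ≤ x r - 1 / 4; linarith)
    linarith
  have h1 := (e.boot3 o (T := c) (fun t ht => by
    rcases lt_or_eq_of_le ht.2 with h | h
    · exact (hbef' t ht.1 h).le
    · rw [h]; exact hxc.ge) hxa hqa hm hQa c ⟨hac, le_rfl⟩).2
  rw [hxc, g2_34, g2_14] at h1
  have h2 := (e.good c hac).K_nonpos
  have h3 := inv_pi_ge'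
  nlinarith

/-- Nothing is captured for ever. -/
theorem false (e : Ever p x y q η a) (o : Orb p x y q η)
    (hs : (K p y η a = 0 ∧ 0 < q a) ∨
      (y a = 2 ∧ 999 / 1000 ≤ x a ∧ -K p y η a ≤ 7 / 1000000)) : False := by
  -- the start of the second phase
  have h1 : ∃ c, a ≤ c ∧ 3 / 4 ≤ x c ∧ (-K p y η c ≤ 515 / 1000 * p.Q (y c) ∨
      (y c = 2 ∧ 999 / 1000 ≤ x c ∧ -K p y η c ≤ 7 / 1000000)) := by
    rcases hs with ⟨hK, hq⟩ | h
    · rcases lt_or_ge (x a) (3 / 4) with h | h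
      · obtain ⟨c, h1, h2, h3⟩ := e.phase1 o h hK hq
        exact ⟨c, h1, h2.ge, Or.inl h3⟩
      · refine ⟨a, le_rfl, h, Or.inl ?_⟩
        rw [hK]
        have := p.Q_nonneg (e.good a le_rfl).hy
        linarith
    · exact ⟨a, le_rfl, by linarith [h.2.1], Or.inr h⟩
  obtain ⟨c, hac, hxc, hmc⟩ := h1
  have e' := e.mono hac
  obtain ⟨b, hcb, hxb, hqb, hx⟩ := e'.exit34 o hxc
  have hm := e'.m_exit o hcb hx hxb hqb hmc
  have e'' := e'.mono hcb
  -- `b > a`
  have hab : a < b := by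
    rcases eq_or_lt_of_le (hac.trans hcb) with h | h
    · exfalso
      have hca : c = a := le_antisymm (by rw [h]; exact hcb) hac
      rw [← h] at hxb hqb
      rcases hs with ⟨hK, hq⟩ | h'
      · linarith
      · linarith [h'.2.1]
    · exact h
  exact e''.phase3 o hxb hqb hm (p.Q_pos (e.y_gt o hab))

end Ever

/-- **Capture and expulsion.** -/
theorem expulsion (o : Orb p x y q η) {a : ℝ} (g : Good p x y q η a)
    (hs : (K p y η a = 0 ∧ 0 < q a) ∨
      (y a = 2 ∧ 999 / 1000 ≤ x a ∧ -K p y η a ≤ 7 / 1000000)) :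
    ∃ t, a ≤ t ∧ (∀ s ∈ Icc a t, Good p x y q η s) ∧ Up p x y q t = 0 := by
  have h1 : ∃ t, a ≤ t ∧ Up p x y q t ≤ 0 := by
    by_contra hc
    push Not at hc
    have e : Ever p x y q η a := by
      refine ⟨fun t ht => ?_, hc⟩
      exact o.good_on ht g (fun r hr => hc r hr.1) t ⟨ht, le_rfl⟩
    exact e.false o hs
  let S : Set ℝ := {t | a ≤ t ∧ Up p x y q t ≤ 0}
  have hne : S.Nonempty := h1
  have hbd : BddBelow S := ⟨a, fun t ht => ht.1⟩
  have hab : a ≤ sInf S := le_csInf hne fun t ht => ht.1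
  have hbefore : ∀ t, a ≤ t → t < sInf S → 0 < Up p x y q t := by
    intro t h1 h2
    by_contra h3
    push Not at h3
    exact absurd (csInf_le hbd (show t ∈ S from ⟨h1, h3⟩)) (not_le.2 h2)
  have hG := o.good_on hab g (fun r hr => hbefore r hr.1 hr.2)
  have gb := hG _ ⟨hab, le_rfl⟩
  refine ⟨sInf S, hab, hG, le_antisymm ?_ gb.up⟩
  by_contra hc
  push Not at hc
  have h2 : ∀ᶠ r in 𝓝 (sInf S), 0 < Up p x y q r :=
    (o.dUp gb.hy).continuousAt.eventually (lt_mem_nhds hc)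
  obtain ⟨l, u, hlu, hsub⟩ := mem_nhds_iff_exists_Ioo_subset.1 h2
  obtain ⟨t, htS, htu⟩ := exists_lt_of_csInf_lt hne hlu.2
  have h3 : t ∈ Ioo l u := ⟨hlu.1.trans_le (csInf_le hbd htS), htu⟩
  have h4 : 0 < Up p x y q t := hsub h3
  linarith [htS.2]

/-- The state after the expulsion. -/
theorem after (o : Orb p x y q η) {t : ℝ} (g : Good p x y q η t) (hU : Up p x y q t = 0) :
    ∃ d > 0, ∀ s ∈ Ioo t (t + d), 0 < K p y η s ∧ q s < 0 := by
  obtain ⟨d, hd, e, he, M, hM, hn⟩ := o.near g.hy g.x0 g.x1 g.eta g.abs_q_le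
  -- `-U₊ ≥ 0` persists
  have hcoef : ∀ r ∈ Icc t (t + d), |cp p x y q r| ≤ 15 + M := fun r hr =>
    abs_cp_le (hn r hr).1 (hn r hr).2.2.1 (hn r hr).2.2.2.1 (hn r hr).2.2.2.2.2.2.2
  have hd' : ∀ r ∈ Icc t (t + d), HasDerivAt (fun r => -Up p x y q r)
      (-((cp p x y q r * Up p x y q r - (sx (x r) ^ 2 * p.Q (y r) - η r * p.Py (x r) (y r)))
      / p.E (x r) (y r))) r := fun r hr => (o.dUp' (hn r hr).1).neg
  have hsrc : ∀ r ∈ Icc t (t + d),
      0 ≤ sx (x r) ^ 2 * p.Q (y r) - η r * p.Py (x r) (y r) ∧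
      (t < r → 0 < sx (x r) ^ 2 * p.Q (y r) - η r * p.Py (x r) (y r)) := by
    intro r hr
    obtain ⟨n1, n2, n3, n4, n5, n6, n7, n8⟩ := hn r hr
    have h1 := p.Py_nonpos n1 n3.le n4.le
    have h2 := p.Q_nonneg n1
    have h3 := sx_pos n3 n4
    have h4 : 0 ≤ -(η r * p.Py (x r) (y r)) := by nlinarith
    refine ⟨by have : 0 ≤ sx (x r) ^ 2 * p.Q (y r) := by positivity
               linarith, fun hlt => ?_⟩
    have h5 := p.Q_pos (n2 hlt)
    have : 0 < sx (x r) ^ 2 * p.Q (y r) := by positivity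
    linarith
  have hnn : ∀ r ∈ Icc t (t + d), 0 ≤ -Up p x y q r := by
    refine nonneg_persists (C := (15 + M) / e) hd' ?_ (by rw [hU]; simp)
    intro r hr hneg
    obtain ⟨n1, n2, n3, n4, n5, n6, n7, n8⟩ := hn r hr
    have h1 := (abs_le.1 (hcoef r hr)).2
    have h2 := (hsrc r hr).1
    have hE := p.E_pos (x r) n1
    have h3 : (15 + M) * -Up p x y q r ≤ -(cp p x y q r * Up p x y q r) := by nlinarith
    have h4 : (15 + M) / e * -Up p x y q r ≤ (15 + M) * -Up p x y q r / p.E (x r) (y r) := by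
      rw [div_mul_eq_mul_div, div_le_div_iff₀ he hE]
      have : (15 + M) * -Up p x y q r ≤ 0 := by nlinarith
      nlinarith
    refine h4.trans ?_
    rw [← neg_div]
    exact div_le_div_of_nonneg_right (by linarith) hE.le
  have hpos : ∀ r ∈ Ioc t (t + d), 0 < -Up p x y q r := by
    refine pos_after (C := (15 + M) / e) hd' ?_ (by rw [hU]; simp)
    intro r hr
    have hr' : r ∈ Icc t (t + d) := ⟨hr.1.le, hr.2.le⟩
    obtain ⟨n1, n2, n3, n4, n5, n6, n7, n8⟩ := hn r hr'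
    have h0 := hnn r hr'
    have h1 := (abs_le.1 (hcoef r hr')).1
    have h2 := (hsrc r hr').2 hr.1
    have hE := p.E_pos (x r) n1
    have h3 : -((15 + M) * -Up p x y q r) < -(cp p x y q r * Up p x y q r
        - (sx (x r) ^ 2 * p.Q (y r) - η r * p.Py (x r) (y r))) := by nlinarith
    have h4 : -((15 + M) / e) * -Up p x y q r
        ≤ -((15 + M) * -Up p x y q r) / p.E (x r) (y r) := by
      rw [neg_mul, neg_div, neg_le_neg_iff, div_mul_eq_mul_div, div_le_div_iff₀ hE he]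
      have : 0 ≤ (15 + M) * -Up p x y q r := mul_nonneg (by linarith) h0
      nlinarith
    refine h4.trans_lt ?_
    rw [← neg_div]
    exact div_lt_div_of_pos_right h3 hE
  -- `U₋ > 0` and `q < 0` nearby
  have hP := g.P_pos
  have hq : q t < 0 := by
    unfold Up at hU; linarith
  have hum : 0 < Um p x y q t := by
    unfold Um; linarith
  have e1 : ∀ᶠ r in 𝓝 t, q r < 0 := o.cq.continuousAt.eventually (gt_mem_nhds hq)
  have e2 : ∀ᶠ r in 𝓝 t, 0 < Um p x y q r :=
    (o.dUm g.hy).continuousAt.eventually (lt_mem_nhds hum)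
  obtain ⟨l, u, hlu, hsub⟩ := mem_nhds_iff_exists_Ioo_subset.1 (e1.and e2)
  refine ⟨min d (u - t), lt_min hd (by linarith [hlu.2]), fun s hs => ?_⟩
  have hs1 : s < t + d := hs.2.trans_le (by linarith [min_le_left d (u - t)])
  have hs2 : s < u := hs.2.trans_le (by linarith [min_le_right d (u - t)])
  have h1 := hsub (show s ∈ Ioo l u from ⟨hlu.1.trans hs.1, hs2⟩)
  have h2 := hpos s ⟨hs.1, hs1.le⟩
  have h3 := (hn s ⟨hs.1.le, hs1.le⟩).1
  refine ⟨?_, h1.1⟩
  rw [o.K_eq_U h3]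
  have := mul_pos h2 h1.2
  linarith

end Orb

end Pool.Agent.CyGN.Capt
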