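import Mathlib

set_option autoImplicit false

/-!
# Crossing lemmas for curves on the cylinder

A curve `(x(s), t(s))` with strictly monotone `x` which makes a turn of at least one full period
before and after a maximum (or minimum) of `t` crosses itself on the cylinder `(ℝ/ℤ) × ℝ`.
-/

namespace Pool.Agent.CyGN

open Set

/-- Chord form, `x` strictly increasing on `[a, b]`: if `t` at the point one turn later is not
smaller for the parameter `u` and not larger for the parameter `v`, then there is a pair of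
parameters exactly one turn apart with the same `t`. -/
theorem chord_up {x t : ℝ → ℝ} {a b : ℝ} (hx : ContinuousOn x (Icc a b))
    (ht : ContinuousOn t (Icc a b)) (hmono : StrictMonoOn x (Icc a b))
    {u u' v v' : ℝ} (hu : u ∈ Icc a b) (hu' : u' ∈ Icc a b) (hv : v ∈ Icc a b)
    (hv' : v' ∈ Icc a b) (hxu : x u' = x u + 1) (hxv : x v' = x v + 1)
    (h1 : t u ≤ t u') (h2 : t v' ≤ t v) :
    ∃ s ∈ Icc a b, ∃ s' ∈ Icc a b, s < s' ∧ x s' = x s + 1 ∧ t s' = t s := by
  have hab : a ≤ b := hu.1.trans hu.2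
  -- extend `x` to a homeomorphism of the line
  set X : ℝ → ℝ := fun s => x (projIcc a b hab s) + (s - projIcc a b hab s) with hX
  have hproj : Continuous fun s : ℝ => ((projIcc a b hab s : Icc a b) : ℝ) :=
    continuous_subtype_val.comp continuous_projIcc
  have hXc : Continuous X := by
    refine Continuous.add ?_ (continuous_id.sub hproj)
    exact (continuousOn_iff_continuous_domRestrict.1 hx).comp continuous_projIcc
  have hXin : ∀ s ∈ Icc a b, X s = x s := by
    intro s hs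
    simp only [hX, projIcc_of_mem hab hs]
    ring
  have hXmono : StrictMono X := by
    intro s s' hss
    have hp : projIcc a b hab s ≤ projIcc a b hab s' := monotone_projIcc hab hss.le
    have hp' : ((projIcc a b hab s : Icc a b) : ℝ) ≤ projIcc a b hab s' := hp
    rcases eq_or_lt_of_le hp' with h | h
    · have h3 : x (projIcc a b hab s) = x (projIcc a b hab s') := by rw [h]
      simp only [hX]
      rw [h3, h]
      linarith
    · have h3 := hmono (projIcc a b hab s).2 (projIcc a b hab s').2 h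
      have h4 : s - (projIcc a b hab s : ℝ) ≤ s' - projIcc a b hab s' := by
        simp only [coe_projIcc]
        rcases le_total s a with h5 | h5 <;> rcases le_total s b with h6 | h6 <;>
        rcases le_total s' a with h7 | h7 <;> rcases le_total s' b with h8 | h8 <;>
        simp [h5, h6, h7, h8, hab] <;> linarith
      simp only [hX]
      linarith
  have hXsurj : Function.Surjective X := by
    have htop : Filter.Tendsto X Filter.atTop Filter.atTop := by
      have : ∀ s, b ≤ s → X s = x b + (s - b) := by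
        intro s hs
        simp only [hX, projIcc_of_right_le hab hs]
      refine (Filter.tendsto_congr' ?_).2
        (Filter.tendsto_atTop_add_const_left _ (x b)
          (Filter.tendsto_atTop_add_const_right _ (-b) Filter.tendsto_id))
      filter_upwards [Filter.eventually_ge_atTop b] with s hs
      rw [this s hs]
      simp [sub_eq_add_neg]
    have hbot : Filter.Tendsto X Filter.atBot Filter.atBot := by
      have : ∀ s, s ≤ a → X s = x a + (s - a) := by
        intro s hs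
        simp only [hX, projIcc_of_le_left hab hs]
      refine (Filter.tendsto_congr' ?_).2
        (Filter.tendsto_atBot_add_const_left _ (x a)
          (Filter.tendsto_atBot_add_const_right _ (-a) Filter.tendsto_id))
      filter_upwards [Filter.eventually_le_atBot a] with s hs
      rw [this s hs]
      simp [sub_eq_add_neg]
    exact hXc.surjective htop hbot
  let Φ : ℝ ≃o ℝ := hXmono.orderIsoOfSurjective X hXsurj
  have hΦ : ∀ s, Φ s = X s := fun s => rfl
  have hΨc : Continuous Φ.symm := Φ.symm.continuous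
  have hΨ : ∀ s ∈ Icc a b, Φ.symm (x s) = s := by
    intro s hs
    rw [← hXin s hs, ← hΦ]
    exact Φ.symm_apply_apply s
  -- membership for values between two attained values
  have hmem : ∀ ξ, x a ≤ ξ → ξ ≤ x b → Φ.symm ξ ∈ Icc a b := by
    intro ξ h3 h4
    constructor
    · rw [← hΨ a ⟨le_rfl, hab⟩]
      exact Φ.symm.monotone h3
    · rw [← hΨ b ⟨hab, le_rfl⟩]
      exact Φ.symm.monotone h4
  have hxΨ : ∀ ξ, x a ≤ ξ → ξ ≤ x b → x (Φ.symm ξ) = ξ := by
    intro ξ h3 h4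
    rw [← hXin _ (hmem ξ h3 h4), ← hΦ]
    exact Φ.apply_symm_apply ξ
  have hxa : ∀ s ∈ Icc a b, x a ≤ x s := fun s hs => hmono.monotoneOn ⟨le_rfl, hab⟩ hs hs.1
  have hxb : ∀ s ∈ Icc a b, x s ≤ x b := fun s hs => hmono.monotoneOn hs ⟨hab, le_rfl⟩ hs.2
  -- the difference function
  set D : ℝ → ℝ := fun ξ => t (Φ.symm (ξ + 1)) - t (Φ.symm ξ) with hD
  have hseg : ∀ ξ ∈ uIcc (x u) (x v), x a ≤ ξ ∧ ξ + 1 ≤ x b := by
    intro ξ hξ
    rw [mem_uIcc] at hξ
    have e1 := hxa u hu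
    have e2 := hxa v hv
    have e3 := hxb u' hu'
    have e4 := hxb v' hv'
    rw [hxu] at e3
    rw [hxv] at e4
    rcases hξ with h | h <;> constructor <;> linarith [h.1, h.2]
  have hDc : ContinuousOn D (uIcc (x u) (x v)) := by
    refine ContinuousOn.sub ?_ ?_
    · refine ht.comp (hΨc.comp (continuous_id.add continuous_const)).continuousOn ?_
      intro ξ hξ
      obtain ⟨h3, h4⟩ := hseg ξ hξ
      exact hmem _ (by linarith) h4
    · refine ht.comp hΨc.continuousOn ?_
      intro ξ hξ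
      obtain ⟨h3, h4⟩ := hseg ξ hξ
      exact hmem _ h3 (by linarith)
  have hDu : 0 ≤ D (x u) := by
    simp only [hD]
    rw [← hxu, hΨ u' hu', hΨ u hu]
    linarith
  have hDv : D (x v) ≤ 0 := by
    simp only [hD]
    rw [← hxv, hΨ v' hv', hΨ v hv]
    linarith
  obtain ⟨ξ, hξ, hDξ⟩ : ∃ ξ ∈ uIcc (x u) (x v), D ξ = 0 := by
    have := intermediate_value_uIcc hDc
    have h0 : (0 : ℝ) ∈ uIcc (D (x u)) (D (x v)) := by
      rw [mem_uIcc]
      exact Or.inr ⟨hDv, hDu⟩
    obtain ⟨ξ, hξ, h⟩ := this h0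
    exact ⟨ξ, hξ, h⟩
  obtain ⟨h3, h4⟩ := hseg ξ hξ
  refine ⟨Φ.symm ξ, hmem ξ h3 (by linarith), Φ.symm (ξ + 1), hmem (ξ + 1) (by linarith) h4,
    Φ.symm.strictMono (by linarith), ?_, ?_⟩
  · rw [hxΨ (ξ + 1) (by linarith) h4, hxΨ ξ h3 (by linarith)]
  · have : t (Φ.symm (ξ + 1)) - t (Φ.symm ξ) = 0 := hDξ
    linarith

/-- Peak form, `x` strictly increasing. -/
theorem peak_up {x t : ℝ → ℝ} {a m b : ℝ} (hx : ContinuousOn x (Icc a b))
    (ht : ContinuousOn t (Icc a b)) (hmono : StrictMonoOn x (Icc a b)) (hm : m ∈ Icc a b)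
    (h1 : x a + 1 ≤ x m) (h2 : x m + 1 ≤ x b) (hpk : ∀ s ∈ Icc a b, t s ≤ t m) :
    ∃ s ∈ Icc a b, ∃ s' ∈ Icc a b, s < s' ∧ x s' = x s + 1 ∧ t s' = t s := by
  have hab : a ≤ b := hm.1.trans hm.2
  obtain ⟨u, hu, hxu⟩ : ∃ u ∈ Icc a m, x u = x m - 1 := by
    have := intermediate_value_Icc hm.1 (hx.mono (Icc_subset_Icc le_rfl hm.2))
    have h0 : x m - 1 ∈ Icc (x a) (x m) := ⟨by linarith, by linarith⟩
    obtain ⟨u, hu, h⟩ := this h0
    exact ⟨u, hu, h⟩
  obtain ⟨v', hv', hxv'⟩ : ∃ v' ∈ Icc m b, x v' = x m + 1 := by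
    have := intermediate_value_Icc hm.2 (hx.mono (Icc_subset_Icc hm.1 le_rfl))
    have h0 : x m + 1 ∈ Icc (x m) (x b) := ⟨by linarith, by linarith⟩
    obtain ⟨u, hu, h⟩ := this h0
    exact ⟨u, hu, h⟩
  have hu' : u ∈ Icc a b := ⟨hu.1, hu.2.trans hm.2⟩
  have hv'' : v' ∈ Icc a b := ⟨hm.1.trans hv'.1, hv'.2⟩
  exact chord_up hx ht hmono hu' hm hm hv'' (by linarith) hxv' (hpk u hu') (hpk v' hv'')

/-- Valley form, `x` strictly increasing. -/
theorem valley_up {x t : ℝ → ℝ} {a m b : ℝ} (hx : ContinuousOn x (Icc a b))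
    (ht : ContinuousOn t (Icc a b)) (hmono : StrictMonoOn x (Icc a b)) (hm : m ∈ Icc a b)
    (h1 : x a + 1 ≤ x m) (h2 : x m + 1 ≤ x b) (hpk : ∀ s ∈ Icc a b, t m ≤ t s) :
    ∃ s ∈ Icc a b, ∃ s' ∈ Icc a b, s < s' ∧ x s' = x s + 1 ∧ t s' = t s := by
  obtain ⟨s, hs, s', hs', h3, h4, h5⟩ := peak_up (t := fun s => -t s) hx ht.neg hmono hm h1 h2
    (fun s hs => neg_le_neg (hpk s hs))
  exact ⟨s, hs, s', hs', h3, h4, by linarith⟩

/-- Peak form, `x` strictly decreasing. -/
theorem peak_down {x t : ℝ → ℝ} {a m b : ℝ} (hx : ContinuousOn x (Icc a b))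
    (ht : ContinuousOn t (Icc a b)) (hmono : StrictAntiOn x (Icc a b)) (hm : m ∈ Icc a b)
    (h1 : x m + 1 ≤ x a) (h2 : x b + 1 ≤ x m) (hpk : ∀ s ∈ Icc a b, t s ≤ t m) :
    ∃ s ∈ Icc a b, ∃ s' ∈ Icc a b, s < s' ∧ x s' = x s - 1 ∧ t s' = t s := by
  obtain ⟨s, hs, s', hs', h3, h4, h5⟩ := peak_up (x := fun s => -x s) hx.neg ht
    (fun s hs s' hs' h => neg_lt_neg (hmono hs hs' h)) hm (by linarith)
    (by linarith) hpk
  exact ⟨s, hs, s', hs', h3, by linarith, h5⟩

/-- Valley form, `x` strictly decreasing. -/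
theorem valley_down {x t : ℝ → ℝ} {a m b : ℝ} (hx : ContinuousOn x (Icc a b))
    (ht : ContinuousOn t (Icc a b)) (hmono : StrictAntiOn x (Icc a b)) (hm : m ∈ Icc a b)
    (h1 : x m + 1 ≤ x a) (h2 : x b + 1 ≤ x m) (hpk : ∀ s ∈ Icc a b, t m ≤ t s) :
    ∃ s ∈ Icc a b, ∃ s' ∈ Icc a b, s < s' ∧ x s' = x s - 1 ∧ t s' = t s := by
  obtain ⟨s, hs, s', hs', h3, h4, h5⟩ := peak_down (t := fun s => -t s) hx ht.neg hmono hm h1 h2
    (fun s hs => neg_le_neg (hpk s hs))
  exact ⟨s, hs, s', hs', h3, h4, by linarith⟩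

theorem coe_add_one (a : ℝ) : ((a + 1 : ℝ) : AddCircle (1 : ℝ)) = (a : AddCircle (1 : ℝ)) := by
  rw [AddCircle.coe_add, AddCircle.coe_period, add_zero]

theorem coe_sub_one (a : ℝ) : ((a - 1 : ℝ) : AddCircle (1 : ℝ)) = (a : AddCircle (1 : ℝ)) := by
  rw [← coe_add_one (a - 1), sub_add_cancel]

/-- A curve on the cylinder with a pair of parameters one turn apart at the same height is not
injective. -/
theorem not_injective_of_pair {c : ℝ → AddCircle (1 : ℝ) × ℝ} {x t : ℝ → ℝ}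
    (hc : ∀ s, c s = ((x s : AddCircle (1 : ℝ)), t s)) {s s' : ℝ} (h : s < s')
    (hx : x s' = x s + 1 ∨ x s' = x s - 1) (ht : t s' = t s) : ¬ Function.Injective c := by
  intro hinj
  have : c s = c s' := by
    rw [hc, hc, ht]
    rcases hx with h1 | h1
    · rw [h1, coe_add_one]
    · rw [h1, coe_sub_one]
  exact absurd (hinj this) h.ne

/-- The peak / valley lemma in the form used for geodesic lines. -/
theorem not_injective_of_turn {c : ℝ → AddCircle (1 : ℝ) × ℝ} {x t : ℝ → ℝ}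
    (hc : ∀ s, c s = ((x s : AddCircle (1 : ℝ)), t s)) {a m b : ℝ} (hm : m ∈ Icc a b)
    (hx : ContinuousOn x (Icc a b)) (ht : ContinuousOn t (Icc a b))
    (hmono : (StrictMonoOn x (Icc a b) ∧ x a + 1 ≤ x m ∧ x m + 1 ≤ x b) ∨
      (StrictAntiOn x (Icc a b) ∧ x m + 1 ≤ x a ∧ x b + 1 ≤ x m))
    (hpk : (∀ s ∈ Icc a b, t s ≤ t m) ∨ (∀ s ∈ Icc a b, t m ≤ t s)) :
    ¬ Function.Injective c := by
  rcases hmono with ⟨h, h1, h2⟩ | ⟨h, h1, h2⟩ <;> rcases hpk with hp | hp
  · obtain ⟨s, -, s', -, h3, h4, h5⟩ := peak_up hx ht h hm h1 h2 hp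
    exact not_injective_of_pair hc h3 (Or.inl h4) h5
  · obtain ⟨s, -, s', -, h3, h4, h5⟩ := valley_up hx ht h hm h1 h2 hp
    exact not_injective_of_pair hc h3 (Or.inl h4) h5
  · obtain ⟨s, -, s', -, h3, h4, h5⟩ := peak_down hx ht h hm h1 h2 hp
    exact not_injective_of_pair hc h3 (Or.inr h4) h5
  · obtain ⟨s, -, s', -, h3, h4, h5⟩ := valley_down hx ht h hm h1 h2 hp
    exact not_injective_of_pair hc h3 (Or.inr h4) h5

end Pool.Agent.CyGN
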