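import Pool.Agent.CyGN.GlobalEx

set_option autoImplicit false

/-!
# Geodesics in a thin cusp

If below the level `τ` the metric is `e(t) (dx² + dt²)`, where `e` is constant on `[τ - 1, τ)`,
strictly increasing below `τ - 1` with `e' ≤ 2 e` and `e → 0` at `-∞`, then every geodesic which
meets `{t < τ}` and is not vertical there meets itself on the cylinder.
-/

namespace Pool.Agent.CyG

open Set Filter Topology Metric
open scoped NNReal ContDiff

/-- The projection of the curve of states `c` to the cylinder is not injective. -/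
def SelfMeets (c : ℝ → State) : Prop :=
  ∃ s₁ s₂, s₁ ≠ s₂ ∧ (c s₁).2.1 = (c s₂).2.1 ∧ ∃ n : ℤ, (c s₁).1 = (c s₂).1 + n

/-- Reversal of time on the states. -/
def rev (z : State) : State := (z.1, z.2.1, -z.2.2.1, -z.2.2.2)

namespace CylMetric

theorem X_rev (g : CylMetric) (z : State) : g.X (rev z) =
    (-(g.X z).1, -(g.X z).2.1, (g.X z).2.2.1, (g.X z).2.2.2) := by
  have hv : g.v (rev z) = -g.v z := by
    unfold v rev
    ring
  have hw : g.w (rev z) = -g.w z := by
    unfold w rev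
    ring
  unfold X
  rw [hv, hw]
  simp only [rev]
  refine Prod.ext rfl (Prod.ext rfl (Prod.ext ?_ ?_)) <;> simp only <;> ring

theorem en_rev (g : CylMetric) (z : State) : g.en (rev z) = g.en z := by
  have hv : g.v (rev z) = -g.v z := by
    unfold v rev
    ring
  have hw : g.w (rev z) = -g.w z := by
    unfold w rev
    ring
  unfold en
  rw [hv, hw]
  simp only [rev]
  ring

/-- The reversed integral curve is an integral curve. -/
theorem integral_rev (g : CylMetric) {c : ℝ → State} (hc : ∀ s, HasDerivAt c (g.X (c s)) s)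
    (s : ℝ) : HasDerivAt (fun r => rev (c (-r))) (g.X (rev (c (-s)))) s := by
  have h0 : HasDerivAt (fun r : ℝ => -r) (-1) s := hasDerivAt_neg s
  have hx : HasDerivAt (fun r => (c (-r)).1) (-(g.X (c (-s))).1) s := by
    have := (g.hasDerivAt_cx (hc (-s))).comp s h0
    rw [mul_neg_one] at this
    exact this
  have ht : HasDerivAt (fun r => (c (-r)).2.1) (-(g.X (c (-s))).2.1) s := by
    have := (g.hasDerivAt_ct (hc (-s))).comp s h0
    rw [mul_neg_one] at this
    exact this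
  have hp : HasDerivAt (fun r => (c (-r)).2.2.1) (-(g.X (c (-s))).2.2.1) s := by
    have := (g.hasDerivAt_cp (hc (-s))).comp s h0
    rw [mul_neg_one] at this
    exact this
  have hq : HasDerivAt (fun r => (c (-r)).2.2.2) (-(g.X (c (-s))).2.2.2) s := by
    have := (g.hasDerivAt_cq (hc (-s))).comp s h0
    rw [mul_neg_one] at this
    exact this
  have := hx.prodMk (ht.prodMk (hp.neg.prodMk hq.neg))
  rw [g.X_rev]
  simp only [neg_neg] at this
  exact this

/-- Below the level `τ` the metric is `e(t) (dx² + dt²)`. -/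
structure CuspBelow (g : CylMetric) (e : ℝ → ℝ) (τ : ℝ) : Prop where
  E : ∀ x, ∀ t < τ, g.E (x, t) = e t
  F : ∀ x, ∀ t < τ, g.F (x, t) = 0
  G : ∀ x, ∀ t < τ, g.G (x, t) = e t

namespace CuspBelow

variable {g : CylMetric} {e : ℝ → ℝ} {τ : ℝ}

theorem pos (h : g.CuspBelow e τ) {t : ℝ} (ht : t < τ) : 0 < e t := by
  rw [← h.E 0 t ht]
  exact g.pos_E _

theorem hasDerivAt (h : g.CuspBelow e τ) {t : ℝ} (ht : t < τ) : HasDerivAt e (deriv e t) t := by
  have h0 : ContDiff ℝ ∞ (fun b : ℝ => g.E (0, b)) :=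
    g.smooth_E.comp (contDiff_const.prodMk contDiff_id)
  have h1 : DifferentiableAt ℝ (fun b : ℝ => g.E (0, b)) t := h0.differentiable (by simp) t
  have h2 : e =ᶠ[𝓝 t] fun b => g.E (0, b) := by
    filter_upwards [Iio_mem_nhds ht] with b hb
    exact (h.E 0 b hb).symm
  exact (h1.congr_of_eventuallyEq h2).hasDerivAt

theorem continuousOn (h : g.CuspBelow e τ) : ContinuousOn e (Iio τ) := fun _ ht =>
  (h.hasDerivAt ht).continuousAt.continuousWithinAt

theorem continuousOn_deriv (h : g.CuspBelow e τ) : ContinuousOn (deriv e) (Iio τ) := by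
  have h0 : ContDiff ℝ ∞ (fun b : ℝ => g.E (0, b)) :=
    g.smooth_E.comp (contDiff_const.prodMk contDiff_id)
  have h1 : Continuous (deriv fun b : ℝ => g.E (0, b)) :=
    (contDiff_infty_iff_deriv.1 h0).2.continuous
  refine h1.continuousOn.congr fun t ht => ?_
  have h2 : e =ᶠ[𝓝 t] fun b => g.E (0, b) := by
    filter_upwards [Iio_mem_nhds ht] with b hb
    exact (h.E 0 b hb).symm
  exact h2.deriv_eq

theorem v_eq (h : g.CuspBelow e τ) {z : State} (hz : z.2.1 < τ) :
    g.v z = z.2.2.1 / e z.2.1 := by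
  have he := (h.pos hz).ne'
  unfold v det
  rw [h.E _ _ hz, h.F _ _ hz, h.G _ _ hz]
  field_simp
  ring

theorem w_eq (h : g.CuspBelow e τ) {z : State} (hz : z.2.1 < τ) :
    g.w z = z.2.2.2 / e z.2.1 := by
  have he := (h.pos hz).ne'
  unfold w det
  rw [h.E _ _ hz, h.F _ _ hz, h.G _ _ hz]
  field_simp
  ring

theorem en_eq (h : g.CuspBelow e τ) {z : State} (hz : z.2.1 < τ) :
    g.en z = (z.2.2.1 ^ 2 + z.2.2.2 ^ 2) / e z.2.1 := by
  have he := (h.pos hz).ne'
  unfold en
  rw [h.v_eq hz, h.w_eq hz, h.E _ _ hz, h.F _ _ hz, h.G _ _ hz]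
  field_simp
  ring

theorem sq_add_sq (h : g.CuspBelow e τ) {z : State} (hz : z.2.1 < τ) (hen : g.en z = 1) :
    z.2.2.1 ^ 2 + z.2.2.2 ^ 2 = e z.2.1 := by
  rw [h.en_eq hz, div_eq_one_iff_eq (h.pos hz).ne'] at hen
  exact hen

theorem X_eq (h : g.CuspBelow e τ) {z : State} (hz : z.2.1 < τ) :
    g.X z = (z.2.2.1 / e z.2.1, z.2.2.2 / e z.2.1, 0,
      deriv e z.2.1 * ((z.2.2.1 ^ 2 + z.2.2.2 ^ 2) / e z.2.1 ^ 2) / 2) := by
  have he := (h.pos hz).ne'
  have h1 : ∀ {f : ℝ × ℝ → ℝ} {k : ℝ → ℝ}, (∀ x, ∀ t < τ, f (x, t) = k t) →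
      dx f (z.1, z.2.1) = 0 ∧ dt f (z.1, z.2.1) = deriv k z.2.1 := by
    intro f k hf
    constructor
    · unfold dx
      simp only
      have : (fun a => f (a, z.2.1)) = fun _ => k z.2.1 := by
        funext a
        exact hf a _ hz
      rw [this, deriv_const]
    · unfold dt
      simp only
      have : (fun b => f (z.1, b)) =ᶠ[𝓝 z.2.1] k := by
        filter_upwards [Iio_mem_nhds hz] with b hb
        exact hf _ b hb
      exact this.deriv_eq
  obtain ⟨a1, a2⟩ := h1 h.E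
  obtain ⟨b1, b2⟩ := h1 (k := fun _ => (0 : ℝ)) h.F
  obtain ⟨c1, c2⟩ := h1 h.G
  unfold X
  rw [a1, a2, b1, b2, c1, c2, h.v_eq hz, h.w_eq hz]
  refine Prod.ext rfl (Prod.ext rfl (Prod.ext ?_ ?_))
  · simp
  · simp only [deriv_const]
    field_simp
    ring

variable {c : ℝ → State}

theorem hasDerivAt_x (h : g.CuspBelow e τ) (hc : ∀ s, HasDerivAt c (g.X (c s)) s) {s : ℝ}
    (hs : (c s).2.1 < τ) :
    HasDerivAt (fun r => (c r).1) ((c s).2.2.1 / e (c s).2.1) s := by
  rw [← h.v_eq hs]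
  exact g.hasDerivAt_cx (hc s)

theorem hasDerivAt_t (h : g.CuspBelow e τ) (hc : ∀ s, HasDerivAt c (g.X (c s)) s) {s : ℝ}
    (hs : (c s).2.1 < τ) :
    HasDerivAt (fun r => (c r).2.1) ((c s).2.2.2 / e (c s).2.1) s := by
  rw [← h.w_eq hs]
  exact g.hasDerivAt_ct (hc s)

theorem hasDerivAt_p (h : g.CuspBelow e τ) (hc : ∀ s, HasDerivAt c (g.X (c s)) s) {s : ℝ}
    (hs : (c s).2.1 < τ) : HasDerivAt (fun r => (c r).2.2.1) 0 s := by
  have := g.hasDerivAt_cp (hc s)
  rwa [h.X_eq hs] at this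

theorem hasDerivAt_q (h : g.CuspBelow e τ) (hc : ∀ s, HasDerivAt c (g.X (c s)) s)
    (hen : ∀ s, g.en (c s) = 1) {s : ℝ} (hs : (c s).2.1 < τ) :
    HasDerivAt (fun r => (c r).2.2.2) (deriv e (c s).2.1 / (2 * e (c s).2.1)) s := by
  have := g.hasDerivAt_cq (hc s)
  rw [h.X_eq hs] at this
  simp only at this
  rw [h.sq_add_sq hs (hen s)] at this
  refine this.congr_deriv ?_
  have he := (h.pos hs).ne'
  field_simp

theorem continuous_c (hc : ∀ s, HasDerivAt c (g.X (c s)) s) : Continuous c :=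
  continuous_iff_continuousAt.2 fun s => (hc s).continuousAt

/-- As long as `q < 0` the curve stays below its starting level. -/
theorem descend (h : g.CuspBelow e τ) (hc : ∀ s, HasDerivAt c (g.X (c s)) s) {s₀ s₁ : ℝ}
    (hs : (c s₀).2.1 < τ) (hq : ∀ s ∈ Ico s₀ s₁, (c s).2.2.2 < 0) :
    ∀ s ∈ Icc s₀ s₁, (c s).2.1 ≤ (c s₀).2.1 := by
  have hcc := continuous_c hc
  have := image_le_of_deriv_right_lt_deriv_boundary (f := fun r => (c r).2.1)
    (f' := fun r => g.w (c r)) (a := s₀) (b := s₁) (B := fun _ => (c s₀).2.1) (B' := fun _ => 0)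
    (by fun_prop) (fun x _ => (g.hasDerivAt_ct (hc x)).hasDerivWithinAt) le_rfl
    (fun x => hasDerivAt_const x _)
    (fun x hx hxe => by
      have hlt : (c x).2.1 < τ := by rw [hxe]; exact hs
      rw [h.w_eq hlt]
      exact div_neg_of_neg_of_pos (hq x hx) (h.pos hlt))
  exact this

theorem p_const (h : g.CuspBelow e τ) (hc : ∀ s, HasDerivAt c (g.X (c s)) s) {a b : ℝ}
    (hs : ∀ s ∈ Icc a b, (c s).2.1 < τ) : ∀ s ∈ Icc a b, (c s).2.2.1 = (c a).2.2.1 := by
  have hcc := continuous_c hc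
  exact constant_of_has_deriv_right_zero (f := fun r => (c r).2.2.1) (by fun_prop)
    (fun x hx => (h.hasDerivAt_p hc (hs x (Ico_subset_Icc_self hx))).hasDerivWithinAt)

/-- A geodesic which does not go upwards turns. -/
theorem exists_turn (h : g.CuspBelow e τ) (hflat : ∀ t ∈ Ico (τ - 1) τ, deriv e t = 0)
    (hmono : ∀ t < τ - 1, 0 < deriv e t) (hlim : Tendsto e atBot (𝓝 0))
    (hc : ∀ s, HasDerivAt c (g.X (c s)) s) (hen : ∀ s, g.en (c s) = 1) {s₀ : ℝ}
    (hs : (c s₀).2.1 < τ) (hp : (c s₀).2.2.1 ≠ 0) (hq : (c s₀).2.2.2 ≤ 0) :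
    ∃ s₁, (c s₁).2.2.2 = 0 ∧ (c s₁).2.1 < τ := by
  have hcc := continuous_c hc
  have hqc : Continuous fun r => (c r).2.2.2 := by fun_prop
  rcases hq.lt_or_eq with hq | hq
  swap
  · exact ⟨s₀, hq, hs⟩
  by_cases hex : ∃ s, s₀ ≤ s ∧ 0 ≤ (c s).2.2.2
  · obtain ⟨s, hs1, hs2⟩ := hex
    have hK : IsCompact (Icc s₀ s ∩ (fun r => (c r).2.2.2) ⁻¹' Ici 0) :=
      isCompact_Icc.inter_right (isClosed_Ici.preimage hqc)
    obtain ⟨r, ⟨⟨hr0, hr1⟩, hr2⟩, hleast⟩ := hK.exists_isLeast ⟨s, ⟨hs1, le_rfl⟩, hs2⟩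
    have hr2' : 0 ≤ (c r).2.2.2 := hr2
    have hlt : ∀ u ∈ Ico s₀ r, (c u).2.2.2 < 0 := by
      intro u hu
      by_contra hcon
      push Not at hcon
      have := hleast ⟨⟨hu.1, hu.2.le.trans hr1⟩, hcon⟩
      linarith [hu.2]
    have hsr : s₀ < r := by
      rcases hr0.lt_or_eq with h1 | h1
      · exact h1
      · rw [h1] at hq; linarith
    have hle := h.descend hc hs hlt r ⟨hsr.le, le_rfl⟩
    refine ⟨r, le_antisymm ?_ hr2', hle.trans_lt hs⟩
    have : Tendsto (fun u => (c u).2.2.2) (𝓝[<] r) (𝓝 (c r).2.2.2) :=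
      (hqc.tendsto r).mono_left nhdsWithin_le_nhds
    refine le_of_tendsto this ?_
    filter_upwards [Ioo_mem_nhdsLT hsr] with u hu
    exact (hlt u ⟨hu.1.le, hu.2⟩).le
  · exfalso
    push Not at hex
    have hdesc : ∀ a, s₀ ≤ a → ∀ s, a ≤ s → (c s).2.1 ≤ (c a).2.1 ∧ (c s).2.1 < τ := by
      have h0 : ∀ s, s₀ ≤ s → (c s).2.1 ≤ (c s₀).2.1 := fun s hs1 =>
        h.descend hc hs (fun u hu => hex u hu.1) s ⟨hs1, le_rfl⟩
      intro a ha s hs1
      exact ⟨h.descend hc ((h0 a ha).trans_lt hs) (fun u hu => hex u (ha.trans hu.1)) s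
        ⟨hs1, le_rfl⟩, (h0 s (ha.trans hs1)).trans_lt hs⟩
    have hpc : ∀ s, s₀ ≤ s → (c s).2.2.1 = (c s₀).2.2.1 := fun s hs1 =>
      h.p_const hc (fun u hu => (hdesc s₀ le_rfl u hu.1).2) s ⟨hs1, le_rfl⟩
    set p := (c s₀).2.2.1 with hpdef
    have hp2 : 0 < p ^ 2 := by positivity
    have hep : ∀ s, s₀ ≤ s → p ^ 2 ≤ e (c s).2.1 := by
      intro s hs1
      rw [← h.sq_add_sq (hdesc s₀ le_rfl s hs1).2 (hen s), hpc s hs1]
      nlinarith [sq_nonneg (c s).2.2.2]
    obtain ⟨m, hm⟩ := (eventually_atBot.1 (hlim.eventually_lt_const hp2))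
    have htm : ∀ s, s₀ ≤ s → m < (c s).2.1 := by
      intro s hs1
      by_contra hcon
      push Not at hcon
      exact absurd (hep s hs1) (not_le.2 (hm _ hcon))
    have hqd : ∀ s, s₀ ≤ s → HasDerivAt (fun r => (c r).2.2.2)
        (deriv e (c s).2.1 / (2 * e (c s).2.1)) s := fun s hs1 =>
      h.hasDerivAt_q hc hen (hdesc s₀ le_rfl s hs1).2
    have hdn : ∀ t < τ, 0 ≤ deriv e t := by
      intro t ht
      rcases lt_or_ge t (τ - 1) with h1 | h1
      · exact (hmono t h1).le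
      · exact (hflat t ⟨h1, ht⟩).ge
    -- upper bound of `e` on `[m, t(s₀)]`
    have hsub : Icc m (c s₀).2.1 ⊆ Iio τ := fun t ht => ht.2.trans_lt hs
    obtain ⟨C, hC⟩ := isCompact_Icc.exists_bound_of_continuousOn (h.continuousOn.mono hsub)
    have hC' : ∀ s, s₀ ≤ s → e (c s).2.1 ≤ C := fun s hs1 =>
      (le_abs_self _).trans (hC _ ⟨(htm s hs1).le, (hdesc s₀ le_rfl s hs1).1⟩)
    have hC0 : 0 < C := (h.pos hs).trans_le (hC' s₀ le_rfl)
    -- `q` comes close to `0`
    have hclose : ∀ δ > 0, ∃ s, s₀ ≤ s ∧ -δ < (c s).2.2.2 := by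
      intro δ hδ
      by_contra hcon
      push Not at hcon
      set S := s₀ + C * ((c s₀).2.1 - m + 1) / δ with hS
      have h1 : 0 < (c s₀).2.1 - m + 1 := by linarith [htm s₀ le_rfl]
      have hSs : s₀ ≤ S := by
        have : 0 ≤ C * ((c s₀).2.1 - m + 1) / δ := by positivity
        linarith
      have hb := Convex.image_sub_le_mul_sub_of_deriv_le (D := Icc s₀ S) (convex_Icc _ _)
        (f := fun r => (c r).2.1) (by fun_prop)
        (fun x _ => (g.hasDerivAt_ct (hc x)).differentiableAt.differentiableWithinAt)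
        (C := -(δ / C)) (fun x hx => by
          rw [interior_Icc] at hx
          rw [(g.hasDerivAt_ct (hc x)).deriv, h.w_eq (hdesc s₀ le_rfl x hx.1.le).2]
          have h2 := hcon x hx.1.le
          have h3 := hC' x hx.1.le
          have h4 := h.pos (hdesc s₀ le_rfl x hx.1.le).2
          rw [div_le_iff₀ h4]
          have : δ / C * e (c x).2.1 ≤ δ / C * C := mul_le_mul_of_nonneg_left h3 (by positivity)
          rw [div_mul_cancel₀ _ hC0.ne'] at this
          linarith) s₀ ⟨le_rfl, hSs⟩ S ⟨hSs, le_rfl⟩ hSs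
      have h2 : -(δ / C) * (S - s₀) = -((c s₀).2.1 - m + 1) := by
        rw [hS]
        field_simp
        ring
      rw [h2] at hb
      have := htm S hSs
      linarith
    -- hence the curve gets below `τ - 1`
    obtain ⟨s₁, hs₁, hs₁'⟩ : ∃ s, s₀ ≤ s ∧ (c s).2.1 < τ - 1 := by
      by_contra hcon
      push Not at hcon
      have hq0 : ∀ s, s₀ ≤ s → (c s).2.2.2 = (c s₀).2.2.2 := by
        intro s hs1
        exact constant_of_has_deriv_right_zero (f := fun r => (c r).2.2.2) (a := s₀) (b := s)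
          (by fun_prop) (fun x hx => by
            have h1 := hqd x hx.1
            rw [hflat _ ⟨hcon x hx.1, (hdesc s₀ le_rfl x hx.1).2⟩, zero_div] at h1
            exact h1.hasDerivWithinAt) s ⟨hs1, le_rfl⟩
      obtain ⟨s, hs1, hs2⟩ := hclose (-(c s₀).2.2.2) (by linarith)
      rw [hq0 s hs1, neg_neg] at hs2
      exact lt_irrefl _ hs2
    -- lower bound of `q'` from then on
    have hsub2 : Icc m (c s₁).2.1 ⊆ Iio τ := fun t ht => by
      have : t < τ - 1 := ht.2.trans_lt hs₁'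
      simp only [mem_Iio]; linarith
    have hkc : ContinuousOn (fun t => deriv e t / (2 * e t)) (Icc m (c s₁).2.1) :=
      (h.continuousOn_deriv.mono hsub2).div (continuousOn_const.mul (h.continuousOn.mono hsub2))
        (fun t ht => (mul_pos two_pos (h.pos (hsub2 ht))).ne')
    have hne : (Icc m (c s₁).2.1).Nonempty := ⟨m, le_rfl, (htm s₁ hs₁).le⟩
    obtain ⟨t₁, ht₁, hmin⟩ := isCompact_Icc.exists_isMinOn hne hkc
    set κ := deriv e t₁ / (2 * e t₁) with hκ
    have hκ0 : 0 < κ := div_pos (hmono _ (ht₁.2.trans_lt hs₁'))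
      (mul_pos two_pos (h.pos (hsub2 ht₁)))
    set S := s₁ + (-(c s₁).2.2.2) / κ with hS
    have hqs : (c s₁).2.2.2 < 0 := hex s₁ hs₁
    have hSs : s₁ ≤ S := by
      have : 0 ≤ (-(c s₁).2.2.2) / κ := div_nonneg (by linarith) hκ0.le
      linarith
    have hb := Convex.mul_sub_le_image_sub_of_le_deriv (D := Icc s₁ S) (convex_Icc _ _)
        (f := fun r => (c r).2.2.2) (by fun_prop)
        (fun x _ => (g.hasDerivAt_cq (hc x)).differentiableAt.differentiableWithinAt)
        (C := κ) (fun x hx => by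
          rw [interior_Icc] at hx
          have hx0 : s₀ ≤ x := hs₁.trans hx.1.le
          rw [(hqd x hx0).deriv]
          exact hmin ⟨(htm x hx0).le, (hdesc s₁ hs₁ x hx.1.le).1⟩)
        s₁ ⟨le_rfl, hSs⟩ S ⟨hSs, le_rfl⟩ hSs
    have h2 : κ * (S - s₁) = -(c s₁).2.2.2 := by
      rw [hS]
      field_simp
      ring
    rw [h2] at hb
    have := hex S (hs₁.trans hSs)
    linarith

private theorem cusp_mono {f f' : ℝ → ℝ} {a b : ℝ} (hab : a ≤ b)
    (hf : ∀ s ∈ Icc a b, HasDerivAt f (f' s) s) (h0 : ∀ s ∈ Icc a b, 0 ≤ f' s) : f a ≤ f b := by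
  have h1 : MonotoneOn f (Icc a b) := by
    refine monotoneOn_of_deriv_nonneg (convex_Icc a b)
      (fun s hs => (hf s hs).continuousAt.continuousWithinAt)
      (fun s hs => (hf s (interior_subset hs)).differentiableAt.differentiableWithinAt)
      (fun s hs => ?_)
    rw [(hf s (interior_subset hs)).deriv]
    exact h0 s (interior_subset hs)
  exact h1 ⟨le_rfl, hab⟩ ⟨hab, le_rfl⟩ hab

/-- After the turning point the curve is the mirror image of the curve before it. -/
theorem mirror (h : g.CuspBelow e τ) (hc : ∀ s, HasDerivAt c (g.X (c s)) s) {s₁ a : ℝ}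
    (hq : (c s₁).2.2.2 = 0) (ha : ∀ s ∈ Icc (s₁ - a) s₁, (c s).2.1 < τ) :
    ∀ s ∈ Icc 0 a, c (s₁ + s) = (2 * (c s₁).1 - (c (s₁ - s)).1, (c (s₁ - s)).2.1,
      (c (s₁ - s)).2.2.1, -(c (s₁ - s)).2.2.2) := by
  have hcc := continuous_c hc
  set d : ℝ → State := fun s => (2 * (c s₁).1 - (c (s₁ - s)).1, (c (s₁ - s)).2.1,
      (c (s₁ - s)).2.2.1, -(c (s₁ - s)).2.2.2) with hd
  have hdc : Continuous d := by
    have : Continuous fun s => c (s₁ - s) := hcc.comp (by fun_prop)
    rw [hd]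
    fun_prop
  have hfc : Continuous fun s => c (s₁ + s) := hcc.comp (by fun_prop)
  obtain ⟨C₁, hC₁⟩ := (isCompact_Icc (a := (0 : ℝ)) (b := a)).exists_bound_of_continuousOn
    hfc.continuousOn
  obtain ⟨C₂, hC₂⟩ := (isCompact_Icc (a := (0 : ℝ)) (b := a)).exists_bound_of_continuousOn
    hdc.continuousOn
  obtain ⟨K, hK⟩ := lipschitzOn_ball g.contDiff_one_X (0 : State) (max C₁ C₂)
  have hdd : ∀ s ∈ Icc 0 a, HasDerivAt d (g.X (d s)) s := by
    intro s hs
    have hreg : (c (s₁ - s)).2.1 < τ := ha _ ⟨by linarith [hs.2], by linarith [hs.1]⟩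
    have h0 : HasDerivAt (fun r : ℝ => s₁ - r) (-1) s := by
      simpa using (hasDerivAt_id s).const_sub s₁
    have hx := ((g.hasDerivAt_cx (hc (s₁ - s))).comp s h0).const_sub (2 * (c s₁).1)
    have ht := (g.hasDerivAt_ct (hc (s₁ - s))).comp s h0
    have hp := (g.hasDerivAt_cp (hc (s₁ - s))).comp s h0
    have hq' := ((g.hasDerivAt_cq (hc (s₁ - s))).comp s h0).neg
    have := hx.prodMk (ht.prodMk (hp.prodMk hq'))
    refine this.congr_deriv ?_
    have hreg' : (d s).2.1 < τ := hreg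
    rw [h.X_eq hreg', h.X_eq hreg, h.v_eq hreg, h.w_eq hreg]
    simp only [hd]
    refine Prod.ext ?_ (Prod.ext ?_ (Prod.ext ?_ ?_)) <;> simp only <;> ring
  have := ODE_solution_unique_of_mem_Icc_right (v := fun _ => g.X)
    (s := fun _ => closedBall 0 (max C₁ C₂)) (f := fun s => c (s₁ + s)) (g := d) (a := 0) (b := a)
    (fun _ _ => hK) hfc.continuousOn
    (fun s _ => ((hc (s₁ + s)).comp_const_add s₁ s).hasDerivWithinAt)
    (fun s hs => by
      rw [mem_closedBall_zero_iff]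
      exact (hC₁ s (Ico_subset_Icc_self hs)).trans (le_max_left _ _))
    hdc.continuousOn (fun s hs => (hdd s (Ico_subset_Icc_self hs)).hasDerivWithinAt)
    (fun s hs => by
      rw [mem_closedBall_zero_iff]
      exact (hC₂ s (Ico_subset_Icc_self hs)).trans (le_max_right _ _))
    (by
      simp only [add_zero, hd, sub_zero, hq, neg_zero]
      refine Prod.ext ?_ (Prod.ext rfl (Prod.ext rfl hq))
      simp only
      ring)
  exact fun s hs => this hs

/-- The displacement in the direction of `x` on the way down. -/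
theorem displ (h : g.CuspBelow e τ) (hdn : ∀ t < τ, 0 ≤ deriv e t)
    (hslope : ∀ t < τ, deriv e t ≤ 2 * e t)
    (hc : ∀ s, HasDerivAt c (g.X (c s)) s) (hen : ∀ s, g.en (c s) = 1) {a b : ℝ} (hab : a ≤ b)
    (hs : ∀ s ∈ Icc a b, (c s).2.1 < τ) (hqb : (c b).2.2.2 = 0)
    (hta : (c b).2.1 + 3 / 4 ≤ (c a).2.1) : 1 / 2 < |(c b).1 - (c a).1| := by
  set p := (c a).2.2.1 with hp
  have hpc := h.p_const hc hs
  have hpb : p ^ 2 = e (c b).2.1 := by
    rw [← h.sq_add_sq (hs b ⟨hab, le_rfl⟩) (hen b), hqb, hpc b ⟨hab, le_rfl⟩]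
    ring
  have hp0 : 0 < |p| := by
    rw [abs_pos]
    intro h0
    rw [h0] at hpb
    have := h.pos (hs b ⟨hab, le_rfl⟩)
    rw [← hpb] at this
    simp at this
  obtain ⟨σ, hσ1, hσ2⟩ : ∃ σ : ℝ, σ * p = |p| ∧ |σ| = 1 := by
    rcases le_total 0 p with h1 | h1
    · exact ⟨1, by rw [abs_of_nonneg h1, one_mul], by simp⟩
    · exact ⟨-1, by rw [abs_of_nonpos h1]; ring, by simp⟩
  have hx : ∀ s ∈ Icc a b, HasDerivAt (fun r => σ * (c r).1) (|p| / e (c s).2.1) s := by
    intro s hs1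
    have := (h.hasDerivAt_x hc (hs s hs1)).const_mul σ
    refine this.congr_deriv ?_
    rw [hpc s hs1, ← hσ1]
    ring
  have ht : ∀ s ∈ Icc a b, HasDerivAt (fun r => (c r).2.1) ((c s).2.2.2 / e (c s).2.1) s :=
    fun s hs1 => h.hasDerivAt_t hc (hs s hs1)
  have hq : ∀ s ∈ Icc a b, HasDerivAt (fun r => (c r).2.2.2)
      (deriv e (c s).2.1 / (2 * e (c s).2.1)) s := fun s hs1 => h.hasDerivAt_q hc hen (hs s hs1)
  have hqm : ∀ s ∈ Icc a b, (c a).2.2.2 ≤ (c s).2.2.2 := by
    intro s hs1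
    refine cusp_mono hs1.1 (fun r hr => hq r ⟨hr.1, hr.2.trans hs1.2⟩) (fun r hr => ?_)
    have hr' : r ∈ Icc a b := ⟨hr.1, hr.2.trans hs1.2⟩
    exact div_nonneg (hdn _ (hs r hr')) (mul_pos two_pos (h.pos (hs r hr'))).le
  have hge : σ * (c b).1 - σ * (c a).1 ≤ |(c b).1 - (c a).1| := by
    have h1 := le_abs_self (σ * ((c b).1 - (c a).1))
    rw [abs_mul, hσ2, one_mul] at h1
    linarith
  refine lt_of_lt_of_le ?_ hge
  rcases le_or_gt (-|p|) (c a).2.2.2 with hA | hB
  · have := cusp_mono (f := fun r => σ * (c r).1 + (c r).2.1) hab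
      (fun s hs1 => (hx s hs1).add (ht s hs1)) (fun s hs1 => by
        rw [← add_div]
        refine div_nonneg ?_ (h.pos (hs s hs1)).le
        linarith [hqm s hs1])
    linarith
  · have := cusp_mono (f := fun r => σ * (c r).1 - Real.arctan ((c r).2.2.2 / |p|)) hab
      (fun s hs1 => (hx s hs1).sub (((hq s hs1).div_const |p|).arctan)) (fun s hs1 => by
        have he := h.pos (hs s hs1)
        have h1 := h.sq_add_sq (hs s hs1) (hen s)
        rw [hpc s hs1] at h1
        have h2 := hslope _ (hs s hs1)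
        have h3 : 1 / (1 + ((c s).2.2.2 / |p|) ^ 2) * (deriv e (c s).2.1 / (2 * e (c s).2.1) / |p|)
            = |p| / e (c s).2.1 * (deriv e (c s).2.1 / (2 * e (c s).2.1)) := by
          have h4 : 1 + ((c s).2.2.2 / |p|) ^ 2 = e (c s).2.1 / |p| ^ 2 := by
            rw [← h1, div_pow, sq_abs, ← hp]
            have : p ^ 2 ≠ 0 := by
              rw [← sq_abs]; positivity
            rw [add_div, div_self this]
          rw [h4]
          have hp0' := hp0.ne'
          have he' := he.ne'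
          field_simp
        rw [h3]
        have h5 : deriv e (c s).2.1 / (2 * e (c s).2.1) ≤ 1 := by
          rw [div_le_one (by positivity)]
          exact h2
        have h6 : 0 ≤ |p| / e (c s).2.1 := by positivity
        nlinarith)
    simp only [hqb, zero_div, Real.arctan_zero, sub_zero] at this
    have h1 : (c a).2.2.2 / |p| ≤ -1 := by
      rw [div_le_iff₀ hp0]
      linarith
    have h2 : Real.arctan ((c a).2.2.2 / |p|) ≤ -(Real.pi / 4) := by
      have := Real.arctan_strictMono.monotone h1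
      rwa [Real.arctan_neg, Real.arctan_one] at this
    linarith [Real.pi_gt_three]

/-- Backwards in time from a low turning point the curve comes from the level `τ - 1/4`. -/
theorem exists_entry (h : g.CuspBelow e τ) (hdn : ∀ t < τ, 0 ≤ deriv e t)
    (hmono : ∀ t < τ - 1, 0 < deriv e t)
    (hc : ∀ s, HasDerivAt c (g.X (c s)) s) (hen : ∀ s, g.en (c s) = 1) {s₁ : ℝ}
    (hq : (c s₁).2.2.2 = 0) (ht : (c s₁).2.1 < τ - 1) :
    ∃ a < s₁, (c a).2.1 = τ - 1 / 4 ∧ ∀ s ∈ Icc a s₁, (c s).2.1 < τ := by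
  have hcc := continuous_c hc
  have htc : Continuous fun r => (c r).2.1 := by fun_prop
  have hex : ∃ s ≤ s₁, τ - 1 / 4 ≤ (c s).2.1 := by
    by_contra hcon
    push Not at hcon
    have hreg : ∀ s ≤ s₁, (c s).2.1 < τ := fun s hs => by linarith [hcon s hs]
    have hqd : ∀ s ≤ s₁, HasDerivAt (fun r => (c r).2.2.2)
      (deriv e (c s).2.1 / (2 * e (c s).2.1)) s := fun s hs => h.hasDerivAt_q hc hen (hreg s hs)
    -- a time with `q < 0`
    obtain ⟨s₀, hs₀, hq₀⟩ : ∃ s < s₁, (c s).2.2.2 < 0 := by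
      have hev : ∀ᶠ s in 𝓝 s₁, (c s).2.1 < τ - 1 := htc.continuousAt.eventually_lt_const ht
      obtain ⟨ε, hε, hball⟩ := Metric.eventually_nhds_iff.1 hev
      have hmem : ∀ s ∈ Icc (s₁ - ε / 2) s₁, (c s).2.1 < τ - 1 := by
        intro s hs
        refine hball ?_
        rw [Real.dist_eq, abs_lt]
        constructor <;> linarith [hs.1, hs.2]
      have hsm : StrictMonoOn (fun r => (c r).2.2.2) (Icc (s₁ - ε / 2) s₁) := by
        refine strictMonoOn_of_deriv_pos (convex_Icc _ _) (by fun_prop) (fun s hs => ?_)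
        have hs' := interior_subset hs
        rw [(hqd s hs'.2).deriv]
        exact div_pos (hmono _ (hmem s hs')) (mul_pos two_pos (h.pos (hreg s hs'.2)))
      refine ⟨s₁ - ε / 2, by linarith, ?_⟩
      have := hsm ⟨le_rfl, by linarith⟩ ⟨by linarith, le_rfl⟩ (show s₁ - ε / 2 < s₁ by linarith)
      simpa only [hq] using this
    have hqle : ∀ s ≤ s₀, (c s).2.2.2 ≤ (c s₀).2.2.2 := by
      intro s hs
      refine cusp_mono hs (fun r hr => hqd r (hr.2.trans hs₀.le)) (fun r hr => ?_)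
      have hr' := hreg r (hr.2.trans hs₀.le)
      exact div_nonneg (hdn _ hr') (mul_pos two_pos (h.pos hr')).le
    set C := e (τ - 1 / 4) with hC
    have hC0 : 0 < C := h.pos (by linarith)
    have heC : ∀ s ≤ s₁, e (c s).2.1 ≤ C := by
      intro s hs
      exact cusp_mono (hcon s hs).le (fun r hr => h.hasDerivAt (by linarith [hr.2]))
        (fun r hr => hdn r (by linarith [hr.2]))
    set δ := -(c s₀).2.2.2 with hδ
    have hδ0 : 0 < δ := by linarith
    set L := |τ - (c s₀).2.1| with hL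
    have hL0 : 0 ≤ L := abs_nonneg _
    set S := s₀ - C * L / δ with hS
    have hSs : S ≤ s₀ := by
      have : 0 ≤ C * L / δ := by positivity
      linarith
    have hb := Convex.image_sub_le_mul_sub_of_deriv_le (D := Icc S s₀) (convex_Icc _ _)
      (f := fun r => (c r).2.1) (by fun_prop)
      (fun x _ => (g.hasDerivAt_ct (hc x)).differentiableAt.differentiableWithinAt)
      (C := -(δ / C)) (fun x hx => by
        rw [interior_Icc] at hx
        have hx1 : x ≤ s₁ := hx.2.le.trans hs₀.le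
        rw [(g.hasDerivAt_ct (hc x)).deriv, h.w_eq (hreg x hx1)]
        have h2 := hqle x hx.2.le
        have h3 := heC x hx1
        have h4 := h.pos (hreg x hx1)
        rw [div_le_iff₀ h4]
        have : δ / C * e (c x).2.1 ≤ δ / C * C := mul_le_mul_of_nonneg_left h3 (by positivity)
        rw [div_mul_cancel₀ _ hC0.ne'] at this
        linarith) S ⟨le_rfl, hSs⟩ s₀ ⟨hSs, le_rfl⟩ hSs
    have h2 : -(δ / C) * (s₀ - S) = -L := by
      rw [hS]
      field_simp
      ring
    rw [h2] at hb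
    have h3 := hreg S (hSs.trans hs₀.le)
    have h4 := le_abs_self (τ - (c s₀).2.1)
    linarith
  obtain ⟨s, hs, hts⟩ := hex
  have hK : IsCompact (Icc s s₁ ∩ (fun r => (c r).2.1) ⁻¹' Ici (τ - 1 / 4)) :=
    isCompact_Icc.inter_right (isClosed_Ici.preimage htc)
  obtain ⟨a, ⟨⟨ha0, ha1⟩, ha2⟩, hgreat⟩ := hK.exists_isGreatest ⟨s, ⟨le_rfl, hs⟩, hts⟩
  have ha2' : τ - 1 / 4 ≤ (c a).2.1 := ha2
  have has : a < s₁ := by
    rcases ha1.lt_or_eq with h1 | h1
    · exact h1
    · rw [h1] at ha2'; linarith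
  have hlt : ∀ u ∈ Ioc a s₁, (c u).2.1 < τ - 1 / 4 := by
    intro u hu
    by_contra hcon
    push Not at hcon
    have := hgreat ⟨⟨ha0.trans hu.1.le, hu.2⟩, hcon⟩
    linarith [hu.1]
  have hle : (c a).2.1 ≤ τ - 1 / 4 := by
    have : Tendsto (fun u => (c u).2.1) (𝓝[>] a) (𝓝 (c a).2.1) :=
      (htc.tendsto a).mono_left nhdsWithin_le_nhds
    refine le_of_tendsto this ?_
    filter_upwards [Ioo_mem_nhdsGT has] with u hu
    exact (hlt u ⟨hu.1, hu.2.le⟩).le
  refine ⟨a, has, le_antisymm hle ha2', fun u hu => ?_⟩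
  rcases hu.1.lt_or_eq with h1 | h1
  · linarith [hlt u ⟨h1, hu.2⟩]
  · rw [← h1]; linarith

/-- A geodesic with a turning point in the cusp meets itself. -/
theorem selfMeets_of_turn (h : g.CuspBelow e τ) (hflat : ∀ t ∈ Ico (τ - 1) τ, deriv e t = 0)
    (hmono : ∀ t < τ - 1, 0 < deriv e t) (hslope : ∀ t < τ, deriv e t ≤ 2 * e t)
    (hc : ∀ s, HasDerivAt c (g.X (c s)) s) (hen : ∀ s, g.en (c s) = 1) {s₁ : ℝ}
    (hq : (c s₁).2.2.2 = 0) (ht : (c s₁).2.1 < τ) : SelfMeets c := by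
  have hcc := continuous_c hc
  have hdn : ∀ t < τ, 0 ≤ deriv e t := by
    intro t ht
    rcases lt_or_ge t (τ - 1) with h1 | h1
    · exact (hmono t h1).le
    · exact (hflat t ⟨h1, ht⟩).ge
  have he := h.pos ht
  have hp2 := h.sq_add_sq ht (hen s₁)
  rw [hq] at hp2
  have hp0 : (c s₁).2.2.1 ≠ 0 := by
    intro h0
    rw [h0] at hp2
    simp at hp2
    linarith
  rcases lt_or_ge (c s₁).2.1 (τ - 1) with h1 | h1
  · obtain ⟨a, ha, hta, hreg⟩ := h.exists_entry hdn hmono hc hen hq h1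
    have hdis := h.displ hdn hslope hc hen ha.le hreg hq (by rw [hta]; linarith)
    have hmir := h.mirror hc hq (a := s₁ - a) (by
      intro s hs
      exact hreg s ⟨by linarith [hs.1], hs.2⟩)
    have ha0 : 0 ≤ s₁ - a := by linarith
    have hφc : ContinuousOn (fun s => |(c (s₁ + s)).1 - (c (s₁ - s)).1|) (Icc 0 (s₁ - a)) := by
      have e1 : Continuous fun s => c (s₁ + s) := hcc.comp (by fun_prop)
      have e2 : Continuous fun s => c (s₁ - s) := hcc.comp (by fun_prop)
      fun_prop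
    have hend : (c (s₁ + (s₁ - a))).1 - (c (s₁ - (s₁ - a))).1 = 2 * ((c s₁).1 - (c a).1) := by
      rw [hmir (s₁ - a) ⟨ha0, le_rfl⟩]
      simp only [sub_sub_cancel]
      ring
    obtain ⟨s, hs, hφs⟩ := intermediate_value_Icc ha0 hφc (show (1 : ℝ) ∈ Icc _ _ by
      constructor
      · simp
      · simp only [hend]
        rw [abs_mul, abs_two]
        linarith)
    simp only at hφs
    have hs0 : s ≠ 0 := by
      intro h0
      rw [h0] at hφs
      simp at hφs
    refine ⟨s₁ + s, s₁ - s, ?_, ?_, ?_⟩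
    · intro h0
      apply hs0
      linarith
    · rw [hmir s hs]
    · rcases eq_or_eq_neg_of_abs_eq hφs with h2 | h2
      · exact ⟨1, by push_cast; linarith⟩
      · exact ⟨-1, by push_cast; linarith⟩
  · -- a closed geodesic
    set k : ℝ → State := fun s => ((c s₁).1 + (c s₁).2.2.1 / e (c s₁).2.1 * (s - s₁),
      (c s₁).2.1, (c s₁).2.2.1, 0) with hk
    have hkd : ∀ s, HasDerivAt k (g.X (k s)) s := by
      intro s
      have h2 : (k s).2.1 < τ := ht
      rw [h.X_eq h2]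
      have h3 : deriv e (k s).2.1 = 0 := hflat _ ⟨h1, ht⟩
      rw [h3]
      have hx : HasDerivAt (fun r => (c s₁).1 + (c s₁).2.2.1 / e (c s₁).2.1 * (r - s₁))
          ((c s₁).2.2.1 / e (c s₁).2.1) s := by
        have := (((hasDerivAt_id s).sub_const s₁).const_mul
          ((c s₁).2.2.1 / e (c s₁).2.1)).const_add (c s₁).1
        rw [mul_one] at this
        exact this
      have := hx.prodMk ((hasDerivAt_const s (c s₁).2.1).prodMk
        ((hasDerivAt_const s (c s₁).2.2.1).prodMk (hasDerivAt_const s (0 : ℝ))))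
      refine this.congr_deriv ?_
      simp [hk]
    have hck : c = k := ode_unique g.contDiff_one_X hc hkd (t₀ := s₁) (by
      simp only [hk, sub_self, mul_zero, add_zero]
      refine Prod.ext rfl (Prod.ext rfl (Prod.ext rfl hq)))
    refine ⟨s₁ + e (c s₁).2.1 / (c s₁).2.2.1, s₁, ?_, ?_, 1, ?_⟩
    · intro h0
      have : e (c s₁).2.1 / (c s₁).2.2.1 = 0 := by linarith
      rw [div_eq_zero_iff] at this
      rcases this with h2 | h2
      · linarith
      · exact hp0 h2
    · conv_lhs => rw [hck]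
    · conv_lhs => rw [hck]
      simp only [hk, add_sub_cancel_left]
      push_cast
      have he' := he.ne'
      field_simp

/-- A geodesic which meets the cusp and is not vertical there meets itself on the cylinder. -/
theorem selfMeets (h : g.CuspBelow e τ) (hflat : ∀ t ∈ Ico (τ - 1) τ, deriv e t = 0)
    (hmono : ∀ t < τ - 1, 0 < deriv e t) (hslope : ∀ t < τ, deriv e t ≤ 2 * e t)
    (hlim : Tendsto e atBot (𝓝 0)) (hc : ∀ s, HasDerivAt c (g.X (c s)) s)
    (hen : ∀ s, g.en (c s) = 1) {s₀ : ℝ} (ht : (c s₀).2.1 < τ) (hp : (c s₀).2.2.1 ≠ 0) :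
    SelfMeets c := by
  rcases le_or_gt (c s₀).2.2.2 0 with hq | hq
  · obtain ⟨s₁, h1, h2⟩ := h.exists_turn hflat hmono hlim hc hen ht hp hq
    exact h.selfMeets_of_turn hflat hmono hslope hc hen h1 h2
  · have hc' := g.integral_rev hc
    have hen' : ∀ s, g.en (rev (c (-s))) = 1 := fun s => by rw [g.en_rev, hen]
    obtain ⟨s₁, h1, h2⟩ := h.exists_turn (c := fun r => rev (c (-r))) hflat hmono hlim hc' hen'
      (s₀ := -s₀) (by simpa [rev] using ht) (by simpa [rev] using hp)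
      (by simp only [rev, neg_neg]; linarith)
    obtain ⟨r₁, r₂, h3, h4, n, h5⟩ := h.selfMeets_of_turn (c := fun r => rev (c (-r))) hflat hmono
      hslope hc' hen' h1 h2
    exact ⟨-r₁, -r₂, fun h0 => h3 (neg_injective h0), h4, n, h5⟩

/-- A vertical geodesic which goes down in the cusp stays vertical and in the cusp. -/
theorem vertical (h : g.CuspBelow e τ) (hc : ∀ s, HasDerivAt c (g.X (c s)) s)
    (hen : ∀ s, g.en (c s) = 1) {s₀ : ℝ} (ht : (c s₀).2.1 < τ) (hp : (c s₀).2.2.1 = 0)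
    (hq : (c s₀).2.2.2 < 0) : ∀ s, s₀ ≤ s → (c s).2.1 ≤ (c s₀).2.1 ∧ (c s).1 = (c s₀).1 ∧
      (c s).2.2.1 = 0 ∧ (c s).2.2.2 < 0 := by
  have hcc := continuous_c hc
  have hqc : Continuous fun r => (c r).2.2.2 := by fun_prop
  -- `q` stays negative
  have hneg : ∀ s, s₀ ≤ s → (c s).2.2.2 < 0 := by
    intro s hs
    by_contra hcon
    push Not at hcon
    have hK : IsCompact (Icc s₀ s ∩ (fun r => (c r).2.2.2) ⁻¹' Ici 0) :=
      isCompact_Icc.inter_right (isClosed_Ici.preimage hqc)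
    obtain ⟨r, ⟨⟨hr0, hr1⟩, hr2⟩, hleast⟩ := hK.exists_isLeast ⟨s, ⟨hs, le_rfl⟩, hcon⟩
    have hr2' : 0 ≤ (c r).2.2.2 := hr2
    have hlt : ∀ u ∈ Ico s₀ r, (c u).2.2.2 < 0 := by
      intro u hu
      by_contra hcon
      push Not at hcon
      have := hleast ⟨⟨hu.1, hu.2.le.trans hr1⟩, hcon⟩
      linarith [hu.2]
    have hsr : s₀ < r := by
      rcases hr0.lt_or_eq with h1 | h1
      · exact h1
      · rw [h1] at hq; linarith
    have hle := h.descend hc ht hlt
    have hpr := h.p_const hc (fun u hu => (hle u hu).trans_lt ht) r ⟨hsr.le, le_rfl⟩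
    have hq0 : (c r).2.2.2 = 0 := by
      refine le_antisymm ?_ hr2'
      have : Tendsto (fun u => (c u).2.2.2) (𝓝[<] r) (𝓝 (c r).2.2.2) :=
        (hqc.tendsto r).mono_left nhdsWithin_le_nhds
      refine le_of_tendsto this ?_
      filter_upwards [Ioo_mem_nhdsLT hsr] with u hu
      exact (hlt u ⟨hu.1.le, hu.2⟩).le
    have hr3 : (c r).2.1 < τ := (hle r ⟨hsr.le, le_rfl⟩).trans_lt ht
    have := h.sq_add_sq hr3 (hen r)
    rw [hpr, hp, hq0] at this
    have h2 := h.pos hr3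
    simp at this
    linarith
  intro s hs
  have hle := h.descend hc ht (s₁ := s) (fun u hu => hneg u hu.1)
  have hreg : ∀ u ∈ Icc s₀ s, (c u).2.1 < τ := fun u hu => (hle u hu).trans_lt ht
  have hpc := h.p_const hc hreg
  refine ⟨hle s ⟨hs, le_rfl⟩, ?_, by rw [hpc s ⟨hs, le_rfl⟩, hp], hneg s hs⟩
  exact constant_of_has_deriv_right_zero (f := fun r => (c r).1) (a := s₀) (b := s)
    (by fun_prop) (fun x hx => by
      have h1 := h.hasDerivAt_x hc (hreg x (Ico_subset_Icc_self hx))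
      rw [hpc x (Ico_subset_Icc_self hx), hp, zero_div] at h1
      exact h1.hasDerivWithinAt) s ⟨hs, le_rfl⟩

end CuspBelow

end CylMetric

end Pool.Agent.CyG
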