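import Pool.Agent.CyGN.CuspEB
import Pool.Agent.CyGN.EndA

set_option autoImplicit false

/-!
# Section 3 of the page in the form of the contracts `CCusp`, `CVert`
-/

namespace Pool.Agent.CyGN

open Set Pool.Agent.CyG

namespace CuspProfile

variable {m : EB} {M : ℝ} {h : ℝ → ℝ}

theorem cCusp (P : CuspProfile m M h) : EB.CCusp m := by
  intro x y q η o hinj t hy
  by_contra hq
  obtain ⟨s₁, s₂, hne, hye, n, hx⟩ := o.cusp_meets P hy hq
  refine hne (hinj (Prod.ext ?_ hye))
  have h0 : ((n : ℝ) : AddCircle (1 : ℝ)) = 0 := by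
    rw [AddCircle.coe_eq_zero_iff]
    exact ⟨n, by simp⟩
  simp only [hx, AddCircle.coe_add, h0, add_zero]

theorem cVert (P : CuspProfile m M h) : EB.CVert m M := by
  intro x y q η o t hy hq hη
  obtain ⟨s₁, h1, h2, -, h3, h4, -⟩ := o.cusp_reach P hy hq hη
  exact ⟨s₁, h1, h2, h3, h4⟩

end CuspProfile

end Pool.Agent.CyGN
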