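import Pool.Agent.CyGN.Ham
import Pool.Agent.CyGN.Cusp

set_option autoImplicit false

/-!
# The cusp `{y ≤ 0}` for orbits of a metric `E (dx² + (dy - b dx)²)`
-/

namespace Pool.Agent.CyGN

open Pool.Agent.CyG
open Set Filter Topology
open scoped ContDiff

/-- The profile of the metric on `{y ≤ 0}`. -/
structure CuspProfile (m : EB) (M : ℝ) (h : ℝ → ℝ) : Prop where
  M_pos : 0 < M
  E_eq : ∀ x, ∀ y ≤ 0, m.E (x, y) = M ^ 2 * h y ^ 2
  b_eq : ∀ x, ∀ y ≤ 0, m.b (x, y) = 0
  h_one : ∀ y, -1 ≤ y → h y = 1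
  h_pos : ∀ y, 0 < h y
  h_diff : Differentiable ℝ h
  h_deriv_pos : ∀ y < -1, 0 < deriv h y
  h_deriv_le : ∀ y, deriv h y ≤ h y
  h_lim : Tendsto h atBot (𝓝 0)

/-- A derivative is determined by the values on one side. -/
private theorem ceb_deriv_left {f g : ℝ → ℝ} {a f' g' : ℝ} (hf : HasDerivAt f f' a)
    (hg : HasDerivAt g g' a) (he : ∀ t ≤ a, f t = g t) : f' = g' := by
  have h1 : HasDerivWithinAt f f' (Iic a) a := hf.hasDerivWithinAt
  have h2 : HasDerivWithinAt f g' (Iic a) a :=
    hg.hasDerivWithinAt.congr (fun t ht => he t ht) (he a le_rfl)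
  exact (uniqueDiffWithinAt_Iic a).eq_deriv _ h1 h2

private theorem ceb_deriv_right {f g : ℝ → ℝ} {a f' g' : ℝ} (hf : HasDerivAt f f' a)
    (hg : HasDerivAt g g' a) (he : ∀ t, a ≤ t → f t = g t) : f' = g' := by
  have h1 : HasDerivWithinAt f f' (Ici a) a := hf.hasDerivWithinAt
  have h2 : HasDerivWithinAt f g' (Ici a) a :=
    hg.hasDerivWithinAt.congr (fun t ht => he t ht) (he a le_rfl)
  exact (uniqueDiffWithinAt_Ici a).eq_deriv _ h1 h2

namespace CuspProfile

variable {m : EB} {M : ℝ} {h : ℝ → ℝ}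

theorem deriv_h_eq (P : CuspProfile m M h) {y : ℝ} (hy : -1 ≤ y) : deriv h y = 0 := by
  refine ceb_deriv_right (P.h_diff y).hasDerivAt (hasDerivAt_const y (1 : ℝ)) fun t ht => ?_
  exact P.h_one t (hy.trans ht)

theorem deriv_h_nonneg (P : CuspProfile m M h) (y : ℝ) : 0 ≤ deriv h y := by
  rcases lt_or_ge y (-1) with h1 | h1
  · exact (P.h_deriv_pos y h1).le
  · exact (P.deriv_h_eq h1).ge

theorem hasDerivAt_e (P : CuspProfile m M h) (y : ℝ) :
    HasDerivAt (fun t => M ^ 2 * h t ^ 2) (M ^ 2 * (2 * h y * deriv h y)) y := by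
  have := ((P.h_diff y).hasDerivAt.pow 2).const_mul (M ^ 2)
  refine this.congr_deriv ?_
  push_cast
  ring

theorem dx_E (P : CuspProfile m M h) (x : ℝ) {y : ℝ} (hy : y ≤ 0) : CyG.dx m.E (x, y) = 0 := by
  unfold CyG.dx
  simp only
  have : (fun a => m.E (a, y)) = fun _ => M ^ 2 * h y ^ 2 := by
    funext a
    exact P.E_eq a y hy
  rw [this, deriv_const]

theorem dt_E (P : CuspProfile m M h) (x : ℝ) {y : ℝ} (hy : y ≤ 0) :
    CyG.dt m.E (x, y) = M ^ 2 * (2 * h y * deriv h y) :=
  ceb_deriv_left (hasDerivAt_dt m.smooth_E x y) (P.hasDerivAt_e y)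
    fun t ht => P.E_eq x t (ht.trans hy)

theorem dt_b (P : CuspProfile m M h) (x : ℝ) {y : ℝ} (hy : y ≤ 0) : CyG.dt m.b (x, y) = 0 :=
  ceb_deriv_left (hasDerivAt_dt m.smooth_b x y) (hasDerivAt_const y (0 : ℝ))
    fun t ht => P.b_eq x t (ht.trans hy)

theorem cuspBelow (P : CuspProfile m M h) :
    m.metric.CuspBelow (fun t => M ^ 2 * h t ^ 2) 0 where
  E x t ht := by
    simp only [EB.metric, P.b_eq x t ht.le, P.E_eq x t ht.le]
    ring
  F x t ht := by
    simp only [EB.metric, P.b_eq x t ht.le]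
    ring
  G x t ht := by
    simp only [EB.metric, P.E_eq x t ht.le]

end CuspProfile

namespace EB.Orbit

variable {m : EB} {x y q η : ℝ → ℝ}

theorem v_state (o : Orbit m x y q η) (s : ℝ) :
    m.metric.v (x s, y s, q s - m.b (x s, y s) * η s, η s) = q s / m.E (x s, y s) := by
  have h := o.E_ne s
  unfold CylMetric.v CylMetric.det
  simp only [EB.metric]
  have hd : m.E (x s, y s) * (1 + m.b (x s, y s) ^ 2) * m.E (x s, y s)
      - (-(m.E (x s, y s) * m.b (x s, y s))) ^ 2 = m.E (x s, y s) ^ 2 := by ring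
  rw [hd]
  field_simp
  ring

theorem w_state (o : Orbit m x y q η) (s : ℝ) :
    m.metric.w (x s, y s, q s - m.b (x s, y s) * η s, η s)
      = (η s + m.b (x s, y s) * q s) / m.E (x s, y s) := by
  have h := o.E_ne s
  unfold CylMetric.w CylMetric.det
  simp only [EB.metric]
  have hd : m.E (x s, y s) * (1 + m.b (x s, y s) ^ 2) * m.E (x s, y s)
      - (-(m.E (x s, y s) * m.b (x s, y s))) ^ 2 = m.E (x s, y s) ^ 2 := by ring
  rw [hd]
  field_simp
  ring

/-- The curve of states of an orbit is an integral curve of the geodesic field. -/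
theorem integral (o : Orbit m x y q η) (s : ℝ) :
    HasDerivAt (fun r => (x r, y r, q r - m.b (x r, y r) * η r, η r))
      (m.metric.X (x s, y s, q s - m.b (x s, y s) * η s, η s)) s := by
  have hb := hasDerivAt_comp_curve m.smooth_b (o.dx s) (o.dy s)
  have := (o.dx s).prodMk ((o.dy s).prodMk (((o.dq s).sub (hb.mul (o.dη s))).prodMk (o.dη s)))
  refine this.congr_deriv ?_
  unfold CylMetric.X
  rw [o.v_state, o.w_state]
  simp only
  rw [m.dx_E, m.dx_F, m.dx_G, m.dt_E, m.dt_F, m.dt_G]
  have h2 := o.en s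
  have h3 := o.E_ne s
  refine Prod.ext rfl (Prod.ext rfl (Prod.ext ?_ ?_))
  · simp only
    field_simp
    linear_combination (-CyG.dx m.E (x s, y s)) * h2
  · simp only
    field_simp
    linear_combination (-CyG.dt m.E (x s, y s)) * h2

theorem en_state (o : Orbit m x y q η) (s : ℝ) :
    m.metric.en (x s, y s, q s - m.b (x s, y s) * η s, η s) = 1 := by
  unfold CylMetric.en
  rw [o.v_state, o.w_state]
  have h2 := o.en s
  have h3 := o.E_ne s
  simp only [EB.metric]
  field_simp
  linear_combination h2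

variable {M : ℝ} {h : ℝ → ℝ}

/-- An orbit which meets `{y ≤ 0}` with `q ≠ 0` meets itself on the cylinder. -/
theorem cusp_meets (P : CuspProfile m M h) (o : Orbit m x y q η) {s : ℝ} (hy : y s ≤ 0)
    (hq : q s ≠ 0) : ∃ s₁ s₂, s₁ ≠ s₂ ∧ y s₁ = y s₂ ∧ ∃ n : ℤ, x s₁ = x s₂ + n := by
  have key : ∀ r, y r < 0 → q r ≠ 0 → ∃ s₁ s₂, s₁ ≠ s₂ ∧ y s₁ = y s₂ ∧
      ∃ n : ℤ, x s₁ = x s₂ + n := by
    intro r hyr hqr
    have hM := P.M_pos
    have he : ∀ t, deriv (fun t => M ^ 2 * h t ^ 2) t = M ^ 2 * (2 * h t * deriv h t) :=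
      fun t => (P.hasDerivAt_e t).deriv
    refine P.cuspBelow.selfMeets
      (c := fun r => (x r, y r, q r - m.b (x r, y r) * η r, η r)) (s₀ := r) ?_ ?_ ?_ ?_
      o.integral o.en_state hyr ?_
    · intro t ht
      rw [he, P.deriv_h_eq (by linarith [ht.1])]
      ring
    · intro t ht
      rw [he]
      have h1 := P.h_pos t
      have h2 := P.h_deriv_pos t (by linarith)
      positivity
    · intro t _
      rw [he]
      have h1 := P.h_pos t
      have h2 := P.h_deriv_le t
      have h3 : h t * deriv h t ≤ h t * h t := mul_le_mul_of_nonneg_left h2 h1.le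
      have h4 : 0 < M ^ 2 := by positivity
      nlinarith
    · have := (P.h_lim.pow 2).const_mul (M ^ 2)
      simpa using this
    · simp only [P.b_eq (x r) (y r) hyr.le, zero_mul, sub_zero]
      exact hqr
  rcases hy.lt_or_eq with hy | hy
  · exact key s hy hq
  by_cases hη : η s = 0
  · -- the closed geodesic `y = 0`
    have hE : m.E (x s, y s) = M ^ 2 := by
      rw [P.E_eq _ _ hy.le, P.h_one _ (by linarith)]
      ring
    have hE0 : ∀ a, m.E (a, 0) = M ^ 2 := by
      intro a
      rw [P.E_eq _ _ le_rfl, P.h_one _ (by norm_num)]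
      ring
    have hM := P.M_pos.ne'
    have hen := o.en s
    rw [hE, hη] at hen
    have ok : Orbit m (fun r => x s + q s / M ^ 2 * (r - s)) (fun _ => 0) (fun _ => q s)
        (fun _ => 0) := by
      refine ⟨fun r => ?_, fun r => ?_, fun r => ?_, fun r => ?_, fun r => ?_⟩
      · have := (((hasDerivAt_id r).sub_const s).const_mul (q s / M ^ 2)).const_add (x s)
        rw [mul_one] at this
        rw [hE0]
        exact this
      · rw [P.b_eq _ _ le_rfl]
        simpa using hasDerivAt_const r (0 : ℝ)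
      · rw [P.b_eq _ _ le_rfl, P.dx_E _ le_rfl]
        simpa using hasDerivAt_const r (q s)
      · rw [P.dt_E _ le_rfl, P.deriv_h_eq (by norm_num)]
        simpa using hasDerivAt_const r (0 : ℝ)
      · rw [hE0]
        linarith
    obtain ⟨hx, hy', -, -⟩ := o.unique ok (s₀ := s) (by simp) hy rfl hη
    refine ⟨s + M ^ 2 / q s, s, ?_, ?_, 1, ?_⟩
    · intro h0
      have : M ^ 2 / q s = 0 := by linarith
      rw [div_eq_zero_iff] at this
      rcases this with h2 | h2
      · exact hM (pow_eq_zero_iff (two_ne_zero) |>.1 h2)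
      · exact hq h2
    · rw [hy']
    · rw [hx]
      simp only [add_sub_cancel_left, sub_self, mul_zero, add_zero]
      push_cast
      field_simp
  · -- `y` takes negative values near `s`
    have hne : ∀ᶠ r in 𝓝 s, q r ≠ 0 := o.continuous_q.continuousAt.eventually_ne hq
    have hex : ∃ r, y r < 0 ∧ q r ≠ 0 := by
      by_contra hcon
      push Not at hcon
      have hmin : IsLocalMin y s := by
        filter_upwards [hne] with r hr
        by_contra hcon2
        push Not at hcon2
        rw [hy] at hcon2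
        exact hr (hcon r hcon2)
      have hd := o.dy s
      have h0 := hmin.hasDerivAt_eq_zero hd
      rw [P.b_eq _ _ hy.le, zero_mul, add_zero, div_eq_zero_iff] at h0
      rcases h0 with h0 | h0
      · exact hη h0
      · exact o.E_ne s h0
    obtain ⟨r, h1, h2⟩ := hex
    exact key r h1 h2

/-- At the level `0` a vertical orbit has `η = ± M`. -/
theorem cusp_level (P : CuspProfile m M h) (o : Orbit m x y q η) {s : ℝ} (hy : y s = 0)
    (hq : q s = 0) : η s = M ∨ η s = -M := by
  have h1 := o.en s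
  rw [P.E_eq _ _ hy.le, hy, P.h_one 0 (by norm_num), hq] at h1
  have : η s ^ 2 = M ^ 2 := by linarith
  exact sq_eq_sq_iff_eq_or_eq_neg.1 this

/-- A vertical orbit going up in the cusp reaches the level `0`. -/
theorem cusp_reach (P : CuspProfile m M h) (o : Orbit m x y q η) {s : ℝ} (hy : y s ≤ 0)
    (hq : q s = 0) (hη : 0 < η s) : ∃ s₁, s ≤ s₁ ∧ y s₁ = 0 ∧ x s₁ = x s ∧ q s₁ = 0 ∧
      η s₁ = M ∧ ∀ r ∈ Ico s s₁, y r < 0 := by
  have hM := P.M_pos
  have hyc := o.continuous_y
  -- facts on an interval where `y ≤ 0`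
  have facts : ∀ b, (∀ r ∈ Icc s b, y r ≤ 0) → ∀ r ∈ Icc s b, q r = 0 ∧ x r = x s ∧
      η s ≤ η r := by
    intro b hb
    have hqz : ∀ r ∈ Icc s b, q r = 0 := by
      have := constant_of_has_deriv_right_zero (f := q) (a := s) (b := b)
        o.continuous_q.continuousOn (fun r hr => by
          have h1 := o.dq r
          rw [P.dx_E _ (hb r (Ico_subset_Icc_self hr)), P.b_eq _ _ (hb r (Ico_subset_Icc_self hr)),
            P.dt_b _ (hb r (Ico_subset_Icc_self hr))] at h1
          simp only [zero_mul, add_zero, zero_div] at h1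
          exact h1.hasDerivWithinAt)
      intro r hr
      rw [this r hr, hq]
    have hxz : ∀ r ∈ Icc s b, x r = x s :=
      constant_of_has_deriv_right_zero (f := x) (a := s) (b := b)
        o.continuous_x.continuousOn (fun r hr => by
          have h1 := o.dx r
          rw [hqz r (Ico_subset_Icc_self hr), zero_div] at h1
          exact h1.hasDerivWithinAt)
    intro r hr
    refine ⟨hqz r hr, hxz r hr, ?_⟩
    have hmono : MonotoneOn η (Icc s b) := by
      refine monotoneOn_of_deriv_nonneg (convex_Icc s b) o.continuous_η.continuousOn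
        (fun r _ => (o.dη r).differentiableAt.differentiableWithinAt) (fun r hr => ?_)
      have hr' := interior_subset hr
      rw [(o.dη r).deriv, hqz r hr', P.dt_E _ (hb r hr')]
      have h1 := P.h_pos (y r)
      have h2 := P.deriv_h_nonneg (y r)
      have h3 := o.E_pos r
      have h4 : 0 ≤ M ^ 2 * (2 * h (y r) * deriv h (y r)) / (2 * m.E (x r, y r)) := by positivity
      simpa using h4
    exact hmono ⟨le_rfl, hr.1.trans hr.2⟩ hr hr.1
  -- the level `0` is reached
  have hex : ∃ b, s ≤ b ∧ 0 ≤ y b := by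
    by_contra hcon
    push Not at hcon
    have hle1 : ∀ t, h t ≤ 1 := by
      intro t
      have hmono : Monotone h := monotone_of_deriv_nonneg P.h_diff P.deriv_h_nonneg
      rw [← P.h_one (max t 0) ((by norm_num : (-1 : ℝ) ≤ 0).trans (le_max_right _ _))]
      exact hmono (le_max_left _ _)
    set k := η s / M ^ 2 with hk
    have hk0 : 0 < k := by positivity
    set S := s + (-(y s)) / k with hS
    have hys : y s < 0 := hcon s le_rfl
    have hSs : s ≤ S := by
      have : 0 ≤ (-(y s)) / k := div_nonneg (by linarith) hk0.le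
      linarith
    have hf := facts S (fun r hr => (hcon r hr.1).le)
    have hb := Convex.mul_sub_le_image_sub_of_le_deriv (D := Icc s S) (convex_Icc _ _)
      (f := y) hyc.continuousOn
      (fun r _ => (o.dy r).differentiableAt.differentiableWithinAt)
      (C := k) (fun r hr => by
        have hr' := interior_subset hr
        rw [(o.dy r).deriv, P.b_eq _ _ (hcon r hr'.1).le, zero_mul, add_zero,
          P.E_eq _ _ (hcon r hr'.1).le]
        have h1 := P.h_pos (y r)
        have h2 := hle1 (y r)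
        have h3 := (hf r hr').2.2
        rw [hk]
        have h4 : h (y r) ^ 2 ≤ 1 := pow_le_one₀ h1.le h2
        have h5 : M ^ 2 * h (y r) ^ 2 ≤ M ^ 2 := by nlinarith [sq_nonneg M]
        exact div_le_div₀ (hη.le.trans h3) h3 (by positivity) h5)
      s ⟨le_rfl, hSs⟩ S ⟨hSs, le_rfl⟩ hSs
    have h2 : k * (S - s) = -(y s) := by
      rw [hS]
      field_simp
      ring
    rw [h2] at hb
    have := hcon S hSs
    linarith
  obtain ⟨b, hb1, hb2⟩ := hex
  have hK : IsCompact (Icc s b ∩ y ⁻¹' Ici 0) :=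
    isCompact_Icc.inter_right (isClosed_Ici.preimage hyc)
  obtain ⟨a, ⟨⟨ha0, ha1⟩, ha2⟩, hleast⟩ := hK.exists_isLeast ⟨b, ⟨hb1, le_rfl⟩, hb2⟩
  have ha2' : 0 ≤ y a := ha2
  have hlt : ∀ r ∈ Ico s a, y r < 0 := by
    intro r hr
    by_contra hcon
    push Not at hcon
    have := hleast ⟨⟨hr.1, hr.2.le.trans ha1⟩, hcon⟩
    linarith [hr.2]
  have hya : y a = 0 := by
    refine le_antisymm ?_ ha2'
    rcases ha0.lt_or_eq with h1 | h1
    · have : Tendsto y (𝓝[<] a) (𝓝 (y a)) := (hyc.tendsto a).mono_left nhdsWithin_le_nhds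
      refine le_of_tendsto this ?_
      filter_upwards [Ioo_mem_nhdsLT h1] with r hr
      exact (hlt r ⟨hr.1.le, hr.2⟩).le
    · rw [← h1]
      exact hy
  have hf := facts a (fun r hr => by
    rcases hr.2.lt_or_eq with h1 | h1
    · exact (hlt r ⟨hr.1, h1⟩).le
    · rw [h1, hya]) a ⟨ha0, le_rfl⟩
  refine ⟨a, ha0, hya, hf.2.1, hf.1, ?_, hlt⟩
  rcases o.cusp_level P hya hf.1 with h1 | h1
  · exact h1
  · exfalso
    linarith [hf.2.2]

end EB.Orbit

end Pool.Agent.CyGN
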