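import Pool.Agent.CyGN.Ham

set_option autoImplicit false

/-!
# Every geodesic line visits `y ≤ 0` (section 2 of the page)

Everything is stated for `EB.Orbit` of `Ham.lean`, for a metric with `E_y + |b_y| E < 0` for
`y > 0` (Lemma U), `b = 0` for `y ≤ 1/4`, and the fact that far up a given amount of `-η` forces
`y' < 0`.
-/

namespace Pool.Agent.CyGN

open Pool.Agent.CyG Set Filter Topology
open scoped ContDiff

/-- A function whose derivative is `≤ -k` after time `a` lies below the line of slope `-k`. -/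
theorem le_sub_of_deriv_le {f f' : ℝ → ℝ} {a k : ℝ} (hf : ∀ s, HasDerivAt f (f' s) s)
    (hk : ∀ s, a ≤ s → f' s ≤ -k) : ∀ t, a ≤ t → f t ≤ f a - k * (t - a) := by
  intro t hat
  have hg : AntitoneOn (fun s => f s + k * s) (Ici a) := by
    apply antitoneOn_of_deriv_nonpos (convex_Ici a)
    · exact fun s _ => ((hf s).add ((hasDerivAt_id s).const_mul k)).continuousAt.continuousWithinAt
    · exact fun s _ =>
        ((hf s).add ((hasDerivAt_id s).const_mul k)).differentiableAt.differentiableWithinAt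
    · intro s hs
      rw [interior_Ici] at hs
      have h1 : deriv (fun s => f s + k * s) s = f' s + k * 1 :=
        ((hf s).add ((hasDerivAt_id s).const_mul k)).deriv
      rw [h1]
      have := hk s (le_of_lt hs)
      linarith
  have := hg self_mem_Ici hat hat
  simp only at this
  linarith

/-- A barrier: if `f' < 0` whenever `f = C`, then `f ≤ C` persists. -/
theorem barrier {f f' : ℝ → ℝ} {a C : ℝ} (hf : ∀ s, HasDerivAt f (f' s) s) (ha : f a ≤ C)
    (hC : ∀ s, a ≤ s → f s = C → f' s < 0) : ∀ t, a ≤ t → f t ≤ C := by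
  intro t hat
  refine image_le_of_deriv_right_lt_deriv_boundary (f := f) (f' := f') (a := a) (b := t)
    (B := fun _ => C) (B' := fun _ => 0)
    (fun s _ => (hf s).continuousAt.continuousWithinAt)
    (fun s _ => (hf s).hasDerivWithinAt) ha (fun s => hasDerivAt_const s C)
    (fun s hs h => hC s hs.1 h) ⟨hat, le_rfl⟩

/-- A continuous function, 1-periodic in `x`, attains its maximum over a strip. -/
theorem exists_max_strip {f : ℝ × ℝ → ℝ} (hf : Continuous f)
    (hper : ∀ x y, f (x + 1, y) = f (x, y)) {a b : ℝ} (hab : a ≤ b) :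
    ∃ x₀ y₀, y₀ ∈ Icc a b ∧ ∀ x y, y ∈ Icc a b → f (x, y) ≤ f (x₀, y₀) := by
  have hK : IsCompact (Icc (0 : ℝ) 1 ×ˢ Icc a b) := isCompact_Icc.prod isCompact_Icc
  have hne : (Icc (0 : ℝ) 1 ×ˢ Icc a b).Nonempty := ⟨(0, a), by simp [hab]⟩
  obtain ⟨⟨x₀, y₀⟩, hp, hmax⟩ := hK.exists_isMaxOn hne hf.continuousOn
  refine ⟨x₀, y₀, hp.2, fun x y hy => ?_⟩
  have hP : Function.Periodic (fun a => f (a, y)) 1 := fun a => hper a y
  have h1 : f (Int.fract x, y) = f (x, y) := by
    have h2 := hP.sub_zsmul_eq ⌊x⌋ (x := x)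
    have e : x - ⌊x⌋ • (1 : ℝ) = Int.fract x := by
      rw [zsmul_eq_mul, mul_one]; rfl
    rw [← e]
    exact h2
  rw [← h1]
  exact hmax (show (Int.fract x, y) ∈ Icc (0 : ℝ) 1 ×ˢ Icc a b from
    ⟨⟨Int.fract_nonneg x, (Int.fract_lt_one x).le⟩, hy⟩)

namespace EB

variable {m : EB} {x y q η : ℝ → ℝ}

/-- The facts about the metric which are used in section 2. -/
structure DownFacts (m : EB) : Prop where
  U : ∀ x y, 0 < y → CyG.dt m.E (x, y) + |CyG.dt m.b (x, y)| * m.E (x, y) < 0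
  b0 : ∀ x y, y ≤ 1 / 4 → m.b (x, y) = 0
  far : ∀ n, 0 < n → ∃ Y, ∀ x y q η, Y ≤ y → q ^ 2 + η ^ 2 = m.E (x, y) → η ≤ -n →
    η + m.b (x, y) * q < 0

/-- the upper bound of `η'` -/
noncomputable def etaBound (m : EB) (p : ℝ × ℝ) : ℝ :=
  (CyG.dt m.E p + |CyG.dt m.b p| * m.E p) / (2 * m.E p)

theorem continuous_etaBound (m : EB) : Continuous (etaBound m) := by
  have h1 : Continuous (CyG.dt m.E) := (contDiff_dt m.smooth_E).continuous
  have h2 : Continuous (CyG.dt m.b) := (contDiff_dt m.smooth_b).continuous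
  have h3 : Continuous m.E := m.smooth_E.continuous
  unfold etaBound
  exact (h1.add (h2.abs.mul h3)).div (continuous_const.mul h3)
    (fun p => mul_ne_zero two_ne_zero (m.pos_E p).ne')

theorem etaBound_per (m : EB) (x y : ℝ) : etaBound m (x + 1, y) = etaBound m (x, y) := by
  simp only [etaBound, dt_per m.per_E x y, dt_per m.per_b x y, m.per_E]

theorem DownFacts.etaBound_neg (F : DownFacts m) {x y : ℝ} (hy : 0 < y) :
    etaBound m (x, y) < 0 :=
  div_neg_of_neg_of_pos (F.U x y hy) (mul_pos two_pos (m.pos_E _))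

namespace Orbit

theorem eta_deriv_le (h : Orbit m x y q η) (s : ℝ) :
    CyG.dt m.E (x s, y s) / (2 * m.E (x s, y s))
      - CyG.dt m.b (x s, y s) * q s * η s / m.E (x s, y s) ≤ etaBound m (x s, y s) := by
  have hE := h.E_pos s
  have hen := h.en s
  have e : CyG.dt m.E (x s, y s) / (2 * m.E (x s, y s))
      - CyG.dt m.b (x s, y s) * q s * η s / m.E (x s, y s) =
      (CyG.dt m.E (x s, y s) - 2 * (CyG.dt m.b (x s, y s) * q s * η s))
        / (2 * m.E (x s, y s)) := by
    field_simp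
  rw [e, etaBound]
  gcongr
  have h1 : -(2 * (CyG.dt m.b (x s, y s) * q s * η s)) ≤
      |CyG.dt m.b (x s, y s)| * |2 * (q s * η s)| := by
    rw [← abs_mul]
    refine le_trans (le_of_eq ?_) (neg_le_abs _)
    ring
  have h2 : |2 * (q s * η s)| ≤ m.E (x s, y s) := by
    rw [← hen, abs_le]
    constructor <;> nlinarith [sq_nonneg (q s + η s), sq_nonneg (q s - η s)]
  have h3 := mul_le_mul_of_nonneg_left h2 (abs_nonneg (CyG.dt m.b (x s, y s)))
  linarith

/-- `η` is strictly decreasing as long as `y > 0`. -/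
theorem eta_strictAntiOn (h : Orbit m x y q η) (F : DownFacts m) {D : Set ℝ} (hD : Convex ℝ D)
    (hpos : ∀ s ∈ interior D, 0 < y s) : StrictAntiOn η D := by
  apply strictAntiOn_of_deriv_neg hD h.continuous_η.continuousOn
  intro s hs
  rw [(h.dη s).deriv]
  exact lt_of_le_of_lt (h.eta_deriv_le s) (F.etaBound_neg (hpos s hs))

/-- Going down: with `η < 0` the orbit reaches `y = 0`. -/
theorem reach_zero (h : Orbit m x y q η) (F : DownFacts m) {t₁ : ℝ} (hy : 0 < y t₁)
    (hη : η t₁ < 0) : ∃ t, t₁ < t ∧ y t = 0 := by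
  by_contra hcon
  push Not at hcon
  -- `y > 0` from `t₁` on
  have hpos : ∀ t, t₁ ≤ t → 0 < y t := by
    intro t ht
    by_contra hle
    push Not at hle
    obtain ⟨r, hr, hr0⟩ := intermediate_value_Icc' ht h.continuous_y.continuousOn
      (show (0 : ℝ) ∈ Icc (y t) (y t₁) from ⟨hle, hy.le⟩)
    rcases eq_or_lt_of_le hr.1 with e | e
    · rw [← e] at hr0; exact hy.ne' hr0
    · exact hcon r e hr0
  have hanti : StrictAntiOn η (Ici t₁) := by
    apply h.eta_strictAntiOn F (convex_Ici t₁)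
    intro s hs
    rw [interior_Ici] at hs
    exact hpos s (le_of_lt hs)
  have hη1 : ∀ t, t₁ ≤ t → η t ≤ η t₁ := fun t ht => hanti.antitoneOn self_mem_Ici ht ht
  -- (a) `y` is bounded
  obtain ⟨Y₀, hY₀⟩ := F.far (-η t₁) (by linarith)
  have hbd : ∀ t, t₁ ≤ t → y t ≤ max (y t₁) Y₀ := by
    refine barrier h.dy (le_max_left _ _) (fun s hs hsy => ?_)
    refine div_neg_of_neg_of_pos (hY₀ (x s) (y s) (q s) (η s) ?_ (h.en s) ?_) (h.E_pos s)
    · rw [hsy]; exact le_max_right _ _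
    · have := hη1 s hs; linarith
  by_cases hlow : ∃ t₂, t₁ ≤ t₂ ∧ y t₂ ≤ 1 / 4
  · -- (b)
    obtain ⟨t₂, ht₂, hy₂⟩ := hlow
    have hb0 : ∀ s, y s ≤ 1 / 4 → m.b (x s, y s) = 0 := fun s hs => F.b0 _ _ hs
    have hle : ∀ t, t₂ ≤ t → y t ≤ 1 / 4 := by
      refine barrier h.dy hy₂ (fun s hs hsy => ?_)
      refine div_neg_of_neg_of_pos ?_ (h.E_pos s)
      rw [hb0 s hsy.le]
      have := hη1 s (ht₂.trans hs)
      linarith
    obtain ⟨x₀, y₀, _, hmax⟩ := exists_max_strip m.smooth_E.continuous m.per_E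
      (show (0 : ℝ) ≤ 1 / 4 by norm_num)
    set C := m.E (x₀, y₀) with hC
    have hCpos : 0 < C := m.pos_E _
    have hder : ∀ s, t₂ ≤ s → (η s + m.b (x s, y s) * q s) / m.E (x s, y s)
        ≤ -((-η t₁) / C) := by
      intro s hs
      rw [hb0 s (hle s hs)]
      have h1 := hη1 s (ht₂.trans hs)
      have h2 := hmax (x s) (y s) ⟨(hpos s (ht₂.trans hs)).le, hle s hs⟩
      have h3 := h.E_pos s
      have e : -((-η t₁) / C) = η t₁ / C := by ring
      rw [e, div_le_div_iff₀ h3 hCpos]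
      nlinarith
    have hlin := le_sub_of_deriv_le h.dy hder
    have hk : 0 < (-η t₁) / C := div_pos (by linarith) hCpos
    have hT : t₂ ≤ t₂ + (1 / 4) / ((-η t₁) / C) := by
      have : 0 < (1 / 4) / ((-η t₁) / C) := by positivity
      linarith
    have h1 := hlin _ hT
    have h2 := hpos _ (ht₂.trans hT)
    have e : (-η t₁) / C * (t₂ + (1 / 4) / ((-η t₁) / C) - t₂) = 1 / 4 := by
      rw [add_sub_cancel_left]
      exact mul_div_cancel₀ _ hk.ne'
    rw [e] at h1
    linarith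
  · -- (c)
    push Not at hlow
    have hstrip : ∀ t, t₁ ≤ t → y t ∈ Icc (1 / 4 : ℝ) (max (y t₁) Y₀) := fun t ht =>
      ⟨(hlow t ht).le, hbd t ht⟩
    have hne : (1 / 4 : ℝ) ≤ max (y t₁) Y₀ := (hlow t₁ le_rfl).le.trans (le_max_left _ _)
    obtain ⟨x₀, y₀, hy₀, hmax⟩ := exists_max_strip (continuous_etaBound m) (etaBound_per m) hne
    set k := -etaBound m (x₀, y₀) with hk
    have hkpos : 0 < k := by
      have := F.etaBound_neg (x := x₀) (y := y₀) (lt_of_lt_of_le (by norm_num) hy₀.1)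
      linarith
    have hder : ∀ s, t₁ ≤ s → CyG.dt m.E (x s, y s) / (2 * m.E (x s, y s))
        - CyG.dt m.b (x s, y s) * q s * η s / m.E (x s, y s) ≤ -k := by
      intro s hs
      have h1 := h.eta_deriv_le s
      have h2 := hmax (x s) (y s) (hstrip s hs)
      linarith
    have hlin := le_sub_of_deriv_le h.dη hder
    obtain ⟨x₁, y₁, _, hmaxE⟩ := exists_max_strip m.smooth_E.continuous m.per_E hne
    set C := m.E (x₁, y₁) with hC
    have hCpos : 0 < C := m.pos_E _
    have hT : t₁ ≤ t₁ + (C + 1) / k := by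
      have : 0 < (C + 1) / k := by positivity
      linarith
    have h1 := hlin _ hT
    have e : k * (t₁ + (C + 1) / k - t₁) = C + 1 := by
      rw [add_sub_cancel_left]
      exact mul_div_cancel₀ _ hkpos.ne'
    rw [e] at h1
    set T := t₁ + (C + 1) / k
    have h2 := hmaxE (x T) (y T) (hstrip T hT)
    have h3 := h.en T
    have h4 : η T ≤ -(C + 1) := by linarith
    nlinarith [sq_nonneg (q T)]

/-- Every orbit visits `y ≤ 0`. -/
theorem visit (h : Orbit m x y q η) (F : DownFacts m) : ∃ t, y t ≤ 0 := by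
  by_contra hcon
  push Not at hcon
  rcases lt_or_ge (η 0) 0 with h0 | h0
  · obtain ⟨t, _, ht⟩ := h.reach_zero F (hcon 0) h0
    exact (hcon t).ne' ht
  · have h1 : StrictAntiOn η univ := h.eta_strictAntiOn F convex_univ (fun s _ => hcon s)
    have h2 : η 0 < η (-1) := h1 (mem_univ _) (mem_univ _) (by norm_num)
    obtain ⟨t, _, ht⟩ := h.rev.reach_zero F (t₁ := 1) (hcon (-1)) (by show -η (-1) < 0; linarith)
    exact (hcon (-t)).ne' ht

/-- The first time with `y = 0` after `t₁`: the orbit reaches `y = 0` with `y > 0` before. -/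
theorem reach_zero_first (h : Orbit m x y q η) (F : DownFacts m) {t₁ : ℝ} (hy : 0 < y t₁)
    (hη : η t₁ < 0) : ∃ t, t₁ < t ∧ y t = 0 ∧ ∀ s, t₁ ≤ s → s < t → 0 < y s := by
  obtain ⟨t₂, ht₂, hy₂⟩ := h.reach_zero F hy hη
  -- the least zero in `[t₁, t₂]`
  have hK : IsCompact (Icc t₁ t₂ ∩ y ⁻¹' {0}) :=
    isCompact_Icc.inter_right (isClosed_singleton.preimage h.continuous_y)
  obtain ⟨t, ht, hmin⟩ := hK.exists_isLeast ⟨t₂, ⟨ht₂.le, le_rfl⟩, hy₂⟩
  have ht0 : y t = 0 := ht.2
  have htt : t₁ < t := lt_of_le_of_ne ht.1.1 (fun e => by rw [← e] at ht0; exact hy.ne' ht0)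
  refine ⟨t, htt, ht0, fun s hs hst => ?_⟩
  by_contra hle
  push Not at hle
  obtain ⟨r, hr, hr0⟩ := intermediate_value_Icc' hs h.continuous_y.continuousOn
    (show (0 : ℝ) ∈ Icc (y s) (y t₁) from ⟨hle, hy.le⟩)
  have := hmin (show r ∈ Icc t₁ t₂ ∩ y ⁻¹' {0} from
    ⟨⟨hr.1, hr.2.trans (hst.le.trans ht.1.2)⟩, hr0⟩)
  linarith [hr.2]

end Orbit

end EB

end Pool.Agent.CyGN
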