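import Mathlib

set_option autoImplicit false

/-!
# Lemma U, pointwise (section 1 of the page)

`E_y + |b_y| E < 0` for `y > 0`, region by region, for abstract real numbers.
-/

namespace Pool.Agent.CyGN.DownU

/-- region `(0, 1/4]` -/
theorem U_R0 {β β1 : ℝ} (hβ : 0 < β) (hβ1 : β1 < 0) (E : ℝ) :
    2 * β * β1 + |(0 : ℝ)| * E < 0 := by
  rw [abs_zero, zero_mul, add_zero]
  nlinarith

/-- region `[1/4, 1/2]` -/
theorem U_R1 {c S Sy χ χ1 g2 u A0 : ℝ} (hc : 1 ≤ c) (hS : 99 ≤ S) (hSy : Sy ≤ -(920 * c))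
    (hSy' : -(1081 * c) ≤ Sy) (hχ : 0 ≤ χ) (hχ1 : χ ≤ 1) (hχ' : |χ1| ≤ 4 * c) (hg : 0 ≤ g2)
    (hg' : g2 ≤ 4.6) (hu : 0 ≤ u) (hu1 : u ≤ 1) (hA : 0 ≤ A0) (hA' : A0 ≤ 9 / 4) :
    (2 * S * Sy + 2 * χ * χ1 * g2)
      + |A0 * u * (χ1 * S - χ * Sy) / S ^ 2| * (S ^ 2 + χ ^ 2 * g2) < 0 := by
  have hS0 : 0 < S := by linarith
  have hc0 : 0 < c := by linarith
  -- the numerator of `b_y`
  have h1 : |χ1 * S - χ * Sy| ≤ 4 * c * S + 1081 * c := by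
    have e1 : |χ1 * S| ≤ 4 * c * S := by
      rw [abs_mul, abs_of_pos hS0]
      exact mul_le_mul_of_nonneg_right hχ' hS0.le
    have e2 : |χ * Sy| ≤ 1081 * c := by
      rw [abs_mul, abs_of_nonneg hχ]
      have : |Sy| ≤ 1081 * c := abs_le.2 ⟨hSy', by linarith⟩
      have h0 := abs_nonneg Sy
      nlinarith
    exact (abs_sub _ _).trans (add_le_add e1 e2)
  have h2 : |A0 * u * (χ1 * S - χ * Sy) / S ^ 2| ≤ 9 / 4 * (4 * c * S + 1081 * c) / S ^ 2 := by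
    rw [abs_div, abs_of_pos (pow_pos hS0 2)]
    gcongr
    rw [abs_mul, abs_of_nonneg (mul_nonneg hA hu)]
    have h3 : A0 * u ≤ 9 / 4 := by nlinarith
    exact mul_le_mul h3 h1 (abs_nonneg _) (by norm_num)
  have h3 : S ^ 2 + χ ^ 2 * g2 ≤ S ^ 2 + 4.6 := by
    have : χ ^ 2 ≤ 1 := by nlinarith
    nlinarith [sq_nonneg χ]
  have h3' : 0 ≤ S ^ 2 + χ ^ 2 * g2 := by positivity
  have h4 : |A0 * u * (χ1 * S - χ * Sy) / S ^ 2| * (S ^ 2 + χ ^ 2 * g2) ≤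
      9 / 4 * (4 * c * S + 1081 * c) / S ^ 2 * (S ^ 2 + 4.6) :=
    mul_le_mul h2 h3 h3' (by positivity)
  have h5 : 9 / 4 * (4 * c * S + 1081 * c) / S ^ 2 * (S ^ 2 + 4.6) ≤
      2.26 * (4 * c * S + 1081 * c) := by
    have e : 9 / 4 * (4 * c * S + 1081 * c) / S ^ 2 * (S ^ 2 + 4.6) =
        (4 * c * S + 1081 * c) * (9 / 4 * (S ^ 2 + 4.6) / S ^ 2) := by ring
    rw [e, mul_comm (2.26 : ℝ)]
    gcongr
    rw [div_le_iff₀ (pow_pos hS0 2)]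
    nlinarith
  have h6 : 2 * χ * χ1 * g2 ≤ 36.8 * c := by
    have e1 : χ * χ1 ≤ 4 * c := by
      have := abs_le.1 hχ'
      nlinarith
    have e2 : χ * χ1 * g2 ≤ 4 * c * 4.6 := by
      have := mul_le_mul_of_nonneg_right e1 hg
      nlinarith
    linarith
  have h7 : 2 * S * Sy ≤ -(1840 * c * S) := by nlinarith
  nlinarith

/-- region `[1/2, 2]` -/
theorem U_R2 {β β1 W E A0 u : ℝ} (hβ : 99 ≤ β) (hβ1 : β1 < 0) (hW : W ≤ 100 * (-β1))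
    (hE0 : 0 ≤ E) (hE : E ≤ β ^ 2 + 4.6) (hu : 0 ≤ u) (hu1 : u ≤ 1) (hA : 0 ≤ A0)
    (hA' : A0 ≤ 9 / 4) :
    (2 * β * β1 + W) + |-(A0 * u * β1) / β ^ 2| * E < 0 := by
  have hβ0 : 0 < β := by linarith
  have h1 : |-(A0 * u * β1) / β ^ 2| ≤ 9 / 4 * (-β1) / β ^ 2 := by
    rw [abs_div, abs_of_pos (pow_pos hβ0 2)]
    gcongr
    rw [abs_neg, abs_mul, abs_of_nonneg (mul_nonneg hA hu), abs_of_neg hβ1]
    have h3 : A0 * u ≤ 9 / 4 := by nlinarith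
    exact mul_le_mul_of_nonneg_right h3 (by linarith)
  have h2 : |-(A0 * u * β1) / β ^ 2| * E ≤ 9 / 4 * (-β1) / β ^ 2 * (β ^ 2 + 4.6) :=
    mul_le_mul h1 hE hE0 (div_nonneg (by nlinarith) (by positivity))
  have h3 : 9 / 4 * (-β1) / β ^ 2 * (β ^ 2 + 4.6) ≤ 2.3 * (-β1) := by
    have e : 9 / 4 * (-β1) / β ^ 2 * (β ^ 2 + 4.6) = (-β1) * (9 / 4 * (β ^ 2 + 4.6) / β ^ 2) := by
      ring
    rw [e, mul_comm (2.3 : ℝ)]
    apply mul_le_mul_of_nonneg_left _ (by linarith)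
    rw [div_le_iff₀ (pow_pos hβ0 2)]
    nlinarith
  nlinarith

/-- region `[2, ∞)`: `Ey = 2 β β' + 2 P P_y` with `β' = -β/Y` and `P P_y ≤ 0`, `b_y = u a'` with
`|a'| ≤ 2 a / Y`, `a = A / β`. -/
theorem U_R3 {β Y A a1 u R E : ℝ} (hβ : 0 < β) (hβ' : β ≤ 100) (hY : 0 < Y)
    (_hA : 0 ≤ A) (hA' : A ≤ 2.26e-6 * β ^ 3) (ha : |a1| ≤ 2 * (A / β) / Y) (hu : 0 ≤ u)
    (hu1 : u ≤ 1) (hR : R ≤ 0) (hE0 : 0 ≤ E) (hE : E ≤ β ^ 2 + 4.6) :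
    (2 * β * (-(β / Y)) + R) + |a1 * u| * E < 0 := by
  have h1 : |a1 * u| ≤ 2 * (2.26e-6 * β ^ 2) / Y := by
    rw [abs_mul, abs_of_nonneg hu]
    have h2 : |a1| * u ≤ |a1| := by nlinarith [abs_nonneg a1]
    have h3 : A / β ≤ 2.26e-6 * β ^ 2 := by
      rw [div_le_iff₀ hβ]
      nlinarith
    have h4 : 2 * (A / β) / Y ≤ 2 * (2.26e-6 * β ^ 2) / Y := by gcongr
    linarith
  have h2 : |a1 * u| * E ≤ 2 * (2.26e-6 * β ^ 2) / Y * (β ^ 2 + 4.6) :=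
    mul_le_mul h1 hE hE0 (by positivity)
  have h3 : 2 * (2.26e-6 * β ^ 2) / Y * (β ^ 2 + 4.6) ≤ 0.046 * (β ^ 2 / Y) := by
    have e : 2 * (2.26e-6 * β ^ 2) / Y * (β ^ 2 + 4.6) =
        (4.52e-6 * (β ^ 2 + 4.6)) * (β ^ 2 / Y) := by ring
    rw [e]
    gcongr
    nlinarith
  have h4 : 2 * β * (-(β / Y)) = -(2 * (β ^ 2 / Y)) := by ring
  have h5 : 0 < β ^ 2 / Y := by positivity
  rw [h4]
  linarith

/-- the derivative of `A / β` in the region `y ≥ 2` -/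
theorem a1_bound {β Y Z Z1 A : ℝ} (hβ : 0 < β) (hY : 0 < Y) (hYZ : Y ≤ Z) (hZ1 : 0 ≤ Z1)
    (hZ1' : Z1 ≤ 1) (hA : 0 ≤ A) :
    |((-(3 * A * Z1 / Z)) * β - A * (-(β / Y))) / β ^ 2| ≤ 2 * (A / β) / Y := by
  have hZ : 0 < Z := by linarith
  have e : ((-(3 * A * Z1 / Z)) * β - A * (-(β / Y))) / β ^ 2 =
      (A / β) * (1 / Y - 3 * (Z1 / Z)) := by
    field_simp
    ring
  rw [e, abs_mul, abs_of_nonneg (by positivity)]
  have h1 : Z1 / Z ≤ 1 / Y := by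
    rw [div_le_div_iff₀ hZ hY]
    nlinarith
  have h2 : 0 ≤ Z1 / Z := by positivity
  have h3 : |1 / Y - 3 * (Z1 / Z)| ≤ 2 * (1 / Y) := by
    rw [abs_le]
    constructor <;> nlinarith [one_div_pos.2 hY]
  have h4 := mul_le_mul_of_nonneg_left h3 (show 0 ≤ A / β by positivity)
  refine h4.trans (le_of_eq ?_)
  ring

/-- far up: `η ≤ -n`, `β < n` force `y' < 0` -/
theorem far_up {β A u P q η n : ℝ} (hβ : 0 < β) (hβ' : β ≤ 100) (hA : 0 ≤ A)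
    (hA' : A ≤ 2.26e-6 * β ^ 3) (hu : 0 ≤ u) (hu1 : u ≤ 1) (hP : P ^ 2 ≤ 4.6)
    (hn : β < n) (hη : η ≤ -n) (hen : q ^ 2 + η ^ 2 = β ^ 2 + P ^ 2) :
    η + A / β * u * q < 0 := by
  have h1 : q ^ 2 ≤ P ^ 2 := by nlinarith
  have h2 : |q| ≤ 3 := by
    rw [← abs_of_nonneg (show (0 : ℝ) ≤ 3 by norm_num)]
    exact sq_le_sq.1 (by linarith)
  have h3 : A / β ≤ 2.26e-6 * β ^ 2 := by
    rw [div_le_iff₀ hβ]
    nlinarith
  have h4 : A / β * u * q ≤ 2.26e-6 * β ^ 2 * 3 := by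
    have e1 : A / β * u ≤ 2.26e-6 * β ^ 2 := by
      have : 0 ≤ A / β := by positivity
      nlinarith
    have e2 : 0 ≤ A / β * u := by positivity
    have e3 : A / β * u * q ≤ A / β * u * |q| := mul_le_mul_of_nonneg_left (le_abs_self q) e2
    have e4 : A / β * u * |q| ≤ 2.26e-6 * β ^ 2 * 3 :=
      mul_le_mul e1 h2 (abs_nonneg _) (by positivity)
    linarith
  nlinarith

end Pool.Agent.CyGN.DownU
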