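import Pool.Agent.CyGN.Down
import Pool.Agent.CyGN.DownU
import Pool.Agent.CyGN.Metric
import Pool.Agent.CyGN.FunC

set_option autoImplicit false

/-!
# Lemma U and Lemma V for the metric of the counterexample (sections 1 and 2 of the page)
-/

namespace Pool.Agent.CyGN

open Pool.Agent.CyG Set Filter Topology
open scoped ContDiff

theorem gg_sq_le' (x : ℝ) : gg x ^ 2 ≤ 4.6 := (gg_sq_le x).trans (P0_sq_le x)

/-- `Lemma U` on `(0, 1/4]`. -/
theorem U_one {y : ℝ} (x : ℝ) (hy0 : 0 < y) (hy : y ≤ 1 / 4) :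
    dt EE (x, y) + |dt bb (x, y)| * EE (x, y) < 0 := by
  rw [dt_EE_R0' x (by linarith) hy, dt_bb_R0 x hy]
  exact DownU.U_R0 (beta_pos y) (beta'_neg hy0) _

/-- `Lemma U` on `[1/4, 1/2]`. -/
theorem U_two {y : ℝ} (x : ℝ) (hy0 : 1 / 4 ≤ y) (hy : y ≤ 1 / 2) :
    dt EE (x, y) + |dt bb (x, y)| * EE (x, y) < 0 := by
  rw [dt_EE_R1 x (by linarith) (by linarith), dt_bb_le2 x (by linarith),
    EE_R1 x (by linarith) (by linarith)]
  have hc := one_le_cst
  have hS := SS_ge (x := x) (y := y) (by linarith)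
  have hT := abs_Theta_le x
  have h2 := abs_chi''_le y
  have h3 : |chi'' y * Theta x| ≤ 80 * cst := by
    rw [abs_mul]
    have := mul_le_mul h2 hT (abs_nonneg _) (by linarith)
    linarith
  have h3' := abs_le.1 h3
  have h4 := beta'_le hy0 (by linarith)
  have h5 : -(1001 * cst) ≤ beta' y := by
    unfold beta'
    have e1 := bump_le_one y
    have e2 := st_le_one y
    have e3 := YY_ge y
    have e3' := YY_pos y
    have e4 : 10 ^ 8 * st y / YY y ^ 2 ≤ 1 := by
      rw [div_le_one (by positivity)]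
      nlinarith [st_nonneg y]
    have e5 : BB * bump y ≤ BB := by
      have := BB_pos
      nlinarith
    have e6 : BB = 1000 * cst := rfl
    linarith
  have e6 : BB = 1000 * cst := rfl
  have hSy : SSy x y ≤ -(920 * cst) := by unfold SSy; linarith
  have hSy' : -(1081 * cst) ≤ SSy x y := by unfold SSy; linarith
  have h := DownU.U_R1 (c := cst) (S := SS x y) (Sy := SSy x y) (χ := chi y) (χ1 := chi' y)
    (g2 := gg x ^ 2) (u := uu x) (A0 := A0) hc (by norm_num at hS ⊢; linarith) hSy hSy'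
    (chi_nonneg y) (chi_le_one y) (abs_chi'_le y) (sq_nonneg _) (gg_sq_le' x) (uu_nonneg x)
    (uu_le_one x) A0_pos.le A0_le
  exact h

theorem neg_zeta'_DD_le {y : ℝ} (x : ℝ) (hy : y ≤ 2) :
    -(zeta' y * DD x) ≤ 100 * (-beta' y) := by
  rcases le_total y 1 with h | h
  · rw [zeta'_zero_left h]
    have := beta'_nonpos y
    linarith
  · have h1 := beta'_eq h
    have h2 := beta_ge hy
    have h3 := YY_le y (by linarith)
    have h3' := YY_pos y
    have h4 : 9e-5 ≤ beta y / YY y := by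
      rw [le_div_iff₀ h3']
      norm_num at h2 ⊢
      linarith
    have h5 := abs_le.1 (abs_zeta'_le y)
    have h6 := DD_le x
    have h7 := DD_nonneg x
    have h8 : -(zeta' y * DD x) ≤ cst * (24 / NN ^ 2) := by
      have e1 : -(zeta' y * DD x) ≤ cst * DD x := by nlinarith
      have e2 : cst * DD x ≤ cst * (24 / NN ^ 2) := mul_le_mul_of_nonneg_left h6 cst_pos.le
      linarith
    have h9 : cst * (24 / NN ^ 2) ≤ 6e-6 := by
      have hc := one_le_cst
      unfold NN
      rw [mul_div_assoc', div_le_iff₀ (by positivity)]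
      norm_num
      nlinarith
    rw [h1]
    norm_num at h4 h9 ⊢
    linarith

theorem EE_mid_le {y : ℝ} (x : ℝ) (hy0 : 1 / 2 ≤ y) (hy : y ≤ 2) :
    EE (x, y) ≤ beta y ^ 2 + 4.6 := by
  rw [EE_R2 x hy0 hy]
  have h1 := P0_sq_le x
  have h2 := mul_nonneg (zeta_nonneg y) (DD_nonneg x)
  linarith

/-- `Lemma U` on `[1/2, 2]`. -/
theorem U_three {y : ℝ} (x : ℝ) (hy0 : 1 / 2 ≤ y) (hy : y ≤ 2) :
    dt EE (x, y) + |dt bb (x, y)| * EE (x, y) < 0 := by
  have h := DownU.U_R2 (β := beta y) (β1 := beta' y) (W := -(zeta' y * DD x)) (E := EE (x, y))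
    (A0 := A0) (u := uu x) (by have := beta_ge hy; norm_num at this ⊢; linarith)
    (beta'_neg (by linarith)) (neg_zeta'_DD_le x hy) (EE_pos _).le (EE_mid_le x hy0 hy)
    (uu_nonneg x) (uu_le_one x) A0_pos.le A0_le
  rw [dt_EE_R2 x hy0 hy, dt_bb_R2 x hy0 hy]
  refine lt_of_le_of_lt (le_of_eq ?_) h
  rw [neg_div, sub_eq_add_neg]

theorem EE_top_le {y : ℝ} (x : ℝ) (hy : 2 ≤ y) : EE (x, y) ≤ beta y ^ 2 + 4.6 := by
  rw [EE_R3 x hy]
  have := PP_sq_le x y
  linarith

/-- `Lemma U` on `[2, ∞)`. -/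
theorem U_four {y : ℝ} (x : ℝ) (hy : 2 ≤ y) :
    dt EE (x, y) + |dt bb (x, y)| * EE (x, y) < 0 := by
  have hb := beta_pos y
  have hA := AA_pos y
  have hY := YY_pos y
  have h := DownU.U_R3 (β := beta y) (Y := YY y) (A := AA y) (a1 := aa' y) (u := uu x)
    (R := 2 * (sn x * (1 + AA y / 2 * uu x)) * (AA' y / 2 * sn x ^ 3)) (E := EE (x, y)) hb
    (beta_le (by linarith)) hY hA.le (AA_le_beta (by linarith))
    (by have := abs_aa'_le (y := y) (by linarith); unfold aa at this
        rw [mul_div_assoc] at this ⊢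
        exact this)
    (uu_nonneg x) (uu_le_one x) (by
      have h1 := AA'_nonpos y
      have h2 : 0 ≤ (1 + AA y / 2 * uu x) := by have := uu_nonneg x; positivity
      have h3 : 2 * (sn x * (1 + AA y / 2 * uu x)) * (AA' y / 2 * sn x ^ 3) =
        AA' y * ((1 + AA y / 2 * uu x) * (sn x ^ 2) ^ 2) := by ring
      rw [h3]
      exact mul_nonpos_of_nonpos_of_nonneg h1 (mul_nonneg h2 (sq_nonneg _)))
    (EE_pos _).le (EE_top_le x hy)
  rw [dt_EE_R3 x hy, dt_bb_R3 x hy, beta'_eq (y := y) (by linarith)]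
  unfold aa' at h
  rw [beta'_eq (y := y) (by linarith)] at h
  exact h

/-- **Lemma U.** -/
theorem lemU (x y : ℝ) (hy : 0 < y) : dt EE (x, y) + |dt bb (x, y)| * EE (x, y) < 0 := by
  rcases le_total y (1 / 4) with h | h
  · exact U_one x hy h
  rcases le_total y (1 / 2) with h1 | h1
  · exact U_two x h h1
  rcases le_total y 2 with h2 | h2
  · exact U_three x h1 h2
  · exact U_four x h2

/-- The facts of section 2 for the metric. -/
theorem downFacts : metNO.DownFacts where
  U := lemU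
  b0 x y hy := bb_R0 x hy
  far n hn := by
    refine ⟨10 ^ 8 / n + 2, fun x y q η hY hen hη => ?_⟩
    have hn' : 0 < 10 ^ 8 / n := by positivity
    have hy : 2 ≤ y := by linarith
    have hb := beta_pos y
    have hYY := YY_pos y
    have h1 : beta y < n := by
      rw [beta_eq (by linarith), div_lt_iff₀ hYY]
      have e1 := YY_eq (y := y) (by linarith)
      have e2 := YY_one_mem.1
      have e3 : 10 ^ 8 / n < YY y := by linarith
      rw [div_lt_iff₀ hn] at e3
      linarith
    have h2 : q ^ 2 + η ^ 2 = beta y ^ 2 + (sn x * (1 + AA y / 2 * uu x)) ^ 2 := by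
      rw [hen]
      exact EE_R3 x hy
    have h3 := DownU.far_up (β := beta y) (A := AA y) (u := uu x)
      (P := sn x * (1 + AA y / 2 * uu x)) (q := q) (η := η) (n := n) hb (beta_le (by linarith))
      (AA_pos y).le (AA_le_beta (by linarith)) (uu_nonneg x) (uu_le_one x) (PP_sq_le x y) h1 hη h2
    have e : metNO.b (x, y) = AA y / beta y * uu x := bb_R3 x hy
    rw [e]
    exact h3

/-- Every orbit of the metric visits `y ≤ 0`. -/
theorem metNO_visit {x y q η : ℝ → ℝ} (h : metNO.Orbit x y q η) : ∃ t, y t ≤ 0 :=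
  h.visit downFacts

end Pool.Agent.CyGN
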