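import Pool.Agent.CyGN.FamNeck
import Pool.Agent.CyGN.EndA

set_option autoImplicit false

/-!
# Lemma F: the family of vertical geodesics arrives at `y = 2`
-/

namespace Pool.Agent.CyGN

open Pool.Agent.CyG Set Filter Topology
open scoped ContDiff

namespace EB

variable {m : EB} {β β1 χ χ1 χ2 Θ g g1 ζ ζ1 D P0 u : ℝ → ℝ} {A0 N0 : ℝ} {x y q η : ℝ → ℝ}

/-- The width `1 - x` changes by a factor `≤ 4/3` in the strip `1 ≤ y ≤ 2`. -/
theorem Neck.width (N : m.Neck β β1 ζ ζ1 D P0 u A0) (h : Orbit m x y q η) {t₁ t₂ : ℝ}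
    (hy : ∀ s ∈ Icc t₁ t₂, y s ∈ Icc (1 : ℝ) 2) (hy1 : y t₁ = 1) (hη : η t₁ = β 1)
    (hx : ∀ s ∈ Icc t₁ t₂, 0 < x s ∧ x s < 1)
    (hP : ∀ x ∈ Icc (0 : ℝ) 1, |P0 x| ≤ 7 * (1 - x)) :
    ∀ s ∈ Icc t₁ t₂, 3 / 4 * (1 - x t₂) ≤ 1 - x s := by
  have hd : ∀ s, HasDerivAt (fun s => (1 - x s) * Real.exp (-(y s / 14)))
      (-(q s / m.E (x s, y s)) * Real.exp (-(y s / 14)) + (1 - x s) *
        (Real.exp (-(y s / 14)) * -((η s + m.b (x s, y s) * q s) / m.E (x s, y s) / 14))) s := by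
    intro s
    exact ((h.dx s).const_sub 1).mul (((h.dy s).div_const 14).neg.exp)
  have hanti : AntitoneOn (fun s => (1 - x s) * Real.exp (-(y s / 14))) (Icc t₁ t₂) := by
    refine antitoneOn_of_deriv_nonpos (convex_Icc _ _)
      (fun s _ => (hd s).continuousAt.continuousWithinAt)
      (fun s _ => (hd s).differentiableAt.differentiableWithinAt) ?_
    intro s hs
    rw [interior_Icc] at hs
    have hs' : s ∈ Icc t₁ t₂ := ⟨hs.1.le, hs.2.le⟩
    rw [(hd s).deriv]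
    obtain ⟨h1, h2⟩ := N.K_nonpos h hy hy1 hη s hs'
    obtain ⟨h3, h4, h5⟩ := N.speed h (hy s hs') h1 h2
    have hE := h.E_pos s
    have hxs := hx s hs'
    have hPs := hP (x s) ⟨hxs.1.le, hxs.2.le⟩
    have e1 : -(q s) ≤ 7 * (1 - x s) := (neg_le_abs _).trans (h3.trans hPs)
    have e2 : -(q s / m.E (x s, y s)) * Real.exp (-(y s / 14)) + (1 - x s) *
        (Real.exp (-(y s / 14)) * -((η s + m.b (x s, y s) * q s) / m.E (x s, y s) / 14)) =
        Real.exp (-(y s / 14)) / m.E (x s, y s) *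
          (-(q s) - (1 - x s) * (η s + m.b (x s, y s) * q s) / 14) := by
      field_simp
      ring
    rw [e2]
    refine mul_nonpos_of_nonneg_of_nonpos (by positivity) ?_
    have e3 : (1 - x s) * 98 ≤ (1 - x s) * (η s + m.b (x s, y s) * q s) :=
      mul_le_mul_of_nonneg_left (by linarith) (by linarith)
    linarith
  intro s hs
  have ht : t₁ ≤ t₂ := hs.1.trans hs.2
  have := hanti hs (right_mem_Icc.2 ht) hs.2
  simp only at this
  have hx2 := hx t₂ (right_mem_Icc.2 ht)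
  have hys := hy s hs
  have hy2 := hy t₂ (right_mem_Icc.2 ht)
  have hE1 : 0 < Real.exp (-(y s / 14)) := Real.exp_pos _
  have hE2 : Real.exp (-(y s / 14)) * (13 / 14) ≤ Real.exp (-(y t₂ / 14)) := by
    have e1 : Real.exp (-(y t₂ / 14)) =
        Real.exp (-(y s / 14)) * Real.exp (-((y t₂ - y s) / 14)) := by
      rw [← Real.exp_add]; congr 1; ring
    rw [e1]
    refine mul_le_mul_of_nonneg_left ?_ hE1.le
    have e2 := Real.add_one_le_exp (-((y t₂ - y s) / 14))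
    linarith [hys.1, hy2.2]
  have e3 : (1 - x t₂) * (Real.exp (-(y s / 14)) * (13 / 14)) ≤
      (1 - x s) * Real.exp (-(y s / 14)) :=
    (mul_le_mul_of_nonneg_left hE2 (by linarith)).trans this
  have e4 : ((1 - x t₂) * (13 / 14)) * Real.exp (-(y s / 14)) ≤
      (1 - x s) * Real.exp (-(y s / 14)) := by linarith
  have e5 := le_of_mul_le_mul_right e4 hE1
  linarith [hx2.2]

/-- The facts used at the end. -/
structure FamFacts (m : EB) (χ χ1 g D P0 : ℝ → ℝ) (N0 : ℝ) : Prop where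
  χ_one : χ 1 = 1
  χ1_one : χ1 1 = 0
  axis_E : ∀ (n : ℤ) (Y : ℝ), CyG.dx m.E (n, Y) = 0
  axis_b : ∀ (n : ℤ) (Y : ℝ), m.b (n, Y) = 0
  P0_int : ∀ n : ℤ, P0 n = 0
  g_int : ∀ n : ℤ, g n = 0
  P0_pos : ∀ x, 0 < x → x < 1 → 0 < P0 x
  P0_le : ∀ x ∈ Icc (0 : ℝ) 1, |P0 x| ≤ 7 * (1 - x)
  N0_pos : 0 < N0
  g_eq : ∀ x, 0 < x → x ≤ 1 - 3 / (2 * N0) → g x = P0 x
  D_eq : ∀ x, 0 < x → x ≤ 1 - 3 / (2 * N0) → D x = 0

/-- LEMMA F. -/
theorem cFam (K : m.Kick β β1 χ χ1 χ2 Θ g g1 u A0) (N : m.Neck β β1 ζ ζ1 D P0 u A0)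
    (F : FamFacts m χ χ1 g D P0 N0) : CFam m β (β 0) (2 / N0) 7e-6 := by
  intro x y q η h t₀ hy0 hq0 hη0
  obtain ⟨t₁, h01, hy1, hin1, hmono1, hfam⟩ := K.cross h hy0 hq0 hη0
  have hη1 : η t₁ = β 1 := by
    rw [(hfam t₁ ⟨h01.le, le_rfl⟩).2, hy1, F.χ1_one]; ring
  have hq1 : q t₁ = g (x t₁) := by
    rw [(hfam t₁ ⟨h01.le, le_rfl⟩).1, hy1, F.χ_one]; ring
  obtain ⟨t₂, h12, hy2, hin2, hmono2⟩ := N.cross h hy1 hη1
  have hK2 := N.K_nonpos h hin2 hy1 hη1
  refine ⟨t₂, h01.trans h12, hy2, ?_, ?_, ?_⟩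
  · intro s hs
    rcases le_total s t₁ with hle | hle
    · have a1 := hmono1 (left_mem_Icc.2 h01.le) ⟨hs.1.le, hle⟩ hs.1
      have a2 := (hin1 s ⟨hs.1.le, hle⟩).2
      rw [hy0] at a1
      exact ⟨a1, by linarith⟩
    · have a1 := (hin2 s ⟨hle, hs.2.le⟩).1
      have a2 := hmono2 ⟨hle, hs.2.le⟩ (right_mem_Icc.2 h12.le) hs.2
      rw [hy2] at a2
      exact ⟨by linarith, a2⟩
  · have := (hK2 t₂ (right_mem_Icc.2 h12.le)).2
    rw [hy2] at this
    exact this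
  · intro hni
    -- `x` is never an integer on `[t₀, t₂]`
    have hq' : ∀ s ∈ Icc t₀ t₂, ∀ n : ℤ, x s = n → q s = 0 := by
      intro s hs n hxn
      rcases le_total s t₁ with hle | hle
      · rw [(hfam s ⟨hs.1, hle⟩).1, hxn, F.g_int]; ring
      · have hs' : s ∈ Icc t₁ t₂ := ⟨hle, hs.2⟩
        obtain ⟨b1, b2⟩ := hK2 s hs'
        obtain ⟨b3, -, -⟩ := N.speed h (hin2 s hs') b1 b2
        rw [hxn, F.P0_int, abs_zero] at b3
        exact abs_nonpos_iff.1 b3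
    have hnever : ∀ s ∈ Icc t₀ t₂, ∀ n : ℤ, x s ≠ n := by
      intro s hs n hxn
      have := h.axis (k := n) (fun Y => F.axis_E n Y) (fun Y => F.axis_b n Y) hxn
        (hq' s hs n hxn) t₀
      exact hni n this.1
    refine ⟨-⌊x t₂⌋, ?_⟩
    set n : ℤ := -⌊x t₂⌋ with hn
    have hsh := h.shift n
    have hfl : x t₂ + (n : ℝ) = Int.fract (x t₂) := by
      rw [hn, Int.cast_neg, ← sub_eq_add_neg, Int.self_sub_floor]
    have hX2 : 0 < x t₂ + (n : ℝ) ∧ x t₂ + (n : ℝ) < 1 := by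
      rw [hfl]
      refine ⟨lt_of_le_of_ne (Int.fract_nonneg _) ?_, Int.fract_lt_one _⟩
      intro h0
      have h00 : x t₂ = (⌊x t₂⌋ : ℝ) := by
        have := Int.self_sub_floor (x t₂)
        rw [← h0] at this
        linarith
      exact hnever t₂ ⟨(h01.trans h12).le, le_rfl⟩ _ h00
    have hcX : Continuous fun s => x s + (n : ℝ) := h.continuous_x.add continuous_const
    have hneX : ∀ s ∈ Icc t₀ t₂, ∀ k : ℤ, x s + (n : ℝ) ≠ k := by
      intro s hs k hk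
      refine hnever s hs (k - n) ?_
      push_cast
      linarith
    have hX : ∀ s ∈ Icc t₀ t₂, 0 < x s + (n : ℝ) ∧ x s + (n : ℝ) < 1 := by
      intro s hs
      constructor
      · by_contra hcon
        push Not at hcon
        have hiv := intermediate_value_Icc hs.2 hcX.continuousOn
        obtain ⟨r, hr, hr0⟩ := hiv ⟨hcon, hX2.1.le⟩
        exact hneX r ⟨hs.1.trans hr.1, hr.2⟩ 0 (by simpa using hr0)
      · by_contra hcon
        push Not at hcon
        have hiv := intermediate_value_Icc' hs.2 hcX.continuousOn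
        obtain ⟨r, hr, hr0⟩ := hiv ⟨hX2.2.le, hcon⟩
        exact hneX r ⟨hs.1.trans hr.1, hr.2⟩ 1 (by simpa using hr0)
    have hsub : ∀ s ∈ Icc t₁ t₂, s ∈ Icc t₀ t₂ := fun s hs => ⟨h01.le.trans hs.1, hs.2⟩
    have hX' : ∀ s ∈ Icc t₁ t₂, 0 < x s + (n : ℝ) ∧ x s + (n : ℝ) < 1 := fun s hs =>
      hX s (hsub s hs)
    have hwidth := N.width hsh hin2 hy1 hη1 hX' F.P0_le
    -- the shifted data at `t₁`
    have hfam' := K.invariant hsh hin1 (by rw [hy0, hq0, K.χ_zero]; ring)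
      (by rw [hy0, hη0, K.χ1_zero]; ring) t₁ ⟨h01.le, le_rfl⟩
    have hq1' : q t₁ = g (x t₁ + n) := by
      rw [hfam'.1, hy1, F.χ_one]; ring
    have hend : y t₂ = 2 ∧ 0 < η t₂ := ⟨hy2, (hK2 t₂ (right_mem_Icc.2 h12.le)).1⟩
    refine ⟨hend.1, hend.2, hX2.1, hX2.2, ?_⟩
    by_cases hfar : x t₂ + (n : ℝ) < 1 - 2 / N0
    · left
      have hN := F.N0_pos
      have hfar' : ∀ s ∈ Icc t₁ t₂, x s + (n : ℝ) ≤ 1 - 3 / (2 * N0) := by
        intro s hs
        have e1 := hwidth s hs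
        have e2 : 3 / (2 * N0) = 3 / 4 * (2 / N0) := by field_simp; norm_num
        have e3 : 2 / N0 < 1 - (x t₂ + n) := by linarith
        rw [e2]
        linarith
      have hD : ∀ s ∈ Icc t₁ t₂, D (x s + n) = 0 := fun s hs =>
        F.D_eq _ (hX' s hs).1 (hfar' s hs)
      have hK0 := N.K_eq_zero hsh hin2 hy1 hη1 hD
      have hqsq : ∀ s ∈ Icc t₁ t₂, q s ≠ 0 := by
        intro s hs h0
        have e1 := N.q_sq hsh (hin2 s hs)
        rw [hD s hs, hK0 s hs, h0] at e1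
        have e2 := F.P0_pos _ (hX' s hs).1 (hX' s hs).2
        have e3 : 0 < P0 (x s + n) ^ 2 := by positivity
        linarith
      have hq1pos : 0 < q t₁ := by
        have hs1 : t₁ ∈ Icc t₁ t₂ := left_mem_Icc.2 h12.le
        rw [hq1', F.g_eq _ (hX' t₁ hs1).1 (hfar' t₁ hs1)]
        exact F.P0_pos _ (hX' t₁ hs1).1 (hX' t₁ hs1).2
      constructor
      · have := hK0 t₂ (right_mem_Icc.2 h12.le)
        rw [hy2] at this
        exact this
      · by_contra hcon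
        push Not at hcon
        have hiv := intermediate_value_Icc' h12.le h.continuous_q.continuousOn
        obtain ⟨r, hr, hr0⟩ := hiv ⟨hcon, hq1pos.le⟩
        exact hqsq r hr hr0
    · right
      push Not at hfar
      have e1 := N.K_ge h h12.le hin2 hy1 hη1
      have e2 := (hK2 t₂ (right_mem_Icc.2 h12.le)).2
      rw [hy2] at e1 e2
      refine ⟨hfar, ?_, e2⟩
      norm_num at e1 ⊢
      linarith

end EB

end Pool.Agent.CyGN
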