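import Pool.Agent.CyGN.FamTool

set_option autoImplicit false

/-!
# The kick: the strip `0 ≤ y ≤ 1`

In the strip `E = S² + χ² g²` and `b = A₀ χ u / S` with `S = β(y) + χ'(y) Θ(x)`,
`Θ' = g - A₀ u`.  The geodesics with `q = χ g`, `η = S` form an invariant family.
-/

namespace Pool.Agent.CyGN

open Pool.Agent.CyG Set Filter Topology
open scoped ContDiff

/-- The partial derivative in the second variable is determined by the values on a segment. -/
theorem dt_eq_of_Icc {f : ℝ × ℝ → ℝ} (hf : ContDiff ℝ ∞ f) {g : ℝ → ℝ} {v x y a b : ℝ}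
    (hab : a < b) (hy : y ∈ Icc a b) (hg : HasDerivAt g v y)
    (h : ∀ Y ∈ Icc a b, f (x, Y) = g Y) : CyG.dt f (x, y) = v := by
  have h1 : HasDerivWithinAt (fun Y => f (x, Y)) (CyG.dt f (x, y)) (Icc a b) y :=
    (hasDerivAt_dt hf x y).hasDerivWithinAt
  have h2 : HasDerivWithinAt (fun Y => f (x, Y)) v (Icc a b) y :=
    hg.hasDerivWithinAt.congr (fun Y hY => h Y hY) (h y hy)
  exact (uniqueDiffOn_Icc hab y hy).eq_deriv _ h1 h2

/-- The partial derivative in the first variable is determined by the values. -/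
theorem dx_eq_of_eq {f : ℝ × ℝ → ℝ} {g : ℝ → ℝ} {v x y : ℝ} (hg : HasDerivAt g v x)
    (h : ∀ X, f (X, y) = g X) : CyG.dx f (x, y) = v := by
  have : (fun X => f (X, y)) = g := funext h
  unfold CyG.dx
  simp only [this]
  exact hg.deriv

/-- The strip of the kick. -/
structure EB.Kick (m : EB) (β β1 χ χ1 χ2 Θ g g1 u : ℝ → ℝ) (A0 : ℝ) : Prop where
  dβ : ∀ y, HasDerivAt β (β1 y) y
  dχ : ∀ y, HasDerivAt χ (χ1 y) y
  dχ1 : ∀ y, HasDerivAt χ1 (χ2 y) y
  dΘ : ∀ x, HasDerivAt Θ (g x - A0 * u x) x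
  dg : ∀ x, HasDerivAt g (g1 x) x
  cβ1 : Continuous β1
  cχ2 : Continuous χ2
  cg1 : Continuous g1
  cu : Continuous u
  E_eq : ∀ x, ∀ y ∈ Icc (0 : ℝ) 1, m.E (x, y) = (β y + χ1 y * Θ x) ^ 2 + χ y ^ 2 * g x ^ 2
  b_eq : ∀ x, ∀ y ∈ Icc (0 : ℝ) 1, m.b (x, y) = A0 * χ y * u x / (β y + χ1 y * Θ x)
  S_ge : ∀ x, ∀ y ∈ Icc (0 : ℝ) 1, 99 ≤ β y + χ1 y * Θ x
  χ_zero : χ 0 = 0
  χ1_zero : χ1 0 = 0
  χ_mem : ∀ y ∈ Icc (0 : ℝ) 1, χ y ∈ Icc (0 : ℝ) 1
  u_mem : ∀ x, u x ∈ Icc (0 : ℝ) 1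
  g_abs : ∀ x, |g x| ≤ 17 / 8
  A0_mem : A0 ∈ Icc (0 : ℝ) (9 / 4)

namespace EB.Kick

variable {m : EB} {β β1 χ χ1 χ2 Θ g g1 u : ℝ → ℝ} {A0 : ℝ} {x y q η : ℝ → ℝ}

theorem E_y (K : m.Kick β β1 χ χ1 χ2 Θ g g1 u A0) (x : ℝ) {y : ℝ} (hy : y ∈ Icc (0 : ℝ) 1) :
    CyG.dt m.E (x, y) = 2 * (β y + χ1 y * Θ x) * (β1 y + χ2 y * Θ x)
      + 2 * χ y * χ1 y * g x ^ 2 := by
  have h := (((K.dβ y).add ((K.dχ1 y).mul_const (Θ x))).pow 2).add
    (((K.dχ y).pow 2).mul_const (g x ^ 2))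
  refine dt_eq_of_Icc m.smooth_E one_pos hy (h.congr_deriv ?_) (fun Y hY => ?_)
  · simp
  · rw [K.E_eq x Y hY]; rfl

theorem E_x (K : m.Kick β β1 χ χ1 χ2 Θ g g1 u A0) (x : ℝ) {y : ℝ} (hy : y ∈ Icc (0 : ℝ) 1) :
    CyG.dx m.E (x, y) = 2 * (β y + χ1 y * Θ x) * (χ1 y * (g x - A0 * u x))
      + 2 * χ y ^ 2 * g x * g1 x := by
  have h := ((((K.dΘ x).const_mul (χ1 y)).const_add (β y)).pow 2).add
    (((K.dg x).pow 2).const_mul (χ y ^ 2))
  refine dx_eq_of_eq (h.congr_deriv ?_) (fun X => ?_)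
  · simp; ring
  · rw [K.E_eq X y hy]; rfl

/-- `(b S)_y = A₀ χ' u`. -/
theorem b_y (K : m.Kick β β1 χ χ1 χ2 Θ g g1 u A0) (x : ℝ) {y : ℝ} (hy : y ∈ Icc (0 : ℝ) 1) :
    CyG.dt m.b (x, y) * (β y + χ1 y * Θ x) + m.b (x, y) * (β1 y + χ2 y * Θ x) =
      A0 * χ1 y * u x := by
  have hS := (K.dβ y).add ((K.dχ1 y).mul_const (Θ x))
  have hS0 : β y + χ1 y * Θ x ≠ 0 := by have := K.S_ge x y hy; linarith
  have h := (((K.dχ y).const_mul A0).mul_const (u x)).div hS hS0
  rw [dt_eq_of_Icc m.smooth_b one_pos hy h (fun Y hY => by rw [K.b_eq x Y hY]; rfl),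
    K.b_eq x y hy]
  simp only [Pi.add_apply]
  field_simp
  ring

theorem b_mul_S (K : m.Kick β β1 χ χ1 χ2 Θ g g1 u A0) (x : ℝ) {y : ℝ}
    (hy : y ∈ Icc (0 : ℝ) 1) : m.b (x, y) * (β y + χ1 y * Θ x) = A0 * χ y * u x := by
  have hS0 : β y + χ1 y * Θ x ≠ 0 := by have := K.S_ge x y hy; linarith
  rw [K.b_eq x y hy]
  field_simp

/-- The family `q = χ g`, `η = S` is invariant in the strip. -/
theorem invariant (K : m.Kick β β1 χ χ1 χ2 Θ g g1 u A0) (h : Orbit m x y q η) {t₀ T : ℝ}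
    (hy : ∀ s ∈ Icc t₀ T, y s ∈ Icc (0 : ℝ) 1) (hq : q t₀ = χ (y t₀) * g (x t₀))
    (hη : η t₀ = β (y t₀) + χ1 (y t₀) * Θ (x t₀)) :
    ∀ s ∈ Icc t₀ T, q s = χ (y s) * g (x s) ∧ η s = β (y s) + χ1 (y s) * Θ (x s) := by
  have cx := h.continuous_x
  have cy := h.continuous_y
  have cq := h.continuous_q
  have cη := h.continuous_η
  have cβ : Continuous β := continuous_iff_continuousAt.2 fun t => (K.dβ t).continuousAt
  have cχ : Continuous χ := continuous_iff_continuousAt.2 fun t => (K.dχ t).continuousAt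
  have cχ1 : Continuous χ1 := continuous_iff_continuousAt.2 fun t => (K.dχ1 t).continuousAt
  have cΘ : Continuous Θ := continuous_iff_continuousAt.2 fun t => (K.dΘ t).continuousAt
  have cg : Continuous g := continuous_iff_continuousAt.2 fun t => (K.dg t).continuousAt
  have cxy : Continuous fun s => (x s, y s) := cx.prodMk cy
  have cE : Continuous fun s => m.E (x s, y s) := m.smooth_E.continuous.comp cxy
  have cb : Continuous fun s => m.b (x s, y s) := m.smooth_b.continuous.comp cxy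
  have cby : Continuous fun s => CyG.dt m.b (x s, y s) :=
    (contDiff_dt m.smooth_b).continuous.comp cxy
  have hEne : ∀ s, m.E (x s, y s) ≠ 0 := h.E_ne
  let S : ℝ → ℝ := fun s => β (y s) + χ1 (y s) * Θ (x s)
  let Sx : ℝ → ℝ := fun s => χ1 (y s) * (g (x s) - A0 * u (x s))
  let Sy : ℝ → ℝ := fun s => β1 (y s) + χ2 (y s) * Θ (x s)
  have cS : Continuous S := (cβ.comp cy).add ((cχ1.comp cy).mul (cΘ.comp cx))
  have cSx : Continuous Sx :=
    (cχ1.comp cy).mul ((cg.comp cx).sub (continuous_const.mul (K.cu.comp cx)))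
  have cSy : Continuous Sy := (K.cβ1.comp cy).add ((K.cχ2.comp cy).mul (cΘ.comp cx))
  -- the coefficients
  let c11 : ℝ → ℝ := fun s =>
    -(χ (y s) * g1 (x s) + χ1 (y s) * g (x s) * m.b (x s, y s)) / m.E (x s, y s)
  let c12 : ℝ → ℝ := fun s =>
    (CyG.dt m.b (x s, y s) * (η s + S s) - χ1 (y s) * g (x s)) / m.E (x s, y s)
  let c21 : ℝ → ℝ := fun s =>
    -(CyG.dt m.b (x s, y s) * η s + (Sx s + m.b (x s, y s) * Sy s)) / m.E (x s, y s)
  let c22 : ℝ → ℝ := fun s =>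
    -(CyG.dt m.b (x s, y s) * (χ (y s) * g (x s)) + Sy s) / m.E (x s, y s)
  have hc11 : Continuous c11 := (((cχ.comp cy).mul (K.cg1.comp cx)).add
    (((cχ1.comp cy).mul (cg.comp cx)).mul cb)).neg.div cE hEne
  have hc12 : Continuous c12 := ((cby.mul (cη.add cS)).sub
    ((cχ1.comp cy).mul (cg.comp cx))).div cE hEne
  have hc21 : Continuous c21 := ((cby.mul cη).add (cSx.add (cb.mul cSy))).neg.div cE hEne
  have hc22 : Continuous c22 := ((cby.mul ((cχ.comp cy).mul (cg.comp cx))).add cSy).neg.div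
    cE hEne
  obtain ⟨C1, hC1⟩ := (isCompact_Icc (a := t₀) (b := T)).exists_bound_of_continuousOn
    hc11.continuousOn
  obtain ⟨C2, hC2⟩ := (isCompact_Icc (a := t₀) (b := T)).exists_bound_of_continuousOn
    hc12.continuousOn
  obtain ⟨C3, hC3⟩ := (isCompact_Icc (a := t₀) (b := T)).exists_bound_of_continuousOn
    hc21.continuousOn
  obtain ⟨C4, hC4⟩ := (isCompact_Icc (a := t₀) (b := T)).exists_bound_of_continuousOn
    hc22.continuousOn
  let V1 : ℝ → ℝ := fun s => q s - χ (y s) * g (x s)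
  let V2 : ℝ → ℝ := fun s => η s - S s
  have cV1 : Continuous V1 := cq.sub ((cχ.comp cy).mul (cg.comp cx))
  have cV2 : Continuous V2 := cη.sub cS
  have hV1 : ∀ s ∈ Icc t₀ T, HasDerivAt V1 (c11 s * V1 s + c12 s * V2 s) s := by
    intro s hs
    have hys := hy s hs
    have d := (h.dq s).sub (((K.dχ (y s)).comp s (h.dy s)).mul ((K.dg (x s)).comp s (h.dx s)))
    refine d.congr_deriv ?_
    have hE := hEne s
    have hby := K.b_y (x s) hys
    have hbS := K.b_mul_S (x s) hys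
    rw [K.E_x (x s) hys, K.E_y (x s) hys]
    simp only [V1, V2, c11, c12, S, Function.comp_apply]
    field_simp
    linear_combination (β (y s) + χ1 (y s) * Θ (x s)) * hby
  have hV2 : ∀ s ∈ Icc t₀ T, HasDerivAt V2 (c21 s * V1 s + c22 s * V2 s) s := by
    intro s hs
    have hys := hy s hs
    have d := (h.dη s).sub (((K.dβ (y s)).comp s (h.dy s)).add
      (((K.dχ1 (y s)).comp s (h.dy s)).mul ((K.dΘ (x s)).comp s (h.dx s))))
    refine d.congr_deriv ?_
    have hE := hEne s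
    have hby := K.b_y (x s) hys
    have hbS := K.b_mul_S (x s) hys
    rw [K.E_y (x s) hys]
    simp only [V1, V2, c21, c22, S, Sx, Sy, Function.comp_apply]
    field_simp
    linear_combination (-(χ (y s) * g (x s))) * hby
  have hzero := eq_zero_of_abs_deriv_le_mul_abs_self_of_eq_zero_right
    (f := fun s => (V1 s, V2 s)) (f' := fun s => (c11 s * V1 s + c12 s * V2 s,
      c21 s * V1 s + c22 s * V2 s)) (K := |C1| + |C2| + |C3| + |C4|) (a := t₀) (b := T)
    (cV1.prodMk cV2).continuousOn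
    (fun s hs => ((hV1 s (Ico_subset_Icc_self hs)).prodMk
      (hV2 s (Ico_subset_Icc_self hs))).hasDerivWithinAt)
    (by simp [V1, V2, S, hq, hη]) ?_
  · intro s hs
    have := hzero s hs
    simp only [Prod.mk_eq_zero, V1, V2, S] at this
    exact ⟨by linarith [this.1], by linarith [this.2]⟩
  · intro s hs
    have hs' := Ico_subset_Icc_self hs
    have b1 := (hC1 s hs').trans (le_abs_self C1)
    have b2 := (hC2 s hs').trans (le_abs_self C2)
    have b3 := (hC3 s hs').trans (le_abs_self C3)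
    have b4 := (hC4 s hs').trans (le_abs_self C4)
    simp only [Real.norm_eq_abs] at b1 b2 b3 b4
    rw [Prod.norm_def, Prod.norm_def]
    simp only [Real.norm_eq_abs]
    have m1 : |V1 s| ≤ max |V1 s| |V2 s| := le_max_left _ _
    have m2 : |V2 s| ≤ max |V1 s| |V2 s| := le_max_right _ _
    set W := max |V1 s| |V2 s|
    have hW : 0 ≤ W := (abs_nonneg _).trans m1
    have e : ∀ {a b v w A B : ℝ}, |a| ≤ A → |b| ≤ B → |v| ≤ W → |w| ≤ W →
        |a * v + b * w| ≤ (A + B) * W := by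
      intro a b v w A B ha hb hv hw
      have h1 : |a * v| ≤ A * W := by
        rw [abs_mul]
        exact mul_le_mul ha hv (abs_nonneg _) ((abs_nonneg _).trans ha)
      have h2 : |b * w| ≤ B * W := by
        rw [abs_mul]
        exact mul_le_mul hb hw (abs_nonneg _) ((abs_nonneg _).trans hb)
      calc |a * v + b * w| ≤ |a * v| + |b * w| := abs_add_le _ _
        _ ≤ A * W + B * W := add_le_add h1 h2
        _ = (A + B) * W := by ring
    have f1 := e b1 b2 m1 m2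
    have f2 := e b3 b4 m1 m2
    have g1 := abs_nonneg C1
    have g2 := abs_nonneg C2
    have g3 := abs_nonneg C3
    have g4 := abs_nonneg C4
    refine max_le (f1.trans ?_) (f2.trans ?_)
    · exact mul_le_mul_of_nonneg_right (by linarith) hW
    · exact mul_le_mul_of_nonneg_right (by linarith) hW

/-- A family geodesic crosses the strip. -/
theorem cross (K : m.Kick β β1 χ χ1 χ2 Θ g g1 u A0) (h : Orbit m x y q η) {t₀ : ℝ}
    (hy : y t₀ = 0) (hq : q t₀ = 0) (hη : η t₀ = β 0) :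
    ∃ t₁, t₀ < t₁ ∧ y t₁ = 1 ∧ (∀ s ∈ Icc t₀ t₁, y s ∈ Icc (0 : ℝ) 1) ∧
      StrictMonoOn y (Icc t₀ t₁) ∧
      ∀ s ∈ Icc t₀ t₁, q s = χ (y s) * g (x s) ∧ η s = β (y s) + χ1 (y s) * Θ (x s) := by
  obtain ⟨C, hC, hCE⟩ := m.exists_bound 0 1
  have hinv : ∀ T, (∀ s ∈ Icc t₀ T, y s ∈ Icc (0 : ℝ) 1) →
      ∀ s ∈ Icc t₀ T, q s = χ (y s) * g (x s) ∧ η s = β (y s) + χ1 (y s) * Θ (x s) := by
    intro T hT
    refine K.invariant h hT ?_ ?_
    · rw [hy, hq, K.χ_zero]; ring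
    · rw [hy, hη, K.χ1_zero]; ring
  obtain ⟨t₁, h1, h2, h3, h4⟩ := arrive h.dy (a := 0) (b := 1) (κ := 98 / C) one_pos
    (by positivity) hy (fun t ht hin => by
      obtain ⟨hqt, hηt⟩ := hinv t hin t ⟨ht, le_rfl⟩
      have hyt := hin t ⟨ht, le_rfl⟩
      have hE := h.E_pos t
      have hEC := hCE (x t) (y t) hyt
      have hS := K.S_ge (x t) (y t) hyt
      have hbS := K.b_mul_S (x t) hyt
      have hχ := K.χ_mem (y t) hyt
      have hu := K.u_mem (x t)
      have hg := K.g_abs (x t)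
      have hA := K.A0_mem
      -- `|b| ≤ 1/40`
      have hb : |m.b (x t, y t)| ≤ 1 / 40 := by
        have hb0 : 0 ≤ A0 * χ (y t) * u (x t) := mul_nonneg (mul_nonneg hA.1 hχ.1) hu.1
        have hb1 : A0 * χ (y t) * u (x t) ≤ 9 / 4 := by
          have e1 : A0 * χ (y t) ≤ 9 / 4 * 1 := mul_le_mul hA.2 hχ.2 hχ.1 (by norm_num)
          have e2 : A0 * χ (y t) * u (x t) ≤ 9 / 4 * 1 * 1 :=
            mul_le_mul e1 hu.2 hu.1 (by norm_num)
          linarith
        have hS0 : 0 < β (y t) + χ1 (y t) * Θ (x t) := by linarith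
        rw [K.b_eq (x t) (y t) hyt, abs_of_nonneg (div_nonneg hb0 hS0.le),
          div_le_iff₀ hS0]
        linarith
      have hqa : |q t| ≤ 17 / 8 := by
        rw [hqt, abs_mul, abs_of_nonneg hχ.1]
        calc χ (y t) * |g (x t)| ≤ 1 * (17 / 8) := mul_le_mul hχ.2 hg (abs_nonneg _) (by norm_num)
          _ = 17 / 8 := by ring
      have hbq : -1 ≤ m.b (x t, y t) * q t := by
        have : |m.b (x t, y t) * q t| ≤ 1 / 40 * (17 / 8) := by
          rw [abs_mul]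
          exact mul_le_mul hb hqa (abs_nonneg _) (by norm_num)
        have := (abs_le.1 this).1
        linarith
      have hnum : 98 ≤ η t + m.b (x t, y t) * q t := by rw [hηt]; linarith
      calc 98 / C ≤ 98 / m.E (x t, y t) := by
            apply div_le_div_of_nonneg_left (by norm_num) hE hEC
        _ ≤ _ := div_le_div_of_nonneg_right hnum hE.le)
  exact ⟨t₁, h1, h2, h3, h4, hinv t₁ h3⟩

end EB.Kick

end Pool.Agent.CyGN
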