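import Pool.Agent.CyGN.FamEnd
import Pool.Agent.CyGN.Metric

set_option autoImplicit false

/-!
# Lemma F for the metric of the counterexample
-/

namespace Pool.Agent.CyGN

open Pool.Agent.CyG Set Filter Topology
open scoped ContDiff

theorem gg'_continuous : Continuous gg' :=
  (contDiff_infty_iff_deriv.1 gg_smooth).2.continuous

theorem metNO_kick : metNO.Kick beta beta' chi chi' chi'' Theta gg gg' uu A0 where
  dβ := beta_hasDerivAt
  dχ := chi_hasDerivAt
  dχ1 := chi'_hasDerivAt
  dΘ := Theta_hasDerivAt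
  dg := gg_hasDerivAt
  cβ1 := beta'_smooth.continuous
  cχ2 := chi''_smooth.continuous
  cg1 := gg'_continuous
  cu := uu_smooth.continuous
  E_eq x y hy := EE_R1 x (by linarith [hy.1]) hy.2
  b_eq x y hy := bb_le2 x (by linarith [hy.2])
  S_ge x y hy := by
    have := SS_ge x (show y ≤ 2 by linarith [hy.2])
    unfold SS at this
    norm_num at this
    linarith
  χ_zero := chi_zero (by norm_num)
  χ1_zero := chi'_zero_left (by norm_num)
  χ_mem y _ := ⟨chi_nonneg y, chi_le_one y⟩
  u_mem x := ⟨uu_nonneg x, uu_le_one x⟩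
  g_abs x := (abs_gg_le x).trans (abs_P0_le' x)
  A0_mem := ⟨A0_pos.le, A0_le⟩

theorem metNO_neck : metNO.Neck beta beta' zeta zeta' DD P0 uu A0 where
  dβ := beta_hasDerivAt
  dζ := zeta_hasDerivAt
  E_eq x y hy := EE_R2 x (by linarith [hy.1]) hy.2
  b_eq x y hy := bb_R2 x (by linarith [hy.1]) hy.2
  β_ge y hy := by
    have := beta_ge hy.2
    norm_num at this
    linarith
  β1_mem y hy := by
    refine ⟨?_, beta'_nonpos y⟩
    rw [beta'_eq hy.1]
    have h1 := beta_le hy.1
    have h2 := YY_ge y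
    have h3 := YY_pos y
    have h4 : beta y / YY y ≤ 1e-4 := by
      rw [div_le_iff₀ h3]
      norm_num
      linarith
    norm_num at h4 ⊢
    linarith
  ζ_mem y _ := ⟨zeta_nonneg y, zeta_le_one y⟩
  ζ1_nonpos y _ := zeta'_nonpos y
  u_mem x := ⟨uu_nonneg x, uu_le_one x⟩
  P0_abs := abs_P0_le'
  D_mem x := ⟨DD_nonneg x, DD_le' x⟩
  A0_mem := ⟨A0_pos.le, A0_le⟩

theorem P0_le_seven {x : ℝ} (hx : x ∈ Icc (0 : ℝ) 1) : |P0 x| ≤ 7 * (1 - x) := by
  have h1 := abs_P0_le x
  have h2 : |sn x| ≤ Real.pi * (1 - x) := by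
    rw [abs_of_nonneg (sn_nonneg hx.1 hx.2), ← sn_symm x]
    exact sn_le_pi_mul (by linarith [hx.2])
  have h3 := Real.pi_lt_d2
  have h4 : Real.pi * (1 - x) ≤ 3.15 * (1 - x) :=
    mul_le_mul_of_nonneg_right h3.le (by linarith [hx.2])
  have h5 : 0 ≤ 1 - x := by linarith [hx.2]
  norm_num at h4
  nlinarith

theorem metNO_famFacts : EB.FamFacts metNO chi chi' gg DD P0 NN where
  χ_one := chi_one (by norm_num)
  χ1_one := chi'_zero_right (by norm_num)
  axis_E n Y := dx_EE_int n Y
  axis_b n Y := bb_int n Y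
  P0_int n := P0_int n
  g_int n := gg_int n
  P0_pos _ h0 h1 := P0_pos h0 h1
  P0_le _ hx := P0_le_seven hx
  N0_pos := NN_pos
  g_eq x h0 h1 := gg_eq_P0 (by have := NN_pos; have : 0 < 1 / (2 * NN) := by positivity
                               linarith) h1
  D_eq x h0 h1 := DD_zero_left (by have := NN_pos; have : 0 < 1 / (2 * NN) := by positivity
                                   linarith) h1

/-- LEMMA F for the metric. -/
theorem metNO_cFam : EB.CFam metNO beta (beta 0) (2 / NN) 7e-6 :=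
  EB.cFam metNO_kick metNO_neck metNO_famFacts

end Pool.Agent.CyGN
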