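import Pool.Agent.CyGN.FamKick

set_option autoImplicit false

/-!
# The strip `1 ≤ y ≤ 2`

Here `E = β² + P₀² - ζ D` and `b = (A₀ / β) u`.  Along a family geodesic `K = β² - η²` is `≤ 0`,
very small, and it vanishes if the geodesic does not meet the neck.
-/

namespace Pool.Agent.CyGN

open Pool.Agent.CyG Set Filter Topology
open scoped ContDiff

/-- A linear differential inequality keeps the sign. -/
theorem nonpos_of_deriv_le {f f' : ℝ → ℝ} {a b C : ℝ} (hf : ContinuousOn f (Icc a b))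
    (hd : ∀ s ∈ Ico a b, HasDerivAt f (f' s) s) (ha : f a ≤ 0)
    (h : ∀ s ∈ Ico a b, 0 < f s → f' s ≤ C * f s) : ∀ s ∈ Icc a b, f s ≤ 0 := by
  have key : ∀ δ > 0, ∀ s ∈ Icc a b, f s ≤ δ * Real.exp ((C + 1) * (s - a)) := by
    intro δ hδ
    have hB : ∀ s, HasDerivAt (fun s => δ * Real.exp ((C + 1) * (s - a)))
        (δ * (Real.exp ((C + 1) * (s - a)) * (C + 1))) s := by
      intro s
      have h1 : HasDerivAt (fun s => (C + 1) * (s - a)) (C + 1) s := by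
        have := ((hasDerivAt_id s).sub_const a).const_mul (C + 1)
        simpa using this
      exact (h1.exp).const_mul δ
    refine fun s hs => image_le_of_deriv_right_lt_deriv_boundary hf
      (fun r hr => (hd r hr).hasDerivWithinAt) ?_ hB ?_ hs
    · have : δ * Real.exp ((C + 1) * (a - a)) = δ := by simp
      rw [this]
      linarith
    · intro r hr heq
      have hpos : 0 < δ * Real.exp ((C + 1) * (r - a)) := by positivity
      have := h r hr (by rw [heq]; exact hpos)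
      have e : δ * (Real.exp ((C + 1) * (r - a)) * (C + 1)) =
          C * (δ * Real.exp ((C + 1) * (r - a))) + δ * Real.exp ((C + 1) * (r - a)) := by ring
      rw [e, ← heq]
      rw [heq] at this ⊢
      linarith
  intro s hs
  by_contra hcon
  push Not at hcon
  set R := Real.exp ((C + 1) * (s - a)) with hR
  have hR0 : 0 < R := Real.exp_pos _
  have := key (f s / (2 * R)) (by positivity) s hs
  rw [← hR] at this
  have e : f s / (2 * R) * R = f s / 2 := by field_simp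
  linarith

/-- The strip `1 ≤ y ≤ 2`. -/
structure EB.Neck (m : EB) (β β1 ζ ζ1 D P0 u : ℝ → ℝ) (A0 : ℝ) : Prop where
  dβ : ∀ y, HasDerivAt β (β1 y) y
  dζ : ∀ y, HasDerivAt ζ (ζ1 y) y
  E_eq : ∀ x, ∀ y ∈ Icc (1 : ℝ) 2, m.E (x, y) = β y ^ 2 + P0 x ^ 2 - ζ y * D x
  b_eq : ∀ x, ∀ y ∈ Icc (1 : ℝ) 2, m.b (x, y) = A0 / β y * u x
  β_ge : ∀ y ∈ Icc (1 : ℝ) 2, 99 ≤ β y
  β1_mem : ∀ y ∈ Icc (1 : ℝ) 2, β1 y ∈ Icc (-1e-4 : ℝ) 0
  ζ_mem : ∀ y ∈ Icc (1 : ℝ) 2, ζ y ∈ Icc (0 : ℝ) 1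
  ζ1_nonpos : ∀ y ∈ Icc (1 : ℝ) 2, ζ1 y ≤ 0
  u_mem : ∀ x, u x ∈ Icc (0 : ℝ) 1
  P0_abs : ∀ x, |P0 x| ≤ 17 / 8
  D_mem : ∀ x, D x ∈ Icc (0 : ℝ) 6e-6
  A0_mem : A0 ∈ Icc (0 : ℝ) (9 / 4)

namespace EB.Neck

variable {m : EB} {β β1 ζ ζ1 D P0 u : ℝ → ℝ} {A0 : ℝ} {x y q η : ℝ → ℝ}

theorem E_y (N : m.Neck β β1 ζ ζ1 D P0 u A0) (x : ℝ) {y : ℝ} (hy : y ∈ Icc (1 : ℝ) 2) :
    CyG.dt m.E (x, y) = 2 * β y * β1 y - ζ1 y * D x := by
  have h := (((N.dβ y).pow 2).add_const (P0 x ^ 2)).sub ((N.dζ y).mul_const (D x))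
  refine dt_eq_of_Icc m.smooth_E (by norm_num) hy (h.congr_deriv ?_) (fun Y hY => ?_)
  · simp
  · rw [N.E_eq x Y hY]; rfl

theorem b_y (N : m.Neck β β1 ζ ζ1 D P0 u A0) (x : ℝ) {y : ℝ} (hy : y ∈ Icc (1 : ℝ) 2) :
    CyG.dt m.b (x, y) = -(A0 * β1 y / β y ^ 2 * u x) := by
  have hβ0 : β y ≠ 0 := by have := N.β_ge y hy; linarith
  have h := (((hasDerivAt_const y A0).div (N.dβ y) hβ0).mul_const (u x))
  refine dt_eq_of_Icc m.smooth_b (by norm_num) hy (h.congr_deriv ?_) (fun Y hY => ?_)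
  · simp
    ring
  · rw [N.b_eq x Y hY]; rfl

/-- The formula for `K'`. -/
theorem dK (N : m.Neck β β1 ζ ζ1 D P0 u A0) (h : Orbit m x y q η) {s : ℝ}
    (hy : y s ∈ Icc (1 : ℝ) 2) :
    HasDerivAt (fun r => β (y r) ^ 2 - η r ^ 2)
      (2 * A0 * u (x s) * β1 (y s) * q s / (β (y s) ^ 2 * m.E (x s, y s))
        * (β (y s) ^ 2 - η s ^ 2) + η s * ζ1 (y s) * D (x s) / m.E (x s, y s)) s := by
  have h1 := (((N.dβ (y s)).comp s (h.dy s)).pow 2).sub ((h.dη s).pow 2)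
  refine h1.congr_deriv ?_
  have hβ0 : β (y s) ≠ 0 := by have := N.β_ge _ hy; linarith
  have hE := h.E_ne s
  rw [N.E_y _ hy, N.b_y _ hy, N.b_eq _ _ hy]
  simp only [Function.comp_apply]
  field_simp
  ring

/-- `q² = P₀² - ζ D + K`. -/
theorem q_sq (N : m.Neck β β1 ζ ζ1 D P0 u A0) (h : Orbit m x y q η) {s : ℝ}
    (hy : y s ∈ Icc (1 : ℝ) 2) :
    q s ^ 2 = P0 (x s) ^ 2 - ζ (y s) * D (x s) + (β (y s) ^ 2 - η s ^ 2) := by
  have := h.en s
  rw [N.E_eq _ _ hy] at this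
  linarith

theorem E_ge (N : m.Neck β β1 ζ ζ1 D P0 u A0) (x : ℝ) {y : ℝ} (hy : y ∈ Icc (1 : ℝ) 2) :
    9800 ≤ m.E (x, y) := by
  rw [N.E_eq x y hy]
  have h1 := N.β_ge y hy
  have h2 := N.ζ_mem y hy
  have h3 := N.D_mem x
  have h4 : ζ y * D x ≤ 1 * 6e-6 := mul_le_mul h2.2 h3.2 h3.1 (by norm_num)
  nlinarith [sq_nonneg (P0 x)]

/-- The coefficient of `K` in `K'` is small. -/
theorem coef_abs (N : m.Neck β β1 ζ ζ1 D P0 u A0) (_h : Orbit m x y q η) {s : ℝ}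
    (hy : y s ∈ Icc (1 : ℝ) 2) :
    |2 * A0 * u (x s) * β1 (y s) * q s / (β (y s) ^ 2 * m.E (x s, y s))| ≤
      5e-8 * (|q s| / m.E (x s, y s)) := by
  have hβ := N.β_ge _ hy
  have hβ1 := N.β1_mem _ hy
  have hu := N.u_mem (x s)
  have hA := N.A0_mem
  have hE := N.E_ge (x s) hy
  have hE0 : 0 < m.E (x s, y s) := by linarith
  have hβ2 : (9801 : ℝ) ≤ β (y s) ^ 2 := by nlinarith
  rw [abs_div, abs_of_pos (show 0 < β (y s) ^ 2 * m.E (x s, y s) by positivity), abs_mul]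
  have e1 : |2 * A0 * u (x s) * β1 (y s)| ≤ 4.5e-4 := by
    rw [abs_mul, abs_of_nonneg (show 0 ≤ 2 * A0 * u (x s) by
      have := hA.1; have := hu.1; positivity), abs_of_nonpos hβ1.2]
    have e2 : 2 * A0 * u (x s) ≤ 2 * (9 / 4) * 1 := by
      refine mul_le_mul ?_ hu.2 hu.1 (by norm_num)
      linarith [hA.2]
    have e3 : -β1 (y s) ≤ 1e-4 := by have := hβ1.1; norm_num at this ⊢; linarith
    calc 2 * A0 * u (x s) * -β1 (y s) ≤ 2 * (9 / 4) * 1 * 1e-4 :=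
          mul_le_mul e2 e3 (by linarith [hβ1.2]) (by norm_num)
      _ ≤ 4.5e-4 := by norm_num
  rw [div_le_iff₀ (by positivity)]
  have e4 : 5e-8 * (|q s| / m.E (x s, y s)) * (β (y s) ^ 2 * m.E (x s, y s)) =
      5e-8 * β (y s) ^ 2 * |q s| := by
    field_simp
  rw [e4]
  refine mul_le_mul_of_nonneg_right ?_ (abs_nonneg _)
  refine e1.trans ?_
  nlinarith

theorem q_le_E (h : Orbit m x y q η) (s : ℝ) (hE : 1 ≤ m.E (x s, y s)) :
    |q s| / m.E (x s, y s) ≤ 1 := by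
  have h1 := h.en s
  have h2 : |q s| ≤ m.E (x s, y s) := by
    have h3 : |q s| ^ 2 ≤ m.E (x s, y s) ^ 2 := by
      rw [sq_abs]
      nlinarith [sq_nonneg (η s)]
    exact le_of_sq_le_sq h3 (by linarith)
  rw [div_le_one (by linarith)]
  exact h2

/-- `K ≤ 0` and `η > 0` in the strip. -/
theorem K_nonpos (N : m.Neck β β1 ζ ζ1 D P0 u A0) (h : Orbit m x y q η) {t₁ T : ℝ}
    (hy : ∀ s ∈ Icc t₁ T, y s ∈ Icc (1 : ℝ) 2) (hy1 : y t₁ = 1) (hη : η t₁ = β 1) :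
    ∀ s ∈ Icc t₁ T, 0 < η s ∧ β (y s) ^ 2 - η s ^ 2 ≤ 0 := by
  have hK0 : ∀ t, t ≤ T → (∀ s ∈ Ico t₁ t, 0 < η s) →
      ∀ s ∈ Icc t₁ t, β (y s) ^ 2 - η s ^ 2 ≤ 0 := by
    intro t ht hpos
    refine nonpos_of_deriv_le (C := 1) (f' := fun s =>
      (2 * A0 * u (x s) * β1 (y s) * q s / (β (y s) ^ 2 * m.E (x s, y s))
        * (β (y s) ^ 2 - η s ^ 2) + η s * ζ1 (y s) * D (x s) / m.E (x s, y s))) ?_ ?_ ?_ ?_
    · intro s hs
      exact (N.dK h (hy s ⟨hs.1, hs.2.trans ht⟩)).continuousAt.continuousWithinAt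
    · intro s hs
      exact N.dK h (hy s ⟨hs.1, hs.2.le.trans ht⟩)
    · rw [hy1, hη]; simp
    · intro s hs hKs
      have hys := hy s ⟨hs.1, hs.2.le.trans ht⟩
      have hc := N.coef_abs h hys
      have hE := N.E_ge (x s) hys
      have hqE := q_le_E h s (by linarith)
      have hE0 : 0 < m.E (x s, y s) := by linarith
      have hηs := hpos s hs
      have hζ1 := N.ζ1_nonpos _ hys
      have hD := N.D_mem (x s)
      have hsec : η s * ζ1 (y s) * D (x s) / m.E (x s, y s) ≤ 0 := by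
        refine div_nonpos_of_nonpos_of_nonneg ?_ hE0.le
        exact mul_nonpos_of_nonpos_of_nonneg (mul_nonpos_of_nonneg_of_nonpos hηs.le hζ1) hD.1
      have hc1 : 2 * A0 * u (x s) * β1 (y s) * q s / (β (y s) ^ 2 * m.E (x s, y s)) ≤ 1 := by
        refine (le_abs_self _).trans (hc.trans ?_)
        nlinarith
      nlinarith
  have hpos : ∀ s ∈ Icc t₁ T, 0 < η s := by
    refine cont_ind ?_ ?_ ?_
    · rw [hη]
      have := N.β_ge 1 ⟨le_rfl, by norm_num⟩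
      linarith
    · intro t ht hle
      have : ∀ᶠ s in 𝓝 t, 0 < η s :=
        h.continuous_η.continuousAt.eventually_const_lt (hle t ⟨ht.1, le_rfl⟩)
      exact this.filter_mono nhdsWithin_le_nhds
    · intro t ht hlt
      have hKt := hK0 t ht.2 hlt t ⟨ht.1.le, le_rfl⟩
      have hβt := N.β_ge _ (hy t ⟨ht.1.le, ht.2⟩)
      have hηt : 0 ≤ η t := by
        refine ge_of_tendsto (h.continuous_η.continuousAt.tendsto.mono_left
          (nhdsWithin_le_nhds (s := Iio t))) ?_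
        filter_upwards [Ioo_mem_nhdsLT ht.1] with r hr
        exact (hlt r ⟨hr.1.le, hr.2⟩).le
      rcases eq_or_lt_of_le hηt with h0 | h0
      · rw [← h0] at hKt
        nlinarith
      · exact h0
  intro s hs
  exact ⟨hpos s hs, hK0 T le_rfl (fun r hr => hpos r (Ico_subset_Icc_self hr)) s hs⟩

/-- The speed in the strip. -/
theorem speed (N : m.Neck β β1 ζ ζ1 D P0 u A0) (h : Orbit m x y q η) {s : ℝ}
    (hy : y s ∈ Icc (1 : ℝ) 2) (hη : 0 < η s) (hK : β (y s) ^ 2 - η s ^ 2 ≤ 0) :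
    |q s| ≤ |P0 (x s)| ∧ 99 ≤ η s ∧ 0.999 * η s ≤ η s + m.b (x s, y s) * q s := by
  have hβ := N.β_ge _ hy
  have hη99 : 99 ≤ η s := by
    have : β (y s) ≤ η s := le_of_sq_le_sq (by linarith) hη.le
    linarith
  have hq := N.q_sq h hy
  have hζ := N.ζ_mem _ hy
  have hD := N.D_mem (x s)
  have hqP : |q s| ≤ |P0 (x s)| := by
    refine sq_le_sq.1 ?_
    have := mul_nonneg hζ.1 hD.1
    linarith
  refine ⟨hqP, hη99, ?_⟩
  have hP := N.P0_abs (x s)
  have hu := N.u_mem (x s)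
  have hA := N.A0_mem
  have hb : |m.b (x s, y s)| ≤ 1 / 40 := by
    rw [N.b_eq _ _ hy, abs_of_nonneg (mul_nonneg (div_nonneg hA.1 (by linarith)) hu.1)]
    have e1 : A0 / β (y s) ≤ 1 / 40 := by
      rw [div_le_iff₀ (by linarith)]
      linarith [hA.2]
    calc A0 / β (y s) * u (x s) ≤ 1 / 40 * 1 := mul_le_mul e1 hu.2 hu.1 (by norm_num)
      _ = 1 / 40 := by ring
  have hbq : |m.b (x s, y s) * q s| ≤ 1 / 40 * (17 / 8) := by
    rw [abs_mul]
    exact mul_le_mul hb (hqP.trans hP) (abs_nonneg _) (by norm_num)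
  have := (abs_le.1 hbq).1
  linarith

/-- A family geodesic crosses the strip. -/
theorem cross (N : m.Neck β β1 ζ ζ1 D P0 u A0) (h : Orbit m x y q η) {t₁ : ℝ}
    (hy : y t₁ = 1) (hη : η t₁ = β 1) :
    ∃ t₂, t₁ < t₂ ∧ y t₂ = 2 ∧ (∀ s ∈ Icc t₁ t₂, y s ∈ Icc (1 : ℝ) 2) ∧
      StrictMonoOn y (Icc t₁ t₂) := by
  obtain ⟨C, hC, hCE⟩ := m.exists_bound 1 2
  exact arrive h.dy (a := 1) (b := 2) (κ := 98 / C) (by norm_num)
    (by positivity) hy (fun t ht hin => by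
      obtain ⟨h1, h2⟩ := N.K_nonpos h hin hy hη t ⟨ht, le_rfl⟩
      have hyt := hin t ⟨ht, le_rfl⟩
      obtain ⟨-, h3, h4⟩ := N.speed h hyt h1 h2
      have hE := h.E_pos t
      have hEC := hCE (x t) (y t) hyt
      calc 98 / C ≤ 98 / m.E (x t, y t) := by
            apply div_le_div_of_nonneg_left (by norm_num) hE hEC
        _ ≤ _ := div_le_div_of_nonneg_right (by linarith) hE.le)

/-- `K ≥ -κ` at the upper end of the strip. -/
theorem K_ge (N : m.Neck β β1 ζ ζ1 D P0 u A0) (h : Orbit m x y q η) {t₁ t₂ : ℝ}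
    (ht : t₁ ≤ t₂) (hy : ∀ s ∈ Icc t₁ t₂, y s ∈ Icc (1 : ℝ) 2) (hy1 : y t₁ = 1)
    (hη : η t₁ = β 1) : -7e-6 ≤ β (y t₂) ^ 2 - η t₂ ^ 2 := by
  have hL : ∀ s ∈ Icc t₁ t₂, HasDerivAt
      (fun s => (β (y s) ^ 2 - η s ^ 2) - 6.12e-6 * ζ (y s) + 5e-7 * y s)
      ((2 * A0 * u (x s) * β1 (y s) * q s / (β (y s) ^ 2 * m.E (x s, y s))
        * (β (y s) ^ 2 - η s ^ 2) + η s * ζ1 (y s) * D (x s) / m.E (x s, y s))
        - 6.12e-6 * (ζ1 (y s) * ((η s + m.b (x s, y s) * q s) / m.E (x s, y s)))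
        + 5e-7 * ((η s + m.b (x s, y s) * q s) / m.E (x s, y s))) s := by
    intro s hs
    exact ((N.dK h (hy s hs)).sub (((N.dζ (y s)).comp s (h.dy s)).const_mul _)).add
      ((h.dy s).const_mul _)
  have hmono : MonotoneOn
      (fun s => (β (y s) ^ 2 - η s ^ 2) - 6.12e-6 * ζ (y s) + 5e-7 * y s) (Icc t₁ t₂) := by
    refine monotoneOn_of_deriv_nonneg (convex_Icc _ _)
      (fun s hs => (hL s hs).continuousAt.continuousWithinAt) ?_ ?_
    · intro s hs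
      rw [interior_Icc] at hs
      exact (hL s ⟨hs.1.le, hs.2.le⟩).differentiableAt.differentiableWithinAt
    · intro s hs
      rw [interior_Icc] at hs
      have hs' : s ∈ Icc t₁ t₂ := ⟨hs.1.le, hs.2.le⟩
      rw [(hL s hs').deriv]
      have hys := hy s hs'
      obtain ⟨h1, h2⟩ := N.K_nonpos h hy hy1 hη s hs'
      obtain ⟨h3, h4, h5⟩ := N.speed h hys h1 h2
      have hc := N.coef_abs h hys
      have hE := N.E_ge (x s) hys
      have hE0 : 0 < m.E (x s, y s) := by linarith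
      have hP := N.P0_abs (x s)
      have hζ := N.ζ_mem _ hys
      have hζ1 := N.ζ1_nonpos _ hys
      have hD := N.D_mem (x s)
      have hq := N.q_sq h hys
      -- `|K| ≤ 5`
      have hK5 : |β (y s) ^ 2 - η s ^ 2| ≤ 5 := by
        rw [abs_of_nonpos h2]
        have e1 : P0 (x s) ^ 2 ≤ (17 / 8) ^ 2 := sq_le_sq' (by linarith [(abs_le.1 hP).1])
          (abs_le.1 hP).2
        have e2 := mul_nonneg hζ.1 hD.1
        nlinarith [sq_nonneg (q s)]
      have hqb : |q s| ≤ 17 / 8 := h3.trans hP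
      have e1 : |2 * A0 * u (x s) * β1 (y s) * q s / (β (y s) ^ 2 * m.E (x s, y s))
          * (β (y s) ^ 2 - η s ^ 2)| ≤ 1e-6 / m.E (x s, y s) := by
        rw [abs_mul]
        calc _ ≤ 5e-8 * (|q s| / m.E (x s, y s)) * 5 :=
              mul_le_mul hc hK5 (abs_nonneg _) (by positivity)
          _ ≤ 5e-8 * ((17 / 8) / m.E (x s, y s)) * 5 := by
              gcongr
          _ ≤ 1e-6 / m.E (x s, y s) := by
              rw [le_div_iff₀ hE0]
              field_simp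
              norm_num
      have e2 := (abs_le.1 e1).1
      have e3 : 98 / m.E (x s, y s) ≤ (η s + m.b (x s, y s) * q s) / m.E (x s, y s) :=
        div_le_div_of_nonneg_right (by linarith) hE0.le
      have e4 : 0 ≤ η s * ζ1 (y s) * D (x s) / m.E (x s, y s)
        - 6.12e-6 * (ζ1 (y s) * ((η s + m.b (x s, y s) * q s) / m.E (x s, y s))) := by
        have e5 : η s * ζ1 (y s) * D (x s) / m.E (x s, y s)
          - 6.12e-6 * (ζ1 (y s) * ((η s + m.b (x s, y s) * q s) / m.E (x s, y s))) =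
          (-ζ1 (y s)) * (6.12e-6 * (η s + m.b (x s, y s) * q s) - η s * D (x s))
            / m.E (x s, y s) := by
          field_simp
          ring
        rw [e5]
        refine div_nonneg (mul_nonneg (by linarith) ?_) hE0.le
        have e6 : η s * D (x s) ≤ η s * 6e-6 := mul_le_mul_of_nonneg_left hD.2 h1.le
        norm_num at e6 h5 ⊢
        linarith
      have e7 : 1e-6 / m.E (x s, y s) ≤ 5e-7 * (98 / m.E (x s, y s)) := by
        rw [div_le_iff₀ hE0]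
        field_simp
        norm_num
      have e8 : -(1e-6 / m.E (x s, y s)) +
          5e-7 * ((η s + m.b (x s, y s) * q s) / m.E (x s, y s)) ≥ 0 := by
        have : 5e-7 * (98 / m.E (x s, y s)) ≤
          5e-7 * ((η s + m.b (x s, y s) * q s) / m.E (x s, y s)) :=
          mul_le_mul_of_nonneg_left e3 (by norm_num)
        linarith
      linarith
  have := hmono (left_mem_Icc.2 ht) (right_mem_Icc.2 ht) ht
  simp only at this
  have e1 : β (y t₁) ^ 2 - η t₁ ^ 2 = 0 := by rw [hy1, hη]; ring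
  have e2 := N.ζ_mem _ (hy t₁ (left_mem_Icc.2 ht))
  have e3 := N.ζ_mem _ (hy t₂ (right_mem_Icc.2 ht))
  have e4 := hy t₁ (left_mem_Icc.2 ht)
  have e5 := hy t₂ (right_mem_Icc.2 ht)
  rw [e1] at this
  have e6 : 5e-7 * y t₂ ≤ 5e-7 * 2 := mul_le_mul_of_nonneg_left e5.2 (by norm_num)
  have e7 : 5e-7 * 1 ≤ 5e-7 * y t₁ := mul_le_mul_of_nonneg_left e4.1 (by norm_num)
  have e8 : 6.12e-6 * ζ (y t₁) ≤ 6.12e-6 * 1 := mul_le_mul_of_nonneg_left e2.2 (by norm_num)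
  have e9 : 0 ≤ 6.12e-6 * ζ (y t₂) := mul_nonneg (by norm_num) e3.1
  norm_num at this e6 e7 e8 e9 ⊢
  linarith

/-- If the geodesic does not meet the neck (`D = 0` along it), then `K = 0`. -/
theorem K_eq_zero (N : m.Neck β β1 ζ ζ1 D P0 u A0) (h : Orbit m x y q η) {t₁ t₂ : ℝ}
    (hy : ∀ s ∈ Icc t₁ t₂, y s ∈ Icc (1 : ℝ) 2) (hy1 : y t₁ = 1)
    (hη : η t₁ = β 1) (hD : ∀ s ∈ Icc t₁ t₂, D (x s) = 0) :
    ∀ s ∈ Icc t₁ t₂, β (y s) ^ 2 - η s ^ 2 = 0 := by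
  refine eq_zero_of_abs_deriv_le_mul_abs_self_of_eq_zero_right
    (f := fun s => β (y s) ^ 2 - η s ^ 2)
    (f' := fun s => (2 * A0 * u (x s) * β1 (y s) * q s / (β (y s) ^ 2 * m.E (x s, y s))
        * (β (y s) ^ 2 - η s ^ 2) + η s * ζ1 (y s) * D (x s) / m.E (x s, y s))) (K := 1)
    (fun s hs => (N.dK h (hy s hs)).continuousAt.continuousWithinAt)
    (fun s hs => (N.dK h (hy s (Ico_subset_Icc_self hs))).hasDerivWithinAt)
    (by rw [hy1, hη]; ring) ?_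
  intro s hs
  have hs' := Ico_subset_Icc_self hs
  have hys := hy s hs'
  rw [hD s hs']
  have hc := N.coef_abs h hys
  have hE := N.E_ge (x s) hys
  have hqE := q_le_E h s (by linarith)
  simp only [mul_zero, zero_div, add_zero, Real.norm_eq_abs]
  rw [abs_mul]
  refine mul_le_mul_of_nonneg_right (hc.trans ?_) (abs_nonneg _)
  nlinarith

end EB.Neck

end Pool.Agent.CyGN
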