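import Pool.Agent.CyGN.Ham

set_option autoImplicit false

/-!
# Tools for the family of vertical geodesics

Continuous induction, an arrival lemma, the invariance of an axis `{x = k}` and bounds on strips.
-/

namespace Pool.Agent.CyGN

open Pool.Agent.CyG Set Filter Topology
open scoped ContDiff

/-- Continuous induction on `[a, b]`. -/
theorem cont_ind {a b : ℝ} {P : ℝ → Prop} (h0 : P a)
    (h1 : ∀ t ∈ Ico a b, (∀ s ∈ Icc a t, P s) → ∀ᶠ s in 𝓝[>] t, P s)
    (h2 : ∀ t ∈ Ioc a b, (∀ s ∈ Ico a t, P s) → P t) : ∀ t ∈ Icc a b, P t := by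
  by_contra hcon
  push Not at hcon
  obtain ⟨t₀, ht₀, hPt₀⟩ := hcon
  let B : Set ℝ := {t | t ∈ Icc a b ∧ ¬ P t}
  have hBne : B.Nonempty := ⟨t₀, ht₀, hPt₀⟩
  have hBb : BddBelow B := ⟨a, fun t ht => ht.1.1⟩
  set c := sInf B with hc
  have hac : a ≤ c := le_csInf hBne fun t ht => ht.1.1
  have hcb : c ≤ b := (csInf_le hBb ⟨ht₀, hPt₀⟩).trans ht₀.2
  have hlt : ∀ s ∈ Ico a c, P s := by
    intro s hs
    by_contra hns
    exact absurd (csInf_le hBb ⟨⟨hs.1, hs.2.le.trans hcb⟩, hns⟩) (not_le.2 hs.2)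
  have hPc : P c := by
    rcases eq_or_lt_of_le hac with h | h
    · rw [← h]; exact h0
    · exact h2 c ⟨h, hcb⟩ hlt
  have hle : ∀ s ∈ Icc a c, P s := by
    intro s hs
    rcases eq_or_lt_of_le hs.2 with h | h
    · rw [h]; exact hPc
    · exact hlt s ⟨hs.1, h⟩
  have hcb' : c < b := by
    rcases eq_or_lt_of_le hcb with h | h
    · exact absurd (hle t₀ ⟨ht₀.1, by rw [h]; exact ht₀.2⟩) hPt₀
    · exact h
  obtain ⟨d, hd, hdP⟩ := (mem_nhdsGT_iff_exists_Ioo_subset).1 (h1 c ⟨hac, hcb'⟩ hle)
  have hcd : c < d := hd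
  have hex : ∃ t ∈ B, t < d := by
    by_contra hne
    push Not at hne
    exact absurd (le_csInf hBne hne) (not_le.2 hcd)
  obtain ⟨t, htB, htd⟩ := hex
  have hct : c ≤ t := csInf_le hBb htB
  rcases eq_or_lt_of_le hct with h | h
  · exact htB.2 (h ▸ hPc)
  · exact htB.2 (hdP ⟨h, htd⟩)

/-- The arrival lemma: `y` moves from `a` to `b` if it has a definite speed as long as it stays in
`[a, b]`. -/
theorem arrive {y y' : ℝ → ℝ} (hy : ∀ t, HasDerivAt y (y' t) t) {t₀ a b κ : ℝ} (hab : a < b)
    (hκ : 0 < κ) (h0 : y t₀ = a)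
    (h : ∀ t, t₀ ≤ t → (∀ s ∈ Icc t₀ t, y s ∈ Icc a b) → κ ≤ y' t) :
    ∃ t₁, t₀ < t₁ ∧ y t₁ = b ∧ (∀ s ∈ Icc t₀ t₁, y s ∈ Icc a b) ∧
      StrictMonoOn y (Icc t₀ t₁) := by
  have hcy : Continuous y := continuous_iff_continuousAt.2 fun t => (hy t).continuousAt
  -- as long as `y < b` on `[t₀, T)`, `y` stays above `a`
  have hstay : ∀ T, (∀ s ∈ Ico t₀ T, y s ≤ b) → ∀ s ∈ Ico t₀ T, y s ∈ Icc a b := by
    intro T hT s hs
    refine ⟨?_, hT s hs⟩
    have := cont_ind (a := t₀) (b := s) (P := fun r => a ≤ y r) h0.ge ?_ ?_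
    · exact this s ⟨hs.1, le_rfl⟩
    · intro t ht hle
      have hin : ∀ r ∈ Icc t₀ t, y r ∈ Icc a b := fun r hr =>
        ⟨hle r hr, hT r ⟨hr.1, hr.2.trans_lt (ht.2.trans hs.2)⟩⟩
      have hpos : 0 < y' t := hκ.trans_le (h t ht.1 hin)
      have hev : ∀ᶠ r in 𝓝[>] t, y t < y r := by
        have hsl := ((hasDerivAt_iff_tendsto_slope.1 (hy t)).mono_left
          (nhdsWithin_mono t (fun r (hr : t < r) => hr.ne'))).eventually_const_lt hpos
        filter_upwards [hsl, self_mem_nhdsWithin] with r hr hr'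
        have hr'' : 0 < r - t := sub_pos.2 hr'
        rw [slope_def_field] at hr
        have := (div_pos_iff_of_pos_right hr'').1 hr
        linarith
      filter_upwards [hev] with r hr
      exact (hle t ⟨ht.1, le_rfl⟩).trans hr.le
    · intro t ht hlt
      have hcl : Tendsto y (𝓝[<] t) (𝓝 (y t)) := hcy.continuousAt.tendsto.mono_left
        nhdsWithin_le_nhds
      refine ge_of_tendsto hcl ?_
      filter_upwards [Ioo_mem_nhdsLT ht.1] with r hr
      exact hlt r ⟨hr.1.le, hr.2⟩
  -- growth
  have hgrow : ∀ T, t₀ ≤ T → (∀ s ∈ Icc t₀ T, y s ∈ Icc a b) →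
      StrictMonoOn y (Icc t₀ T) ∧ a + κ * (T - t₀) ≤ y T := by
    intro T hT hin
    have hd : ∀ s ∈ Icc t₀ T, κ ≤ y' s := fun s hs =>
      h s hs.1 fun r hr => hin r ⟨hr.1, hr.2.trans hs.2⟩
    constructor
    · refine strictMonoOn_of_deriv_pos (convex_Icc _ _) hcy.continuousOn ?_
      intro s hs
      rw [interior_Icc] at hs
      rw [(hy s).deriv]
      exact hκ.trans_le (hd s ⟨hs.1.le, hs.2.le⟩)
    · have hmono : MonotoneOn (fun s => y s - κ * s) (Icc t₀ T) := by
        refine monotoneOn_of_deriv_nonneg (convex_Icc _ _)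
          (hcy.sub (continuous_const.mul continuous_id)).continuousOn ?_ ?_
        · intro s _
          exact ((hy s).sub ((hasDerivAt_id s).const_mul κ)).differentiableAt.differentiableWithinAt
        · intro s hs
          rw [interior_Icc] at hs
          have hds : HasDerivAt (fun s => y s - κ * s) (y' s - κ) s := by
            have := (hy s).sub ((hasDerivAt_id s).const_mul κ)
            exact this.congr_deriv (by simp)
          rw [hds.deriv]
          linarith [hd s ⟨hs.1.le, hs.2.le⟩]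
      have := hmono (left_mem_Icc.2 hT) (right_mem_Icc.2 hT) hT
      simp only at this
      rw [h0] at this
      linarith
  by_cases hex : ∃ t, t₀ ≤ t ∧ b ≤ y t
  · let B : Set ℝ := {t | t₀ ≤ t ∧ b ≤ y t}
    have hBne : B.Nonempty := hex
    have hBb : BddBelow B := ⟨t₀, fun t ht => ht.1⟩
    have hBc : IsClosed B := (isClosed_le continuous_const continuous_id).inter
      (isClosed_le continuous_const hcy)
    have hmem := hBc.csInf_mem hBne hBb
    set t₁ := sInf B
    have hlt : ∀ s ∈ Ico t₀ t₁, y s < b := by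
      intro s hs
      by_contra hcon
      exact absurd (csInf_le hBb ⟨hs.1, not_lt.1 hcon⟩) (not_le.2 hs.2)
    have h01 : t₀ < t₁ := by
      rcases eq_or_lt_of_le hmem.1 with h' | h'
      · have := hmem.2
        rw [← h', h0] at this
        linarith
      · exact h'
    have hle : y t₁ ≤ b := by
      have hcl : Tendsto y (𝓝[<] t₁) (𝓝 (y t₁)) := hcy.continuousAt.tendsto.mono_left
        nhdsWithin_le_nhds
      refine le_of_tendsto hcl ?_
      filter_upwards [Ioo_mem_nhdsLT h01] with r hr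
      exact (hlt r ⟨hr.1.le, hr.2⟩).le
    have hin' := hstay t₁ fun s hs => (hlt s hs).le
    have hin : ∀ s ∈ Icc t₀ t₁, y s ∈ Icc a b := by
      intro s hs
      rcases eq_or_lt_of_le hs.2 with h' | h'
      · rw [h']
        exact ⟨hab.le.trans hmem.2, hle⟩
      · exact hin' s ⟨hs.1, h'⟩
    exact ⟨t₁, h01, le_antisymm hle hmem.2, hin, (hgrow t₁ h01.le hin).1⟩
  · exfalso
    push Not at hex
    set T := t₀ + (b - a) / κ with hTdef
    have hT : t₀ ≤ T := by
      have : 0 ≤ (b - a) / κ := div_nonneg (by linarith) hκ.le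
      linarith
    have hin' := hstay (T + 1) fun s hs => (hex s hs.1).le
    have hin : ∀ s ∈ Icc t₀ T, y s ∈ Icc a b := fun s hs =>
      hin' s ⟨hs.1, by linarith [hs.2]⟩
    have h2 := (hgrow T hT hin).2
    have h3 : κ * (T - t₀) = b - a := by
      rw [hTdef]
      field_simp
      ring
    have h4 := hex T hT
    linarith

/-- `E` is bounded on strips. -/
theorem EB.exists_bound (m : EB) (a b : ℝ) : ∃ C, 0 < C ∧ ∀ x y, y ∈ Icc a b → m.E (x, y) ≤ C := by
  obtain ⟨C, hC⟩ := ((isCompact_Icc (a := (0 : ℝ)) (b := 1)).prod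
    (isCompact_Icc (a := a) (b := b))).exists_bound_of_continuousOn
      (f := m.E) m.smooth_E.continuous.continuousOn
  refine ⟨max C 1, lt_max_of_lt_right one_pos, fun x y hy => ?_⟩
  have e : m.E (x, y) = m.E (Int.fract x, y) := by
    have := EB.Orbit.E_add_int m (Int.fract x) y ⌊x⌋
    rw [Int.fract_add_floor] at this
    exact this
  rw [e]
  have := hC (Int.fract x, y) ⟨⟨Int.fract_nonneg x, (Int.fract_lt_one x).le⟩, hy⟩
  exact ((le_abs_self _).trans this).trans (le_max_left _ _)

namespace EB.Orbit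

variable {m : EB} {x y q η : ℝ → ℝ}

/-- If `E_x = 0` and `b = 0` on the line `{x = k}` then a geodesic which is tangent to this line
at one point stays on it. -/
theorem axis (h : Orbit m x y q η) {k : ℝ} (hE : ∀ Y, CyG.dx m.E (k, Y) = 0)
    (hb : ∀ Y, m.b (k, Y) = 0) {s₀ : ℝ} (hx : x s₀ = k) (hq : q s₀ = 0) :
    ∀ s, x s = k ∧ q s = 0 := by
  have hbt : ∀ Y, CyG.dt m.b (k, Y) = 0 := by
    intro Y
    have h1 := hasDerivAt_dt m.smooth_b k Y
    have h2 : (fun a => m.b (k, a)) = fun _ => 0 := funext hb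
    rw [h2] at h1
    exact h1.unique (hasDerivAt_const Y (0 : ℝ))
  have hz : ∀ s, HasDerivAt (fun s => (x s, y s, q s, η s)) (field m (x s, y s, q s, η s)) s :=
    fun s => (h.dx s).prodMk ((h.dy s).prodMk ((h.dq s).prodMk (h.dη s)))
  have hcz : Continuous fun s => (x s, y s, q s, η s) :=
    continuous_iff_continuousAt.2 fun t => (hz t).continuousAt
  have hcw : Continuous fun s => (k, y s, (0 : ℝ), η s) :=
    continuous_const.prodMk (h.continuous_y.prodMk (continuous_const.prodMk h.continuous_η))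
  have hclosed : IsClosed {s | x s = k ∧ q s = 0} :=
    (isClosed_eq h.continuous_x continuous_const).inter
      (isClosed_eq h.continuous_q continuous_const)
  have hopen : IsOpen {s | x s = k ∧ q s = 0} := by
    rw [isOpen_iff_mem_nhds]
    intro t ht
    have ht1 : x t = k := ht.1
    have ht2 : q t = 0 := ht.2
    have hc : ContDiff ℝ 1 (field m) := (contDiff_field m).of_le (by simp)
    obtain ⟨K, U, hU, hK⟩ := (hc.contDiffAt
      (x := ((x t, y t, q t, η t) : State))).exists_lipschitzOnWith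
    have hU' : U ∈ 𝓝 (((k, y t, (0 : ℝ), η t) : State)) := by
      rw [← ht1, ← ht2]; exact hU
    have e1 : ∀ᶠ s in 𝓝 t, (x s, y s, q s, η s) ∈ U := hcz.continuousAt.eventually hU
    have e2 : ∀ᶠ s in 𝓝 t, (k, y s, (0 : ℝ), η s) ∈ U := hcw.continuousAt.eventually hU'
    -- the differential inequality
    have key : ∀ᶠ s in 𝓝 t, |q s / m.E (x s, y s)| ≤ K * max |x s - k| |q s| ∧
        |(CyG.dx m.E (x s, y s) + m.b (x s, y s) * CyG.dt m.E (x s, y s))
          / (2 * m.E (x s, y s)) + CyG.dt m.b (x s, y s) * η s ^ 2 / m.E (x s, y s)| ≤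
          K * max |x s - k| |q s| := by
      filter_upwards [e1, e2] with s h1 h2
      have hd := hK.dist_le_mul _ h1 _ h2
      have hdist : dist ((x s, y s, q s, η s) : State) (k, y s, 0, η s) =
          max |x s - k| |q s| := by
        simp only [Prod.dist_eq, dist_self, Real.dist_eq, sub_zero]
        rw [max_eq_left (abs_nonneg (q s)), max_eq_right (abs_nonneg (q s))]
      rw [hdist] at hd
      have hf2 : field m (k, y s, 0, η s) =
          (0, η s / m.E (k, y s), 0, CyG.dt m.E (k, y s) / (2 * m.E (k, y s))) := by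
        simp only [field, hE, hb, hbt]
        simp
      rw [hf2] at hd
      simp only [field] at hd
      constructor
      · refine le_trans ?_ hd
        rw [Prod.dist_eq]
        refine le_trans ?_ (le_max_left _ _)
        simp only [Real.dist_eq, sub_zero, le_refl]
      · refine le_trans ?_ hd
        rw [Prod.dist_eq, Prod.dist_eq, Prod.dist_eq]
        refine le_trans ?_ (le_max_right _ _)
        refine le_trans ?_ (le_max_right _ _)
        refine le_trans ?_ (le_max_left _ _)
        simp only [Real.dist_eq, sub_zero, le_refl]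
    obtain ⟨ε, hε, hball⟩ := Metric.eventually_nhds_iff.1 key
    -- both sides
    have hf : ∀ s, HasDerivAt (fun s => (x s - k, q s)) (q s / m.E (x s, y s),
        (CyG.dx m.E (x s, y s) + m.b (x s, y s) * CyG.dt m.E (x s, y s))
          / (2 * m.E (x s, y s)) + CyG.dt m.b (x s, y s) * η s ^ 2 / m.E (x s, y s)) s :=
      fun s => ((h.dx s).sub_const k).prodMk (h.dq s)
    have hfc : Continuous (fun s => (x s - k, q s)) :=
      continuous_iff_continuousAt.2 fun s => (hf s).continuousAt
    have hright : ∀ s ∈ Icc t (t + ε / 2), (x s - k, q s) = (0 : ℝ × ℝ) := by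
      refine eq_zero_of_abs_deriv_le_mul_abs_self_of_eq_zero_right (K := K) hfc.continuousOn
        (fun s _ => (hf s).hasDerivWithinAt) (by simp [ht1, ht2]) ?_
      intro s hs
      have hs' : dist s t < ε := by
        rw [Real.dist_eq, abs_of_nonneg (by linarith [hs.1])]
        linarith [hs.2]
      have := hball hs'
      rw [Prod.norm_def, Prod.norm_def]
      simp only [Real.norm_eq_abs]
      exact max_le this.1 this.2
    have hg : ∀ s, HasDerivAt (fun s => (x (-s) - k, q (-s))) (-(q (-s) / m.E (x (-s), y (-s))),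
        -((CyG.dx m.E (x (-s), y (-s)) + m.b (x (-s), y (-s)) * CyG.dt m.E (x (-s), y (-s)))
          / (2 * m.E (x (-s), y (-s)))
          + CyG.dt m.b (x (-s), y (-s)) * η (-s) ^ 2 / m.E (x (-s), y (-s)))) s := by
      intro s
      have := (hf (-s)).scomp s (hasDerivAt_neg s)
      refine this.congr_deriv ?_
      simp
    have hgc : Continuous (fun s => (x (-s) - k, q (-s))) :=
      continuous_iff_continuousAt.2 fun s => (hg s).continuousAt
    have hleft : ∀ s ∈ Icc (-t) (-t + ε / 2), (x (-s) - k, q (-s)) = (0 : ℝ × ℝ) := by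
      refine eq_zero_of_abs_deriv_le_mul_abs_self_of_eq_zero_right (K := K) hgc.continuousOn
        (fun s _ => (hg s).hasDerivWithinAt) (by simp [ht1, ht2]) ?_
      intro s hs
      have hs' : dist (-s) t < ε := by
        rw [Real.dist_eq, abs_of_nonpos (by linarith [hs.1])]
        linarith [hs.2]
      have := hball hs'
      rw [Prod.norm_def, Prod.norm_def]
      simp only [Real.norm_eq_abs, abs_neg]
      exact max_le this.1 this.2
    refine Metric.mem_nhds_iff.2 ⟨ε / 2, by positivity, fun s hs => ?_⟩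
    rw [Metric.mem_ball, Real.dist_eq, abs_lt] at hs
    rcases le_total t s with h' | h'
    · have := hright s ⟨h', by linarith⟩
      simp only [Prod.mk_eq_zero] at this
      exact ⟨by linarith [this.1], this.2⟩
    · have := hleft (-s) ⟨by linarith, by linarith⟩
      simp only [neg_neg, Prod.mk_eq_zero] at this
      exact ⟨by linarith [this.1], this.2⟩
  have huniv : {s | x s = k ∧ q s = 0} = univ := IsClopen.eq_univ ⟨hclosed, hopen⟩ ⟨s₀, hx, hq⟩
  intro s
  have : s ∈ {s | x s = k ∧ q s = 0} := by rw [huniv]; trivial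
  exact this

end EB.Orbit

end Pool.Agent.CyGN
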