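import Pool.Agent.CyGN.Kid

set_option autoImplicit false

/-!
# The functions of the counterexample
-/

namespace Pool.Agent.CyGN

open Set Filter Topology MeasureTheory
open scoped ContDiff

/-! ### General calculus -/

theorem hasDerivAt_integral {f : ℝ → ℝ} (hf : Continuous f) (a y : ℝ) :
    HasDerivAt (fun y => ∫ t in a..y, f t) (f y) y :=
  intervalIntegral.integral_hasDerivAt_right (hf.intervalIntegrable _ _)
      (hf.stronglyMeasurableAtFilter _ _) hf.continuousAt

theorem contDiff_of_hasDerivAt {f f' : ℝ → ℝ} (hd : ∀ y, HasDerivAt f (f' y) y)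
    (hf : ContDiff ℝ ∞ f') : ContDiff ℝ ∞ f := by
  rw [contDiff_infty_iff_deriv]
  refine ⟨fun y => (hd y).differentiableAt, ?_⟩
  have : deriv f = f' := funext fun y => (hd y).deriv
  rw [this]
  exact hf

theorem contDiff_integral {f : ℝ → ℝ} (hf : ContDiff ℝ ∞ f) (a : ℝ) :
    ContDiff ℝ ∞ (fun y => ∫ t in a..y, f t) :=
  contDiff_of_hasDerivAt (hasDerivAt_integral hf.continuous a) hf

/-! ### The smooth step -/

/-- The smooth step. -/
noncomputable def st : ℝ → ℝ := Real.smoothTransition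

theorem st_smooth : ContDiff ℝ ∞ st := Real.smoothTransition.contDiff

theorem st_cont : Continuous st := st_smooth.continuous

theorem st_nonneg (x : ℝ) : 0 ≤ st x := Real.smoothTransition.nonneg x

theorem st_le_one (x : ℝ) : st x ≤ 1 := Real.smoothTransition.le_one x

theorem st_zero {x : ℝ} (h : x ≤ 0) : st x = 0 := Real.smoothTransition.zero_of_nonpos h

theorem st_one {x : ℝ} (h : 1 ≤ x) : st x = 1 := Real.smoothTransition.one_of_one_le h

theorem st_pos {x : ℝ} (h : 0 < x) : 0 < st x := Real.smoothTransition.pos_of_pos h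

theorem st_lt_one {x : ℝ} (h : x < 1) : st x < 1 := Real.smoothTransition.lt_one_of_lt_one h

theorem st_mono : Monotone st := Real.smoothTransition.monotone

theorem st_symm (x : ℝ) : st (1 - x) = 1 - st x := by
  have h := Real.smoothTransition.pos_denom x
  unfold st Real.smoothTransition
  rw [sub_sub_cancel] at *
  rw [eq_sub_iff_add_eq, add_comm (expNegInvGlue (1 - x)) (expNegInvGlue x), ← add_div,
    add_comm (expNegInvGlue (1 - x)), div_self h.ne']

theorem st_hasDerivAt (x : ℝ) : HasDerivAt st (deriv st x) x :=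
  (st_smooth.differentiable (by simp) x).hasDerivAt

theorem st'_smooth : ContDiff ℝ ∞ (deriv st) :=
  (contDiff_infty_iff_deriv.1 st_smooth).2

theorem st''_smooth : ContDiff ℝ ∞ (deriv (deriv st)) :=
  (contDiff_infty_iff_deriv.1 st'_smooth).2

theorem st'_hasDerivAt (x : ℝ) : HasDerivAt (deriv st) (deriv (deriv st) x) x :=
  (st'_smooth.differentiable (by simp) x).hasDerivAt

theorem st'_nonneg (x : ℝ) : 0 ≤ deriv st x := st_mono.deriv_nonneg

theorem st'_zero_of_neg {x : ℝ} (h : x < 0) : deriv st x = 0 := by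
  have : st =ᶠ[𝓝 x] fun _ => (0 : ℝ) := by
    filter_upwards [Iio_mem_nhds h] with y hy using st_zero (le_of_lt hy)
  rw [this.deriv_eq]; simp

theorem st'_zero_of_gt {x : ℝ} (h : 1 < x) : deriv st x = 0 := by
  have : st =ᶠ[𝓝 x] fun _ => (1 : ℝ) := by
    filter_upwards [Ioi_mem_nhds h] with y hy using st_one (le_of_lt hy)
  rw [this.deriv_eq]; simp

theorem st'_zero_left {x : ℝ} (h : x ≤ 0) : deriv st x = 0 := by
  have hcl : IsClosed {x | deriv st x = 0} := isClosed_eq st'_smooth.continuous continuous_const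
  have hsub : Iio (0 : ℝ) ⊆ {x | deriv st x = 0} := fun y hy => st'_zero_of_neg hy
  have := hcl.closure_subset_iff.2 hsub
  rw [closure_Iio] at this
  exact this h

theorem st'_zero_right {x : ℝ} (h : 1 ≤ x) : deriv st x = 0 := by
  have hcl : IsClosed {x | deriv st x = 0} := isClosed_eq st'_smooth.continuous continuous_const
  have hsub : Ioi (1 : ℝ) ⊆ {x | deriv st x = 0} := fun y hy => st'_zero_of_gt hy
  have := hcl.closure_subset_iff.2 hsub
  rw [closure_Ioi] at this
  exact this h

theorem st''_zero_of_neg {x : ℝ} (h : x < 0) : deriv (deriv st) x = 0 := by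
  have : deriv st =ᶠ[𝓝 x] fun _ => (0 : ℝ) := by
    filter_upwards [Iio_mem_nhds h] with y hy using st'_zero_of_neg hy
  rw [this.deriv_eq]; simp

theorem st''_zero_of_gt {x : ℝ} (h : 1 < x) : deriv (deriv st) x = 0 := by
  have : deriv st =ᶠ[𝓝 x] fun _ => (0 : ℝ) := by
    filter_upwards [Ioi_mem_nhds h] with y hy using st'_zero_of_gt hy
  rw [this.deriv_eq]; simp

theorem st''_zero_left {x : ℝ} (h : x ≤ 0) : deriv (deriv st) x = 0 := by
  have hcl : IsClosed {x | deriv (deriv st) x = 0} :=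
    isClosed_eq st''_smooth.continuous continuous_const
  have hsub : Iio (0 : ℝ) ⊆ {x | deriv (deriv st) x = 0} := fun y hy => st''_zero_of_neg hy
  have := hcl.closure_subset_iff.2 hsub
  rw [closure_Iio] at this
  exact this h

theorem st''_zero_right {x : ℝ} (h : 1 ≤ x) : deriv (deriv st) x = 0 := by
  have hcl : IsClosed {x | deriv (deriv st) x = 0} :=
    isClosed_eq st''_smooth.continuous continuous_const
  have hsub : Ioi (1 : ℝ) ⊆ {x | deriv (deriv st) x = 0} := fun y hy => st''_zero_of_gt hy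
  have := hcl.closure_subset_iff.2 hsub
  rw [closure_Ioi] at this
  exact this h

theorem exists_cst : ∃ c : ℝ, 1 ≤ c ∧ (∀ x, |deriv st x| ≤ c) ∧
    ∀ x, |deriv (deriv st) x| ≤ c := by
  obtain ⟨a, ha⟩ := (isCompact_Icc (a := (0 : ℝ)) (b := 1)).exists_bound_of_continuousOn
    (st'_smooth.continuous.continuousOn)
  obtain ⟨b, hb⟩ := (isCompact_Icc (a := (0 : ℝ)) (b := 1)).exists_bound_of_continuousOn
    (st''_smooth.continuous.continuousOn)
  refine ⟨max 1 (max a b), le_max_left _ _, fun x => ?_, fun x => ?_⟩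
  · rcases le_total x 0 with h | h
    · rw [st'_zero_left h, abs_zero]; positivity
    rcases le_total 1 x with h' | h'
    · rw [st'_zero_right h', abs_zero]; positivity
    exact (ha x ⟨h, h'⟩).trans ((le_max_left _ _).trans (le_max_right _ _))
  · rcases le_total x 0 with h | h
    · rw [st''_zero_left h, abs_zero]; positivity
    rcases le_total 1 x with h' | h'
    · rw [st''_zero_right h', abs_zero]; positivity
    exact (hb x ⟨h, h'⟩).trans ((le_max_right _ _).trans (le_max_right _ _))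

/-- The bound for the first two derivatives of `st`. -/
noncomputable def cst : ℝ := Classical.choose exists_cst

theorem one_le_cst : 1 ≤ cst := (Classical.choose_spec exists_cst).1

theorem cst_pos : 0 < cst := lt_of_lt_of_le one_pos one_le_cst

theorem abs_st' (x : ℝ) : |deriv st x| ≤ cst := (Classical.choose_spec exists_cst).2.1 x

theorem abs_st'' (x : ℝ) : |deriv (deriv st) x| ≤ cst := (Classical.choose_spec exists_cst).2.2 x

/-! ### The primitive `e0` of the step -/

/-- The primitive of the smooth step. -/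
noncomputable def e0 (y : ℝ) : ℝ := ∫ t in (0 : ℝ)..y, st t

theorem e0_hasDerivAt (y : ℝ) : HasDerivAt e0 (st y) y := hasDerivAt_integral st_cont 0 y

theorem e0_smooth : ContDiff ℝ ∞ e0 := contDiff_integral st_smooth 0

theorem e0_zero {y : ℝ} (h : y ≤ 0) : e0 y = 0 := by
  unfold e0
  rw [intervalIntegral.integral_congr (g := fun _ => (0 : ℝ))]
  · simp
  · intro t ht
    rw [uIcc_of_ge h] at ht
    exact st_zero ht.2

theorem e0_mono : Monotone e0 :=
  monotone_of_hasDerivAt_nonneg (fun y => e0_hasDerivAt y) (fun y => st_nonneg y)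

theorem e0_nonneg (y : ℝ) : 0 ≤ e0 y := by
  rcases le_total y 0 with h | h
  · rw [e0_zero h]
  · rw [← e0_zero (le_refl (0 : ℝ))]
    exact e0_mono h

theorem e0_sub_le {a b : ℝ} (h : a ≤ b) : e0 b - e0 a ≤ b - a := by
  have : Antitone fun y => e0 y - y := by
    apply antitone_of_hasDerivAt_nonpos (f' := fun y => st y - 1)
    · intro y; exact (e0_hasDerivAt y).sub (hasDerivAt_id y)
    · intro y; have := st_le_one y; simp only [Pi.zero_apply]; linarith
  have := this h
  simp only at this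
  linarith

theorem e0_le (y : ℝ) : e0 y ≤ max y 0 := by
  rcases le_total y 0 with h | h
  · rw [e0_zero h]; exact le_max_right _ _
  · have := e0_sub_le h
    rw [e0_zero (le_refl (0 : ℝ))] at this
    exact (by linarith : e0 y ≤ y).trans (le_max_left _ _)

theorem e0_one_le (y : ℝ) (h : 1 ≤ y) : e0 y = y - 1 + e0 1 := by
  have h1 : ∫ t in (1 : ℝ)..y, st t = y - 1 := by
    rw [intervalIntegral.integral_congr (g := fun _ => (1 : ℝ))]
    · simp
    · intro t ht
      rw [uIcc_of_le h] at ht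
      exact st_one ht.1
  have h2 := intervalIntegral.integral_add_adjacent_intervals
    (st_cont.intervalIntegrable (μ := volume) 0 1) (st_cont.intervalIntegrable 1 y)
  unfold e0
  rw [← h2, h1]; ring

theorem e0_one_mem : e0 1 ∈ Icc (0 : ℝ) 1 := ⟨e0_nonneg 1, by have := e0_le 1; simpa using this⟩

/-! ### The bump and `psi` -/

/-- The bump. -/
noncomputable def bump (y : ℝ) : ℝ := st (4 * y) * st (4 * (1 - y))

theorem bump_smooth : ContDiff ℝ ∞ bump :=
  (st_smooth.comp (contDiff_const.mul contDiff_id)).mul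
    (st_smooth.comp (contDiff_const.mul (contDiff_const.sub contDiff_id)))

theorem bump_nonneg (y : ℝ) : 0 ≤ bump y := mul_nonneg (st_nonneg _) (st_nonneg _)

theorem bump_le_one (y : ℝ) : bump y ≤ 1 := mul_le_one₀ (st_le_one _) (st_nonneg _) (st_le_one _)

theorem bump_zero_left {y : ℝ} (h : y ≤ 0) : bump y = 0 := by
  unfold bump; rw [st_zero (by linarith)]; simp

theorem bump_zero_right {y : ℝ} (h : 1 ≤ y) : bump y = 0 := by
  unfold bump; rw [st_zero (x := 4 * (1 - y)) (by linarith)]; simp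

theorem bump_one {y : ℝ} (h1 : 1 / 4 ≤ y) (h2 : y ≤ 3 / 4) : bump y = 1 := by
  unfold bump; rw [st_one (by linarith), st_one (by linarith)]; simp

/-- The function `psi`. -/
noncomputable def psi (y : ℝ) : ℝ := ∫ t in y..(1 : ℝ), bump t

theorem psi_hasDerivAt (y : ℝ) : HasDerivAt psi (-bump y) y := by
  have := (hasDerivAt_integral bump_smooth.continuous 1 y).neg
  refine this.congr_of_eventuallyEq (Eventually.of_forall fun z => ?_)
  show psi z = -∫ t in (1 : ℝ)..z, bump t
  unfold psi
  rw [intervalIntegral.integral_symm]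

theorem psi_smooth : ContDiff ℝ ∞ psi := contDiff_of_hasDerivAt psi_hasDerivAt bump_smooth.neg

theorem psi_anti : Antitone psi :=
  antitone_of_hasDerivAt_nonpos psi_hasDerivAt fun y => by
    have := bump_nonneg y; simp only [Pi.zero_apply]; linarith

theorem psi_zero {y : ℝ} (h : 1 ≤ y) : psi y = 0 := by
  unfold psi
  rw [intervalIntegral.integral_congr (g := fun _ => (0 : ℝ))]
  · simp
  · intro t ht
    rw [uIcc_of_ge h] at ht
    exact bump_zero_right ht.1

theorem psi_nonneg (y : ℝ) : 0 ≤ psi y := by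
  rcases le_total y 1 with h | h
  · rw [← psi_zero (le_refl (1 : ℝ))]; exact psi_anti h
  · rw [psi_zero h]

theorem psi_le_one (y : ℝ) (hy : 0 ≤ y) : psi y ≤ 1 := by
  have : Monotone fun y => psi y + y := by
    apply monotone_of_hasDerivAt_nonneg (f' := fun y => -bump y + 1)
    · intro y; exact (psi_hasDerivAt y).add (hasDerivAt_id y)
    · intro y; have := bump_le_one y; simp only [Pi.zero_apply]; linarith
  rcases le_total y 1 with h | h
  · have := this h
    simp only [psi_zero (le_refl (1 : ℝ))] at this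
    linarith
  · rw [psi_zero h]; norm_num

theorem psi_const {y : ℝ} (h : y ≤ 0) : psi y = psi 0 := by
  have h1 : ∫ t in y..(0 : ℝ), bump t = 0 := by
    rw [intervalIntegral.integral_congr (g := fun _ => (0 : ℝ))]
    · simp
    · intro t ht
      rw [uIcc_of_le h] at ht
      exact bump_zero_left ht.2
  have h2 := intervalIntegral.integral_add_adjacent_intervals
    (bump_smooth.continuous.intervalIntegrable (μ := volume) y 0)
    (bump_smooth.continuous.intervalIntegrable 0 1)
  unfold psi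
  rw [← h2, h1]; ring

theorem psi_le_one' (y : ℝ) : psi y ≤ 1 := by
  rcases le_total 0 y with h | h
  · exact psi_le_one y h
  · rw [psi_const h]; exact psi_le_one 0 le_rfl

theorem quarter_le_psi {y : ℝ} (h : y ≤ 1 / 2) : 1 / 4 ≤ psi y := by
  have h1 : ∫ t in (1 / 2 : ℝ)..(3 / 4), bump t = 1 / 4 := by
    rw [intervalIntegral.integral_congr (g := fun _ => (1 : ℝ))]
    · simp; norm_num
    · intro t ht
      rw [uIcc_of_le (by norm_num)] at ht
      exact bump_one (by linarith [ht.1]) ht.2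
  have h2 := intervalIntegral.integral_add_adjacent_intervals
    (bump_smooth.continuous.intervalIntegrable (μ := volume) (1 / 2) (3 / 4))
    (bump_smooth.continuous.intervalIntegrable (3 / 4) 1)
  have h3 : 1 / 4 ≤ psi (1 / 2) := by
    have := psi_nonneg (3 / 4)
    unfold psi at *
    rw [← h2, h1]; linarith
  exact h3.trans (psi_anti h)

/-! ### The sign function -/

/-- The smooth odd sign. -/
noncomputable def Psi (r : ℝ) : ℝ := 2 * st ((r + 1) / 2) - 1

theorem Psi_smooth : ContDiff ℝ ∞ Psi :=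
  (contDiff_const.mul (st_smooth.comp ((contDiff_id.add contDiff_const).div_const 2))).sub
    contDiff_const

theorem Psi_odd (r : ℝ) : Psi (-r) = -Psi r := by
  unfold Psi
  have : (-r + 1) / 2 = 1 - (r + 1) / 2 := by ring
  rw [this, st_symm]; ring

theorem Psi_one {r : ℝ} (h : 1 ≤ r) : Psi r = 1 := by
  unfold Psi; rw [st_one (by linarith)]; norm_num

theorem Psi_neg_one {r : ℝ} (h : r ≤ -1) : Psi r = -1 := by
  unfold Psi; rw [st_zero (by linarith)]; norm_num

theorem Psi_le_one (r : ℝ) : Psi r ≤ 1 := by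
  unfold Psi; have := st_le_one ((r + 1) / 2); linarith

theorem neg_one_le_Psi (r : ℝ) : -1 ≤ Psi r := by
  unfold Psi; have := st_nonneg ((r + 1) / 2); linarith

theorem abs_Psi_le (r : ℝ) : |Psi r| ≤ 1 := abs_le.2 ⟨neg_one_le_Psi r, Psi_le_one r⟩

/-! ### `s` and `u` -/

/-- `s(x) = sin (π x)`. -/
noncomputable def sn (x : ℝ) : ℝ := Real.sin (Real.pi * x)

theorem uu_eq (x : ℝ) : uu x = sn x ^ 2 := rfl

theorem sn_smooth : ContDiff ℝ ∞ sn := Real.contDiff_sin.comp (contDiff_const.mul contDiff_id)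

theorem uu_smooth : ContDiff ℝ ∞ uu := sn_smooth.pow 2

theorem sn_hasDerivAt (x : ℝ) : HasDerivAt sn (Real.pi * Real.cos (Real.pi * x)) x := by
  have := (Real.hasDerivAt_sin (Real.pi * x)).comp x ((hasDerivAt_id x).const_mul Real.pi)
  refine this.congr_deriv ?_
  simp; ring

theorem uu_hasDerivAt (x : ℝ) :
    HasDerivAt uu (2 * sn x * (Real.pi * Real.cos (Real.pi * x))) x := by
  refine ((sn_hasDerivAt x).pow 2).congr_deriv ?_
  simp

theorem sn_anti (x : ℝ) : sn (x + 1) = -sn x := by
  unfold sn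
  rw [mul_add, mul_one, Real.sin_add_pi]

theorem uu_per (x : ℝ) : uu (x + 1) = uu x := by
  rw [uu_eq, uu_eq, sn_anti]; ring

theorem sn_zero : sn 0 = 0 := by unfold sn; simp

theorem sn_one : sn 1 = 0 := by unfold sn; simp

theorem uu_zero : uu 0 = 0 := by rw [uu_eq, sn_zero]; simp

theorem sn_le_one (x : ℝ) : sn x ≤ 1 := Real.sin_le_one _

theorem neg_one_le_sn (x : ℝ) : -1 ≤ sn x := Real.neg_one_le_sin _

theorem sn_nonneg {x : ℝ} (h0 : 0 ≤ x) (h1 : x ≤ 1) : 0 ≤ sn x :=
  Real.sin_nonneg_of_nonneg_of_le_pi (by positivity) (by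
    have := Real.pi_pos; nlinarith)

theorem sn_pos {x : ℝ} (h0 : 0 < x) (h1 : x < 1) : 0 < sn x :=
  Real.sin_pos_of_pos_of_lt_pi (by positivity) (by
    have := Real.pi_pos; nlinarith)

theorem sn_symm (x : ℝ) : sn (1 - x) = sn x := by
  unfold sn
  rw [mul_sub, mul_one, Real.sin_pi_sub]

/-- The lower bound `2 x` on `[0, 1/2]`. -/
theorem two_mul_le_sn {x : ℝ} (h0 : 0 ≤ x) (h1 : x ≤ 1 / 2) : 2 * x ≤ sn x := by
  have hp := Real.pi_pos
  have := Real.mul_le_sin (x := Real.pi * x) (by positivity) (by nlinarith)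
  have e : 2 / Real.pi * (Real.pi * x) = 2 * x := by field_simp
  rw [e] at this
  exact this

/-- The upper bound `π x`. -/
theorem sn_le_pi_mul {x : ℝ} (h0 : 0 ≤ x) : sn x ≤ Real.pi * x :=
  Real.sin_le (by positivity)

theorem sn_ge_min {x a : ℝ} (ha : 0 ≤ a) (h0 : a ≤ x) (h1 : x ≤ 1 - a) :
    2 * a ≤ sn x := by
  rcases le_total x (1 / 2) with h | h
  · exact (by linarith : 2 * a ≤ 2 * x).trans (two_mul_le_sn (by linarith) h)
  · rw [← sn_symm x]
    exact (by linarith : 2 * a ≤ 2 * (1 - x)).trans (two_mul_le_sn (by linarith) (by linarith))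

/-! ### The big constants -/

/-- `N = 2000 c`. -/
noncomputable def NN : ℝ := 2000 * cst

/-- `B = 1000 c`. -/
noncomputable def BB : ℝ := 1000 * cst

theorem NN_ge : 2000 ≤ NN := by unfold NN; have := one_le_cst; linarith

theorem NN_pos : 0 < NN := lt_of_lt_of_le (by norm_num) NN_ge

theorem inv_NN_le : 1 / NN ≤ 1 / 2000 :=
  one_div_le_one_div_of_le (by norm_num) NN_ge

theorem inv_NN_pos : 0 < 1 / NN := one_div_pos.2 NN_pos

theorem BB_ge : 1000 ≤ BB := by unfold BB; have := one_le_cst; linarith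

theorem BB_pos : 0 < BB := lt_of_lt_of_le (by norm_num) BB_ge

/-! ### The antiperiodic sign `sg` -/

/-- The antiperiodic sign. -/
noncomputable def sg (x : ℝ) : ℝ := Psi (NN * sn (x + 1 / NN))

theorem sg_smooth : ContDiff ℝ ∞ sg :=
  Psi_smooth.comp (contDiff_const.mul (sn_smooth.comp (contDiff_id.add contDiff_const)))

theorem sg_anti (x : ℝ) : sg (x + 1) = -sg x := by
  unfold sg
  rw [show x + 1 + 1 / NN = (x + 1 / NN) + 1 by ring, sn_anti, mul_neg, Psi_odd]

theorem abs_sg_le (x : ℝ) : |sg x| ≤ 1 := abs_Psi_le _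

theorem sg_sq_le (x : ℝ) : sg x ^ 2 ≤ 1 := by
  have := abs_sg_le x
  rw [abs_le] at this
  nlinarith [this.1, this.2]

theorem sg_one {x : ℝ} (h0 : -(1 / (2 * NN)) ≤ x) (h1 : x ≤ 1 - 3 / (2 * NN)) : sg x = 1 := by
  have hN := NN_pos
  have hN2 := NN_ge
  apply Psi_one
  have h := sn_ge_min (x := x + 1 / NN) (a := 1 / (2 * NN)) (by positivity)
    (by have : 1 / NN = 1 / (2 * NN) + 1 / (2 * NN) := by field_simp; ring
        linarith)
    (by have : 3 / (2 * NN) = 1 / NN + 1 / (2 * NN) := by field_simp; ring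
        linarith)
  have e : NN * (2 * (1 / (2 * NN))) = 1 := by field_simp
  calc (1 : ℝ) = NN * (2 * (1 / (2 * NN))) := e.symm
    _ ≤ NN * sn (x + 1 / NN) := mul_le_mul_of_nonneg_left h hN.le

theorem sg_neg_one {x : ℝ} (h0 : 1 - 1 / (2 * NN) ≤ x) (h1 : x ≤ 2 - 3 / (2 * NN)) :
    sg x = -1 := by
  have h := sg_anti (x - 1)
  rw [sub_add_cancel] at h
  rw [h, sg_one (by linarith) (by linarith)]

/-! ### The constants `I1`, `I3`, `A0` -/

/-- `∫₀¹ sg s`. -/
noncomputable def I1 : ℝ := ∫ x in (0 : ℝ)..1, sg x * sn x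

/-- `∫₀¹ sg s³`. -/
noncomputable def I3 : ℝ := ∫ x in (0 : ℝ)..1, sg x * sn x ^ 3

/-- The constant `A0`. -/
noncomputable def A0 : ℝ := I1 / (1 / 2 - I3 / 2)

theorem integral_sn : ∫ x in (0 : ℝ)..1, sn x = 2 / Real.pi := by
  have hd : ∀ x ∈ uIcc (0 : ℝ) 1,
      HasDerivAt (fun x => -(Real.cos (Real.pi * x)) / Real.pi) (sn x) x := by
    intro x _
    have := ((Real.hasDerivAt_cos (Real.pi * x)).comp x
      ((hasDerivAt_id x).const_mul Real.pi)).neg.div_const Real.pi
    refine this.congr_deriv ?_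
    have hp := Real.pi_ne_zero
    simp [sn]
  rw [intervalIntegral.integral_eq_sub_of_hasDerivAt hd
    (sn_smooth.continuous.intervalIntegrable _ _)]
  simp
  have hp := Real.pi_ne_zero
  field_simp
  norm_num

theorem integral_sn3 : ∫ x in (0 : ℝ)..1, sn x ^ 3 = 4 / (3 * Real.pi) := by
  have hp := Real.pi_ne_zero
  have hd : ∀ x ∈ uIcc (0 : ℝ) 1,
      HasDerivAt (fun x => (-(Real.cos (Real.pi * x)) + Real.cos (Real.pi * x) ^ 3 / 3) / Real.pi)
        (sn x ^ 3) x := by
    intro x _
    have hc : HasDerivAt (fun x => Real.cos (Real.pi * x))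
        (-Real.sin (Real.pi * x) * Real.pi) x := by
      have := (Real.hasDerivAt_cos (Real.pi * x)).comp x ((hasDerivAt_id x).const_mul Real.pi)
      refine this.congr_deriv ?_
      simp
    have := (hc.neg.add ((hc.pow 3).div_const 3)).div_const Real.pi
    refine this.congr_deriv ?_
    have hsc := Real.sin_sq_add_cos_sq (Real.pi * x)
    have hcc : Real.cos (Real.pi * x) ^ 2 = 1 - Real.sin (Real.pi * x) ^ 2 := by linarith
    simp only [sn]
    field_simp
    simp only [Nat.cast_ofNat]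
    linear_combination (-3 * Real.sin (Real.pi * x)) * hcc
  rw [intervalIntegral.integral_eq_sub_of_hasDerivAt hd
    ((sn_smooth.continuous.pow 3).intervalIntegrable _ _)]
  simp
  field_simp
  norm_num

theorem integral_uu : ∫ x in (0 : ℝ)..1, uu x = 1 / 2 := by
  have hp := Real.pi_ne_zero
  have hd : ∀ x ∈ uIcc (0 : ℝ) 1,
      HasDerivAt (fun x => x / 2 - Real.sin (2 * Real.pi * x) / (4 * Real.pi)) (uu x) x := by
    intro x _
    have hs : HasDerivAt (fun x => Real.sin (2 * Real.pi * x))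
        (Real.cos (2 * Real.pi * x) * (2 * Real.pi)) x := by
      have := (Real.hasDerivAt_sin (2 * Real.pi * x)).comp x
        ((hasDerivAt_id x).const_mul (2 * Real.pi))
      refine this.congr_deriv ?_
      simp
    refine (((hasDerivAt_id x).div_const 2).sub (hs.div_const (4 * Real.pi))).congr_deriv ?_
    have h2 : Real.cos (2 * Real.pi * x) = 1 - 2 * Real.sin (Real.pi * x) ^ 2 := by
      rw [show 2 * Real.pi * x = 2 * (Real.pi * x) by ring, Real.cos_two_mul]
      have hsc := Real.sin_sq_add_cos_sq (Real.pi * x)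
      linarith
    rw [h2]
    simp only [uu]
    field_simp
    ring
  rw [intervalIntegral.integral_eq_sub_of_hasDerivAt hd
    (uu_smooth.continuous.intervalIntegrable _ _)]
  simp

/-- A function `f` with values in `[0, 1]` on `[0, 1]`: the integral of `sg f` is between
`∫ f - 3/N` and `∫ f`. -/
theorem integral_sg_bounds {f : ℝ → ℝ} (hf : Continuous f) (h0 : ∀ x ∈ Icc (0 : ℝ) 1, 0 ≤ f x)
    (h1 : ∀ x ∈ Icc (0 : ℝ) 1, f x ≤ 1) :
    (∫ x in (0 : ℝ)..1, f x) - 3 / NN ≤ ∫ x in (0 : ℝ)..1, sg x * f x ∧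
      ∫ x in (0 : ℝ)..1, sg x * f x ≤ ∫ x in (0 : ℝ)..1, f x := by
  have hN := NN_pos
  have hN2 := NN_ge
  have hc : Continuous fun x => sg x * f x := sg_smooth.continuous.mul hf
  have hi : ∀ a b, IntervalIntegrable (fun x => sg x * f x) volume a b := fun a b =>
    hc.intervalIntegrable a b
  have hi' : ∀ a b, IntervalIntegrable f volume a b := fun a b => hf.intervalIntegrable a b
  have hm : 3 / (2 * NN) ≤ 1 := by
    rw [div_le_one (by positivity)]; linarith
  have hm0 : 0 ≤ 3 / (2 * NN) := by positivity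
  constructor
  · have hcc : Continuous fun x => f x - sg x * f x := hf.sub hc
    have e : (∫ x in (0 : ℝ)..1, f x) - ∫ x in (0 : ℝ)..1, sg x * f x
        = ∫ x in (0 : ℝ)..1, (f x - sg x * f x) :=
      (intervalIntegral.integral_sub (hi' 0 1) (hi 0 1)).symm
    have e2 := intervalIntegral.integral_add_adjacent_intervals
      (hcc.intervalIntegrable (μ := volume) 0 (1 - 3 / (2 * NN)))
      (hcc.intervalIntegrable (1 - 3 / (2 * NN)) 1)
    have e3 : ∫ x in (0 : ℝ)..(1 - 3 / (2 * NN)), (f x - sg x * f x) = 0 := by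
      rw [intervalIntegral.integral_congr (g := fun _ => (0 : ℝ))]
      · simp
      · intro x hx
        rw [uIcc_of_le (by linarith)] at hx
        have : 0 ≤ 1 / (2 * NN) := by positivity
        simp only
        rw [sg_one (by linarith [hx.1]) hx.2]; ring
    have e4 : ∫ x in (1 - 3 / (2 * NN))..1, (f x - sg x * f x) ≤ 3 / NN := by
      have h := intervalIntegral.integral_mono_on (a := 1 - 3 / (2 * NN)) (b := 1)
        (f := fun x => f x - sg x * f x) (g := fun _ => (2 : ℝ)) (μ := volume) (by linarith)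
        (hcc.intervalIntegrable _ _) (by simp) (by
          intro x hx
          have hx' : x ∈ Icc (0 : ℝ) 1 := ⟨by linarith [hx.1], hx.2⟩
          have a1 := h0 x hx'
          have a2 := h1 x hx'
          have a3 := (abs_le.1 (abs_sg_le x)).1
          nlinarith)
      refine h.trans (le_of_eq ?_)
      simp
      field_simp
    rw [← e2, e3] at e
    linarith
  · apply intervalIntegral.integral_mono_on (by norm_num) (hi 0 1) (hi' 0 1)
    intro x hx
    have a1 := h0 x hx
    have a3 := (abs_le.1 (abs_sg_le x)).2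
    nlinarith

theorem three_div_NN_le : 3 / NN ≤ 3 / 2000 :=
  div_le_div_of_nonneg_left (by norm_num) (by norm_num) NN_ge

theorem I1_mem : 2 / Real.pi - 3 / 2000 ≤ I1 ∧ I1 ≤ 2 / Real.pi := by
  have h := integral_sg_bounds sn_smooth.continuous (fun x hx => sn_nonneg hx.1 hx.2)
    (fun x _ => sn_le_one x)
  rw [integral_sn] at h
  have := three_div_NN_le
  exact ⟨by unfold I1; linarith [h.1], h.2⟩

theorem I3_mem : 4 / (3 * Real.pi) - 3 / 2000 ≤ I3 ∧ I3 ≤ 4 / (3 * Real.pi) := by
  have h := integral_sg_bounds (f := fun x => sn x ^ 3) (sn_smooth.continuous.pow 3)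
    (fun x hx => pow_nonneg (sn_nonneg hx.1 hx.2) 3)
    (fun x hx => pow_le_one₀ (sn_nonneg hx.1 hx.2) (sn_le_one x))
  rw [integral_sn3] at h
  have := three_div_NN_le
  exact ⟨by unfold I3; linarith [h.1], h.2⟩

theorem two_div_pi_mem : 0.6366 ≤ 2 / Real.pi ∧ 2 / Real.pi ≤ 0.6367 := by
  have h1 := Real.pi_gt_d4
  have h2 := Real.pi_lt_d4
  constructor
  · rw [le_div_iff₀ Real.pi_pos]; nlinarith
  · rw [div_le_iff₀ Real.pi_pos]; nlinarith

theorem I1_mem' : 0.635 ≤ I1 ∧ I1 ≤ 0.6367 := by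
  have h := I1_mem
  have h2 := two_div_pi_mem
  constructor
  · norm_num at h h2 ⊢; linarith [h.1, h2.1]
  · linarith [h.2, h2.2]

theorem I3_mem' : 0.4228 ≤ I3 ∧ I3 ≤ 0.4245 := by
  have h := I3_mem
  have h2 := two_div_pi_mem
  have e : 4 / (3 * Real.pi) = 2 / 3 * (2 / Real.pi) := by
    have := Real.pi_ne_zero
    field_simp; ring
  rw [e] at h
  constructor
  · norm_num at h h2 ⊢; linarith [h.1, h2.1]
  · norm_num at h h2 ⊢; linarith [h.2, h2.2]

theorem A0_den : 0 < 1 / 2 - I3 / 2 := by have := I3_mem'.2; norm_num at this ⊢; linarith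

/-- The exact enclosure of `A0`. -/
theorem A0_mem' : 2.199 ≤ A0 ∧ A0 ≤ 2.2132 := by
  have h1 := I1_mem'
  have h3 := I3_mem'
  have hd := A0_den
  unfold A0
  constructor
  · rw [le_div_iff₀ hd]; norm_num at *; linarith [h1.1, h3.1]
  · rw [div_le_iff₀ hd]; norm_num at *; linarith [h1.2, h3.2]

theorem two_le_A0 : 2 ≤ A0 := by have := A0_mem'.1; norm_num at this ⊢; linarith

theorem A0_le : A0 ≤ 9 / 4 := by have := A0_mem'.2; norm_num at this ⊢; linarith

theorem A0_pos : 0 < A0 := lt_of_lt_of_le (by norm_num) two_le_A0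

/-- The defining property of `A0`. -/
theorem A0_eq : I1 + A0 / 2 * I3 = A0 / 2 := by
  have hd := A0_den
  have : A0 * (1 / 2 - I3 / 2) = I1 := div_mul_cancel₀ _ hd.ne'
  linarith

/-! ### `P0`, `g`, `D`, `Theta` -/

/-- `P0 = s (1 + (A0/2) u)`. -/
noncomputable def P0 (x : ℝ) : ℝ := sn x * (1 + A0 / 2 * uu x)

/-- `g = sg P0`. -/
noncomputable def gg (x : ℝ) : ℝ := sg x * P0 x

/-- `D = P0² - g²`. -/
noncomputable def DD (x : ℝ) : ℝ := P0 x ^ 2 - gg x ^ 2

/-- `Θ(x) = ∫₀ˣ (g - A0 u)`. -/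
noncomputable def Theta (x : ℝ) : ℝ := ∫ t in (0 : ℝ)..x, (gg t - A0 * uu t)

theorem P0_smooth : ContDiff ℝ ∞ P0 :=
  sn_smooth.mul (contDiff_const.add (contDiff_const.mul uu_smooth))

theorem gg_smooth : ContDiff ℝ ∞ gg := sg_smooth.mul P0_smooth

theorem DD_smooth : ContDiff ℝ ∞ DD := (P0_smooth.pow 2).sub (gg_smooth.pow 2)

theorem P0_anti (x : ℝ) : P0 (x + 1) = -P0 x := by
  unfold P0; rw [sn_anti, uu_per]; ring

theorem gg_per (x : ℝ) : gg (x + 1) = gg x := by
  unfold gg; rw [sg_anti, P0_anti]; ring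

theorem DD_per (x : ℝ) : DD (x + 1) = DD x := by
  unfold DD; rw [P0_anti, gg_per]; ring

theorem P0_nonneg {x : ℝ} (h0 : 0 ≤ x) (h1 : x ≤ 1) : 0 ≤ P0 x :=
  mul_nonneg (sn_nonneg h0 h1) (by have := A0_pos; have := uu_nonneg x; positivity)

theorem P0_pos {x : ℝ} (h0 : 0 < x) (h1 : x < 1) : 0 < P0 x :=
  mul_pos (sn_pos h0 h1) (by have := A0_pos; have := uu_nonneg x; positivity)

theorem abs_P0_le (x : ℝ) : |P0 x| ≤ 17 / 8 * |sn x| := by
  unfold P0
  have h1 := A0_pos
  have h2 := A0_le
  have h3 := uu_nonneg x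
  have h4 := uu_le_one x
  rw [abs_mul, mul_comm]
  apply mul_le_mul_of_nonneg_right _ (abs_nonneg _)
  rw [abs_of_nonneg (by positivity)]
  nlinarith

theorem abs_sn_le_one (x : ℝ) : |sn x| ≤ 1 := abs_le.2 ⟨neg_one_le_sn x, sn_le_one x⟩

theorem abs_P0_le' (x : ℝ) : |P0 x| ≤ 17 / 8 :=
  (abs_P0_le x).trans (by have := abs_sn_le_one x; linarith)

theorem P0_sq_le (x : ℝ) : P0 x ^ 2 ≤ 4.6 := by
  have := abs_P0_le' x
  rw [abs_le] at this
  norm_num
  nlinarith [this.1, this.2]

theorem abs_gg_le (x : ℝ) : |gg x| ≤ |P0 x| := by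
  unfold gg
  rw [abs_mul]
  have := abs_sg_le x
  have h := abs_nonneg (P0 x)
  nlinarith

theorem gg_sq_le (x : ℝ) : gg x ^ 2 ≤ P0 x ^ 2 := sq_le_sq.2 (abs_gg_le x)

theorem DD_eq (x : ℝ) : DD x = P0 x ^ 2 * (1 - sg x ^ 2) := by unfold DD gg; ring

theorem DD_nonneg (x : ℝ) : 0 ≤ DD x := by
  rw [DD_eq]
  exact mul_nonneg (sq_nonneg _) (by have := sg_sq_le x; linarith)

theorem gg_eq_P0 {x : ℝ} (h0 : -(1 / (2 * NN)) ≤ x) (h1 : x ≤ 1 - 3 / (2 * NN)) :
    gg x = P0 x := by
  unfold gg; rw [sg_one h0 h1, one_mul]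

theorem gg_eq_neg_P0 {x : ℝ} (h0 : 1 - 1 / (2 * NN) ≤ x) (h1 : x ≤ 2 - 3 / (2 * NN)) :
    gg x = -P0 x := by
  unfold gg; rw [sg_neg_one h0 h1]; ring

theorem DD_zero_left {x : ℝ} (h0 : -(1 / (2 * NN)) ≤ x) (h1 : x ≤ 1 - 3 / (2 * NN)) :
    DD x = 0 := by
  rw [DD_eq, sg_one h0 h1]; ring

theorem DD_zero_right {x : ℝ} (h0 : 1 - 1 / (2 * NN) ≤ x) (h1 : x ≤ 2 - 3 / (2 * NN)) :
    DD x = 0 := by
  rw [DD_eq, sg_neg_one h0 h1]; ring

theorem gg_zero : gg 0 = 0 := by unfold gg P0; rw [sn_zero]; ring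

theorem P0_zero : P0 0 = 0 := by unfold P0; rw [sn_zero]; ring

/-- `D ≤ 24 / N²` on `[0, 1]`. -/
theorem DD_le_aux {x : ℝ} (h0 : 0 ≤ x) (h1 : x ≤ 1) : DD x ≤ 24 / NN ^ 2 := by
  have hN := NN_pos
  have hN2 := NN_ge
  rcases le_total x (1 - 3 / (2 * NN)) with h | h
  · rw [DD_zero_left (by have : 0 ≤ 1 / (2 * NN) := by positivity
                         linarith) h]
    positivity
  · have hd : DD x ≤ P0 x ^ 2 := by
      rw [DD_eq]
      have := sq_nonneg (P0 x)
      have := sq_nonneg (sg x)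
      nlinarith
    have hs0 := sn_nonneg h0 h1
    have hs : sn x ≤ Real.pi * (3 / (2 * NN)) := by
      rw [← sn_symm]
      refine (sn_le_pi_mul (by linarith)).trans ?_
      exact mul_le_mul_of_nonneg_left (by linarith) Real.pi_pos.le
    have hpi : Real.pi ≤ 3.1416 := Real.pi_lt_d4.le
    have hs2 : sn x ≤ 4.7124 / NN := by
      refine hs.trans ?_
      rw [le_div_iff₀ hN]
      have : Real.pi * (3 / (2 * NN)) * NN = Real.pi * (3 / 2) := by field_simp
      rw [this]; norm_num at hpi ⊢; linarith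
    have hs3 : sn x ≤ 1 / 400 := by
      refine hs2.trans ?_
      rw [div_le_iff₀ hN]; norm_num; linarith
    have hu : uu x ≤ 1 / 160000 := by
      rw [uu_eq]
      have := mul_self_le_mul_self hs0 hs3
      norm_num at this ⊢
      nlinarith
    have hP : P0 x ≤ 4.7124 / NN * 1.00001 := by
      unfold P0
      apply mul_le_mul hs2 _ (by have := A0_pos; have := uu_nonneg x; positivity) (by positivity)
      have := A0_le
      have := A0_pos
      have := uu_nonneg x
      norm_num
      nlinarith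
    have hP0 := P0_nonneg h0 h1
    calc DD x ≤ P0 x ^ 2 := hd
      _ ≤ (4.7124 / NN * 1.00001) ^ 2 := pow_le_pow_left₀ hP0 hP 2
      _ = (4.7124 * 1.00001) ^ 2 / NN ^ 2 := by ring
      _ ≤ 24 / NN ^ 2 := by
        apply div_le_div_of_nonneg_right _ (by positivity)
        norm_num

/-- A periodic function is determined by its values on `[0, 1]`. -/
theorem per_sub_floor {f : ℝ → ℝ} (hf : ∀ x, f (x + 1) = f x) (x : ℝ) :
    f (Int.fract x) = f x := by
  have h : Function.Periodic f 1 := hf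
  have := h.sub_int_mul_eq ⌊x⌋ (x := x)
  rw [mul_one] at this
  exact this

theorem DD_le (x : ℝ) : DD x ≤ 24 / NN ^ 2 := by
  rw [← per_sub_floor DD_per]
  exact DD_le_aux (Int.fract_nonneg x) (Int.fract_lt_one x).le

theorem DD_le' (x : ℝ) : DD x ≤ 6e-6 := by
  refine (DD_le x).trans ?_
  have hN := NN_pos
  have hN2 := NN_ge
  rw [div_le_iff₀ (by positivity)]
  norm_num
  nlinarith

theorem Theta_hasDerivAt (x : ℝ) : HasDerivAt Theta (gg x - A0 * uu x) x :=
  hasDerivAt_integral (gg_smooth.continuous.sub (continuous_const.mul uu_smooth.continuous)) 0 x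

theorem Theta_smooth : ContDiff ℝ ∞ Theta :=
  contDiff_of_hasDerivAt Theta_hasDerivAt (gg_smooth.sub (contDiff_const.mul uu_smooth))

theorem Theta_zero : Theta 0 = 0 := by unfold Theta; simp

theorem Theta_one : Theta 1 = 0 := by
  unfold Theta
  have hs := sn_smooth.continuous
  have hg := sg_smooth.continuous
  have e : ∀ x, gg x - A0 * uu x = sg x * sn x + A0 / 2 * (sg x * sn x ^ 3) - A0 * uu x := by
    intro x; unfold gg P0; rw [uu_eq]; ring
  simp only [e]
  rw [intervalIntegral.integral_sub, intervalIntegral.integral_add,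
    intervalIntegral.integral_const_mul, intervalIntegral.integral_const_mul, integral_uu]
  · have := A0_eq
    unfold I1 I3 at this
    rw [this]; ring
  all_goals
    apply Continuous.intervalIntegrable
    have := uu_smooth.continuous
    fun_prop

theorem Theta_per (x : ℝ) : Theta (x + 1) = Theta x := by
  have hp : Function.Periodic (fun t => gg t - A0 * uu t) 1 := fun t => by
    simp only [gg_per, uu_per]
  have hc : Continuous fun t => gg t - A0 * uu t :=
    gg_smooth.continuous.sub (continuous_const.mul uu_smooth.continuous)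
  have h1 := intervalIntegral.integral_add_adjacent_intervals
    (hc.intervalIntegrable (μ := volume) 0 x) (hc.intervalIntegrable x (x + 1))
  have h2 := hp.intervalIntegral_add_eq x 0
  have h3 := Theta_one
  unfold Theta at *
  rw [← h1, h2, zero_add, h3, add_zero]

theorem abs_Theta_le_aux {x : ℝ} (h0 : 0 ≤ x) (h1 : x ≤ 1) : |Theta x| ≤ 5 := by
  unfold Theta
  have h := intervalIntegral.norm_integral_le_of_norm_le_const (a := 0) (b := x) (C := 5)
    (f := fun t => gg t - A0 * uu t) (by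
      intro t _
      have a1 := (abs_gg_le t).trans (abs_P0_le' t)
      have a2 := uu_nonneg t
      have a3 := uu_le_one t
      have a4 := A0_pos
      have a5 := A0_le
      have a6 : A0 * uu t ≤ 9 / 4 := by nlinarith
      have a7 : 0 ≤ A0 * uu t := by positivity
      rw [Real.norm_eq_abs, abs_le]
      rw [abs_le] at a1
      constructor <;> linarith [a1.1, a1.2])
  rw [Real.norm_eq_abs, sub_zero, abs_of_nonneg h0] at h
  exact h.trans (by linarith)

theorem abs_Theta_le (x : ℝ) : |Theta x| ≤ 5 := by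
  rw [← per_sub_floor Theta_per]
  exact abs_Theta_le_aux (Int.fract_nonneg x) (Int.fract_lt_one x).le

end Pool.Agent.CyGN
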