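import Pool.Agent.CyGN.Fun

set_option autoImplicit false

/-!
# The functions `E` and `b` of the counterexample
-/

namespace Pool.Agent.CyGN

open Set Filter Topology MeasureTheory
open scoped ContDiff

/-! ### `Y`, `Z`, `beta`, `A` -/

/-- `Y = 10⁶ + e0`. -/
noncomputable def YY (y : ℝ) : ℝ := 10 ^ 6 + e0 y

/-- `Z = 10⁶ + 2 + e0 (y - 2)`. -/
noncomputable def ZZ (y : ℝ) : ℝ := 10 ^ 6 + 2 + e0 (y - 2)

/-- `β = 10⁸ / Y + B psi`. -/
noncomputable def beta (y : ℝ) : ℝ := 10 ^ 8 / YY y + BB * psi y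

/-- the derivative of `β`. -/
noncomputable def beta' (y : ℝ) : ℝ := -(10 ^ 8 * st y / YY y ^ 2) - BB * bump y

/-- `A = A0 ((10⁶ + 2) / Z)³`. -/
noncomputable def AA (y : ℝ) : ℝ := A0 * ((10 ^ 6 + 2) / ZZ y) ^ 3

/-- the derivative of `A`. -/
noncomputable def AA' (y : ℝ) : ℝ := -(3 * AA y * st (y - 2) / ZZ y)

theorem YY_smooth : ContDiff ℝ ∞ YY := contDiff_const.add e0_smooth

theorem ZZ_smooth : ContDiff ℝ ∞ ZZ :=
  contDiff_const.add (e0_smooth.comp (contDiff_id.sub contDiff_const))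

theorem YY_ge (y : ℝ) : 10 ^ 6 ≤ YY y := by unfold YY; have := e0_nonneg y; linarith

theorem ZZ_ge (y : ℝ) : 10 ^ 6 + 2 ≤ ZZ y := by unfold ZZ; have := e0_nonneg (y - 2); linarith

theorem YY_pos (y : ℝ) : 0 < YY y := lt_of_lt_of_le (by norm_num) (YY_ge y)

theorem ZZ_pos (y : ℝ) : 0 < ZZ y := lt_of_lt_of_le (by norm_num) (ZZ_ge y)

theorem YY_hasDerivAt (y : ℝ) : HasDerivAt YY (st y) y := (e0_hasDerivAt y).const_add _

theorem ZZ_hasDerivAt (y : ℝ) : HasDerivAt ZZ (st (y - 2)) y := by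
  have := ((e0_hasDerivAt (y - 2)).comp y ((hasDerivAt_id y).sub_const 2)).const_add
    ((10 : ℝ) ^ 6 + 2)
  rw [mul_one] at this
  exact this

theorem YY_mono : Monotone YY := fun a b h => by
  have := e0_mono h; unfold YY; linarith

theorem ZZ_mono : Monotone ZZ := fun a b h => by
  have := e0_mono (sub_le_sub_right h 2); unfold ZZ; linarith

theorem YY_le (y : ℝ) (hy : 0 ≤ y) : YY y ≤ 10 ^ 6 + y := by
  have := e0_le y; rw [max_eq_left hy] at this; unfold YY; linarith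

theorem YY_eq_of_nonpos {y : ℝ} (hy : y ≤ 0) : YY y = 10 ^ 6 := by
  unfold YY; rw [e0_zero hy]; ring

theorem ZZ_eq_of_le {y : ℝ} (hy : y ≤ 2) : ZZ y = 10 ^ 6 + 2 := by
  unfold ZZ; rw [e0_zero (by linarith)]; ring

theorem YY_le_ZZ (y : ℝ) : YY y ≤ ZZ y := by
  have := e0_sub_le (a := y - 2) (b := y) (by linarith)
  unfold YY ZZ; linarith

theorem YY_eq_ZZ {y : ℝ} (hy : 3 ≤ y) : YY y = ZZ y := by
  unfold YY ZZ
  rw [e0_one_le y (by linarith), e0_one_le (y - 2) (by linarith)]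
  ring

/-- The slope of `Y` is one for `y ≥ 1`. -/
theorem YY_eq {y : ℝ} (hy : 1 ≤ y) : YY y = YY 1 + (y - 1) := by
  unfold YY
  rw [e0_one_le y hy]
  ring

theorem YY_one_mem : YY 1 ∈ Icc ((10 : ℝ) ^ 6) (10 ^ 6 + 1) := by
  have := e0_one_mem
  unfold YY
  exact ⟨by linarith [this.1], by linarith [this.2]⟩

theorem beta_smooth : ContDiff ℝ ∞ beta :=
  (contDiff_const.div YY_smooth fun y => (YY_pos y).ne').add (contDiff_const.mul psi_smooth)

theorem beta_hasDerivAt (y : ℝ) : HasDerivAt beta (beta' y) y := by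
  have h1 := ((hasDerivAt_const y ((10 : ℝ) ^ 8)).div (YY_hasDerivAt y) (YY_pos y).ne').add
    ((psi_hasDerivAt y).const_mul BB)
  refine h1.congr_deriv ?_
  unfold beta'
  ring

theorem beta'_smooth : ContDiff ℝ ∞ beta' :=
  ((contDiff_const.mul st_smooth).div (YY_smooth.pow 2)
    fun y => (pow_pos (YY_pos y) 2).ne').neg.sub (contDiff_const.mul bump_smooth)

theorem beta'_nonpos (y : ℝ) : beta' y ≤ 0 := by
  unfold beta'
  have h1 := st_nonneg y
  have h2 := YY_pos y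
  have h3 := bump_nonneg y
  have h4 := BB_pos
  have : 0 ≤ 10 ^ 8 * st y / YY y ^ 2 := by positivity
  have : 0 ≤ BB * bump y := by positivity
  linarith

theorem beta'_neg {y : ℝ} (hy : 0 < y) : beta' y < 0 := by
  unfold beta'
  have h1 := st_pos hy
  have h2 := YY_pos y
  have h3 := bump_nonneg y
  have h4 := BB_pos
  have : 0 < 10 ^ 8 * st y / YY y ^ 2 := by positivity
  have : 0 ≤ BB * bump y := by positivity
  linarith

theorem beta'_zero {y : ℝ} (hy : y ≤ 0) : beta' y = 0 := by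
  unfold beta'; rw [st_zero hy, bump_zero_left hy]; simp

theorem beta'_le {y : ℝ} (h1 : 1 / 4 ≤ y) (h2 : y ≤ 3 / 4) : beta' y ≤ -BB := by
  unfold beta'
  rw [bump_one h1 h2]
  have h1 := st_nonneg y
  have h2 := YY_pos y
  have : 0 ≤ 10 ^ 8 * st y / YY y ^ 2 := by positivity
  linarith

/-- For `y ≥ 1` one has `β' = - β / Y`. -/
theorem beta'_eq {y : ℝ} (hy : 1 ≤ y) : beta' y = -(beta y / YY y) := by
  unfold beta' beta
  rw [st_one hy, bump_zero_right hy, psi_zero hy]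
  have := (YY_pos y).ne'
  field_simp
  ring

theorem beta_eq {y : ℝ} (hy : 1 ≤ y) : beta y = 10 ^ 8 / YY y := by
  unfold beta; rw [psi_zero hy]; ring

theorem beta_pos (y : ℝ) : 0 < beta y := by
  unfold beta
  have h2 := YY_pos y
  have h3 := psi_nonneg y
  have h4 := BB_pos
  positivity

theorem beta_anti : Antitone beta :=
  antitone_of_hasDerivAt_nonpos beta_hasDerivAt fun y => beta'_nonpos y

theorem beta_eq_zero {y : ℝ} (hy : y ≤ 0) : beta y = beta 0 := by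
  unfold beta
  rw [YY_eq_of_nonpos hy, YY_eq_of_nonpos le_rfl, psi_const hy]

theorem beta_ge {y : ℝ} (hy : y ≤ 2) : 99.99 ≤ beta y := by
  refine le_trans ?_ (beta_anti hy)
  rw [beta_eq (by norm_num), le_div_iff₀ (YY_pos 2)]
  have := YY_le 2 (by norm_num)
  norm_num at this ⊢
  linarith

/-- For `y ≤ 1/2` one has `β ≥ 99.99 + B/4`. -/
theorem beta_ge' {y : ℝ} (hy : y ≤ 1 / 2) : 99.99 + BB / 4 ≤ beta y := by
  unfold beta
  have h := quarter_le_psi hy
  have h2 : 99.99 ≤ 10 ^ 8 / YY y := by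
    rw [le_div_iff₀ (YY_pos y)]
    have h3 := YY_mono hy
    have h4 := YY_le (1 / 2) (by norm_num)
    norm_num at h3 h4 ⊢
    linarith
  have := BB_pos
  nlinarith

theorem beta_le {y : ℝ} (hy : 1 ≤ y) : beta y ≤ 100 := by
  rw [beta_eq hy, div_le_iff₀ (YY_pos y)]
  have := YY_ge y
  linarith

theorem AA_smooth : ContDiff ℝ ∞ AA :=
  contDiff_const.mul ((contDiff_const.div ZZ_smooth fun y => (ZZ_pos y).ne').pow 3)

theorem cube_hasDerivAt {Z : ℝ → ℝ} {z' y : ℝ} (a K : ℝ) (hZ : HasDerivAt Z z' y)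
    (hz : Z y ≠ 0) : HasDerivAt (fun y => a * (K / Z y) ^ 3)
      (-(3 * (a * (K / Z y) ^ 3) * z' / Z y)) y := by
  have h1 := (((hasDerivAt_const y K).div hZ hz).pow 3).const_mul a
  refine h1.congr_deriv ?_
  show a * (((3 : ℕ) : ℝ) * (K / Z y) ^ 2 * ((0 * Z y - K * z') / Z y ^ 2)) = _
  push_cast
  field_simp
  ring

theorem AA_hasDerivAt (y : ℝ) : HasDerivAt AA (AA' y) y :=
  cube_hasDerivAt A0 (10 ^ 6 + 2) (ZZ_hasDerivAt y) (ZZ_pos y).ne'

theorem AA'_smooth : ContDiff ℝ ∞ AA' :=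
  (((contDiff_const.mul AA_smooth).mul (st_smooth.comp (contDiff_id.sub contDiff_const))).div
    ZZ_smooth fun y => (ZZ_pos y).ne').neg

theorem AA_pos (y : ℝ) : 0 < AA y := by
  unfold AA; have := A0_pos; have := ZZ_pos y; positivity

theorem AA'_nonpos (y : ℝ) : AA' y ≤ 0 := by
  unfold AA'
  have h1 := AA_pos y
  have h2 := ZZ_pos y
  have h3 := st_nonneg (y - 2)
  have : 0 ≤ 3 * AA y * st (y - 2) / ZZ y := by positivity
  linarith

theorem AA'_neg {y : ℝ} (hy : 2 < y) : AA' y < 0 := by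
  unfold AA'
  have h1 := AA_pos y
  have h2 := ZZ_pos y
  have h3 := st_pos (x := y - 2) (by linarith)
  have : 0 < 3 * AA y * st (y - 2) / ZZ y := by positivity
  linarith

theorem AA_eq {y : ℝ} (hy : y ≤ 2) : AA y = A0 := by
  unfold AA; rw [ZZ_eq_of_le hy, div_self (by norm_num)]; ring

theorem AA'_zero {y : ℝ} (hy : y ≤ 2) : AA' y = 0 := by
  unfold AA'; rw [st_zero (by linarith)]; simp

theorem AA_anti : Antitone AA :=
  antitone_of_hasDerivAt_nonpos AA_hasDerivAt fun y => AA'_nonpos y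

theorem AA_le (y : ℝ) : AA y ≤ A0 := by
  rcases le_total y 2 with h | h
  · rw [AA_eq h]
  · rw [← AA_eq (le_refl (2 : ℝ))]; exact AA_anti h

theorem AA_le' (y : ℝ) : AA y ≤ 9 / 4 := (AA_le y).trans A0_le

/-! ### `chi`, `zeta`, `h` -/

/-- `chi(y) = st(4 y - 1)`. -/
noncomputable def chi (y : ℝ) : ℝ := st (4 * y - 1)

/-- The derivative of `chi`. -/
noncomputable def chi' (y : ℝ) : ℝ := 4 * deriv st (4 * y - 1)

/-- The second derivative of `chi`. -/
noncomputable def chi'' (y : ℝ) : ℝ := 16 * deriv (deriv st) (4 * y - 1)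

/-- `zeta(y) = 1 - st(y - 1)`. -/
noncomputable def zeta (y : ℝ) : ℝ := 1 - st (y - 1)

/-- The derivative of `zeta`. -/
noncomputable def zeta' (y : ℝ) : ℝ := -deriv st (y - 1)

/-- `h(y) = 1 / (1 + e0(-y-1))`. -/
noncomputable def hh (y : ℝ) : ℝ := 1 / (1 + e0 (-y - 1))

/-- The derivative of `h`. -/
noncomputable def hh' (y : ℝ) : ℝ := st (-y - 1) * hh y ^ 2

theorem chi_smooth : ContDiff ℝ ∞ chi :=
  st_smooth.comp ((contDiff_const.mul contDiff_id).sub contDiff_const)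

theorem chi'_smooth : ContDiff ℝ ∞ chi' :=
  contDiff_const.mul (st'_smooth.comp ((contDiff_const.mul contDiff_id).sub contDiff_const))

theorem chi''_smooth : ContDiff ℝ ∞ chi'' :=
  contDiff_const.mul (st''_smooth.comp ((contDiff_const.mul contDiff_id).sub contDiff_const))

theorem chi_hasDerivAt (y : ℝ) : HasDerivAt chi (chi' y) y := by
  have h := (st_hasDerivAt (4 * y - 1)).comp y (((hasDerivAt_id y).const_mul 4).sub_const 1)
  refine h.congr_deriv ?_
  unfold chi'; ring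

theorem chi'_hasDerivAt (y : ℝ) : HasDerivAt chi' (chi'' y) y := by
  have h := ((st'_hasDerivAt (4 * y - 1)).comp y
    (((hasDerivAt_id y).const_mul 4).sub_const 1)).const_mul 4
  refine h.congr_deriv ?_
  unfold chi''; ring

theorem chi_nonneg (y : ℝ) : 0 ≤ chi y := st_nonneg _

theorem chi_le_one (y : ℝ) : chi y ≤ 1 := st_le_one _

theorem chi_zero {y : ℝ} (h : y ≤ 1 / 4) : chi y = 0 := st_zero (by linarith)

theorem chi_one {y : ℝ} (h : 1 / 2 ≤ y) : chi y = 1 := st_one (by linarith)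

theorem chi'_zero_left {y : ℝ} (h : y ≤ 1 / 4) : chi' y = 0 := by
  unfold chi'; rw [st'_zero_left (by linarith)]; simp

theorem chi'_zero_right {y : ℝ} (h : 1 / 2 ≤ y) : chi' y = 0 := by
  unfold chi'; rw [st'_zero_right (by linarith)]; simp

theorem chi''_zero_left {y : ℝ} (h : y ≤ 1 / 4) : chi'' y = 0 := by
  unfold chi''; rw [st''_zero_left (by linarith)]; simp

theorem chi''_zero_right {y : ℝ} (h : 1 / 2 ≤ y) : chi'' y = 0 := by
  unfold chi''; rw [st''_zero_right (by linarith)]; simp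

theorem chi'_nonneg (y : ℝ) : 0 ≤ chi' y := mul_nonneg (by norm_num) (st'_nonneg _)

theorem abs_chi'_le (y : ℝ) : |chi' y| ≤ 4 * cst := by
  unfold chi'
  rw [abs_mul, abs_of_pos (by norm_num : (0 : ℝ) < 4)]
  have := abs_st' (4 * y - 1)
  linarith

theorem abs_chi''_le (y : ℝ) : |chi'' y| ≤ 16 * cst := by
  unfold chi''
  rw [abs_mul, abs_of_pos (by norm_num : (0 : ℝ) < 16)]
  have := abs_st'' (4 * y - 1)
  linarith

theorem zeta_smooth : ContDiff ℝ ∞ zeta :=
  contDiff_const.sub (st_smooth.comp (contDiff_id.sub contDiff_const))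

theorem zeta'_smooth : ContDiff ℝ ∞ zeta' :=
  (st'_smooth.comp (contDiff_id.sub contDiff_const)).neg

theorem zeta_hasDerivAt (y : ℝ) : HasDerivAt zeta (zeta' y) y := by
  have h := ((st_hasDerivAt (y - 1)).comp y ((hasDerivAt_id y).sub_const 1)).const_sub 1
  refine h.congr_deriv ?_
  unfold zeta'; ring

theorem zeta_nonneg (y : ℝ) : 0 ≤ zeta y := by unfold zeta; have := st_le_one (y - 1); linarith

theorem zeta_le_one (y : ℝ) : zeta y ≤ 1 := by unfold zeta; have := st_nonneg (y - 1); linarith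

theorem zeta_one {y : ℝ} (h : y ≤ 1) : zeta y = 1 := by
  unfold zeta; rw [st_zero (by linarith)]; ring

theorem zeta_zero {y : ℝ} (h : 2 ≤ y) : zeta y = 0 := by
  unfold zeta; rw [st_one (by linarith)]; ring

theorem zeta'_zero_left {y : ℝ} (h : y ≤ 1) : zeta' y = 0 := by
  unfold zeta'; rw [st'_zero_left (by linarith)]; simp

theorem zeta'_zero_right {y : ℝ} (h : 2 ≤ y) : zeta' y = 0 := by
  unfold zeta'; rw [st'_zero_right (by linarith)]; simp

theorem zeta'_nonpos (y : ℝ) : zeta' y ≤ 0 := neg_nonpos.2 (st'_nonneg _)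

theorem abs_zeta'_le (y : ℝ) : |zeta' y| ≤ cst := by
  unfold zeta'; rw [abs_neg]; exact abs_st' _

theorem hh_den_pos (y : ℝ) : 0 < 1 + e0 (-y - 1) := by have := e0_nonneg (-y - 1); linarith

theorem hh_smooth : ContDiff ℝ ∞ hh :=
  contDiff_const.div (contDiff_const.add (e0_smooth.comp (contDiff_neg.sub contDiff_const)))
    fun y => (hh_den_pos y).ne'

theorem hh_hasDerivAt (y : ℝ) : HasDerivAt hh (hh' y) y := by
  have h0 : HasDerivAt (fun y => 1 + e0 (-y - 1)) (-st (-y - 1)) y := by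
    have := ((e0_hasDerivAt (-y - 1)).comp y ((hasDerivAt_neg y).sub_const 1)).const_add 1
    refine this.congr_deriv ?_
    ring
  have h := (hasDerivAt_const y (1 : ℝ)).div h0 (hh_den_pos y).ne'
  refine h.congr_deriv ?_
  unfold hh' hh
  have := (hh_den_pos y).ne'
  field_simp
  ring

theorem hh'_smooth : ContDiff ℝ ∞ hh' :=
  (st_smooth.comp (contDiff_neg.sub contDiff_const)).mul (hh_smooth.pow 2)

theorem hh_pos (y : ℝ) : 0 < hh y := one_div_pos.2 (hh_den_pos y)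

theorem hh_le_one (y : ℝ) : hh y ≤ 1 := by
  unfold hh
  rw [div_le_one (hh_den_pos y)]
  have := e0_nonneg (-y - 1); linarith

theorem hh_one {y : ℝ} (h : -1 ≤ y) : hh y = 1 := by
  unfold hh; rw [e0_zero (by linarith)]; simp

theorem hh'_zero {y : ℝ} (h : -1 ≤ y) : hh' y = 0 := by
  unfold hh'; rw [st_zero (by linarith)]; simp

theorem hh'_nonneg (y : ℝ) : 0 ≤ hh' y := mul_nonneg (st_nonneg _) (sq_nonneg _)

theorem hh'_pos {y : ℝ} (h : y < -1) : 0 < hh' y :=
  mul_pos (st_pos (by linarith)) (pow_pos (hh_pos y) 2)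

theorem hh_mono : Monotone hh := monotone_of_hasDerivAt_nonneg hh_hasDerivAt fun y => hh'_nonneg y

theorem hh'_le (y : ℝ) : hh' y ≤ hh y := by
  unfold hh'
  have h1 := st_le_one (-y - 1)
  have h2 := st_nonneg (-y - 1)
  have h3 := hh_pos y
  have h4 := hh_le_one y
  have h5 : hh y ^ 2 ≤ hh y := by nlinarith
  calc st (-y - 1) * hh y ^ 2 ≤ 1 * hh y ^ 2 := by
        apply mul_le_mul_of_nonneg_right h1 (sq_nonneg _)
    _ ≤ hh y := by linarith

/-- `h(y) |y| ≥ 1` for `y ≤ -1`. -/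
theorem hh_mul_ge {y : ℝ} (h : y ≤ -1) : 1 ≤ hh y * |y| := by
  unfold hh
  rw [abs_of_neg (by linarith), one_div_mul_eq_div, le_div_iff₀ (hh_den_pos y)]
  have := e0_le (-y - 1)
  rw [max_eq_left (by linarith)] at this
  linarith

/-- `h(y) ≥ 1 / (1 + |y|)`. -/
theorem hh_ge (y : ℝ) : 1 / (1 + |y|) ≤ hh y := by
  unfold hh
  apply one_div_le_one_div_of_le (hh_den_pos y)
  have h := e0_le (-y - 1)
  have h1 : max (-y - 1) 0 ≤ |y| := by
    apply max_le _ (abs_nonneg y)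
    have := neg_abs_le y
    linarith [neg_le_abs y]
  linarith

/-! ### `P`, `S`, `E`, `b` -/

theorem PP_eq (x y : ℝ) : PP AA x y = sn x * (1 + AA y / 2 * uu x) := rfl

/-- `S(x, y) = β(y) + chi'(y) Θ(x)`. -/
noncomputable def SS (x y : ℝ) : ℝ := beta y + chi' y * Theta x

/-- The conformal factor. -/
noncomputable def EE (p : ℝ × ℝ) : ℝ :=
  hh p.2 ^ 2 * SS p.1 p.2 ^ 2 + chi p.2 ^ 2 * gg p.1 ^ 2 + (1 - zeta p.2) * DD p.1
    + PP AA p.1 p.2 ^ 2 - P0 p.1 ^ 2

/-- The slope. -/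
noncomputable def bb (p : ℝ × ℝ) : ℝ := AA p.2 * chi p.2 * uu p.1 / SS p.1 p.2

theorem PP_smooth : ContDiff ℝ ∞ fun p : ℝ × ℝ => PP AA p.1 p.2 :=
  (sn_smooth.comp contDiff_fst).mul (contDiff_const.add
    (((AA_smooth.comp contDiff_snd).div_const 2).mul (uu_smooth.comp contDiff_fst)))

theorem SS_smooth : ContDiff ℝ ∞ fun p : ℝ × ℝ => SS p.1 p.2 :=
  (beta_smooth.comp contDiff_snd).add ((chi'_smooth.comp contDiff_snd).mul
    (Theta_smooth.comp contDiff_fst))

/-- `S ≥ 99` for `y ≤ 2`, and `S ≥ 99.99 + 230 c` for `y ≤ 1/2`. -/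
theorem SS_ge' {y : ℝ} (x : ℝ) (hy : y ≤ 1 / 2) : 99.99 + 230 * cst ≤ SS x y := by
  unfold SS
  have h1 := beta_ge' hy
  have h2 := abs_chi'_le y
  have h3 := abs_Theta_le x
  have h4 : |chi' y * Theta x| ≤ 4 * cst * 5 := by
    rw [abs_mul]
    exact mul_le_mul h2 h3 (abs_nonneg _) (by have := cst_pos; positivity)
  have h5 := (abs_le.1 h4).1
  have h6 : BB = 1000 * cst := rfl
  rw [h6] at h1
  linarith

theorem SS_eq_right {y : ℝ} (x : ℝ) (hy : 1 / 2 ≤ y) : SS x y = beta y := by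
  unfold SS; rw [chi'_zero_right hy]; ring

theorem SS_eq_left {y : ℝ} (x : ℝ) (hy : y ≤ 1 / 4) : SS x y = beta y := by
  unfold SS; rw [chi'_zero_left hy]; ring

theorem SS_pos (x y : ℝ) : 0 < SS x y := by
  rcases le_total y (1 / 2) with h | h
  · have := SS_ge' x h
    have := cst_pos
    norm_num at *
    linarith
  · rw [SS_eq_right x h]; exact beta_pos y

theorem SS_ge {y : ℝ} (x : ℝ) (hy : y ≤ 2) : 99.99 ≤ SS x y := by
  rcases le_total y (1 / 2) with h | h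
  · have := SS_ge' x h
    have := cst_pos
    linarith
  · rw [SS_eq_right x h]; exact beta_ge hy

theorem EE_smooth : ContDiff ℝ ∞ EE :=
  (((((hh_smooth.comp contDiff_snd).pow 2).mul (SS_smooth.pow 2)).add
    (((chi_smooth.comp contDiff_snd).pow 2).mul ((gg_smooth.comp contDiff_fst).pow 2))).add
    ((contDiff_const.sub (zeta_smooth.comp contDiff_snd)).mul (DD_smooth.comp contDiff_fst))
    |>.add (PP_smooth.pow 2)).sub ((P0_smooth.comp contDiff_fst).pow 2)

theorem bb_smooth : ContDiff ℝ ∞ bb :=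
  (((AA_smooth.comp contDiff_snd).mul (chi_smooth.comp contDiff_snd)).mul
    (uu_smooth.comp contDiff_fst)).div SS_smooth fun p => (SS_pos p.1 p.2).ne'

theorem PP_anti (x y : ℝ) : PP AA (x + 1) y = -PP AA x y := by
  rw [PP_eq, PP_eq, sn_anti, uu_per]; ring

theorem SS_per (x y : ℝ) : SS (x + 1) y = SS x y := by
  unfold SS; rw [Theta_per]

theorem EE_per (x y : ℝ) : EE (x + 1, y) = EE (x, y) := by
  unfold EE; simp only [SS_per, gg_per, DD_per, PP_anti, P0_anti]; ring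

theorem bb_per (x y : ℝ) : bb (x + 1, y) = bb (x, y) := by
  unfold bb; simp only [SS_per, uu_per]

/-! ### The regions -/

theorem PP_eq_P0 {y : ℝ} (x : ℝ) (hy : y ≤ 2) : PP AA x y = P0 x := by
  rw [PP_eq, AA_eq hy]; rfl

/-- (R0) -/
theorem EE_R0 {y : ℝ} (x : ℝ) (hy : y ≤ 1 / 4) : EE (x, y) = hh y ^ 2 * beta y ^ 2 := by
  unfold EE
  simp only
  rw [SS_eq_left x hy, chi_zero hy, zeta_one (by linarith), PP_eq_P0 x (by linarith)]
  ring

theorem bb_R0 {y : ℝ} (x : ℝ) (hy : y ≤ 1 / 4) : bb (x, y) = 0 := by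
  unfold bb; simp only; rw [chi_zero hy]; simp

/-- (R0), the cusp -/
theorem EE_cusp {y : ℝ} (x : ℝ) (hy : y ≤ 0) : EE (x, y) = beta 0 ^ 2 * hh y ^ 2 := by
  rw [EE_R0 x (by linarith), beta_eq_zero hy]; ring

/-- (R0), between `-1` and `1/4` -/
theorem EE_R0' {y : ℝ} (x : ℝ) (hy0 : -1 ≤ y) (hy : y ≤ 1 / 4) : EE (x, y) = beta y ^ 2 := by
  rw [EE_R0 x hy, hh_one hy0]; ring

/-- (R1) -/
theorem EE_R1 {y : ℝ} (x : ℝ) (hy0 : -1 ≤ y) (hy : y ≤ 1) :
    EE (x, y) = SS x y ^ 2 + chi y ^ 2 * gg x ^ 2 := by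
  unfold EE
  simp only
  rw [hh_one hy0, zeta_one hy, PP_eq_P0 x (by linarith)]
  ring

theorem bb_le2 {y : ℝ} (x : ℝ) (hy : y ≤ 2) : bb (x, y) = A0 * chi y * uu x / SS x y := by
  unfold bb; simp only; rw [AA_eq hy]

/-- (R2) -/
theorem EE_R2 {y : ℝ} (x : ℝ) (hy0 : 1 / 2 ≤ y) (hy : y ≤ 2) :
    EE (x, y) = beta y ^ 2 + P0 x ^ 2 - zeta y * DD x := by
  unfold EE
  simp only
  rw [hh_one (by linarith), SS_eq_right x hy0, PP_eq_P0 x hy, chi_one hy0]
  unfold DD
  ring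

theorem EE_R2' {y : ℝ} (x : ℝ) (hy0 : 1 / 2 ≤ y) (hy : y ≤ 1) :
    EE (x, y) = beta y ^ 2 + gg x ^ 2 := by
  rw [EE_R1 x (by linarith) hy, SS_eq_right x hy0, chi_one hy0]; ring

theorem bb_R2 {y : ℝ} (x : ℝ) (hy0 : 1 / 2 ≤ y) (hy : y ≤ 2) :
    bb (x, y) = A0 / beta y * uu x := by
  rw [bb_le2 x hy, chi_one hy0, SS_eq_right x hy0]; ring

/-- (R3) -/
theorem EE_R3 {y : ℝ} (x : ℝ) (hy : 2 ≤ y) : EE (x, y) = beta y ^ 2 + PP AA x y ^ 2 := by
  unfold EE
  simp only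
  rw [hh_one (by linarith), SS_eq_right x (by linarith), chi_one (by linarith), zeta_zero hy]
  unfold DD
  ring

theorem bb_R3 {y : ℝ} (x : ℝ) (hy : 2 ≤ y) : bb (x, y) = AA y / beta y * uu x := by
  unfold bb; simp only; rw [chi_one (by linarith), SS_eq_right x (by linarith)]; ring

theorem EE_pos (p : ℝ × ℝ) : 0 < EE p := by
  obtain ⟨x, y⟩ := p
  rcases le_total y (1 / 4) with h | h
  · rw [EE_R0 x h]; have := hh_pos y; have := beta_pos y; positivity
  rcases le_total y 1 with h1 | h1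
  · rw [EE_R1 x (by linarith) h1]
    have := SS_pos x y
    positivity
  rcases le_total y 2 with h2 | h2
  · rw [EE_R2 x (by linarith) h2]
    have h3 := beta_ge h2
    have h4 := DD_le' x
    have h5 := DD_nonneg x
    have h6 := zeta_nonneg y
    have h7 := zeta_le_one y
    have h8 := sq_nonneg (P0 x)
    have h9 : zeta y * DD x ≤ 1 := by norm_num at h4; nlinarith
    norm_num at h3
    nlinarith
  · rw [EE_R3 x h2]; have := beta_pos y; positivity

end Pool.Agent.CyGN
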