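import Pool.Agent.CyG.FlowEx

set_option autoImplicit false

/-!
# Global existence of the geodesic flow from a lower bound of the metric

`CylMetric.complete_of_lower`: a metric on the cylinder with `λ(t)² w² ≤ g(v, w)`, where `λ > 0` is
continuous and has divergent integrals towards both ends, is geodesically complete.
-/

namespace Pool.Agent.CyG

open Set Filter Topology Metric
open scoped NNReal ContDiff

section Ode

variable {V : Type} [NormedAddCommGroup V] [NormedSpace ℝ V] [FiniteDimensional ℝ V]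

private theorem glex_unique {X : V → V} (hX : ContDiff ℝ 1 X) {c d : ℝ → V} {a : ℝ}
    (hc : ∀ t ∈ Ioo (-a) a, HasDerivAt c (X (c t)) t)
    (hd : ∀ t ∈ Ioo (-a) a, HasDerivAt d (X (d t)) t) (h : c 0 = d 0) :
    EqOn c d (Ioo (-a) a) := by
  intro t ht
  obtain ⟨b, hb1, hb2⟩ : ∃ b, |t| < b ∧ b < a := exists_between (abs_lt.2 ht)
  have hb0 : 0 < b := (abs_nonneg t).trans_lt hb1
  have hsub : Icc (-b) b ⊆ Ioo (-a) a := fun s hs => ⟨by linarith [hs.1], by linarith [hs.2]⟩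
  have hcc : ContinuousOn c (Icc (-b) b) := fun s hs =>
    (hc s (hsub hs)).continuousAt.continuousWithinAt
  have hdc : ContinuousOn d (Icc (-b) b) := fun s hs =>
    (hd s (hsub hs)).continuousAt.continuousWithinAt
  obtain ⟨C₁, hC₁⟩ := isCompact_Icc.exists_bound_of_continuousOn hcc
  obtain ⟨C₂, hC₂⟩ := isCompact_Icc.exists_bound_of_continuousOn hdc
  obtain ⟨K, hK⟩ := lipschitzOn_ball hX (0 : V) (max C₁ C₂)
  have := ODE_solution_unique_of_mem_Ioo (v := fun _ => X) (s := fun _ => closedBall 0 (max C₁ C₂))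
    (f := c) (g := d) (a := -b) (b := b) (t₀ := 0) (fun _ _ => hK)
    ⟨by linarith, hb0⟩
    (fun s hs => ⟨hc s (hsub (Ioo_subset_Icc_self hs)), by
      rw [mem_closedBall_zero_iff]
      exact (hC₁ s (Ioo_subset_Icc_self hs)).trans (le_max_left _ _)⟩)
    (fun s hs => ⟨hd s (hsub (Ioo_subset_Icc_self hs)), by
      rw [mem_closedBall_zero_iff]
      exact (hC₂ s (Ioo_subset_Icc_self hs)).trans (le_max_right _ _)⟩) h
  exact this (abs_lt.1 hb1)

private theorem glex_local {X : V → V} (hX : ContDiff ℝ 1 X) (z₀ : V) {T R : ℝ} (hT : 0 < T)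
    (hb : ∀ c : ℝ → V, ∀ a ∈ Ioc 0 T, c 0 = z₀ → (∀ s ∈ Ioo (-a) a, HasDerivAt c (X (c s)) s) →
      ∀ s ∈ Ioo (-a) a, ‖c s‖ ≤ R) :
    ∃ c : ℝ → V, c 0 = z₀ ∧ ∀ s ∈ Ioo (-T) T, HasDerivAt c (X (c s)) s := by
  have hcomp : CompleteSpace V := FiniteDimensional.complete ℝ V
  set R' : ℝ := max R ‖z₀‖ with hR'
  have hR'0 : 0 ≤ R' := (norm_nonneg z₀).trans (le_max_right _ _)
  let f : ContDiffBump (0 : V) := ⟨R' + 1, R' + 2, by linarith, by linarith⟩
  have hf1 : ∀ z : V, ‖z‖ ≤ R' + 1 → f z = 1 := fun z hz =>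
    f.one_of_mem_closedBall (by simpa using hz)
  set Y : V → V := fun z => f z • X z with hY
  have hYs : ContDiff ℝ 1 Y := f.contDiff.smul hX
  have hYc : HasCompactSupport Y := f.hasCompactSupport.smul_right
  obtain ⟨K, hK⟩ := hYs.lipschitzWith_of_hasCompactSupport hYc one_ne_zero
  obtain ⟨C, hC⟩ := hYc.exists_bound_of_continuous hYs.continuous
  have hC0 : 0 ≤ C := (norm_nonneg _).trans (hC 0)
  have hpl : IsPicardLindelof (fun _ : ℝ => Y) (tmin := -T) (tmax := T)
      ⟨0, by constructor <;> linarith⟩ z₀ (⟨C, hC0⟩ * ⟨T, hT.le⟩) 0 ⟨C, hC0⟩ K := by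
    refine IsPicardLindelof.of_time_independent (fun x _ => hC x) (hK.lipschitzOnWith) ?_
    simp only [sub_zero, zero_sub, neg_neg, max_self, NNReal.coe_zero]
    exact le_of_eq rfl
  obtain ⟨c, hc0, hc⟩ := hpl.exists_eq_forall_mem_Icc_hasDerivWithinAt₀
  have hc0' : c 0 = z₀ := hc0
  have hcY : ∀ s ∈ Ioo (-T) T, HasDerivAt c (Y (c s)) s := fun s hs =>
    (hc s (Ioo_subset_Icc_self hs)).hasDerivAt (Icc_mem_nhds hs.1 hs.2)
  refine ⟨c, hc0', ?_⟩
  -- it suffices that `‖c s‖ ≤ R'`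
  suffices hle : ∀ s ∈ Ioo (-T) T, ‖c s‖ ≤ R' by
    intro s hs
    have h1 := hcY s hs
    have h2 : Y (c s) = X (c s) := by
      rw [hY]
      simp only
      rw [hf1 _ (by linarith [hle s hs]), one_smul]
    rwa [h2] at h1
  by_contra hcon
  push Not at hcon
  obtain ⟨s₁, hs₁, hlt⟩ := hcon
  have hcc : ContinuousOn c (Ioo (-T) T) := fun s hs => (hcY s hs).continuousAt.continuousWithinAt
  set m : ℝ → ℝ := fun τ => max ‖c τ‖ ‖c (-τ)‖ with hm
  have hτ₁ : |s₁| < T := abs_lt.2 hs₁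
  have hmc : ContinuousOn m (Icc 0 |s₁|) := by
    refine ContinuousOn.sup (ContinuousOn.norm (hcc.mono fun s hs => ?_))
      (ContinuousOn.norm (hcc.comp continuous_neg.continuousOn fun s hs => ?_))
    · exact ⟨by linarith [hs.1], by linarith [hs.2]⟩
    · exact ⟨by linarith [hs.2], by linarith [hs.1]⟩
  have hm1 : R' < m |s₁| := by
    rcases abs_cases s₁ with ⟨h, -⟩ | ⟨h, -⟩
    · rw [h]; exact hlt.trans_le (le_max_left _ _)
    · rw [h, hm]
      simp only [neg_neg]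
      exact hlt.trans_le (le_max_right _ _)
  set δ : ℝ := min (1 / 2) (m |s₁| - R') with hδ
  have hδ0 : 0 < δ := lt_min (by norm_num) (by linarith)
  have hBc : IsCompact (Icc 0 |s₁| ∩ m ⁻¹' Ici (R' + δ)) :=
    isCompact_Icc.of_isClosed_subset
      (hmc.preimage_isClosed_of_isClosed isClosed_Icc isClosed_Ici) inter_subset_left
  obtain ⟨τ, ⟨⟨hτ0, hτ1⟩, hτm⟩, hleast⟩ := hBc.exists_isLeast
    ⟨|s₁|, ⟨abs_nonneg _, le_rfl⟩, by
      simp only [mem_preimage, mem_Ici]
      linarith [min_le_right (1 / 2 : ℝ) (m |s₁| - R')]⟩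
  have hτm' : R' + δ ≤ m τ := hτm
  have hτpos : 0 < τ := by
    rcases hτ0.lt_or_eq with h | h
    · exact h
    · exfalso
      rw [← h] at hτm'
      have : m 0 = ‖z₀‖ := by simp [hm, hc0']
      rw [this] at hτm'
      linarith [le_max_right R ‖z₀‖]
  have hbefore : ∀ s ∈ Ioo (-τ) τ, ‖c s‖ < R' + δ := by
    intro s hs
    by_contra hcon
    push Not at hcon
    have hs' : |s| < τ := abs_lt.2 hs
    have : |s| ∈ Icc 0 |s₁| ∩ m ⁻¹' Ici (R' + δ) := by
      refine ⟨⟨abs_nonneg _, hs'.le.trans hτ1⟩, ?_⟩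
      simp only [mem_preimage, mem_Ici]
      rcases abs_cases s with ⟨h, -⟩ | ⟨h, -⟩
      · rw [h]; exact hcon.trans (le_max_left _ _)
      · rw [h, hm]
        simp only [neg_neg]
        exact hcon.trans (le_max_right _ _)
    linarith [hleast this]
  have hδ2 : δ ≤ 1 / 2 := min_le_left _ _
  have hτT : τ < T := hτ1.trans_lt hτ₁
  have hX' : ∀ s ∈ Ioo (-τ) τ, HasDerivAt c (X (c s)) s := by
    intro s hs
    have h1 := hcY s ⟨by linarith [hs.1], by linarith [hs.2]⟩
    have h2 : Y (c s) = X (c s) := by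
      rw [hY]
      simp only
      rw [hf1 _ (by linarith [hbefore s hs]), one_smul]
    rwa [h2] at h1
  have hfin := hb c τ ⟨hτpos, hτT.le⟩ hc0' hX'
  have hlim1 : ‖c τ‖ ≤ R := by
    have hca : ContinuousAt c τ := (hcY τ ⟨by linarith, hτT⟩).continuousAt
    have : Tendsto (fun s => ‖c s‖) (𝓝[<] τ) (𝓝 ‖c τ‖) := (hca.norm).tendsto.mono_left
      nhdsWithin_le_nhds
    refine le_of_tendsto this ?_
    filter_upwards [Ioo_mem_nhdsLT (show -τ < τ by linarith)] with s hs
    exact hfin s hs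
  have hlim2 : ‖c (-τ)‖ ≤ R := by
    have hca : ContinuousAt c (-τ) := (hcY (-τ) ⟨by linarith, by linarith⟩).continuousAt
    have : Tendsto (fun s => ‖c s‖) (𝓝[>] (-τ)) (𝓝 ‖c (-τ)‖) := (hca.norm).tendsto.mono_left
      nhdsWithin_le_nhds
    refine le_of_tendsto this ?_
    filter_upwards [Ioo_mem_nhdsGT (show -τ < τ by linarith)] with s hs
    exact hfin s hs
  have : m τ ≤ R' := (max_le hlim1 hlim2).trans (le_max_left _ _)
  linarith

/-- Global existence for an autonomous `C¹` differential equation from a priori bounds. -/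
theorem exists_global_of_bound {X : V → V} (hX : ContDiff ℝ 1 X) (z₀ : V)
    (hb : ∀ T : ℝ, 0 < T → ∃ R : ℝ, ∀ c : ℝ → V, ∀ a ∈ Ioc 0 T, c 0 = z₀ →
      (∀ s ∈ Ioo (-a) a, HasDerivAt c (X (c s)) s) → ∀ s ∈ Ioo (-a) a, ‖c s‖ ≤ R) :
    ∃ c : ℝ → V, c 0 = z₀ ∧ ∀ s, HasDerivAt c (X (c s)) s := by
  have key : ∀ T : ℝ, ∃ c : ℝ → V, 0 < T → c 0 = z₀ ∧ ∀ s ∈ Ioo (-T) T,
      HasDerivAt c (X (c s)) s := by
    intro T
    by_cases hT : 0 < T
    · obtain ⟨R, hR⟩ := hb T hT
      obtain ⟨c, hc⟩ := glex_local hX z₀ hT hR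
      exact ⟨c, fun _ => hc⟩
    · exact ⟨fun _ => z₀, fun h => absurd h hT⟩
  choose γ hγ using key
  refine ⟨fun t => γ (|t| + 1) t, ?_, fun t => ?_⟩
  · have := (hγ (|(0 : ℝ)| + 1) (by positivity)).1
    simpa using this
  · have hpos : 0 < |t| + 1 := by positivity
    have ht : t ∈ Ioo (-(|t| + 1)) (|t| + 1) := abs_lt.1 (lt_add_one _)
    refine HasDerivAt.congr_of_eventuallyEq ((hγ (|t| + 1) hpos).2 t ht) ?_
    filter_upwards [Ioo_mem_nhds ht.1 ht.2] with s hs
    have hs' : |s| < |t| + 1 := abs_lt.2 hs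
    have hspos : 0 < |s| + 1 := by positivity
    have hs2 : s ∈ Ioo (-(|s| + 1)) (|s| + 1) := abs_lt.1 (lt_add_one _)
    rcases le_total (|s| + 1) (|t| + 1) with h | h
    · have := glex_unique hX (a := |s| + 1) (hγ (|s| + 1) hspos).2
        (fun r hr => (hγ (|t| + 1) hpos).2 r ⟨by linarith [hr.1], by linarith [hr.2]⟩)
        (by rw [(hγ (|s| + 1) hspos).1, (hγ (|t| + 1) hpos).1])
      exact this hs2
    · have := glex_unique hX (a := |t| + 1)
        (fun r hr => (hγ (|s| + 1) hspos).2 r ⟨by linarith [hr.1], by linarith [hr.2]⟩)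
        (hγ (|t| + 1) hpos).2
        (by rw [(hγ (|s| + 1) hspos).1, (hγ (|t| + 1) hpos).1])
      exact this hs

end Ode

private theorem glex_per_bound {f : ℝ × ℝ → ℝ} (hf : Continuous f)
    (hp : ∀ x t, f (x + 1, t) = f (x, t)) (a b : ℝ) : ∃ M, 0 ≤ M ∧ ∀ x, ∀ t ∈ Icc a b,
      f (x, t) ≤ M := by
  obtain ⟨C, hC⟩ := ((isCompact_Icc (a := (0 : ℝ)) (b := 1)).prod
    (isCompact_Icc (a := a) (b := b))).exists_bound_of_continuousOn hf.continuousOn
  refine ⟨max C 0, le_max_right _ _, fun x t ht => ?_⟩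
  have hper : Function.Periodic (fun y => f (y, t)) 1 := fun y => hp y t
  have h1 : f (x, t) = f (Int.fract x, t) := by
    have h2 := hper.int_mul ⌊x⌋ (Int.fract x)
    simp only [mul_one] at h2
    rw [← h2, Int.fract_add_floor]
  rw [h1]
  have h3 := hC (Int.fract x, t) ⟨⟨Int.fract_nonneg x, (Int.fract_lt_one x).le⟩, ht⟩
  exact ((le_abs_self _).trans h3).trans (le_max_left _ _)

namespace CylMetric

theorem hasDerivAt_cx (g : CylMetric) {c : ℝ → State} {s : ℝ}
    (hc : HasDerivAt c (g.X (c s)) s) : HasDerivAt (fun r => (c r).1) (g.v (c s)) s := hc.fst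

theorem hasDerivAt_ct (g : CylMetric) {c : ℝ → State} {s : ℝ}
    (hc : HasDerivAt c (g.X (c s)) s) : HasDerivAt (fun r => (c r).2.1) (g.w (c s)) s :=
  hc.snd.fst

theorem hasDerivAt_cp (g : CylMetric) {c : ℝ → State} {s : ℝ}
    (hc : HasDerivAt c (g.X (c s)) s) :
    HasDerivAt (fun r => (c r).2.2.1) (g.X (c s)).2.2.1 s := hc.snd.snd.fst

theorem hasDerivAt_cq (g : CylMetric) {c : ℝ → State} {s : ℝ}
    (hc : HasDerivAt c (g.X (c s)) s) :
    HasDerivAt (fun r => (c r).2.2.2) (g.X (c s)).2.2.2 s := hc.snd.snd.snd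

/-- The speed is conserved along every integral curve of the geodesic field. -/
theorem hasDerivAt_en (g : CylMetric) {c : ℝ → State} {s : ℝ}
    (hc : HasDerivAt c (g.X (c s)) s) : HasDerivAt (fun r => g.en (c r)) 0 s := by
  have hen : ∀ z : State, g.en z = (g.G (z.1, z.2.1) * z.2.2.1 ^ 2
      - 2 * g.F (z.1, z.2.1) * z.2.2.1 * z.2.2.2 + g.E (z.1, z.2.1) * z.2.2.2 ^ 2)
      / g.det (z.1, z.2.1) := by
    intro z
    have hd := g.det_ne (z.1, z.2.1)
    rw [eq_div_iff hd]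
    unfold en
    have hv : g.v z * g.det (z.1, z.2.1) = g.G (z.1, z.2.1) * z.2.2.1
        - g.F (z.1, z.2.1) * z.2.2.2 := div_mul_cancel₀ _ hd
    have hw : g.w z * g.det (z.1, z.2.1) = g.E (z.1, z.2.1) * z.2.2.2
        - g.F (z.1, z.2.1) * z.2.2.1 := div_mul_cancel₀ _ hd
    have hp := g.p_eq z
    have hq := g.q_eq z
    rw [hp, hq]
    unfold det
    ring
  have hx : HasDerivAt (fun r => (c r).1) (g.v (c s)) s := hc.fst
  have ht : HasDerivAt (fun r => (c r).2.1) (g.w (c s)) s := hc.snd.fst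
  have hp : HasDerivAt (fun r => (c r).2.2.1) (g.X (c s)).2.2.1 s := hc.snd.snd.fst
  have hq : HasDerivAt (fun r => (c r).2.2.2) (g.X (c s)).2.2.2 s := hc.snd.snd.snd
  have hE := hasDerivAt_comp_curve g.smooth_E hx ht
  have hF := hasDerivAt_comp_curve g.smooth_F hx ht
  have hG := hasDerivAt_comp_curve g.smooth_G hx ht
  have hdet := (hE.mul hG).sub (hF.pow 2)
  have hnum := ((hG.mul (hp.pow 2)).sub (((hF.const_mul 2).mul hp).mul hq)).add
    (hE.mul (hq.pow 2))
  have hne := g.det_ne ((c s).1, (c s).2.1)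
  have hquot := hnum.div hdet hne
  have hfun : (fun r => g.en (c r)) = fun r =>
      ((g.G ((c r).1, (c r).2.1) * (c r).2.2.1 ^ 2
    - 2 * g.F ((c r).1, (c r).2.1) * (c r).2.2.1 * (c r).2.2.2
    + g.E ((c r).1, (c r).2.1) * (c r).2.2.2 ^ 2)
    / g.det ((c r).1, (c r).2.1)) := funext fun r => hen _
  rw [hfun]
  refine hquot.congr_deriv ?_
  have hv : g.v (c s) * g.det ((c s).1, (c s).2.1) = g.G ((c s).1, (c s).2.1)
      * (c s).2.2.1 - g.F ((c s).1, (c s).2.1) * (c s).2.2.2 := div_mul_cancel₀ _ hne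
  have hw : g.w (c s) * g.det ((c s).1, (c s).2.1) = g.E ((c s).1, (c s).2.1)
      * (c s).2.2.2 - g.F ((c s).1, (c s).2.1) * (c s).2.2.1 := div_mul_cancel₀ _ hne
  have hpp := g.p_eq (c s)
  have hqq := g.q_eq (c s)
  simp only [X, Pi.mul_apply, Pi.pow_apply, Pi.sub_apply, Pi.add_apply]
  generalize g.v (c s) = v at *
  generalize g.w (c s) = w at *
  rw [div_eq_zero_iff]
  left
  rw [hpp, hqq]
  unfold det at *
  generalize g.E ((c s).1, (c s).2.1) = E at *
  generalize g.F ((c s).1, (c s).2.1) = F at *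
  generalize g.G ((c s).1, (c s).2.1) = G at *
  push_cast
  ring

/-- An integral curve of the geodesic field is a geodesic. -/
theorem isGeodesic_of_integral (g : CylMetric) {c : ℝ → State}
    (hc : ∀ s, HasDerivAt c (g.X (c s)) s) :
    g.IsGeodesic (fun s => (c s).1) (fun s => (c s).2.1) := by
  have hs : ContDiff ℝ ∞ c := contDiff_of_integral g.contDiff_X hc
  have hdx : _root_.deriv (fun s => (c s).1) = fun s => g.v (c s) :=
    funext fun s => (g.hasDerivAt_cx (hc s)).deriv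
  have hdt : _root_.deriv (fun s => (c s).2.1) = fun s => g.w (c s) :=
    funext fun s => (g.hasDerivAt_ct (hc s)).deriv
  refine ⟨contDiff_fst.comp hs, (contDiff_fst.comp contDiff_snd).comp hs, fun s => ?_,
    fun s => ?_⟩
  · rw [hdx, hdt]
    have e : (fun r => g.E ((c r).1, (c r).2.1) * g.v (c r)
        + g.F ((c r).1, (c r).2.1) * g.w (c r)) = fun r => (c r).2.2.1 :=
      funext fun r => (g.p_eq (c r)).symm
    rw [e, (g.hasDerivAt_cp (hc s)).deriv]
    rfl
  · rw [hdx, hdt]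
    have e : (fun r => g.F ((c r).1, (c r).2.1) * g.v (c r)
        + g.G ((c r).1, (c r).2.1) * g.w (c r)) = fun r => (c r).2.2.2 :=
      funext fun r => (g.q_eq (c r)).symm
    rw [e, (g.hasDerivAt_cq (hc s)).deriv]
    rfl

/-- If `λ(t)² w² ≤ g(v, w)` with `λ > 0` continuous and `∫ λ` diverges towards both ends, then the
metric is complete. -/
theorem complete_of_lower (g : CylMetric) {l : ℝ → ℝ} (hl : Continuous l) (hl0 : ∀ t, 0 < l t)
    (htop : Tendsto (fun t => ∫ u in (0 : ℝ)..t, l u) atTop atTop)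
    (hbot : Tendsto (fun t => ∫ u in (0 : ℝ)..t, l u) atBot atBot)
    (hle : ∀ x t v w, l t ^ 2 * w ^ 2 ≤
      g.E (x, t) * v ^ 2 + 2 * g.F (x, t) * v * w + g.G (x, t) * w ^ 2) : g.Complete := by
  intro x₀ t₀ v₀ w₀
  set z₀ : State := (x₀, t₀, g.E (x₀, t₀) * v₀ + g.F (x₀, t₀) * w₀,
    g.F (x₀, t₀) * v₀ + g.G (x₀, t₀) * w₀) with hz₀
  set Λ : ℝ → ℝ := fun t => ∫ u in (0 : ℝ)..t, l u with hΛ
  have hΛd : ∀ t, HasDerivAt Λ (l t) t := fun t => (hl.integral_hasStrictDerivAt 0 t).hasDerivAt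
  have hΛm : StrictMono Λ := strictMono_of_deriv_pos fun t => by rw [(hΛd t).deriv]; exact hl0 t
  have hent : ∀ z : State, l z.2.1 ^ 2 * g.w z ^ 2 ≤ g.en z := fun z => hle z.1 z.2.1 _ _
  have hen0 : 0 ≤ g.en z₀ := (mul_nonneg (sq_nonneg _) (sq_nonneg _)).trans (hent z₀)
  set e := g.en z₀ with he
  have hEen : ∀ z : State, g.E (z.1, z.2.1) * g.en z = z.2.2.1 ^ 2
      + g.det (z.1, z.2.1) * g.w z ^ 2 := by
    intro z
    rw [g.p_eq z]
    unfold en det
    ring
  have hGen : ∀ z : State, g.G (z.1, z.2.1) * g.en z = z.2.2.2 ^ 2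
      + g.det (z.1, z.2.1) * g.v z ^ 2 := by
    intro z
    rw [g.q_eq z]
    unfold en det
    ring
  obtain ⟨c, hc0, hc⟩ := exists_global_of_bound g.contDiff_one_X z₀ (by
    intro T hT
    obtain ⟨tp, htp⟩ := (htop.eventually_ge_atTop (Λ t₀ + √e * T)).exists
    obtain ⟨tm, htm⟩ := (hbot.eventually_le_atBot (Λ t₀ - √e * T)).exists
    obtain ⟨M₁, hM₁0, hM₁⟩ := glex_per_bound g.smooth_E.continuous g.per_E tm tp
    obtain ⟨M₂, hM₂0, hM₂⟩ := glex_per_bound g.smooth_G.continuous g.per_G tm tp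
    have hdc : Continuous g.det :=
      (g.smooth_E.continuous.mul g.smooth_G.continuous).sub (g.smooth_F.continuous.pow 2)
    obtain ⟨M₃, hM₃0, hM₃⟩ := glex_per_bound (f := fun p => g.G p / g.det p)
      (g.smooth_G.continuous.div hdc g.det_ne)
      (fun x t => by simp only [g.per_G, g.det_per]) tm tp
    refine ⟨(|x₀| + √(M₃ * e) * T) + (|tm| + |tp|) + √(M₁ * e) + √(M₂ * e), ?_⟩
    intro c a ha hc0 hc s hs
    have hen : ∀ r ∈ Ioo (-a) a, g.en (c r) = e := by
      intro r hr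
      have hconv : Convex ℝ (Ioo (-a) a) := convex_Ioo _ _
      have h0 : (0 : ℝ) ∈ Ioo (-a) a := ⟨by linarith [ha.1], ha.1⟩
      have hb := hconv.norm_image_sub_le_of_norm_hasDerivWithin_le (f := fun r => g.en (c r))
        (f' := fun _ => 0) (C := 0) (fun y hy => (g.hasDerivAt_en (hc y hy)).hasDerivWithinAt)
        (fun y _ => by simp) h0 hr
      rw [zero_mul] at hb
      have := norm_le_zero_iff.1 hb
      rw [sub_eq_zero] at this
      rw [this, hc0]
    have h0 : (0 : ℝ) ∈ Ioo (-a) a := ⟨by linarith [ha.1], ha.1⟩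
    have hsT : |s| ≤ T := (abs_lt.2 hs).le.trans ha.2
    have ht : ∀ r ∈ Ioo (-a) a, (c r).2.1 ∈ Icc tm tp := by
      intro r hr
      have hrT : |r| ≤ T := (abs_lt.2 hr).le.trans ha.2
      have hb := (convex_Ioo (-a) a).norm_image_sub_le_of_norm_hasDerivWithin_le
        (f := fun r => Λ ((c r).2.1)) (f' := fun r => l ((c r).2.1) * g.w (c r)) (C := √e)
        (fun y hy => ((hΛd _).comp y (g.hasDerivAt_ct (hc y hy))).hasDerivWithinAt)
        (fun y hy => by
          refine Real.le_sqrt_of_sq_le ?_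
          rw [Real.norm_eq_abs, sq_abs, mul_pow, ← hen y hy]
          exact hent (c y)) h0 hr
      simp only [sub_zero, hc0, Real.norm_eq_abs] at hb
      have hb2 : |Λ (c r).2.1 - Λ t₀| ≤ √e * T :=
        hb.trans (mul_le_mul_of_nonneg_left hrT (Real.sqrt_nonneg _))
      rw [abs_le] at hb2
      constructor
      · rw [← hΛm.le_iff_le]; linarith [hb2.1]
      · rw [← hΛm.le_iff_le]; linarith [hb2.2]
    have hp : |(c s).2.2.1| ≤ √(M₁ * e) := by
      refine Real.le_sqrt_of_sq_le ?_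
      rw [sq_abs]
      have h1 := hEen (c s)
      rw [hen s hs] at h1
      have h2 : 0 ≤ g.det ((c s).1, (c s).2.1) * g.w (c s) ^ 2 :=
        mul_nonneg (g.det_pos _).le (sq_nonneg _)
      have h3 := mul_le_mul_of_nonneg_right (hM₁ (c s).1 (c s).2.1 (ht s hs)) hen0
      linarith
    have hq : |(c s).2.2.2| ≤ √(M₂ * e) := by
      refine Real.le_sqrt_of_sq_le ?_
      rw [sq_abs]
      have h1 := hGen (c s)
      rw [hen s hs] at h1
      have h2 : 0 ≤ g.det ((c s).1, (c s).2.1) * g.v (c s) ^ 2 :=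
        mul_nonneg (g.det_pos _).le (sq_nonneg _)
      have h3 := mul_le_mul_of_nonneg_right (hM₂ (c s).1 (c s).2.1 (ht s hs)) hen0
      linarith
    have hx : |(c s).1| ≤ |x₀| + √(M₃ * e) * T := by
      have hb := (convex_Ioo (-a) a).norm_image_sub_le_of_norm_hasDerivWithin_le
        (f := fun r => (c r).1) (f' := fun r => g.v (c r)) (C := √(M₃ * e))
        (fun y hy => (g.hasDerivAt_cx (hc y hy)).hasDerivWithinAt)
        (fun y hy => by
          refine Real.le_sqrt_of_sq_le ?_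
          rw [Real.norm_eq_abs, sq_abs]
          have h1 := hGen (c y)
          rw [hen y hy] at h1
          have h2 := hM₃ (c y).1 (c y).2.1 (ht y hy)
          have h3 : g.v (c y) ^ 2 ≤ g.G ((c y).1, (c y).2.1) / g.det ((c y).1, (c y).2.1) * e := by
            rw [div_mul_eq_mul_div, le_div_iff₀ (g.det_pos _), h1]
            nlinarith [sq_nonneg (c y).2.2.2]
          exact h3.trans (mul_le_mul_of_nonneg_right h2 hen0)) h0 hs
      simp only [sub_zero, hc0, Real.norm_eq_abs] at hb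
      have hb2 : |(c s).1 - x₀| ≤ √(M₃ * e) * T :=
        hb.trans (mul_le_mul_of_nonneg_left hsT (Real.sqrt_nonneg _))
      have := abs_sub_abs_le_abs_sub (c s).1 x₀
      linarith
    have htt : |(c s).2.1| ≤ |tm| + |tp| := by
      have h1 := ht s hs
      rw [abs_le]
      constructor
      · linarith [h1.1, neg_abs_le tm, abs_nonneg tp]
      · linarith [h1.2, le_abs_self tp, abs_nonneg tm]
    have e1 : 0 ≤ √(M₁ * e) := Real.sqrt_nonneg _
    have e2 : 0 ≤ √(M₂ * e) := Real.sqrt_nonneg _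
    have e3 : 0 ≤ √(M₃ * e) * T := mul_nonneg (Real.sqrt_nonneg _) hT.le
    have e4 := abs_nonneg x₀
    have e5 := abs_nonneg tm
    have e6 := abs_nonneg tp
    simp only [Prod.norm_def, Real.norm_eq_abs]
    refine max_le (by linarith) (max_le (by linarith) (max_le (by linarith) (by linarith))))
  refine ⟨fun s => (c s).1, fun s => (c s).2.1, g.isGeodesic_of_integral hc, ?_, ?_, ?_, ?_⟩
  · simp only [hc0, hz₀]
  · simp only [hc0, hz₀]
  · rw [(g.hasDerivAt_cx (hc 0)).deriv, hc0]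
    exact g.v_of_momenta x₀ t₀ v₀ w₀
  · rw [(g.hasDerivAt_ct (hc 0)).deriv, hc0]
    exact g.w_of_momenta x₀ t₀ v₀ w₀

end CylMetric

end Pool.Agent.CyG
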