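import Pool.Agent.CyGN.Upm
import Pool.Agent.CyGN.FamTool
import Pool.Agent.CyGN.EndA

set_option autoImplicit false

/-!
Gronwall consequences of the equations for `U₊` and `U₋`, and the graze lemma.
-/

namespace Pool.Agent.CyGN

open Pool.Agent.CyG Set Filter Topology
open scoped ContDiff

namespace EB.Upper

/-- If `f' = c f + g`, `c ≤ C`, `g ≤ 0` and `f a ≤ 0` then `f ≤ 0`. -/
theorem nonpos_of_deriv {f c g : ℝ → ℝ} {a b C : ℝ}
    (hf : ∀ t ∈ Icc a b, HasDerivAt f (c t * f t + g t) t)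
    (hc : ∀ t ∈ Icc a b, c t ≤ C) (hg : ∀ t ∈ Icc a b, g t ≤ 0) (ha : f a ≤ 0) :
    ∀ t ∈ Icc a b, f t ≤ 0 := by
  intro t ht
  by_contra hpos
  push Not at hpos
  have hcf : ContinuousOn f (Icc a b) := fun s hs => (hf s hs).continuousAt.continuousWithinAt
  let S : Set ℝ := Icc a t ∩ f ⁻¹' (Iic 0)
  have hSc : IsClosed S := by
    refine (hcf.mono (Icc_subset_Icc_right ht.2)).preimage_isClosed_of_isClosed isClosed_Icc
      isClosed_Iic
  have hSne : S.Nonempty := ⟨a, ⟨le_rfl, ht.1⟩, ha⟩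
  have hSb : BddAbove S := ⟨t, fun s hs => hs.1.2⟩
  have hmem := hSc.csSup_mem hSne hSb
  set t0 := sSup S with ht0
  have h0 : f t0 ≤ 0 := hmem.2
  have h1 : t0 < t := lt_of_le_of_ne hmem.1.2 (fun h => by rw [h] at h0; linarith)
  have h2 : ∀ s ∈ Ioc t0 t, 0 < f s := by
    intro s hs
    by_contra hn
    push Not at hn
    have : s ∈ S := ⟨⟨hmem.1.1.trans hs.1.le, hs.2⟩, hn⟩
    exact absurd (le_csSup hSb this) (not_le.2 hs.1)
  have hsub : Icc t0 t ⊆ Icc a b := Icc_subset_Icc hmem.1.1 ht.2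
  have hF : ∀ s ∈ Icc t0 t, HasDerivAt (fun s => f s * Real.exp (-(C * s)))
      (((c s - C) * f s + g s) * Real.exp (-(C * s))) s := by
    intro s hs
    have e1 : HasDerivAt (fun s => -(C * s)) (-C) s := by
      have := ((hasDerivAt_id s).const_mul C).neg
      exact this.congr_deriv (by ring)
    refine ((hf s (hsub hs)).mul e1.exp).congr_deriv ?_
    ring
  have hanti : AntitoneOn (fun s => f s * Real.exp (-(C * s))) (Icc t0 t) := by
    refine antitoneOn_of_deriv_nonpos (convex_Icc _ _)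
      (fun s hs => (hF s hs).continuousAt.continuousWithinAt) ?_ ?_
    · intro s hs
      rw [interior_Icc] at hs
      exact (hF s ⟨hs.1.le, hs.2.le⟩).differentiableAt.differentiableWithinAt
    · intro s hs
      rw [interior_Icc] at hs
      have hs' : s ∈ Icc t0 t := ⟨hs.1.le, hs.2.le⟩
      rw [(hF s hs').deriv]
      have h3 := h2 s ⟨hs.1, hs.2.le⟩
      have h4 := hc s (hsub hs')
      have h5 := hg s (hsub hs')
      have h6 : (c s - C) * f s + g s ≤ 0 := by nlinarith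
      exact mul_nonpos_of_nonpos_of_nonneg h6 (Real.exp_pos _).le
  have h3 := hanti (left_mem_Icc.2 h1.le) (right_mem_Icc.2 h1.le) h1.le
  have h4 : 0 < f t * Real.exp (-(C * t)) := mul_pos hpos (Real.exp_pos _)
  have h5 : f t0 * Real.exp (-(C * t0)) ≤ 0 :=
    mul_nonpos_of_nonpos_of_nonneg h0 (Real.exp_pos _).le
  simp only at h3
  linarith

/-- A function with `f ≤ f t` just left of `t` has `f' t ≥ 0`. -/
theorem deriv_nonneg_of_left {f : ℝ → ℝ} {f' t a : ℝ} (hat : a < t) (hf : HasDerivAt f f' t)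
    (h : ∀ s ∈ Ioo a t, f s ≤ f t) : 0 ≤ f' := by
  have h1 : Tendsto (slope f t) (𝓝[<] t) (𝓝 f') :=
    (hasDerivAt_iff_tendsto_slope.1 hf).mono_left
      (nhdsWithin_mono _ (fun s hs => ne_of_lt hs))
  refine ge_of_tendsto h1 ?_
  filter_upwards [Ioo_mem_nhdsLT hat] with s hs
  rw [slope_def_field]
  have h2 := h s hs
  exact div_nonneg_of_nonpos (by linarith) (by linarith [hs.2])

/-- Strict form. -/
theorem neg_of_deriv {f c g : ℝ → ℝ} {a b C : ℝ}
    (hf : ∀ t ∈ Icc a b, HasDerivAt f (c t * f t + g t) t)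
    (hc : ∀ t ∈ Icc a b, c t ≤ C) (hg : ∀ t ∈ Icc a b, g t ≤ 0)
    (hg' : ∀ t ∈ Ioc a b, g t < 0) (ha : f a ≤ 0) :
    ∀ t ∈ Ioc a b, f t < 0 := by
  have h1 := nonpos_of_deriv hf hc hg ha
  intro t ht
  refine lt_of_le_of_ne (h1 t ⟨ht.1.le, ht.2⟩) fun h0 => ?_
  have h2 := hf t ⟨ht.1.le, ht.2⟩
  have h3 := deriv_nonneg_of_left ht.1 h2 (fun s hs => by
    rw [h0]; exact h1 s ⟨hs.1.le, hs.2.le.trans ht.2⟩)
  rw [h0] at h3
  have := hg' t ht
  linarith

variable {m : EB} {β A : ℝ → ℝ} {Y : ℝ} {x y q η : ℝ → ℝ}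

theorem Q_nonneg (hU : m.Upper β A Y) {y : ℝ} (hs : Y ≤ y) : 0 ≤ Q β A y := by
  have h1 := hU.β_pos _ hs
  have h2 := hU.A_anti _ hs
  unfold Q
  nlinarith

theorem continuousOn_β (hU : m.Upper β A Y) (h : EB.Orbit m x y q η) {t₀ t₁ : ℝ}
    (hy : ∀ s ∈ Icc t₀ t₁, Y ≤ y s) : ContinuousOn (fun s => β (y s)) (Icc t₀ t₁) := fun s hs =>
  ((hU.dβ _ (hy s hs)).continuousAt.comp h.continuous_y.continuousAt).continuousWithinAt

theorem continuousOn_A (hU : m.Upper β A Y) (h : EB.Orbit m x y q η) {t₀ t₁ : ℝ}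
    (hy : ∀ s ∈ Icc t₀ t₁, Y ≤ y s) : ContinuousOn (fun s => A (y s)) (Icc t₀ t₁) := fun s hs =>
  ((hU.dA _ (hy s hs)).continuousAt.comp h.continuous_y.continuousAt).continuousWithinAt

/-- The coefficients `c` are bounded on compact intervals. -/
theorem coef_bdd (hU : m.Upper β A Y) (h : EB.Orbit m x y q η) {t₀ t₁ D : ℝ}
    (hD : ∀ y, Y ≤ y → |deriv A y| ≤ D) (hD' : ∀ y, Y ≤ y → |a' β A y| ≤ D)
    (hy : ∀ s ∈ Icc t₀ t₁, Y ≤ y s) (hη : ∀ s ∈ Icc t₀ t₁, 0 < η s) :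
    ∃ C, ∀ s ∈ Icc t₀ t₁, |cp m β A (x s) (y s) (q s) (η s)| ≤ C ∧
      |cm m β A (x s) (y s) (q s) (η s)| ≤ C := by
  have hβc := hU.continuousOn_β h hy
  have hAc := hU.continuousOn_A h hy
  have hxc := h.continuous_x.continuousOn (s := Icc t₀ t₁)
  have hqc := h.continuous_q.continuousOn (s := Icc t₀ t₁)
  have hηc := h.continuous_η.continuousOn (s := Icc t₀ t₁)
  have hEc : ContinuousOn (fun s => m.E (x s, y s)) (Icc t₀ t₁) :=
    (m.smooth_E.continuous.comp (h.continuous_x.prodMk h.continuous_y)).continuousOn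
  have hE0 : ∀ s ∈ Icc t₀ t₁, m.E (x s, y s) ≠ 0 := fun s _ => h.E_ne s
  have hsin : ContinuousOn (fun s => Real.sin (Real.pi * x s)) (Icc t₀ t₁) :=
    Real.continuous_sin.comp_continuousOn (hxc.const_mul Real.pi)
  have hcos : ContinuousOn (fun s => Real.cos (Real.pi * x s)) (Icc t₀ t₁) :=
    Real.continuous_cos.comp_continuousOn (hxc.const_mul Real.pi)
  have huu : ContinuousOn (fun s => uu (x s)) (Icc t₀ t₁) := hsin.pow 2
  have hPP : ContinuousOn (fun s => PP A (x s) (y s)) (Icc t₀ t₁) :=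
    hsin.mul (continuousOn_const.add ((hAc.div_const 2).mul huu))
  have hPPx : ContinuousOn (fun s => Pdx A (x s) (y s)) (Icc t₀ t₁) :=
    (hcos.const_mul Real.pi).mul (continuousOn_const.add ((hAc.const_mul (3 / 2)).mul huu))
  have hβ0 : ∀ s ∈ Icc t₀ t₁, β (y s) ≠ 0 := fun s hs => (hU.β_pos _ (hy s hs)).ne'
  have hηβ : ∀ s ∈ Icc t₀ t₁, η s + β (y s) ≠ 0 := fun s hs =>
    (add_pos (hη s hs) (hU.β_pos _ (hy s hs))).ne'
  have hD0 : ∀ s ∈ Icc t₀ t₁, 0 ≤ D := fun s hs => (abs_nonneg _).trans (hD _ (hy s hs))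
  obtain ⟨C1, hC1⟩ := isCompact_Icc.exists_bound_of_continuousOn (hPPx.div hEc hE0)
  obtain ⟨C2, hC2⟩ := isCompact_Icc.exists_bound_of_continuousOn
    ((huu.mul (hPP.sub hqc)).div hEc hE0)
  obtain ⟨C3, hC3⟩ := isCompact_Icc.exists_bound_of_continuousOn
    ((huu.mul (hPP.add hqc)).div hEc hE0)
  obtain ⟨C4, hC4⟩ := isCompact_Icc.exists_bound_of_continuousOn
    ((((hAc.div hβc hβ0).mul huu).mul ((hsin.pow 3).div_const 2)).div hEc hE0)
  obtain ⟨C5, hC5⟩ := isCompact_Icc.exists_bound_of_continuousOn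
    (((((hsin.pow 3).div_const 2).mul (hPP.sub hqc)).div (hηc.add hβc) hηβ).div hEc hE0)
  obtain ⟨C6, hC6⟩ := isCompact_Icc.exists_bound_of_continuousOn
    (((((hsin.pow 3).div_const 2).mul (hPP.add hqc)).div (hηc.add hβc) hηβ).div hEc hE0)
  refine ⟨C1 + D * (C2 + C3) + D * C4 + D * (C5 + C6), fun s hs => ?_⟩
  have k1 := hC1 s hs
  have k2 := hC2 s hs
  have k3 := hC3 s hs
  have k4 := hC4 s hs
  have k5 := hC5 s hs
  have k6 := hC6 s hs
  simp only [Real.norm_eq_abs, Pi.mul_apply, Pi.pow_apply, Pi.sub_apply, Pi.add_apply,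
    Pi.div_apply] at k1 k2 k3 k4 k5 k6
  have d1 := hD _ (hy s hs)
  have d2 := hD' _ (hy s hs)
  have d0 := hD0 s hs
  have e1 : cp m β A (x s) (y s) (q s) (η s) = Pdx A (x s) (y s) / m.E (x s, y s)
      + a' β A (y s) * (uu (x s) * (PP A (x s) (y s) - q s) / m.E (x s, y s))
      + deriv A (y s) * (A (y s) / β (y s) * uu (x s) * (Real.sin (Real.pi * x s) ^ 3 / 2)
        / m.E (x s, y s))
      + deriv A (y s) * (Real.sin (Real.pi * x s) ^ 3 / 2 * (PP A (x s) (y s) - q s)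
        / (η s + β (y s)) / m.E (x s, y s)) := by
    simp only [cp]
    ring
  have e2 : cm m β A (x s) (y s) (q s) (η s) = -(Pdx A (x s) (y s) / m.E (x s, y s))
      - a' β A (y s) * (uu (x s) * (PP A (x s) (y s) + q s) / m.E (x s, y s))
      - deriv A (y s) * (A (y s) / β (y s) * uu (x s) * (Real.sin (Real.pi * x s) ^ 3 / 2)
        / m.E (x s, y s))
      + deriv A (y s) * (Real.sin (Real.pi * x s) ^ 3 / 2 * (PP A (x s) (y s) + q s)
        / (η s + β (y s)) / m.E (x s, y s)) := by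
    simp only [cm]
    ring
  have n2 : 0 ≤ C2 := (abs_nonneg _).trans k2
  have n3 : 0 ≤ C3 := (abs_nonneg _).trans k3
  have n5 : 0 ≤ C5 := (abs_nonneg _).trans k5
  have n6 : 0 ≤ C6 := (abs_nonneg _).trans k6
  have hm : ∀ u v U V : ℝ, |u| ≤ U → |v| ≤ V → 0 ≤ U → |u * v| ≤ U * V := by
    intro u v U V h1 h2 h3
    rw [abs_mul]
    exact mul_le_mul h1 h2 (abs_nonneg _) h3
  have m2 := hm _ _ _ _ d2 k2 d0
  have m3 := hm _ _ _ _ d2 k3 d0
  have m4 := hm _ _ _ _ d1 k4 d0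
  have m5 := hm _ _ _ _ d1 k5 d0
  have m6 := hm _ _ _ _ d1 k6 d0
  have p2 : 0 ≤ D * C2 := mul_nonneg d0 n2
  have p3 : 0 ≤ D * C3 := mul_nonneg d0 n3
  have p5 : 0 ≤ D * C5 := mul_nonneg d0 n5
  have p6 : 0 ≤ D * C6 := mul_nonneg d0 n6
  rw [abs_le] at k1 m2 m3 m4 m5 m6
  constructor
  · rw [e1, abs_le]
    constructor <;> linarith [k1.1, k1.2, m2.1, m2.2, m4.1, m4.2, m5.1, m5.2]
  · rw [e2, abs_le]
    constructor <;> linarith [k1.1, k1.2, m3.1, m3.2, m4.1, m4.2, m6.1, m6.2]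

/-- `U₋ ≥ 0` persists while `η > 0` and `y ≥ Y`. -/
theorem Um_nonneg (hU : m.Upper β A Y) (h : EB.Orbit m x y q η) {t₀ t₁ D : ℝ}
    (hD : ∀ y, Y ≤ y → |deriv A y| ≤ D) (hD' : ∀ y, Y ≤ y → |a' β A y| ≤ D)
    (hy : ∀ s ∈ Icc t₀ t₁, Y ≤ y s) (hη : ∀ s ∈ Icc t₀ t₁, 0 < η s)
    (h0 : q t₀ ≤ PP A (x t₀) (y t₀)) : ∀ s ∈ Icc t₀ t₁, q s ≤ PP A (x s) (y s) := by
  obtain ⟨C, hC⟩ := hU.coef_bdd h hD hD' hy hη
  have := nonpos_of_deriv (f := fun r => -(PP A (x r) (y r) - q r))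
    (c := fun s => cm m β A (x s) (y s) (q s) (η s))
    (g := fun s => -(1 / 2 * uu (x s) * Q β A (y s) * (2 - Real.sin (Real.pi * x s))
      / m.E (x s, y s))) (a := t₀) (b := t₁) (C := C)
    (fun s hs => ((hU.Um_deriv' h s (hy s hs) (hη s hs)).neg).congr_deriv (by ring))
    (fun s hs => (le_abs_self _).trans (hC s hs).2)
    (fun s hs => by
      have h1 := uu_nonneg (x s)
      have h2 := hU.Q_nonneg (hy s hs)
      have h3 := h.E_pos s
      have h4 := Real.sin_le_one (Real.pi * x s)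
      have h5 : 0 ≤ 2 - Real.sin (Real.pi * x s) := by linarith
      have : 0 ≤ 1 / 2 * uu (x s) * Q β A (y s) * (2 - Real.sin (Real.pi * x s))
        / m.E (x s, y s) := by positivity
      linarith)
    (by linarith)
  intro s hs
  have := this s hs
  linarith

/-- `U₋ > 0` as soon as `Q > 0`. -/
theorem Um_pos (hU : m.Upper β A Y) (h : EB.Orbit m x y q η) {t₀ t₁ D : ℝ}
    (hD : ∀ y, Y ≤ y → |deriv A y| ≤ D) (hD' : ∀ y, Y ≤ y → |a' β A y| ≤ D)
    (hy : ∀ s ∈ Icc t₀ t₁, Y ≤ y s) (hη : ∀ s ∈ Icc t₀ t₁, 0 < η s)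
    (hQ : ∀ s ∈ Ioc t₀ t₁, 0 < Q β A (y s)) (hu : ∀ s ∈ Ioc t₀ t₁, 0 < uu (x s))
    (h0 : q t₀ ≤ PP A (x t₀) (y t₀)) : ∀ s ∈ Ioc t₀ t₁, q s < PP A (x s) (y s) := by
  obtain ⟨C, hC⟩ := hU.coef_bdd h hD hD' hy hη
  have := neg_of_deriv (f := fun r => -(PP A (x r) (y r) - q r))
    (c := fun s => cm m β A (x s) (y s) (q s) (η s))
    (g := fun s => -(1 / 2 * uu (x s) * Q β A (y s) * (2 - Real.sin (Real.pi * x s))
      / m.E (x s, y s))) (a := t₀) (b := t₁) (C := C)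
    (fun s hs => ((hU.Um_deriv' h s (hy s hs) (hη s hs)).neg).congr_deriv (by ring))
    (fun s hs => (le_abs_self _).trans (hC s hs).2)
    (fun s hs => by
      have h1 := uu_nonneg (x s)
      have h2 := hU.Q_nonneg (hy s hs)
      have h3 := h.E_pos s
      have h4 := Real.sin_le_one (Real.pi * x s)
      have h5 : 0 ≤ 2 - Real.sin (Real.pi * x s) := by linarith
      have : 0 ≤ 1 / 2 * uu (x s) * Q β A (y s) * (2 - Real.sin (Real.pi * x s))
        / m.E (x s, y s) := by positivity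
      linarith)
    (fun s hs => by
      have h1 := hu s hs
      have h2 := hQ s hs
      have h3 := h.E_pos s
      have h4 := Real.sin_le_one (Real.pi * x s)
      have h5 : 0 < 2 - Real.sin (Real.pi * x s) := by linarith
      have : 0 < 1 / 2 * uu (x s) * Q β A (y s) * (2 - Real.sin (Real.pi * x s))
        / m.E (x s, y s) := by positivity
      linarith)
    (by linarith)
  intro s hs
  have := this s hs
  linarith

/-- `U₊ < 0` after a zero. -/
theorem Up_neg (hU : m.Upper β A Y) (h : EB.Orbit m x y q η) {t₀ t₁ D : ℝ}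
    (hD : ∀ y, Y ≤ y → |deriv A y| ≤ D) (hD' : ∀ y, Y ≤ y → |a' β A y| ≤ D)
    (hy : ∀ s ∈ Icc t₀ t₁, Y ≤ y s) (hη : ∀ s ∈ Icc t₀ t₁, 0 < η s)
    (hQ : ∀ s ∈ Ioc t₀ t₁, 0 < Q β A (y s)) (hu : ∀ s ∈ Ioc t₀ t₁, 0 < uu (x s))
    (h0 : PP A (x t₀) (y t₀) + q t₀ ≤ 0) :
    ∀ s ∈ Ioc t₀ t₁, PP A (x s) (y s) + q s < 0 := by
  obtain ⟨C, hC⟩ := hU.coef_bdd h hD hD' hy hη
  exact neg_of_deriv (f := fun r => PP A (x r) (y r) + q r)
    (c := fun s => cp m β A (x s) (y s) (q s) (η s))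
    (g := fun s => -(1 / 2 * uu (x s) * Q β A (y s) * (2 + Real.sin (Real.pi * x s))
      / m.E (x s, y s))) (a := t₀) (b := t₁) (C := C)
    (fun s hs => ((hU.Up_deriv' h s (hy s hs) (hη s hs))).congr_deriv (by ring))
    (fun s hs => (le_abs_self _).trans (hC s hs).1)
    (fun s hs => by
      have h1 := uu_nonneg (x s)
      have h2 := hU.Q_nonneg (hy s hs)
      have h3 := h.E_pos s
      have h4 := Real.neg_one_le_sin (Real.pi * x s)
      have h5 : 0 ≤ 2 + Real.sin (Real.pi * x s) := by linarith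
      have : 0 ≤ 1 / 2 * uu (x s) * Q β A (y s) * (2 + Real.sin (Real.pi * x s))
        / m.E (x s, y s) := by positivity
      linarith)
    (fun s hs => by
      have h1 := hu s hs
      have h2 := hQ s hs
      have h3 := h.E_pos s
      have h4 := Real.neg_one_le_sin (Real.pi * x s)
      have h5 : 0 < 2 + Real.sin (Real.pi * x s) := by linarith
      have : 0 < 1 / 2 * uu (x s) * Q β A (y s) * (2 + Real.sin (Real.pi * x s))
        / m.E (x s, y s) := by positivity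
      linarith)
    h0

theorem uu_pos {x : ℝ} (h0 : 0 < x) (h1 : x < 1) : 0 < uu x := by
  have : 0 < Real.sin (Real.pi * x) := by
    apply Real.sin_pos_of_pos_of_lt_pi
    · positivity
    · nlinarith [Real.pi_pos]
  unfold uu
  positivity

theorem PP_pos (hU : m.Upper β A Y) {x y : ℝ} (hs : Y ≤ y) (h0 : 0 < x) (h1 : x < 1) :
    0 < PP A x y := by
  have h2 : 0 < Real.sin (Real.pi * x) := by
    apply Real.sin_pos_of_pos_of_lt_pi
    · positivity
    · nlinarith [Real.pi_pos]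
  have h3 := hU.A_nonneg _ hs
  have h4 := uu_nonneg x
  unfold PP
  positivity

theorem continuousAt_β (hU : m.Upper β A Y) (h : EB.Orbit m x y q η) {s : ℝ}
    (hy : Y ≤ y s) : ContinuousAt (fun s => β (y s)) s :=
  ContinuousAt.comp (f := y) (g := β) (hU.dβ _ hy).continuousAt h.continuous_y.continuousAt

theorem continuousAt_PP (hU : m.Upper β A Y) (h : EB.Orbit m x y q η) {s : ℝ}
    (hy : Y ≤ y s) : ContinuousAt (fun s => PP A (x s) (y s)) s := by
  have h1 : ContinuousAt (fun s => A (y s)) s :=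
    ContinuousAt.comp (f := y) (g := A) (hU.dA _ hy).continuousAt h.continuous_y.continuousAt
  have h2 : ContinuousAt (fun s => Real.sin (Real.pi * x s)) s :=
    (Real.continuous_sin.comp (h.continuous_x.const_mul Real.pi)).continuousAt
  exact h2.mul (continuousAt_const.add ((h1.div_const 2).mul (h2.pow 2)))

/-- `y' > 0` if `K ≤ 0`, `η > 0` and `|q| ≤ P` is small against `β`. -/
theorem dy_pos (hU : m.Upper β A Y) (h : EB.Orbit m x y q η) {t : ℝ} (hy : Y ≤ y t)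
    (hη : 0 < η t) (hK : β (y t) ^ 2 - η t ^ 2 ≤ 0) (hq : |q t| ≤ PP A (x t) (y t))
    (hAP : A (y t) * PP A (x t) (y t) < β (y t) ^ 2) :
    0 < (η t + m.b (x t, y t) * q t) / m.E (x t, y t) := by
  have hβ := hU.β_pos _ hy
  have hA := hU.A_nonneg _ hy
  have hu0 := uu_nonneg (x t)
  have hu1 := uu_le_one (x t)
  refine div_pos ?_ (h.E_pos t)
  rw [hU.b_eq _ _ hy]
  have h1 : β (y t) ≤ η t := by
    nlinarith
  have h2 : |A (y t) / β (y t) * uu (x t) * q t| < β (y t) := by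
    have h3 : |A (y t) / β (y t) * uu (x t) * q t| ≤ A (y t) / β (y t) * PP A (x t) (y t) := by
      rw [abs_mul, abs_of_nonneg (by positivity)]
      have h4 : A (y t) / β (y t) * uu (x t) ≤ A (y t) / β (y t) := by
        have : 0 ≤ A (y t) / β (y t) := by positivity
        nlinarith
      exact mul_le_mul h4 hq (abs_nonneg _) (by positivity)
    have h5 : A (y t) / β (y t) * PP A (x t) (y t) < β (y t) := by
      rw [div_mul_eq_mul_div, div_lt_iff₀ hβ]
      nlinarith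
    linarith
  have := (abs_lt.1 h2).1
  linarith

/-- Right after a time with positive derivative a function is larger. -/
theorem eventually_gt_of_deriv {f : ℝ → ℝ} {f' t : ℝ} (hf : HasDerivAt f f' t) (h : 0 < f') :
    ∀ᶠ s in 𝓝[>] t, f t < f s := by
  have h1 : Tendsto (slope f t) (𝓝[>] t) (𝓝 f') :=
    (hasDerivAt_iff_tendsto_slope.1 hf).mono_left
      (nhdsWithin_mono _ (fun s hs => ne_of_gt hs))
  filter_upwards [h1.eventually (eventually_gt_nhds h), self_mem_nhdsWithin] with s hs hts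
  rw [slope_def_field] at hs
  have hts' : 0 < s - t := sub_pos.2 hts
  have := (div_pos_iff_of_pos_right hts').1 hs
  linarith

/-- The graze lemma. -/
theorem graze (hU : m.Upper β A 2) (h : EB.Orbit m x y q η) {t D : ℝ}
    (hD : ∀ y, 2 ≤ y → |deriv A y| ≤ D) (hD' : ∀ y, 2 ≤ y → |a' β A y| ≤ D)
    (hQ : ∀ y, 2 < y → 0 < Q β A y) (hy : 2 ≤ y t) (hx0 : 0 < x t) (hx1 : x t < 1)
    (hη : 0 < η t) (hUp : PP A (x t) (y t) + q t = 0)
    (hAP : A (y t) * PP A (x t) (y t) < β (y t) ^ 2) : Graze β y q η t := by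
  have hP := hU.PP_pos hy hx0 hx1
  have hK : β (y t) ^ 2 - η t ^ 2 = 0 := by
    rw [hU.K_eq h t hy, hUp]; ring
  have hqt : q t = -PP A (x t) (y t) := by linarith
  have hyd := hU.dy_pos h hy hη hK.le (by rw [hqt, abs_neg, abs_of_pos hP]) hAP
  -- everything happens on a short interval to the right
  have e1 := eventually_gt_of_deriv (h.dy t) hyd
  have e2 : ∀ᶠ s in 𝓝[>] t, 0 < η s :=
    (h.continuous_η.continuousAt.eventually (eventually_gt_nhds hη)).filter_mono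
      nhdsWithin_le_nhds
  have e3 : ∀ᶠ s in 𝓝[>] t, 0 < x s :=
    (h.continuous_x.continuousAt.eventually (eventually_gt_nhds hx0)).filter_mono
      nhdsWithin_le_nhds
  have e4 : ∀ᶠ s in 𝓝[>] t, x s < 1 :=
    (h.continuous_x.continuousAt.eventually (eventually_lt_nhds hx1)).filter_mono
      nhdsWithin_le_nhds
  have e5 : ∀ᶠ s in 𝓝[>] t, q s < 0 :=
    (h.continuous_q.continuousAt.eventually
      (eventually_lt_nhds (show q t < 0 by linarith))).filter_mono nhdsWithin_le_nhds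
  have e6 : ∀ᶠ s in 𝓝[>] t, q s < PP A (x s) (y s) := by
    have h1 : ContinuousAt (fun s => PP A (x s) (y s) - q s) t :=
      (hU.continuousAt_PP h hy).sub h.continuous_q.continuousAt
    have h2 : ∀ᶠ s in 𝓝 t, 0 < PP A (x s) (y s) - q s :=
      h1.eventually (eventually_gt_nhds (show 0 < PP A (x t) (y t) - q t by linarith))
    filter_upwards [h2.filter_mono nhdsWithin_le_nhds] with s hs
    linarith
  obtain ⟨t', htt', hall⟩ : ∃ t', t < t' ∧ ∀ s ∈ Ioo t t', y t < y s ∧ 0 < η s ∧ 0 < x s ∧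
      x s < 1 ∧ q s < 0 ∧ q s < PP A (x s) (y s) := by
    have := (((((e1.and e2).and e3).and e4).and e5).and e6)
    obtain ⟨t', ht', hs⟩ := mem_nhdsGT_iff_exists_Ioo_subset.1 this
    exact ⟨t', ht', fun s hs' => by
      have := hs hs'
      simp only [Set.mem_ofPred_eq] at this
      tauto⟩
  refine ⟨hy, hK, by linarith, hη, (t' - t) / 2, by linarith, ?_⟩
  set t1 := t + (t' - t) / 2 with ht1
  have hsub : ∀ s ∈ Ioc t t1, s ∈ Ioo t t' := fun s hs => ⟨hs.1, by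
    have := hs.2
    linarith⟩
  have hUn := hU.Up_neg h (t₀ := t) (t₁ := t1) hD hD'
    (fun s hs => by
      rcases eq_or_lt_of_le hs.1 with h0 | h0
      · rw [← h0]; exact hy
      · exact hy.trans (hall s (hsub s ⟨h0, hs.2⟩)).1.le)
    (fun s hs => by
      rcases eq_or_lt_of_le hs.1 with h0 | h0
      · rw [← h0]; exact hη
      · exact (hall s (hsub s ⟨h0, hs.2⟩)).2.1)
    (fun s hs => hQ _ (hy.trans_lt (hall s (hsub s hs)).1))
    (fun s hs => uu_pos (hall s (hsub s hs)).2.2.1 (hall s (hsub s hs)).2.2.2.1)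
    hUp.le
  intro s hs
  have hs1 : s ∈ Ioc t t1 := ⟨hs.1, hs.2.le⟩
  have k1 := hall s (hsub s hs1)
  have k2 := hUn s hs1
  have hys : 2 ≤ y s := hy.trans k1.1.le
  refine ⟨?_, k1.2.2.2.2.1⟩
  rw [hU.K_eq h s hys]
  have k3 : 0 < PP A (x s) (y s) - q s := by linarith [k1.2.2.2.2.2]
  nlinarith

/-- The captured state. -/
def Capt (A : ℝ → ℝ) (x y q η : ℝ → ℝ) (s : ℝ) : Prop :=
  2 ≤ y s ∧ 0 < η s ∧ 0 < x s ∧ x s < 1 ∧ 0 < PP A (x s) (y s) + q s ∧ q s ≤ PP A (x s) (y s)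

/-- Either the orbit grazes or it stays captured for ever. -/
theorem captured (hU : m.Upper β A 2) (h : EB.Orbit m x y q η) {t₂ D : ℝ}
    (hD : ∀ y, 2 ≤ y → |deriv A y| ≤ D) (hD' : ∀ y, 2 ≤ y → |a' β A y| ≤ D)
    (hQ : ∀ y, 2 < y → 0 < Q β A y)
    (hAP : ∀ x y, 2 ≤ y → A y * |PP A x y| < β y ^ 2)
    (hE0 : ∀ Y, CyG.dx m.E (0, Y) = 0) (hb0 : ∀ Y, m.b (0, Y) = 0)
    (hno : ∀ t, t₂ ≤ t → (∀ s ∈ Icc t₂ t, 2 ≤ y s) → ¬ Graze β y q η t)
    (hy : 2 ≤ y t₂) (hη : 0 < η t₂) (hx0 : 0 < x t₂) (hx1 : x t₂ < 1)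
    (hp : 0 ≤ PP A (x t₂) (y t₂) + q t₂) (hm : q t₂ ≤ PP A (x t₂) (y t₂)) :
    ∀ t, t₂ ≤ t → Capt A x y q η t := by
  have hE1 : ∀ Y, CyG.dx m.E (1, Y) = 0 := fun Y => by
    have := EB.Orbit.dxE_add_int m 0 Y 1
    simp only [Int.cast_one, zero_add] at this
    rw [this, hE0]
  have hb1 : ∀ Y, m.b (1, Y) = 0 := fun Y => by
    have := m.per_b 0 Y
    rw [zero_add] at this
    rw [this, hb0]
  have hstart : Capt A x y q η t₂ := by
    refine ⟨hy, hη, hx0, hx1, ?_, hm⟩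
    refine lt_of_le_of_ne hp fun h0 => ?_
    refine hno t₂ le_rfl (fun s hs => ?_) (hU.graze h hD hD' hQ hy hx0 hx1 hη h0.symm ?_)
    · rw [← le_antisymm hs.1 hs.2]; exact hy
    · have := hAP (x t₂) (y t₂) hy
      rwa [abs_of_pos (hU.PP_pos hy hx0 hx1)] at this
  have hcapt_q : ∀ s, Capt A x y q η s → |q s| ≤ PP A (x s) (y s) := fun s hs =>
    abs_le.2 ⟨by linarith [hs.2.2.2.2.1], hs.2.2.2.2.2⟩
  have hcapt_K : ∀ s, Capt A x y q η s → β (y s) ^ 2 - η s ^ 2 ≤ 0 := fun s hs => by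
    rw [hU.K_eq h s hs.1]
    have := hs.2.2.2.2.1
    have := hs.2.2.2.2.2
    nlinarith
  have hcapt_dy : ∀ s, Capt A x y q η s →
      0 < (η s + m.b (x s, y s) * q s) / m.E (x s, y s) := fun s hs => by
    refine hU.dy_pos h hs.1 hs.2.1 (hcapt_K s hs) (hcapt_q s hs) ?_
    have := hAP (x s) (y s) hs.1
    rwa [abs_of_pos (hU.PP_pos hs.1 hs.2.2.1 hs.2.2.2.1)] at this
  intro T hT
  refine cont_ind (a := t₂) (b := T) (P := Capt A x y q η) hstart ?_ ?_ T ⟨hT, le_rfl⟩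
  · -- opening
    intro t ht hle
    have hc := hle t ⟨ht.1, le_rfl⟩
    have hyd := hcapt_dy t hc
    obtain ⟨c1, c2, c3, c4, c5, c6⟩ := hc
    have e1 := eventually_gt_of_deriv (h.dy t) hyd
    have e2 : ∀ᶠ s in 𝓝[>] t, 0 < η s :=
      (h.continuous_η.continuousAt.eventually (eventually_gt_nhds c2)).filter_mono
        nhdsWithin_le_nhds
    have e3 : ∀ᶠ s in 𝓝[>] t, 0 < x s :=
      (h.continuous_x.continuousAt.eventually (eventually_gt_nhds c3)).filter_mono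
        nhdsWithin_le_nhds
    have e4 : ∀ᶠ s in 𝓝[>] t, x s < 1 :=
      (h.continuous_x.continuousAt.eventually (eventually_lt_nhds c4)).filter_mono
        nhdsWithin_le_nhds
    have e5 : ∀ᶠ s in 𝓝[>] t, 0 < PP A (x s) (y s) + q s := by
      have h1 : ContinuousAt (fun s => PP A (x s) (y s) + q s) t :=
        (hU.continuousAt_PP h c1).add h.continuous_q.continuousAt
      exact (h1.eventually (eventually_gt_nhds c5)).filter_mono nhdsWithin_le_nhds
    obtain ⟨t', htt', hall⟩ : ∃ t', t < t' ∧ ∀ s ∈ Ioo t t', y t < y s ∧ 0 < η s ∧ 0 < x s ∧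
        x s < 1 ∧ 0 < PP A (x s) (y s) + q s := by
      have := ((((e1.and e2).and e3).and e4).and e5)
      obtain ⟨t', ht', hs⟩ := mem_nhdsGT_iff_exists_Ioo_subset.1 this
      exact ⟨t', ht', fun s hs' => by
        have := hs hs'
        simp only [Set.mem_ofPred_eq] at this
        tauto⟩
    filter_upwards [Ioo_mem_nhdsGT htt'] with r hr
    have hsub : ∀ s ∈ Icc t r, 2 ≤ y s ∧ 0 < η s := by
      intro s hs
      rcases eq_or_lt_of_le hs.1 with h0 | h0
      · rw [← h0]; exact ⟨c1, c2⟩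
      · have := hall s ⟨h0, hs.2.trans_lt hr.2⟩
        exact ⟨c1.trans this.1.le, this.2.1⟩
    have k := hU.Um_nonneg h (t₀ := t) (t₁ := r) hD hD' (fun s hs => (hsub s hs).1)
      (fun s hs => (hsub s hs).2) c6 r ⟨hr.1.le, le_rfl⟩
    have k1 := hall r hr
    exact ⟨c1.trans k1.1.le, k1.2.1, k1.2.2.1, k1.2.2.2.1, k1.2.2.2.2, k⟩
  · -- closing
    intro t ht hlt
    have hne : (𝓝[<] t).NeBot := inferInstance
    have ev : ∀ᶠ s in 𝓝[<] t, Capt A x y q η s := by
      filter_upwards [Ioo_mem_nhdsLT ht.1] with s hs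
      exact hlt s ⟨hs.1.le, hs.2⟩
    have lx : Tendsto x (𝓝[<] t) (𝓝 (x t)) :=
      h.continuous_x.continuousAt.tendsto.mono_left nhdsWithin_le_nhds
    have ly : Tendsto y (𝓝[<] t) (𝓝 (y t)) :=
      h.continuous_y.continuousAt.tendsto.mono_left nhdsWithin_le_nhds
    have lη : Tendsto η (𝓝[<] t) (𝓝 (η t)) :=
      h.continuous_η.continuousAt.tendsto.mono_left nhdsWithin_le_nhds
    have d1 : 2 ≤ y t := ge_of_tendsto ly (ev.mono fun s hs => hs.1)
    have d2 : 0 ≤ η t := ge_of_tendsto lη (ev.mono fun s hs => hs.2.1.le)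
    have d3 : 0 ≤ x t := ge_of_tendsto lx (ev.mono fun s hs => hs.2.2.1.le)
    have d4 : x t ≤ 1 := le_of_tendsto lx (ev.mono fun s hs => hs.2.2.2.1.le)
    have cP := hU.continuousAt_PP h d1
    have d5 : 0 ≤ PP A (x t) (y t) + q t := by
      have l : Tendsto (fun s => PP A (x s) (y s) + q s) (𝓝[<] t)
          (𝓝 (PP A (x t) (y t) + q t)) :=
        (cP.add h.continuous_q.continuousAt).tendsto.mono_left nhdsWithin_le_nhds
      exact ge_of_tendsto l (ev.mono fun s hs => hs.2.2.2.2.1.le)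
    have d6 : 0 ≤ PP A (x t) (y t) - q t := by
      have l : Tendsto (fun s => PP A (x s) (y s) - q s) (𝓝[<] t)
          (𝓝 (PP A (x t) (y t) - q t)) :=
        (cP.sub h.continuous_q.continuousAt).tendsto.mono_left nhdsWithin_le_nhds
      exact ge_of_tendsto l (ev.mono fun s hs => by
        have := hs.2.2.2.2.2
        linarith)
    have hK : β (y t) ^ 2 - η t ^ 2 ≤ 0 := by
      rw [hU.K_eq h t d1]
      nlinarith
    have hβ := hU.β_pos _ d1
    have d2' : 0 < η t := by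
      refine lt_of_le_of_ne d2 fun h0 => ?_
      rw [← h0] at hK
      nlinarith
    have hPint : ∀ k : ℤ, PP A k (y t) = 0 := fun k => by
      unfold PP
      rw [mul_comm Real.pi, Real.sin_int_mul_pi, zero_mul]
    have hx0' : x t ≠ 0 := by
      intro h0
      have p0 : PP A (x t) (y t) = 0 := by
        rw [h0]; simpa using hPint 0
      have q0 : q t = 0 := by linarith
      have := (h.axis hE0 hb0 h0 q0 t₂).1
      linarith
    have hx1' : x t ≠ 1 := by
      intro h0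
      have p0 : PP A (x t) (y t) = 0 := by
        rw [h0]; simpa using hPint 1
      have q0 : q t = 0 := by linarith
      have := (h.axis hE1 hb1 h0 q0 t₂).1
      linarith
    have d3' : 0 < x t := lt_of_le_of_ne d3 (Ne.symm hx0')
    have d4' : x t < 1 := lt_of_le_of_ne d4 hx1'
    refine ⟨d1, d2', d3', d4', ?_, by linarith⟩
    refine lt_of_le_of_ne d5 fun h0 => ?_
    refine hno t ht.1.le (fun s hs => ?_) (hU.graze h hD hD' hQ d1 d3' d4' d2' h0.symm ?_)
    · rcases eq_or_lt_of_le hs.2 with h1 | h1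
      · rw [h1]; exact d1
      · exact (hlt s ⟨hs.1, h1⟩).1
    · have := hAP (x t) (y t) d1
      rwa [abs_of_pos (hU.PP_pos d1 d3' d4')] at this

end EB.Upper

end Pool.Agent.CyGN
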