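import Pool.Agent.CyGN.Ham

set_option autoImplicit false

/-!
# The quantity `K = β² - η²`

Let `E = β(y)² + P² - ζ(y) D(x)` and `b = (A(y)/β(y)) u` with `u = sin²(π x)` and
`P = sin(π x) (1 + (A(y)/2) u)`.  Along a unit speed geodesic `K = β(y)² - η²` satisfies

`K' = (2u/E) (-q (-β A' + (A/β)' K) - A' η u (1 + A u/2) / 2) + η ζ' D / E`.
-/

namespace Pool.Agent.CyGN

open Pool.Agent.CyG Set Filter Topology
open scoped ContDiff

/-- `u = sin²(π x)`. -/
noncomputable def uu (x : ℝ) : ℝ := Real.sin (Real.pi * x) ^ 2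

/-- `P = sin(π x) (1 + (A(y)/2) u)`. -/
noncomputable def PP (A : ℝ → ℝ) (x y : ℝ) : ℝ :=
  Real.sin (Real.pi * x) * (1 + A y / 2 * uu x)

theorem uu_nonneg (x : ℝ) : 0 ≤ uu x := sq_nonneg _

theorem uu_le_one (x : ℝ) : uu x ≤ 1 := Real.sin_sq_le_one _

/-- The partial derivative in the second variable is determined by the values above. -/
theorem dt_eq_of_Ici {f : ℝ × ℝ → ℝ} (hf : ContDiff ℝ ∞ f) {g : ℝ → ℝ} {v x y : ℝ}
    (hg : HasDerivAt g v y) (h : ∀ Y, y ≤ Y → f (x, Y) = g Y) : CyG.dt f (x, y) = v := by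
  have h1 : HasDerivWithinAt (fun Y => f (x, Y)) (CyG.dt f (x, y)) (Ici y) y :=
    (hasDerivAt_dt hf x y).hasDerivWithinAt
  have h2 : HasDerivWithinAt (fun Y => f (x, Y)) v (Ici y) y :=
    hg.hasDerivWithinAt.congr (fun Y hY => h Y hY) (h y le_rfl)
  exact (uniqueDiffWithinAt_Ici y).eq_deriv _ h1 h2

/-- The formula for `K'`. -/
theorem EB.Orbit.K_hasDerivAt {m : EB} {x y q η : ℝ → ℝ} (h : EB.Orbit m x y q η) (s : ℝ)
    {β A ζ : ℝ → ℝ} {β' A' ζ' D : ℝ} (hβ : HasDerivAt β β' (y s)) (hA : HasDerivAt A A' (y s))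
    (hζ : HasDerivAt ζ ζ' (y s)) (hβ0 : β (y s) ≠ 0)
    (hE : ∀ Y, y s ≤ Y → m.E (x s, Y) = β Y ^ 2 + PP A (x s) Y ^ 2 - ζ Y * D)
    (hb : ∀ Y, y s ≤ Y → m.b (x s, Y) = A Y / β Y * uu (x s)) :
    HasDerivAt (fun r => β (y r) ^ 2 - η r ^ 2)
      (2 * uu (x s) / m.E (x s, y s) * (-(q s * (-(β (y s) * A')
        + (A' * β (y s) - A (y s) * β') / β (y s) ^ 2 * (β (y s) ^ 2 - η s ^ 2)))
        - A' * η s * uu (x s) * (1 + A (y s) / 2 * uu (x s)) / 2)
        + η s * ζ' * D / m.E (x s, y s)) s := by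
  have hP : HasDerivAt (fun Y => PP A (x s) Y)
      (Real.sin (Real.pi * x s) * (A' / 2 * uu (x s))) (y s) := by
    have := (((hA.div_const 2).mul_const (uu (x s))).const_add 1).const_mul
      (Real.sin (Real.pi * x s))
    exact this
  have hE' := dt_eq_of_Ici m.smooth_E (((hβ.pow 2).add (hP.pow 2)).sub (hζ.mul_const D)) hE
  have hb' := dt_eq_of_Ici m.smooth_b ((hA.div hβ hβ0).mul_const (uu (x s))) hb
  have h1 := ((hβ.comp s (h.dy s)).pow 2).sub ((h.dη s).pow 2)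
  refine h1.congr_deriv ?_
  rw [hE', hb', hb (y s) le_rfl]
  have hEp := h.E_ne s
  simp only [Function.comp_apply, PP]
  field_simp
  simp only [uu]
  ring

/-- The upper region: `E = β² + P²` and `b = (A/β) u` for `y ≥ Y`, where `β > 0`, `A ≥ 0` do not
increase and `β |A'| ≤ 12 A |β'|`. -/
structure EB.Upper (m : EB) (β A : ℝ → ℝ) (Y : ℝ) : Prop where
  dβ : ∀ y, Y ≤ y → DifferentiableAt ℝ β y
  dA : ∀ y, Y ≤ y → DifferentiableAt ℝ A y
  β_pos : ∀ y, Y ≤ y → 0 < β y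
  A_nonneg : ∀ y, Y ≤ y → 0 ≤ A y
  β_anti : ∀ y, Y ≤ y → deriv β y ≤ 0
  A_anti : ∀ y, Y ≤ y → deriv A y ≤ 0
  ratio : ∀ y, Y ≤ y → -(β y * deriv A y) ≤ 12 * -(A y * deriv β y)
  E_eq : ∀ x y, Y ≤ y → m.E (x, y) = β y ^ 2 + PP A x y ^ 2
  b_eq : ∀ x y, Y ≤ y → m.b (x, y) = A y / β y * uu x

namespace EB.Upper

variable {m : EB} {β A : ℝ → ℝ} {Y : ℝ} {x y q η : ℝ → ℝ}

/-- The value of `K'` in the upper region. -/
noncomputable def K' (m : EB) (β A : ℝ → ℝ) (x y q η : ℝ) : ℝ :=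
  2 * uu x / m.E (x, y) * (-(q * (-(β y * deriv A y)
        + (deriv A y * β y - A y * deriv β y) / β y ^ 2 * (β y ^ 2 - η ^ 2)))
        - deriv A y * η * uu x * (1 + A y / 2 * uu x) / 2)

theorem hasDerivAt_K (hU : m.Upper β A Y) (h : EB.Orbit m x y q η) (s : ℝ) (hs : Y ≤ y s) :
    HasDerivAt (fun r => β (y r) ^ 2 - η r ^ 2) (K' m β A (x s) (y s) (q s) (η s)) s := by
  have := h.K_hasDerivAt s (hU.dβ _ hs).hasDerivAt (hU.dA _ hs).hasDerivAt
    (hasDerivAt_const (y s) (0 : ℝ)) (D := 0) (hU.β_pos _ hs).ne'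
    (fun Z hZ => by rw [hU.E_eq _ _ (hs.trans hZ)]; ring)
    (fun Z hZ => hU.b_eq _ _ (hs.trans hZ))
  refine this.congr_deriv ?_
  simp [K']

/-- `q² = K + P²`. -/
theorem q_sq (hU : m.Upper β A Y) (h : EB.Orbit m x y q η) (s : ℝ) (hs : Y ≤ y s) :
    q s ^ 2 = (β (y s) ^ 2 - η s ^ 2) + PP A (x s) (y s) ^ 2 := by
  have := h.en s
  rw [hU.E_eq _ _ hs] at this
  linarith

theorem uu_mul_le_P (hU : m.Upper β A Y) {x y : ℝ} (hs : Y ≤ y) :
    uu x * (1 + A y / 2 * uu x) ≤ |PP A x y| := by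
  have hA := hU.A_nonneg _ hs
  have hu := uu_nonneg x
  have h1 : 0 ≤ 1 + A y / 2 * uu x := by positivity
  unfold PP
  rw [abs_mul, abs_of_nonneg h1]
  refine mul_le_mul_of_nonneg_right ?_ h1
  unfold uu
  rw [← sq_abs]
  have h2 : |Real.sin (Real.pi * x)| ≤ 1 := Real.abs_sin_le_one _
  nlinarith [abs_nonneg (Real.sin (Real.pi * x))]

/-- The sign of `K'`: it is `≥ 0` if `K ≥ 0` and `q < 0`. -/
theorem K'_nonneg (hU : m.Upper β A Y) (h : EB.Orbit m x y q η) (s : ℝ) (hs : Y ≤ y s)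
    (hK : 0 ≤ β (y s) ^ 2 - η s ^ 2) (hq : q s ≤ 0) :
    0 ≤ K' m β A (x s) (y s) (q s) (η s) := by
  have hE := h.E_pos s
  have hu := uu_nonneg (x s)
  have hβ := hU.β_pos _ hs
  have hA := hU.A_nonneg _ hs
  have hβ' := hU.β_anti _ hs
  have hA' := hU.A_anti _ hs
  have hr := hU.ratio _ hs
  have hqq := hU.q_sq h s hs
  have hP := hU.uu_mul_le_P (x := x s) hs
  unfold K'
  refine mul_nonneg (by positivity) ?_
  generalize β (y s) = B at *
  generalize deriv β (y s) = B' at *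
  generalize deriv A (y s) = C' at *
  generalize hW : uu (x s) * (1 + A (y s) / 2 * uu (x s)) = W at *
  have hW0 : 0 ≤ W := by rw [← hW]; positivity
  have e1 : C' * η s * uu (x s) * (1 + A (y s) / 2 * uu (x s)) / 2 = C' * η s * W / 2 := by
    rw [← hW]; ring
  rw [e1]
  generalize A (y s) = C at *
  generalize η s = e at *
  -- `W ≤ |q|`
  have hWq : W ≤ -q s := by
    have h1 : |PP A (x s) (y s)| ≤ |q s| := sq_le_sq.1 (by linarith)
    rw [abs_of_nonpos hq] at h1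
    exact hP.trans h1
  have he : |e| ≤ B := abs_le_of_sq_le_sq (by linarith) hβ.le
  -- reduce to the scalar inequality
  have key : 0 ≤ -(B * C') + (C' * B - C * B') / B ^ 2 * (B ^ 2 - e ^ 2) + C' * |e| / 2 := by
    have hB2 : 0 < B ^ 2 := by positivity
    have e2 : -(B * C') + (C' * B - C * B') / B ^ 2 * (B ^ 2 - e ^ 2) + C' * |e| / 2 =
        ((-(B * C')) * (|e| ^ 2 - B * |e| / 2) + (-(C * B')) * (B ^ 2 - |e| ^ 2)) / B ^ 2 := by
      rw [sq_abs]
      field_simp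
      ring
    rw [e2]
    refine div_nonneg ?_ hB2.le
    have h1 : 0 ≤ -(B * C') := by nlinarith
    have h2 : 0 ≤ -(C * B') := by nlinarith
    have he0 := abs_nonneg e
    generalize |e| = a at *
    generalize -(B * C') = X at *
    generalize -(C * B') = Z at *
    rcases le_total 0 (a ^ 2 - B * a / 2) with h3 | h3
    · have h4 : 0 ≤ B ^ 2 - a ^ 2 := by nlinarith
      positivity
    · have h4 : 0 ≤ B ^ 2 - a ^ 2 := by nlinarith
      have h5 : X * (a ^ 2 - B * a / 2) ≥ 12 * Z * (a ^ 2 - B * a / 2) := by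
        nlinarith
      have h6 : 0 ≤ 12 * (a ^ 2 - B * a / 2) + (B ^ 2 - a ^ 2) := by
        nlinarith [sq_nonneg (11 * a - 3 * B), sq_nonneg (a - B)]
      nlinarith
  have h7 : C' * e * W ≤ -(C' * |e|) * (-q s) := by
    have h8 : C' * e ≤ -(C' * |e|) := by nlinarith [neg_abs_le e]
    have h9 : 0 ≤ -(C' * |e|) := by nlinarith [abs_nonneg e]
    calc C' * e * W ≤ -(C' * |e|) * W := mul_le_mul_of_nonneg_right h8 hW0
      _ ≤ _ := mul_le_mul_of_nonneg_left hWq h9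
  have h10 : 0 ≤ (-q s) * (-(B * C') + (C' * B - C * B') / B ^ 2 * (B ^ 2 - e ^ 2)
      + C' * |e| / 2) := mul_nonneg (by linarith) key
  nlinarith

/-- In the upper region `{K > 0, q < 0}` is preserved forward in time and `K` does not
decrease there. -/
theorem K_mono (hU : m.Upper β A Y) (h : EB.Orbit m x y q η) {s₀ s₁ : ℝ}
    (hy : ∀ s ∈ Icc s₀ s₁, Y ≤ y s) (hK : 0 < β (y s₀) ^ 2 - η s₀ ^ 2) (hq : q s₀ < 0) :
    (∀ s ∈ Icc s₀ s₁, q s < 0) ∧
      MonotoneOn (fun r => β (y r) ^ 2 - η r ^ 2) (Icc s₀ s₁) := by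
  have hcK : ContinuousOn (fun r => β (y r) ^ 2 - η r ^ 2) (Icc s₀ s₁) := fun r hr =>
    (hU.hasDerivAt_K h r (hy r hr)).continuousAt.continuousWithinAt
  -- on a subinterval where `q ≤ 0` and `K ≥ 0`, `K` is monotone
  have step : ∀ t, t ≤ s₁ → (∀ s ∈ Ico s₀ t, q s ≤ 0 ∧ 0 ≤ β (y s) ^ 2 - η s ^ 2) →
      MonotoneOn (fun r => β (y r) ^ 2 - η r ^ 2) (Icc s₀ t) := by
    intro t ht hpos
    have hsub : Icc s₀ t ⊆ Icc s₀ s₁ := Icc_subset_Icc_right ht
    refine monotoneOn_of_deriv_nonneg (convex_Icc _ _) (hcK.mono hsub) ?_ ?_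
    · intro r hr
      rw [interior_Icc] at hr
      exact (hU.hasDerivAt_K h r (hy r (hsub ⟨hr.1.le, hr.2.le⟩))).differentiableAt.differentiableWithinAt
    · intro r hr
      rw [interior_Icc] at hr
      have hyr := hy r (hsub ⟨hr.1.le, hr.2.le⟩)
      rw [(hU.hasDerivAt_K h r hyr).deriv]
      have := hpos r ⟨hr.1.le, hr.2⟩
      exact hU.K'_nonneg h r hyr this.2 this.1
  -- the set of bad times is empty
  have hmain : ∀ s ∈ Icc s₀ s₁, q s < 0 ∧ 0 < β (y s) ^ 2 - η s ^ 2 := by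
    by_contra hcon
    push Not at hcon
    let B : Set ℝ := {s | s ∈ Icc s₀ s₁ ∧ (0 ≤ q s ∨ β (y s) ^ 2 - η s ^ 2 ≤ 0)}
    have hBne : B.Nonempty := by
      obtain ⟨s, hs1, hs2⟩ := hcon
      refine ⟨s, hs1, ?_⟩
      by_cases hqs : q s < 0
      · exact Or.inr (hs2 hqs)
      · exact Or.inl (not_lt.1 hqs)
    have hBb : BddBelow B := ⟨s₀, fun t ht => ht.1.1⟩
    have hBc : IsClosed B := by
      have hB : B = (Icc s₀ s₁ ∩ q ⁻¹' (Ici 0)) ∪
          (Icc s₀ s₁ ∩ (fun r => β (y r) ^ 2 - η r ^ 2) ⁻¹' (Iic 0)) := by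
        ext s
        simp only [B, Set.mem_ofPred_eq, mem_union, mem_inter_iff, mem_preimage, mem_Ici, mem_Iic]
        tauto
      rw [hB]
      refine IsClosed.union ?_ ?_
      · exact isClosed_Icc.inter (isClosed_Ici.preimage h.continuous_q)
      · exact hcK.preimage_isClosed_of_isClosed isClosed_Icc isClosed_Iic
    have hmem := hBc.csInf_mem hBne hBb
    set t := sInf B with ht
    have hlt : ∀ s ∈ Ico s₀ t, q s ≤ 0 ∧ 0 ≤ β (y s) ^ 2 - η s ^ 2 := by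
      intro s hs'
      by_contra hneg
      have : s ∈ B := by
        refine ⟨⟨hs'.1, hs'.2.le.trans hmem.1.2⟩, ?_⟩
        by_contra hcc
        push Not at hcc
        exact hneg ⟨hcc.1.le, hcc.2.le⟩
      exact absurd (csInf_le hBb this) (not_le.2 hs'.2)
    have hmono := step t hmem.1.2 hlt
    have hKt : 0 < β (y t) ^ 2 - η t ^ 2 :=
      hK.trans_le (hmono (left_mem_Icc.2 hmem.1.1) (right_mem_Icc.2 hmem.1.1) hmem.1.1)
    have hqt : q t ≠ 0 := by
      intro h0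
      have := hU.q_sq h t (hy t hmem.1)
      rw [h0] at this
      nlinarith [sq_nonneg (PP A (x t) (y t))]
    have hqle : q t ≤ 0 := by
      rcases eq_or_lt_of_le hmem.1.1 with h0 | h0
      · rw [← h0]; exact hq.le
      · have : ∀ᶠ r in 𝓝[<] t, q r ≤ 0 := by
          filter_upwards [Ioo_mem_nhdsLT h0] with r hr
          exact (hlt r ⟨hr.1.le, hr.2⟩).1
        exact le_of_tendsto (h.continuous_q.continuousAt.tendsto.mono_left nhdsWithin_le_nhds)
          this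
    rcases hmem.2 with h1 | h1
    · exact hqt (le_antisymm hqle h1)
    · linarith
  exact ⟨fun s hs' => (hmain s hs').1,
    step s₁ le_rfl fun s hs' => ⟨(hmain s ⟨hs'.1, hs'.2.le⟩).1.le, (hmain s ⟨hs'.1, hs'.2.le⟩).2.le⟩⟩

/-- Backward form: in the upper region `{K > 0, q > 0}` is preserved backward in time and `K`
does not increase there. -/
theorem K_anti (hU : m.Upper β A Y) (h : EB.Orbit m x y q η) {s₀ s₁ : ℝ}
    (hy : ∀ s ∈ Icc s₀ s₁, Y ≤ y s) (hK : 0 < β (y s₁) ^ 2 - η s₁ ^ 2) (hq : 0 < q s₁) :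
    (∀ s ∈ Icc s₀ s₁, 0 < q s) ∧
      AntitoneOn (fun r => β (y r) ^ 2 - η r ^ 2) (Icc s₀ s₁) := by
  have h1 := hU.K_mono h.rev (s₀ := -s₁) (s₁ := -s₀)
    (fun s hs => hy (-s) ⟨by linarith [hs.2], by linarith [hs.1]⟩)
    (by simpa using hK) (by simpa using hq)
  refine ⟨fun s hs => ?_, fun s hs t ht hst => ?_⟩
  · have := h1.1 (-s) ⟨by linarith [hs.2], by linarith [hs.1]⟩
    simpa using this
  · have := h1.2 (show -t ∈ Icc (-s₁) (-s₀) from ⟨by linarith [ht.2], by linarith [ht.1]⟩)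
      (show -s ∈ Icc (-s₁) (-s₀) from ⟨by linarith [hs.2], by linarith [hs.1]⟩) (by linarith)
    simpa using this

end EB.Upper

end Pool.Agent.CyGN
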