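import Pool.Agent.CyGN.Metric
import Pool.Agent.CyGN.CuspC
import Pool.Agent.CyGN.FamTool

set_option autoImplicit false

/-!
# The metric of the counterexample: completeness, the cusp and the axes
-/

namespace Pool.Agent.CyGN

open Pool.Agent.CyG Set Filter Topology
open scoped ContDiff

theorem metNO_complete : metNO.metric.Complete := by
  have hc : Continuous fun t : ℝ => 1 / 2 * (√(1 + t ^ 2))⁻¹ := by
    refine continuous_const.mul (Continuous.inv₀ (by fun_prop) fun t => ?_)
    positivity
  have hint : (fun t => ∫ u in (0 : ℝ)..t, 1 / 2 * (√(1 + u ^ 2))⁻¹)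
      = fun t => 1 / 2 * Real.arsinh t := by
    funext t
    rw [intervalIntegral.integral_eq_sub_of_hasDerivAt
      (fun u _ => (Real.hasDerivAt_arsinh u).const_mul (1 / 2)) (hc.intervalIntegrable _ _)]
    simp
  refine CylMetric.complete_of_lower metNO.metric hc (fun t => by positivity) ?_ ?_
    fun x t v w => ?_
  · rw [hint]
    exact (Real.sinhOrderIso.symm.tendsto_atTop).const_mul_atTop (by norm_num)
  · rw [hint]
    exact (Real.sinhOrderIso.symm.tendsto_atBot).const_mul_atBot (by norm_num)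
  · have h := metNO_form x t v w
    set Φ := metNO.metric.E (x, t) * v ^ 2 + 2 * metNO.metric.F (x, t) * v * w
      + metNO.metric.G (x, t) * w ^ 2
    have h1 : 0 < 1 + t ^ 2 := by positivity
    rw [mul_pow, inv_pow, Real.sq_sqrt h1.le]
    have h2 : (1 / 2) ^ 2 * (1 + t ^ 2)⁻¹ * w ^ 2 = w ^ 2 / (4 * (1 + t ^ 2)) := by
      field_simp
      norm_num
      ring
    rw [h2, div_le_iff₀ (by positivity)]
    have h3 : 0 ≤ Φ := by
      by_contra hneg
      push Not at hneg
      nlinarith [sq_nonneg v, sq_nonneg w]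
    nlinarith [sq_nonneg v]

theorem hh_tendsto : Tendsto hh atBot (𝓝 0) := by
  have h1 : Tendsto (fun y : ℝ => 1 + e0 (-y - 1)) atBot atTop := by
    have h2 : ∀ᶠ y : ℝ in atBot, -y + (-1) ≤ 1 + e0 (-y - 1) := by
      filter_upwards [eventually_le_atBot (-2 : ℝ)] with y hy
      have h3 := e0_one_le (-y - 1) (by linarith)
      have h4 := e0_nonneg 1
      rw [h3]
      linarith
    refine tendsto_atTop_mono' _ h2 ?_
    exact tendsto_atTop_add_const_right _ (-1) tendsto_neg_atBot_atTop
  have h5 := h1.inv_tendsto_atTop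
  refine h5.congr fun y => ?_
  simp [hh]

theorem metNO_cusp : CuspProfile metNO (beta 0) hh where
  M_pos := beta_pos 0
  E_eq x y hy := EE_cusp x hy
  b_eq x y hy := bb_R0 x (by linarith)
  h_one y hy := hh_one hy
  h_pos := hh_pos
  h_diff y := (hh_hasDerivAt y).differentiableAt
  h_deriv_pos y hy := by rw [(hh_hasDerivAt y).deriv]; exact hh'_pos hy
  h_deriv_le y := by rw [(hh_hasDerivAt y).deriv]; exact hh'_le y
  h_lim := hh_tendsto

theorem metNO_cCusp : EB.CCusp metNO := metNO_cusp.cCusp

theorem metNO_cVert : EB.CVert metNO (beta 0) := metNO_cusp.cVert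

/-- The axis lemma for the final metric. -/
theorem metNO_axis {x y q η : ℝ → ℝ} (h : EB.Orbit metNO x y q η) {k : ℤ} {s₀ : ℝ}
    (hx : x s₀ = k) (hq : q s₀ = 0) : ∀ s, x s = k ∧ q s = 0 :=
  h.axis (fun Y => dx_EE_int k Y) (fun Y => bb_int k Y) hx hq

/-- The value of `E` at `y = 0`. -/
theorem metNO_E_zero (a : ℝ) : metNO.E (a, 0) = beta 0 ^ 2 := by
  show EE (a, 0) = _
  rw [EE_cusp a le_rfl, hh_one (by norm_num)]; ring

end Pool.Agent.CyGN
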