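import Pool.Agent.CyGN.RetMet
import Pool.Agent.CyGN.DownMet
import Pool.Agent.CyGN.FamMet
import Pool.Agent.CyGN.MetC

set_option autoImplicit false

/-!
# Every injective line of `metNO` passes through `(0, 0)`, from Lemma E
-/

namespace Pool.Agent.CyGN

open Set Pool.Agent.CyG

theorem metNO_visit' : EB.CVisit metNO := fun _ _ _ _ h => metNO_visit h

theorem metNO_cRet : EB.CRet metNO beta := cRet_metNO fun x y hy _ => lemU x y hy

/-- Every injective geodesic line of the metric passes through the point `(0, 0)`. -/
theorem metNO_line (hE : EB.CExp metNO beta (2 / NN) 7e-6)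
    {c : ℝ → AddCircle (1 : ℝ) × ℝ} (hc : metNO.metric.IsLine c) (hinj : Function.Injective c) :
    ∃ s, c s = (0, 0) :=
  EB.end_line (beta_pos 0) metNO_E_zero metNO_visit' metNO_cCusp metNO_cVert metNO_cFam hE
    metNO_cRet hc hinj

end Pool.Agent.CyGN
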