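import Pool.Agent.CyGN.Kid

set_option autoImplicit false

/-!
# The return to `y = 0` of an orbit with `K > 0` and `q < 0`

Section 5, (B) and (RET).
-/

namespace Pool.Agent.CyGN

open Pool.Agent.CyG Set Filter Topology
open scoped ContDiff

/-! ### General facts -/

theorem eventually_gt_of_hasDerivAt_pos {f : ℝ → ℝ} {f' t : ℝ} (h : HasDerivAt f f' t)
    (hf : 0 < f') : ∀ᶠ s in 𝓝[>] t, f t < f s := by
  have h1 := hasDerivAt_iff_tendsto_slope.1 h
  have h2 : ∀ᶠ s in 𝓝[≠] t, 0 < slope f t s := h1.eventually (lt_mem_nhds hf)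
  have h3 : ∀ᶠ s in 𝓝[>] t, 0 < slope f t s :=
    h2.filter_mono (nhdsWithin_mono _ fun s hs => ne_of_gt hs)
  filter_upwards [h3, self_mem_nhdsWithin] with s hs hst
  have hst' : 0 < s - t := sub_pos.2 hst
  have : 0 < (s - t) * slope f t s := mul_pos hst' hs
  have e : (s - t) * slope f t s = f s - f t := by
    rw [slope_def_field]
    field_simp
  linarith

theorem eventually_lt_of_hasDerivAt_neg {f : ℝ → ℝ} {f' t : ℝ} (h : HasDerivAt f f' t)
    (hf : f' < 0) : ∀ᶠ s in 𝓝[>] t, f s < f t := by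
  have := eventually_gt_of_hasDerivAt_pos h.neg (by linarith)
  filter_upwards [this] with s hs
  simp only [Pi.neg_apply] at hs
  linarith

theorem le_add_mul_of_hasDerivAt_le {f f' : ℝ → ℝ} {a b k : ℝ} (hab : a ≤ b)
    (hf : ∀ t ∈ Icc a b, HasDerivAt f (f' t) t) (hk : ∀ t ∈ Icc a b, f' t ≤ k) :
    f b ≤ f a + k * (b - a) := by
  have := (convex_Icc a b).image_sub_le_mul_sub_of_deriv_le (f := f) (C := k)
    (fun t ht => (hf t ht).continuousAt.continuousWithinAt)
    (fun t ht => (hf t (interior_subset ht)).differentiableAt.differentiableWithinAt)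
    (fun t ht => by rw [(hf t (interior_subset ht)).deriv]; exact hk t (interior_subset ht))
    a (left_mem_Icc.2 hab) b (right_mem_Icc.2 hab) hab
  linarith

/-- `E` is bounded on `{a ≤ y ≤ b}`. -/
theorem EB.exists_E_le (m : EB) (a b : ℝ) :
    ∃ M : ℝ, 0 < M ∧ ∀ x, ∀ y ∈ Icc a b, m.E (x, y) ≤ M := by
  have hc : ContinuousOn m.E (Icc (0 : ℝ) 1 ×ˢ Icc a b) := m.smooth_E.continuous.continuousOn
  obtain ⟨M, hM⟩ := (isCompact_Icc.prod isCompact_Icc).bddAbove_image hc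
  refine ⟨max M 1, by positivity, fun x y hy => ?_⟩
  have h1 : m.E (x, y) = m.E (Int.fract x, y) := by
    have := EB.Orbit.E_add_int m (Int.fract x) y ⌊x⌋
    rw [Int.fract_add_floor] at this
    exact this
  rw [h1]
  refine le_trans (hM (mem_image_of_mem _ ⟨⟨Int.fract_nonneg _, (Int.fract_lt_one _).le⟩, hy⟩))
    (le_max_left _ _)

theorem two_mul_abs_le {q η E : ℝ} (h : q ^ 2 + η ^ 2 = E) : 2 * |q * η| ≤ E := by
  rw [← h, abs_mul, ← sq_abs q, ← sq_abs η]
  nlinarith [sq_nonneg (|q| - |η|)]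

/-- The sign of `η'` from the inequality `E_y + |b_y| E < 0`. -/
theorem EB.Orbit.eta_der_neg {m : EB} {x y q η : ℝ → ℝ} (h : EB.Orbit m x y q η) (s : ℝ)
    (hn : CyG.dt m.E (x s, y s) + |CyG.dt m.b (x s, y s)| * m.E (x s, y s) < 0) :
    CyG.dt m.E (x s, y s) / (2 * m.E (x s, y s))
      - CyG.dt m.b (x s, y s) * q s * η s / m.E (x s, y s) < 0 := by
  have hE := h.E_pos s
  have h2 := two_mul_abs_le (h.en s)
  generalize m.E (x s, y s) = e at *
  generalize CyG.dt m.E (x s, y s) = e' at *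
  generalize CyG.dt m.b (x s, y s) = b' at *
  have h3 : -(b' * (q s * η s)) ≤ |b'| * |q s * η s| := by
    rw [← abs_mul]; exact neg_le_abs _
  have h4 : |b'| * |q s * η s| ≤ |b'| * (e / 2) :=
    mul_le_mul_of_nonneg_left (by linarith) (abs_nonneg _)
  have e1 : e' / (2 * e) - b' * q s * η s / e = (e' - 2 * (b' * (q s * η s))) / (2 * e) := by
    field_simp
  rw [e1]
  apply div_neg_of_neg_of_pos _ (by linarith)
  nlinarith

/-! ### The upper region -/

/-- Numerical facts on `{y ≥ 2}`. -/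
structure EB.RetUp (m : EB) (β A Yf : ℝ → ℝ) : Prop where
  up : m.Upper β A 2
  Y_ge : ∀ y, 2 ≤ y → 10 ^ 6 ≤ Yf y
  Y_le : ∀ y, 2 ≤ y → Yf y ≤ 10 ^ 6 + y
  dβ_eq : ∀ y, 2 ≤ y → deriv β y = -(β y / Yf y)
  dA_ge : ∀ y, 2 ≤ y → -(3 * A y / Yf y) ≤ deriv A y
  β_le : ∀ y, 2 ≤ y → β y ≤ 100
  A_le : ∀ y, 2 ≤ y → A y ≤ 226 / 10 ^ 8 * β y ^ 3
  β_two : 9999 / 100 ≤ β 2
  β_lim : Tendsto β atTop (𝓝 0)

namespace EB.Upper

variable {m : EB} {β A : ℝ → ℝ} {Y : ℝ} {x y q η : ℝ → ℝ}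

theorem dtE_eq (hU : m.Upper β A Y) (x : ℝ) {y : ℝ} (hy : Y ≤ y) : CyG.dt m.E (x, y) =
    2 * β y * deriv β y + 2 * PP A x y * (Real.sin (Real.pi * x) * (deriv A y / 2 * uu x)) := by
  have hP : HasDerivAt (fun Z => PP A x Z)
      (Real.sin (Real.pi * x) * (deriv A y / 2 * uu x)) y :=
    (((((hU.dA _ hy).hasDerivAt.div_const 2).mul_const (uu x)).const_add 1).const_mul
      (Real.sin (Real.pi * x)))
  have := dt_eq_of_Ici m.smooth_E (((hU.dβ _ hy).hasDerivAt.pow 2).add (hP.pow 2))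
    (x := x) (y := y) (fun Z hZ => by
      simp only [Pi.add_apply, Pi.pow_apply]
      exact hU.E_eq x Z (hy.trans hZ))
  rw [this]
  simp

theorem dtb_eq (hU : m.Upper β A Y) (x : ℝ) {y : ℝ} (hy : Y ≤ y) : CyG.dt m.b (x, y) =
    (deriv A y * β y - A y * deriv β y) / β y ^ 2 * uu x := by
  exact dt_eq_of_Ici m.smooth_b (((hU.dA _ hy).hasDerivAt.div (hU.dβ _ hy).hasDerivAt
    (hU.β_pos _ hy).ne').mul_const (uu x)) (fun Z hZ => hU.b_eq x Z (hy.trans hZ))

end EB.Upper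

namespace EB.RetUp

variable {m : EB} {β A Yf : ℝ → ℝ} {x y q η : ℝ → ℝ}

theorem A_le' (hR : m.RetUp β A Yf) {y : ℝ} (hy : 2 ≤ y) : A y ≤ 226 / 10000 * β y := by
  have h1 := hR.A_le y hy
  have h2 := hR.β_le y hy
  have h3 := hR.up.β_pos y hy
  have h4 : β y ^ 2 ≤ 10000 := by nlinarith
  nlinarith

theorem A_le_const (hR : m.RetUp β A Yf) {y : ℝ} (hy : 2 ≤ y) : A y ≤ 226 / 100 := by
  have h1 := hR.A_le' hy
  have h2 := hR.β_le y hy
  linarith

theorem PP_sq_le (hR : m.RetUp β A Yf) (x : ℝ) {y : ℝ} (hy : 2 ≤ y) :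
    PP A x y ^ 2 ≤ 46 / 10 := by
  have h1 := hR.A_le_const hy
  have h0 := hR.up.A_nonneg y hy
  have hu := uu_nonneg x
  have hu1 := uu_le_one x
  have e : PP A x y ^ 2 = uu x * (1 + A y / 2 * uu x) ^ 2 := by
    unfold PP uu; ring
  rw [e]
  have h2 : 1 + A y / 2 * uu x ≤ 213 / 100 := by nlinarith
  have h3 : 0 ≤ 1 + A y / 2 * uu x := by positivity
  have h4 : (1 + A y / 2 * uu x) ^ 2 ≤ (213 / 100) ^ 2 := pow_le_pow_left₀ h3 h2 2
  nlinarith [mul_nonneg hu (sub_nonneg.2 h4)]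

theorem E_le (hR : m.RetUp β A Yf) (x : ℝ) {y : ℝ} (hy : 2 ≤ y) :
    m.E (x, y) ≤ β y ^ 2 + 46 / 10 := by
  rw [hR.up.E_eq x y hy]
  linarith [hR.PP_sq_le x hy]

/-- `E η' ≤ - 0.977 β² / Y`. -/
theorem eta_der_le (hR : m.RetUp β A Yf) (h : EB.Orbit m x y q η) (s : ℝ) (hs : 2 ≤ y s) :
    CyG.dt m.E (x s, y s) / (2 * m.E (x s, y s))
      - CyG.dt m.b (x s, y s) * q s * η s / m.E (x s, y s) ≤
      -(977 / 1000 * β (y s) ^ 2 / Yf (y s)) / m.E (x s, y s) := by
  have hE := h.E_pos s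
  have hE1 := hR.E_le (x s) hs
  have h2 := two_mul_abs_le (h.en s)
  have hβ := hR.up.β_pos _ hs
  have hβ1 := hR.β_le _ hs
  have hA := hR.up.A_nonneg _ hs
  have hA1 := hR.A_le _ hs
  have hdA := hR.up.A_anti _ hs
  have hdA1 := hR.dA_ge _ hs
  have hY := hR.Y_ge _ hs
  have hu := uu_nonneg (x s)
  have hu1 := uu_le_one (x s)
  have hY0 : 0 < Yf (y s) := by linarith
  rw [hR.up.dtE_eq _ hs, hR.up.dtb_eq _ hs, hR.dβ_eq _ hs]
  -- the `P P_y` term is nonpositive
  have hPP : 2 * PP A (x s) (y s) * (Real.sin (Real.pi * x s) * (deriv A (y s) / 2 * uu (x s)))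
      ≤ 0 := by
    have e : 2 * PP A (x s) (y s) * (Real.sin (Real.pi * x s) * (deriv A (y s) / 2 * uu (x s)))
        = deriv A (y s) * (uu (x s) ^ 2 * (1 + A (y s) / 2 * uu (x s))) := by
      unfold PP uu; ring
    rw [e]
    exact mul_nonpos_of_nonpos_of_nonneg hdA (by positivity)
  generalize 2 * PP A (x s) (y s) * (Real.sin (Real.pi * x s) * (deriv A (y s) / 2 * uu (x s)))
    = R at *
  generalize m.E (x s, y s) = e at *
  generalize β (y s) = B at *
  generalize deriv A (y s) = C' at *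
  generalize A (y s) = C at *
  generalize Yf (y s) = W at *
  generalize uu (x s) = u at *
  have e1 : (2 * B * -(B / W) + R) / (2 * e)
      - (C' * B - C * -(B / W)) / B ^ 2 * u * q s * η s / e
      = ((-(B ^ 2 / W) + R / 2) - (C' * B - C * -(B / W)) / B ^ 2 * u * (q s * η s)) / e := by
    field_simp
  rw [e1]
  refine div_le_div_of_nonneg_right ?_ hE.le
  -- the coefficient of `q η`
  have hT : |(C' * B - C * -(B / W)) / B ^ 2 * u| ≤ 2 * C / (B * W) := by
    have e2 : (C' * B - C * -(B / W)) / B ^ 2 * u = (C' * W + C) / (B * W) * u := by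
      field_simp
      ring
    rw [e2, abs_mul, abs_of_nonneg hu, abs_div, abs_of_pos (mul_pos hβ hY0)]
    have h5 : |C' * W + C| ≤ 2 * C := by
      have h6 : -(3 * C) ≤ C' * W := by
        have := mul_le_mul_of_nonneg_right hdA1 hY0.le
        have e3 : -(3 * C / W) * W = -(3 * C) := by field_simp
        linarith
      have h7 : C' * W ≤ 0 := mul_nonpos_of_nonpos_of_nonneg hdA hY0.le
      exact abs_le.2 ⟨by linarith, by linarith⟩
    have h8 : 0 ≤ |C' * W + C| / (B * W) := by positivity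
    calc |C' * W + C| / (B * W) * u ≤ |C' * W + C| / (B * W) * 1 :=
          mul_le_mul_of_nonneg_left hu1 h8
      _ ≤ 2 * C / (B * W) := by
          rw [mul_one]
          exact div_le_div_of_nonneg_right h5 (by positivity)
  have h9 : -((C' * B - C * -(B / W)) / B ^ 2 * u * (q s * η s)) ≤ C * e / (B * W) := by
    calc -((C' * B - C * -(B / W)) / B ^ 2 * u * (q s * η s))
        ≤ |(C' * B - C * -(B / W)) / B ^ 2 * u * (q s * η s)| := neg_le_abs _
      _ = |(C' * B - C * -(B / W)) / B ^ 2 * u| * |q s * η s| := abs_mul _ _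
      _ ≤ 2 * C / (B * W) * (e / 2) := by
          refine mul_le_mul hT (by linarith) (abs_nonneg _) (by positivity)
      _ = C * e / (B * W) := by ring
  have h10 : C * e / (B * W) ≤ 23 / 1000 * B ^ 2 / W := by
    rw [div_le_div_iff₀ (by positivity) hY0]
    have h11 : e ≤ 100046 / 10 := by nlinarith
    have h12 : C * e ≤ 226 / 10 ^ 8 * B ^ 3 * (100046 / 10) := by
      refine mul_le_mul hA1 h11 hE.le (by positivity)
    have h13 : C * e ≤ 23 / 1000 * B ^ 3 := by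
      have : 0 < B ^ 3 := by positivity
      nlinarith
    have h14 : C * e * W ≤ 23 / 1000 * B ^ 3 * W := mul_le_mul_of_nonneg_right h13 hY0.le
    calc C * e * W ≤ 23 / 1000 * B ^ 3 * W := h14
      _ = 23 / 1000 * B ^ 2 * (B * W) := by ring
  have e4 : -(977 / 1000 * B ^ 2 / W) = -(B ^ 2 / W) + 23 / 1000 * B ^ 2 / W := by ring
  rw [e4]
  linarith

/-- (B), first half: `E K' ≤ 9 (A β / Y) √(5 + K)`. -/
theorem K'_le (hR : m.RetUp β A Yf) (h : EB.Orbit m x y q η) (s : ℝ) (hs : 2 ≤ y s)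
    (hK : 0 ≤ β (y s) ^ 2 - η s ^ 2) (hq : q s ≤ 0) :
    EB.Upper.K' m β A (x s) (y s) (q s) (η s) ≤
      9 * (A (y s) * β (y s) / Yf (y s)) * √(5 + (β (y s) ^ 2 - η s ^ 2))
        / m.E (x s, y s) := by
  have hE := h.E_pos s
  have hβ := hR.up.β_pos _ hs
  have hA := hR.up.A_nonneg _ hs
  have hdA := hR.up.A_anti _ hs
  have hdA1 := hR.dA_ge _ hs
  have hY := hR.Y_ge _ hs
  have hu := uu_nonneg (x s)
  have hu1 := uu_le_one (x s)
  have hY0 : 0 < Yf (y s) := by linarith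
  have hqq := hR.up.q_sq h s hs
  have hPs := hR.PP_sq_le (x s) hs
  have hP := hR.up.uu_mul_le_P (x := x s) hs
  have hr0 : 0 ≤ √(5 + (β (y s) ^ 2 - η s ^ 2)) := Real.sqrt_nonneg _
  have hqr : -q s ≤ √(5 + (β (y s) ^ 2 - η s ^ 2)) := by
    refine Real.le_sqrt_of_sq_le ?_
    rw [neg_sq]
    linarith
  generalize √(5 + (β (y s) ^ 2 - η s ^ 2)) = r at *
  unfold EB.Upper.K'
  rw [hR.dβ_eq _ hs]
  generalize hW : uu (x s) * (1 + A (y s) / 2 * uu (x s)) = V at *
  have hV0 : 0 ≤ V := by rw [← hW]; positivity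
  have hVq : V ≤ -q s := by
    have h1 : |PP A (x s) (y s)| ≤ |q s| := sq_le_sq.1 (by linarith)
    rw [abs_of_nonpos hq] at h1
    exact hP.trans h1
  have he : |η s| ≤ β (y s) := abs_le_of_sq_le_sq (by linarith) hβ.le
  have e1 : deriv A (y s) * η s * uu (x s) * (1 + A (y s) / 2 * uu (x s)) / 2 =
      deriv A (y s) * η s * V / 2 := by rw [← hW]; ring
  rw [e1]
  clear e1 hW hP hqq hPs
  generalize m.E (x s, y s) = E at *
  generalize β (y s) = B at *
  generalize deriv A (y s) = C' at *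
  generalize A (y s) = C at *
  generalize Yf (y s) = W at *
  generalize uu (x s) = u at *
  generalize η s = e at *
  generalize q s = p at *
  have h6 : -(3 * C) ≤ C' * W := by
    have := mul_le_mul_of_nonneg_right hdA1 hY0.le
    have e3 : -(3 * C / W) * W = -(3 * C) := by field_simp
    linarith
  have h7 : C' * W ≤ 0 := mul_nonpos_of_nonpos_of_nonneg hdA hY0.le
  -- the bracket
  have hT : -(B * C') + (C' * B - C * -(B / W)) / B ^ 2 * (B ^ 2 - e ^ 2) ≤ 3 * C * B / W := by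
    have e2 : -(B * C') + (C' * B - C * -(B / W)) / B ^ 2 * (B ^ 2 - e ^ 2) =
        (-(C' * W) * e ^ 2 + C * (B ^ 2 - e ^ 2)) / (B * W) := by
      field_simp
      ring
    rw [e2, div_le_div_iff₀ (by positivity) hY0]
    have h8 : -(C' * W) * e ^ 2 + C * (B ^ 2 - e ^ 2) ≤ 3 * C * B ^ 2 := by
      have h9 : -(C' * W) * e ^ 2 ≤ 3 * C * e ^ 2 :=
        mul_le_mul_of_nonneg_right (by linarith) (sq_nonneg _)
      nlinarith [mul_nonneg hA hK]
    nlinarith [mul_le_mul_of_nonneg_right h8 hY0.le]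
  have h10 : -(p * (-(B * C') + (C' * B - C * -(B / W)) / B ^ 2 * (B ^ 2 - e ^ 2))) ≤
      (-p) * (3 * C * B / W) := by
    rw [← neg_mul]
    exact mul_le_mul_of_nonneg_left hT (by linarith)
  have h11 : -(C' * e * V / 2) ≤ (-p) * (3 / 2 * C * B / W) := by
    have h12 : -(C' * e) ≤ -C' * B := by
      have : -C' * e ≤ -C' * B :=
        mul_le_mul_of_nonneg_left ((le_abs_self e).trans he) (by linarith)
      linarith
    have h13 : -C' * B ≤ 3 * C * B / W := by
      rw [le_div_iff₀ hY0]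
      nlinarith
    have h14 : -(C' * e) * V ≤ (3 * C * B / W) * (-p) := by
      have h15 : 0 ≤ 3 * C * B / W := by positivity
      calc -(C' * e) * V ≤ (3 * C * B / W) * V :=
            mul_le_mul_of_nonneg_right (h12.trans h13) hV0
        _ ≤ (3 * C * B / W) * (-p) := mul_le_mul_of_nonneg_left hVq h15
    have e5 : (-p) * (3 / 2 * C * B / W) = (3 * C * B / W) * (-p) / 2 := by ring
    rw [e5]
    linarith
  have h16 : -(p * (-(B * C') + (C' * B - C * -(B / W)) / B ^ 2 * (B ^ 2 - e ^ 2)))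
      - C' * e * V / 2 ≤ 9 / 2 * (C * B / W) * (-p) := by
    have e6 : 9 / 2 * (C * B / W) * (-p) = (-p) * (3 * C * B / W) + (-p) * (3 / 2 * C * B / W) := by
      ring
    rw [e6]
    linarith
  have h17 : 9 / 2 * (C * B / W) * (-p) ≤ 9 / 2 * (C * B / W) * r :=
    mul_le_mul_of_nonneg_left hqr (by positivity)
  have h18 : 0 ≤ 9 / 2 * (C * B / W) * r := by positivity
  calc 2 * u / E * (-(p * (-(B * C') + (C' * B - C * -(B / W)) / B ^ 2 * (B ^ 2 - e ^ 2)))
      - C' * e * V / 2) ≤ 2 * u / E * (9 / 2 * (C * B / W) * r) :=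
        mul_le_mul_of_nonneg_left (h16.trans h17) (by positivity)
    _ ≤ 2 * 1 / E * (9 / 2 * (C * B / W) * r) := by
        refine mul_le_mul_of_nonneg_right ?_ h18
        exact div_le_div_of_nonneg_right (by linarith) hE.le
    _ = 9 * (C * B / W) * r / E := by ring

/-- (B): `√(5 + K) + 0.13 η` does not increase. -/
theorem antitoneOn_F (hR : m.RetUp β A Yf) (h : EB.Orbit m x y q η) {s₀ s₁ : ℝ}
    (hy : ∀ s ∈ Icc s₀ s₁, 2 ≤ y s)
    (hK : ∀ s ∈ Icc s₀ s₁, 0 ≤ β (y s) ^ 2 - η s ^ 2) (hq : ∀ s ∈ Icc s₀ s₁, q s ≤ 0) :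
    AntitoneOn (fun s => √(5 + (β (y s) ^ 2 - η s ^ 2)) + 13 / 100 * η s) (Icc s₀ s₁) := by
  have hd : ∀ s ∈ Icc s₀ s₁, HasDerivAt
      (fun s => √(5 + (β (y s) ^ 2 - η s ^ 2)) + 13 / 100 * η s)
      (EB.Upper.K' m β A (x s) (y s) (q s) (η s) / (2 * √(5 + (β (y s) ^ 2 - η s ^ 2)))
        + 13 / 100 * (CyG.dt m.E (x s, y s) / (2 * m.E (x s, y s))
      - CyG.dt m.b (x s, y s) * q s * η s / m.E (x s, y s))) s := by
    intro s hs
    have h1 := (hR.up.hasDerivAt_K h s (hy s hs)).const_add 5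
    have h2 := h1.sqrt (by have := hK s hs; positivity)
    exact h2.add ((h.dη s).const_mul _)
  refine antitoneOn_of_deriv_nonpos (convex_Icc _ _)
    (fun s hs => (hd s hs).continuousAt.continuousWithinAt)
    (fun s hs => (hd s (interior_subset hs)).differentiableAt.differentiableWithinAt) ?_
  intro s hs
  have hs' := interior_subset hs
  rw [(hd s hs').deriv]
  have hys := hy s hs'
  have hKs := hK s hs'
  have h1 := hR.K'_le h s hys hKs (hq s hs')
  have h2 := hR.eta_der_le h s hys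
  have hE := h.E_pos s
  have hβ := hR.up.β_pos _ hys
  have hA1 := hR.A_le' hys
  have hY := hR.Y_ge _ hys
  have hY0 : 0 < Yf (y s) := by linarith
  have hr0 : 0 < √(5 + (β (y s) ^ 2 - η s ^ 2)) := Real.sqrt_pos.2 (by linarith)
  generalize √(5 + (β (y s) ^ 2 - η s ^ 2)) = r at *
  generalize EB.Upper.K' m β A (x s) (y s) (q s) (η s) = k' at *
  generalize CyG.dt m.E (x s, y s) / (2 * m.E (x s, y s))
      - CyG.dt m.b (x s, y s) * q s * η s / m.E (x s, y s) = n' at *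
  generalize m.E (x s, y s) = E at *
  generalize β (y s) = B at *
  generalize A (y s) = C at *
  generalize Yf (y s) = W at *
  have h3 : k' / (2 * r) ≤ 9 / 2 * (C * B / W) / E := by
    rw [div_le_iff₀ (by positivity)]
    calc k' ≤ 9 * (C * B / W) * r / E := h1
      _ = 9 / 2 * (C * B / W) / E * (2 * r) := by ring
  have h4 : 9 / 2 * (C * B / W) / E ≤ 13 / 100 * (977 / 1000 * B ^ 2 / W) / E := by
    refine div_le_div_of_nonneg_right ?_ hE.le
    have e1 : 9 / 2 * (C * B / W) = 9 / 2 * (C * B) / W := by ring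
    have e2 : 13 / 100 * (977 / 1000 * B ^ 2 / W) = 13 / 100 * (977 / 1000 * B ^ 2) / W := by ring
    rw [e1, e2]
    refine div_le_div_of_nonneg_right ?_ hY0.le
    nlinarith [mul_le_mul_of_nonneg_right hA1 hβ.le]
  have h5 : 13 / 100 * n' ≤ -(13 / 100 * (977 / 1000 * B ^ 2 / W) / E) := by
    calc 13 / 100 * n' ≤ 13 / 100 * (-(977 / 1000 * B ^ 2 / W) / E) :=
          mul_le_mul_of_nonneg_left h2 (by norm_num)
      _ = _ := by ring
  linarith

end EB.RetUp

end Pool.Agent.CyGN
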