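import Pool.Agent.CyGN.Ret

set_option autoImplicit false

/-!
# (RET): an orbit with `K > 0`, `q < 0` comes back to `y = 0`
-/

namespace Pool.Agent.CyGN

open Pool.Agent.CyG Set Filter Topology
open scoped ContDiff

/-- The first time after `a` at which `f` takes the value `v`, when `f` falls below `v` later. -/
theorem exists_first_eq {f : ℝ → ℝ} (hf : Continuous f) {a b v : ℝ} (hab : a ≤ b)
    (ha : v < f a) (hb : f b ≤ v) : ∃ t, a < t ∧ t ≤ b ∧ f t = v ∧ ∀ s ∈ Ico a t, v < f s := by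
  let S : Set ℝ := {t | t ∈ Icc a b ∧ f t ≤ v}
  have hS : S = Icc a b ∩ f ⁻¹' Iic v := rfl
  have hne : S.Nonempty := ⟨b, ⟨hab, le_rfl⟩, hb⟩
  have hbd : BddBelow S := ⟨a, fun t ht => ht.1.1⟩
  have hc : IsClosed S := isClosed_Icc.inter (isClosed_Iic.preimage hf)
  have hmem := hc.csInf_mem hne hbd
  have hlt : ∀ s ∈ Ico a (sInf S), v < f s := by
    intro s hs
    by_contra hcon
    have : s ∈ S := ⟨⟨hs.1, hs.2.le.trans hmem.1.2⟩, not_lt.1 hcon⟩
    exact absurd (csInf_le hbd this) (not_le.2 hs.2)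
  have hat : a < sInf S := by
    rcases eq_or_lt_of_le hmem.1.1 with h0 | h0
    · have := hmem.2
      rw [← h0] at this
      exact absurd ha (not_lt.2 this)
    · exact h0
  refine ⟨sInf S, hat, hmem.1.2, le_antisymm hmem.2 ?_, hlt⟩
  have : ∀ᶠ r in 𝓝[<] (sInf S), v ≤ f r := by
    filter_upwards [Ioo_mem_nhdsLT hat] with r hr
    exact (hlt r ⟨hr.1.le, hr.2⟩).le
  exact ge_of_tendsto (hf.continuousAt.tendsto.mono_left nhdsWithin_le_nhds) this

namespace EB.RetUp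

variable {m : EB} {β A Yf : ℝ → ℝ} {x y q η : ℝ → ℝ}

/-- An orbit with `K > 0`, `q < 0` at a point with `y ≥ 2` leaves `{y ≥ 2}`. -/
theorem exists_lt_two (hR : m.RetUp β A Yf) (h : EB.Orbit m x y q η) {t₁ : ℝ}
    (hK : 0 < β (y t₁) ^ 2 - η t₁ ^ 2) (hq : q t₁ < 0) :
    ∃ t, t₁ ≤ t ∧ y t < 2 := by
  by_contra hcon
  push Not at hcon
  set k := β (y t₁) ^ 2 - η t₁ ^ 2 with hk
  have hβ0 : ∀ t, t₁ ≤ t → 0 < β (y t) := fun t ht => hR.up.β_pos _ (hcon t ht)
  -- `K ≥ k` for ever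
  have hKk : ∀ t, t₁ ≤ t → k ≤ β (y t) ^ 2 - η t ^ 2 := by
    intro t ht
    have := (hR.up.K_mono h (s₀ := t₁) (s₁ := t) (fun s hs => hcon s hs.1) hK hq).2
    exact this (left_mem_Icc.2 ht) (right_mem_Icc.2 ht) ht
  -- `y` is bounded
  have h1 : ∀ᶠ Z in atTop, |β Z| < min 1 k := by
    have h0 := hR.β_lim.abs
    rw [abs_zero] at h0
    exact h0.eventually (gt_mem_nhds (lt_min one_pos hK))
  obtain ⟨Z, hZ⟩ := eventually_atTop.1 h1
  have hyZ : ∀ t, t₁ ≤ t → y t ≤ Z := by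
    intro t ht
    by_contra hc
    have h2 := hZ (y t) (not_le.1 hc).le
    have h3 := hKk t ht
    have h4 := hβ0 t ht
    rw [abs_of_pos h4] at h2
    have h5 : β (y t) < 1 := h2.trans_le (min_le_left _ _)
    have h6 : β (y t) < k := h2.trans_le (min_le_right _ _)
    nlinarith [sq_nonneg (η t)]
  obtain ⟨M, hM0, hM⟩ := m.exists_E_le 2 Z
  have hEM : ∀ t, t₁ ≤ t → m.E (x t, y t) ≤ M := fun t ht =>
    hM _ _ ⟨hcon t ht, hyZ t ht⟩
  have hZ0 : 0 < 10 ^ 6 + Z := by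
    have := hcon t₁ le_rfl
    have := hyZ t₁ le_rfl
    linarith
  -- `η' ≤ -κ`
  set κ := 977 / 1000 * k / (10 ^ 6 + Z) / M with hκ
  have hκ0 : 0 < κ := by positivity
  have hder : ∀ t, t₁ ≤ t → CyG.dt m.E (x t, y t) / (2 * m.E (x t, y t))
      - CyG.dt m.b (x t, y t) * q t * η t / m.E (x t, y t) ≤ -κ := by
    intro t ht
    refine (hR.eta_der_le h t (hcon t ht)).trans ?_
    have hE := h.E_pos t
    have hY := hR.Y_ge _ (hcon t ht)
    have hY1 := (hR.Y_le _ (hcon t ht)).trans (add_le_add_right (hyZ t ht) _)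
    have hY0 : 0 < Yf (y t) := by linarith
    have h3 := hKk t ht
    rw [neg_div, neg_le_neg_iff, hκ]
    have h4 : k ≤ β (y t) ^ 2 := by nlinarith [sq_nonneg (η t)]
    calc 977 / 1000 * k / (10 ^ 6 + Z) / M
        ≤ 977 / 1000 * β (y t) ^ 2 / (10 ^ 6 + Z) / M := by gcongr
      _ ≤ 977 / 1000 * β (y t) ^ 2 / Yf (y t) / M := by gcongr
      _ ≤ 977 / 1000 * β (y t) ^ 2 / Yf (y t) / m.E (x t, y t) := by
          gcongr
          exact hEM t ht
  -- `η` is unbounded below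
  have hη : ∀ t, t₁ ≤ t → η t ≤ η t₁ + -κ * (t - t₁) := fun t ht =>
    le_add_mul_of_hasDerivAt_le ht (fun s _ => h.dη s) (fun s hs => hder s hs.1)
  set T := t₁ + (|η t₁| + M + 1) / κ with hT
  have hTt : t₁ ≤ T := by
    have : 0 ≤ (|η t₁| + M + 1) / κ := by positivity
    linarith
  have h2 := hη T hTt
  have h3 : -κ * (T - t₁) = -(|η t₁| + M + 1) := by
    rw [hT]; field_simp; ring
  rw [h3] at h2
  have h4 := h.en T
  have h5 := hEM T hTt
  have h6 : M + 1 ≤ -η T := by linarith [le_abs_self (η t₁)]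
  nlinarith [sq_nonneg (q T)]

/-- (RET), first half. -/
theorem ret_exit (hR : m.RetUp β A Yf) (h : EB.Orbit m x y q η) {tg : ℝ} (hy : 2 ≤ y tg)
    (hK : β (y tg) ^ 2 - η tg ^ 2 = 0) (hη : 0 < η tg) (hq : q tg < 0) {d : ℝ} (hd : 0 < d)
    (hafter : ∀ t ∈ Ioo tg (tg + d), 0 < β (y t) ^ 2 - η t ^ 2 ∧ q t < 0) :
    ∃ td, tg < td ∧ y td = 2 ∧ (∀ t ∈ Ioo tg td, 2 < y t) ∧
      0 < β (y td) ^ 2 - η td ^ 2 ∧ η td ≤ -95 := by
  have hβg := hR.up.β_pos _ hy
  have hηβ : η tg = β (y tg) := by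
    have : (η tg - β (y tg)) * (η tg + β (y tg)) = 0 := by linarith
    rcases mul_eq_zero.1 this with h1 | h1
    · linarith
    · linarith
  -- `y > 2` right after `tg`
  have hev : ∀ᶠ t in 𝓝[>] tg, 2 < y t := by
    rcases eq_or_lt_of_le hy with h2 | h2
    · have hy2 : y tg = 2 := h2.symm
      have hpos : 0 < (η tg + m.b (x tg, y tg) * q tg) / m.E (x tg, y tg) := by
        refine div_pos ?_ (h.E_pos tg)
        have h3 := hR.up.q_sq h tg hy
        have h4 := hR.PP_sq_le (x tg) hy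
        rw [hK, zero_add] at h3
        have h5 : -3 ≤ q tg := by nlinarith
        rw [hR.up.b_eq _ _ hy]
        have h6 := hR.A_le' hy
        have hA := hR.up.A_nonneg _ hy
        have hu := uu_nonneg (x tg)
        have hu1 := uu_le_one (x tg)
        have h7 : A (y tg) / β (y tg) * uu (x tg) ≤ 1 := by
          have h8 : A (y tg) / β (y tg) ≤ 226 / 10000 := by
            rw [div_le_iff₀ hβg]; exact h6
          have h9 : 0 ≤ A (y tg) / β (y tg) := by positivity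
          nlinarith
        have h10 : 0 ≤ A (y tg) / β (y tg) * uu (x tg) := by positivity
        have h11 : 99 ≤ η tg := by
          rw [hηβ, hy2]; have := hR.β_two; linarith
        nlinarith
      have := eventually_gt_of_hasDerivAt_pos (h.dy tg) hpos
      rwa [hy2] at this
    · exact (h.continuous_y.continuousAt.eventually (lt_mem_nhds h2)).filter_mono
        nhdsWithin_le_nhds
  obtain ⟨t₁, ht₁, hsub⟩ : ∃ t₁ > tg, ∀ t ∈ Ioc tg t₁, 2 < y t ∧ t < tg + d := by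
    have hev2 : ∀ᶠ t in 𝓝[>] tg, t < tg + d := by
      filter_upwards [Ioo_mem_nhdsGT (show tg < tg + d by linarith)] with t ht using ht.2
    obtain ⟨u, hu, hu2⟩ := mem_nhdsGT_iff_exists_Ioc_subset.1 (hev.and hev2)
    exact ⟨u, hu, fun t ht => hu2 ht⟩
  have h1 := hsub t₁ ⟨ht₁, le_rfl⟩
  have h2 := hafter t₁ ⟨ht₁, h1.2⟩
  obtain ⟨t₂, ht₂, hy2⟩ := hR.exists_lt_two h h2.1 h2.2
  obtain ⟨td, htd1, htd2, htd3, htd4⟩ :=
    exists_first_eq h.continuous_y ht₂ h1.1 hy2.le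
  have hyge : ∀ s ∈ Icc t₁ td, 2 ≤ y s := by
    intro s hs
    rcases eq_or_lt_of_le hs.2 with h3 | h3
    · rw [h3, htd3]
    · exact (htd4 s ⟨hs.1, h3⟩).le
  have hKm := hR.up.K_mono h hyge h2.1 h2.2
  have hgtd : tg < td := ht₁.trans htd1
  have hyall : ∀ s ∈ Ioo tg td, 2 < y s := by
    intro s hs
    rcases le_total s t₁ with h3 | h3
    · exact (hsub s ⟨hs.1, h3⟩).1
    · exact htd4 s ⟨h3, hs.2⟩
  have hKall : ∀ s ∈ Icc t₁ td, 0 < β (y s) ^ 2 - η s ^ 2 := fun s hs =>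
    h2.1.trans_le (hKm.2 (left_mem_Icc.2 htd1.le) hs hs.1)
  have hyI : ∀ s ∈ Icc tg td, 2 ≤ y s := by
    intro s hs
    rcases eq_or_lt_of_le hs.1 with h3 | h3
    · rw [← h3]; exact hy
    · rcases eq_or_lt_of_le hs.2 with h4 | h4
      · rw [h4, htd3]
      · exact (hyall s ⟨h3, h4⟩).le
  have hKI : ∀ s ∈ Icc tg td, 0 ≤ β (y s) ^ 2 - η s ^ 2 ∧ q s ≤ 0 := by
    intro s hs
    rcases eq_or_lt_of_le hs.1 with h3 | h3
    · rw [← h3]; exact ⟨hK.ge, hq.le⟩
    · rcases le_total s t₁ with h4 | h4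
      · have := hafter s ⟨h3, (hsub s ⟨h3, h4⟩).2⟩
        exact ⟨this.1.le, this.2.le⟩
      · exact ⟨(hKall s ⟨h4, hs.2⟩).le, (hKm.1 s ⟨h4, hs.2⟩).le⟩
  have hF := hR.antitoneOn_F h hyI (fun s hs => (hKI s hs).1) (fun s hs => (hKI s hs).2)
  have hF1 := hF (left_mem_Icc.2 hgtd.le) (right_mem_Icc.2 hgtd.le) hgtd.le
  simp only at hF1
  have hKd := hKall td (right_mem_Icc.2 htd1.le)
  have hqd := hKm.1 td (right_mem_Icc.2 htd1.le)
  have hβ2 : β (y td) = β 2 := by rw [htd3]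
  have hb2 := hR.β_two
  have hb3 := hR.β_le 2 le_rfl
  have hηg : η tg ≤ 100 := by rw [hηβ]; exact hR.β_le _ hy
  have hs5 : √(5 + (β (y tg) ^ 2 - η tg ^ 2)) ≤ 9 / 4 := by
    rw [hK]
    refine Real.sqrt_le_sqrt (show (5 : ℝ) + 0 ≤ (9 / 4) ^ 2 by norm_num) |>.trans ?_
    rw [Real.sqrt_sq (by norm_num)]
  have hη100 : |η td| ≤ 100 := by
    have : |η td| ≤ β (y td) := abs_le_of_sq_le_sq (by linarith) (by rw [hβ2]; linarith)
    rw [hβ2] at this
    linarith
  have hr : √(5 + (β (y td) ^ 2 - η td ^ 2)) ≤ 283 / 10 := by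
    have := neg_abs_le (η td)
    linarith
  have hKle : β (y td) ^ 2 - η td ^ 2 ≤ 797 := by
    have h3 := Real.sqrt_nonneg (5 + (β (y td) ^ 2 - η td ^ 2))
    have h4 := Real.sq_sqrt (show 0 ≤ 5 + (β (y td) ^ 2 - η td ^ 2) by linarith)
    nlinarith
  have hη95 : 95 < |η td| := by
    rw [hβ2] at hKle
    by_contra hc
    have h3 := not_lt.1 hc
    have h4 : η td ^ 2 ≤ 95 ^ 2 := by
      rw [← sq_abs]; exact pow_le_pow_left₀ (abs_nonneg _) h3 2
    nlinarith
  refine ⟨td, hgtd, htd3, hyall, hKd, ?_⟩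
  rcases le_total (η td) 0 with h3 | h3
  · rw [abs_of_nonpos h3] at hη95
    linarith
  · exfalso
    rw [abs_of_nonneg h3] at hη95
    -- `y' > 0` at `td`
    have hyd : 2 ≤ y td := htd3.ge
    have hpos : 0 < (η td + m.b (x td, y td) * q td) / m.E (x td, y td) := by
      refine div_pos ?_ (h.E_pos td)
      have h4 := hR.up.q_sq h td hyd
      have h5 := hR.PP_sq_le (x td) hyd
      have h6 : -30 ≤ q td := by nlinarith
      rw [hR.up.b_eq _ _ hyd]
      have h7 := hR.A_le' hyd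
      have hβd := hR.up.β_pos _ hyd
      have hA := hR.up.A_nonneg _ hyd
      have hu := uu_nonneg (x td)
      have hu1 := uu_le_one (x td)
      have h8 : A (y td) / β (y td) * uu (x td) ≤ 1 := by
        have h8 : A (y td) / β (y td) ≤ 226 / 10000 := by
          rw [div_le_iff₀ hβd]; exact h7
        have h9 : 0 ≤ A (y td) / β (y td) := by positivity
        nlinarith
      have h10 : 0 ≤ A (y td) / β (y td) * uu (x td) := by positivity
      nlinarith
    -- but `y > 2` before `td`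
    have h4 : ∀ᶠ s in 𝓝[<] td, y s < y td := by
      have h5 := hasDerivAt_iff_tendsto_slope.1 (h.dy td)
      have h6 : ∀ᶠ s in 𝓝[≠] td, 0 < slope y td s := h5.eventually (lt_mem_nhds hpos)
      have h7 : ∀ᶠ s in 𝓝[<] td, 0 < slope y td s :=
        h6.filter_mono (nhdsWithin_mono _ fun s hs => ne_of_lt hs)
      filter_upwards [h7, self_mem_nhdsWithin] with s hs hst
      have hst' : s - td < 0 := sub_neg.2 hst
      have e : (s - td) * slope y td s = y s - y td := by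
        rw [slope_def_field, mul_div_cancel₀ _ hst'.ne]
      nlinarith
    have h5 : ∀ᶠ s in 𝓝[<] td, 2 < y s := by
      filter_upwards [Ioo_mem_nhdsLT hgtd] with s hs using hyall s hs
    obtain ⟨s, hs1, hs2⟩ := (h4.and h5).exists
    rw [htd3] at hs1
    linarith

end EB.RetUp

/-- Facts on the strip `0 < y ≤ 2`. -/
structure EB.Low (m : EB) : Prop where
  neg : ∀ x y, 0 < y → y ≤ 2 → CyG.dt m.E (x, y) + |CyG.dt m.b (x, y)| * m.E (x, y) < 0
  b_sq : ∀ x y, 0 ≤ y → y ≤ 2 → m.b (x, y) ^ 2 * m.E (x, y) ≤ 9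

/-- (RET), second half: from `y = 2`, `η ≤ -95` down to `y = 0`. -/
theorem EB.Low.ret_down {m : EB} (hL : m.Low) {x y q η : ℝ → ℝ} (h : EB.Orbit m x y q η)
    {td : ℝ} (hy : y td = 2) (hη : η td ≤ -95) :
    ∃ ti, td < ti ∧ y ti = 0 ∧ StrictAntiOn y (Icc td ti) ∧ ∀ t ∈ Icc td ti, η t ≤ -95 := by
  obtain ⟨M, hM0, hM⟩ := m.exists_E_le 0 2
  -- `y' ≤ -92 / M` where `0 ≤ y ≤ 2`, `η ≤ -95`
  have hyder : ∀ t, 0 ≤ y t → y t ≤ 2 → η t ≤ -95 →
      (η t + m.b (x t, y t) * q t) / m.E (x t, y t) ≤ -(92 / M) := by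
    intro t h0 h2 h3
    have hE := h.E_pos t
    have h4 := hL.b_sq (x t) (y t) h0 h2
    have h5 : (m.b (x t, y t) * q t) ^ 2 ≤ 9 := by
      have h6 : q t ^ 2 ≤ m.E (x t, y t) := by
        have := h.en t
        nlinarith [sq_nonneg (η t)]
      calc (m.b (x t, y t) * q t) ^ 2 = m.b (x t, y t) ^ 2 * q t ^ 2 := by ring
        _ ≤ m.b (x t, y t) ^ 2 * m.E (x t, y t) :=
            mul_le_mul_of_nonneg_left h6 (sq_nonneg _)
        _ ≤ 9 := h4
    have h7 : m.b (x t, y t) * q t ≤ 3 := by nlinarith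
    have h8 : η t + m.b (x t, y t) * q t ≤ -92 := by linarith
    calc (η t + m.b (x t, y t) * q t) / m.E (x t, y t) ≤ -92 / m.E (x t, y t) :=
          div_le_div_of_nonneg_right h8 hE.le
      _ ≤ -(92 / M) := by
          rw [neg_div, neg_le_neg_iff]
          exact div_le_div_of_nonneg_left (by norm_num) hE (hM _ _ ⟨h0, h2⟩)
  -- as long as `y > 0` we stay in `{η ≤ -95, y ≤ 2}`
  have hstay : ∀ T, td ≤ T → (∀ t ∈ Ico td T, 0 < y t) →
      Icc td T ⊆ {t | η t ≤ -95 ∧ y t ≤ 2} := by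
    intro T hT hpos
    refine IsClosed.Icc_subset_of_forall_mem_nhdsWithin ?_ ⟨hη, hy.le⟩ ?_
    · refine IsClosed.inter ?_ isClosed_Icc
      exact (isClosed_le h.continuous_η continuous_const).inter
        (isClosed_le h.continuous_y continuous_const)
    · intro t ht
      have h0 := hpos t ht.2
      have h1 := ht.1
      have h2 : (η t + m.b (x t, y t) * q t) / m.E (x t, y t) < 0 :=
        (hyder t h0.le h1.2 h1.1).trans_lt (by have : 0 < 92 / M := by positivity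
                                               linarith)
      have h3 := eventually_lt_of_hasDerivAt_neg (h.dy t) h2
      have h4 := eventually_lt_of_hasDerivAt_neg (h.dη t)
        (h.eta_der_neg t (hL.neg _ _ h0 h1.2))
      filter_upwards [h3, h4] with s hs1 hs2
      exact ⟨hs2.le.trans h1.1, hs1.le.trans h1.2⟩
  -- `y` reaches `0`
  have hreach : ∃ t, td ≤ t ∧ y t ≤ 0 := by
    by_contra hcon
    push Not at hcon
    set T := td + M / 46 + 1 with hT
    have hTt : td ≤ T := by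
      have : 0 < M / 46 := by positivity
      linarith
    have h1 := hstay T hTt (fun t ht => hcon t ht.1)
    have h2 := le_add_mul_of_hasDerivAt_le hTt (f := y) (k := -(92 / M))
      (fun s _ => h.dy s) (fun s hs => hyder s (hcon s hs.1).le (h1 hs).2 (h1 hs).1)
    have h3 := hcon T hTt
    have h4 : -(92 / M) * (T - td) = -2 - 92 / M := by
      rw [hT]; field_simp; ring
    rw [h4, hy] at h2
    have : 0 < 92 / M := by positivity
    linarith
  obtain ⟨t₂, ht₂, hy2⟩ := hreach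
  obtain ⟨ti, hti1, hti2, hti3, hti4⟩ :=
    exists_first_eq h.continuous_y ht₂ (show (0 : ℝ) < y td by rw [hy]; norm_num) hy2
  have h1 := hstay ti hti1.le hti4
  refine ⟨ti, hti1, hti3, ?_, fun t ht => (h1 ht).1⟩
  refine strictAntiOn_of_deriv_neg (convex_Icc _ _) h.continuous_y.continuousOn ?_
  intro t ht
  rw [interior_Icc] at ht
  rw [(h.dy t).deriv]
  have ht' : t ∈ Icc td ti := ⟨ht.1.le, ht.2.le⟩
  have : 0 < 92 / M := by positivity
  linarith [hyder t (hti4 t ⟨ht.1.le, ht.2⟩).le (h1 ht').2 (h1 ht').1]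

/-- (RET). -/
theorem EB.RetUp.ret {m : EB} {β A Yf : ℝ → ℝ} (hR : m.RetUp β A Yf) (hL : m.Low)
    {x y q η : ℝ → ℝ} (h : EB.Orbit m x y q η) {tg : ℝ} (hy : 2 ≤ y tg)
    (hK : β (y tg) ^ 2 - η tg ^ 2 = 0) (hη : 0 < η tg) (hq : q tg < 0) {d : ℝ} (hd : 0 < d)
    (hafter : ∀ t ∈ Ioo tg (tg + d), 0 < β (y t) ^ 2 - η t ^ 2 ∧ q t < 0) :
    ∃ td ti, tg < td ∧ td < ti ∧ y td = 2 ∧ (∀ t ∈ Ioo tg td, 2 < y t) ∧
      0 < β (y td) ^ 2 - η td ^ 2 ∧ η td ≤ -95 ∧ y ti = 0 ∧ StrictAntiOn y (Icc td ti) ∧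
      ∀ t ∈ Icc td ti, η t ≤ -95 := by
  obtain ⟨td, h1, h2, h3, h4, h5⟩ := hR.ret_exit h hy hK hη hq hd hafter
  obtain ⟨ti, h6, h7, h8, h9⟩ := hL.ret_down h h2 h5
  exact ⟨td, ti, h1, h6, h2, h3, h4, h5, h7, h8, h9⟩

end Pool.Agent.CyGN
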