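import Pool.Agent.CyGN.Ret2
import Pool.Agent.CyGN.EndA

set_option autoImplicit false

/-!
# (RET) in the form of the contract `CRet`
-/

namespace Pool.Agent.CyGN

open Set

/-- Section 5, (RET). -/
theorem EB.RetUp.cRet {m : EB} {β A Yf : ℝ → ℝ} (hR : m.RetUp β A Yf) (hL : m.Low) :
    EB.CRet m β := by
  rintro x y q η h t ⟨hy, hK, hq, hη, d, hd, hafter⟩
  obtain ⟨td, ti, h1, h2, h3, -, h5, -, h7, h8, h9⟩ := hR.ret hL h hy hK hη hq hd hafter
  refine ⟨td, ti, h1, h2, h3, ?_, h7, ?_, h8⟩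
  · rw [h3] at h5; exact h5
  · have := h9 ti (right_mem_Icc.2 h2.le)
    linarith

end Pool.Agent.CyGN
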