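import Pool.Agent.CyGN.Metric
import Pool.Agent.CyGN.FunC
import Pool.Agent.CyGN.RetC

set_option autoImplicit false

/-!
# (RET) for the metric `metNO`
-/

namespace Pool.Agent.CyGN

open Pool.Agent.CyG Set Filter Topology

theorem upper_metNO : metNO.Upper beta AA 2 where
  dβ y _ := (beta_hasDerivAt y).differentiableAt
  dA y _ := (AA_hasDerivAt y).differentiableAt
  β_pos y _ := beta_pos y
  A_nonneg y _ := (AA_pos y).le
  β_anti y _ := by rw [(beta_hasDerivAt y).deriv]; exact beta'_nonpos y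
  A_anti y _ := by rw [(AA_hasDerivAt y).deriv]; exact AA'_nonpos y
  ratio y hy := by
    rw [(beta_hasDerivAt y).deriv, (AA_hasDerivAt y).deriv, beta'_eq (by linarith)]
    unfold AA'
    have hβ := beta_pos y
    have hA := AA_pos y
    have hY := YY_pos y
    have hZ := ZZ_pos y
    have hYZ := YY_le_ZZ y
    have hs := st_le_one (y - 2)
    have hs0 := st_nonneg (y - 2)
    have h1 : 3 * AA y * st (y - 2) / ZZ y ≤ 3 * AA y / YY y := by
      refine div_le_div₀ (by positivity) ?_ hY hYZ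
      nlinarith
    calc -(beta y * -(3 * AA y * st (y - 2) / ZZ y))
        = beta y * (3 * AA y * st (y - 2) / ZZ y) := by ring
      _ ≤ beta y * (3 * AA y / YY y) := mul_le_mul_of_nonneg_left h1 hβ.le
      _ ≤ 12 * (beta y * (AA y / YY y)) := by
          have : 0 ≤ beta y * (AA y / YY y) := by positivity
          have e : beta y * (3 * AA y / YY y) = 3 * (beta y * (AA y / YY y)) := by ring
          rw [e]
          linarith
      _ = 12 * -(AA y * -(beta y / YY y)) := by ring
  E_eq x y hy := EE_R3 x hy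
  b_eq x y hy := bb_R3 x hy

theorem retUp_metNO : metNO.RetUp beta AA YY where
  up := upper_metNO
  Y_ge y _ := YY_ge y
  Y_le y hy := YY_le y (by linarith)
  dβ_eq y hy := by rw [(beta_hasDerivAt y).deriv]; exact beta'_eq (by linarith)
  dA_ge y hy := by
    rw [(AA_hasDerivAt y).deriv]
    unfold AA'
    have hA := AA_pos y
    have hY := YY_pos y
    have hYZ := YY_le_ZZ y
    have hs := st_le_one (y - 2)
    have hs0 := st_nonneg (y - 2)
    have h1 : 3 * AA y * st (y - 2) / ZZ y ≤ 3 * AA y / YY y := by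
      refine div_le_div₀ (by positivity) ?_ hY hYZ
      nlinarith
    linarith
  β_le y hy := beta_le (by linarith)
  A_le y hy := by
    have h1 := AA_le_epsA (y := y) (by linarith)
    have h2 := epsA_le
    have h3 : 0 ≤ beta y ^ 3 := by have := beta_pos y; positivity
    calc AA y ≤ epsA * beta y ^ 3 := h1
      _ ≤ 2.26e-6 * beta y ^ 3 := mul_le_mul_of_nonneg_right h2 h3
      _ = 226 / 10 ^ 8 * beta y ^ 3 := by norm_num
  β_two := by
    have := beta_ge (y := 2) le_rfl
    norm_num at this ⊢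
    exact this
  β_lim := by
    have h1 : Tendsto (fun y : ℝ => (10 : ℝ) ^ 8 / (YY 1 + (y - 1))) atTop (𝓝 0) := by
      refine Tendsto.div_atTop tendsto_const_nhds ?_
      refine tendsto_atTop_add_const_left _ _ ?_
      exact tendsto_atTop_add_const_right _ _ tendsto_id
    refine h1.congr' ?_
    filter_upwards [eventually_ge_atTop (1 : ℝ)] with y hy
    rw [beta_eq hy, YY_eq hy]

/-- The bound `b² E ≤ 9` for `0 ≤ y ≤ 2`. -/
theorem bb_sq_mul_EE_le (x : ℝ) {y : ℝ} (hy0 : 0 ≤ y) (hy : y ≤ 2) :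
    metNO.b (x, y) ^ 2 * metNO.E (x, y) ≤ 9 := by
  have hA0 : 0 < A0 := A0_pos
  have hA := A0_le
  have hS := SS_ge x hy
  have hu := uu_nonneg x
  have hu1 := uu_le_one x
  have hc := chi_nonneg y
  have hc1 := chi_le_one y
  have hE : EE (x, y) ≤ SS x y ^ 2 + 4.6 := by
    rcases le_total y 1 with h | h
    · rw [EE_R1 x (by linarith) h]
      have h1 := gg_sq_le x
      have h2 := P0_sq_le x
      have h3 : chi y ^ 2 ≤ 1 := by nlinarith
      nlinarith [sq_nonneg (gg x)]
    · rw [EE_R2 x (by linarith) hy, SS_eq_right x (by linarith)]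
      have h2 := P0_sq_le x
      have h3 := zeta_nonneg y
      have h4 := DD_nonneg x
      nlinarith [mul_nonneg h3 h4]
  have hb : bb (x, y) * SS x y = A0 * chi y * uu x := by
    rw [bb_le2 x hy]
    field_simp
  have hb0 : 0 ≤ bb (x, y) * SS x y := by rw [hb]; positivity
  have hb1 : bb (x, y) * SS x y ≤ 9 / 4 := by
    rw [hb]
    have : chi y * uu x ≤ 1 := by nlinarith
    have h2 : 0 ≤ chi y * uu x := by positivity
    nlinarith
  have hb2 : (bb (x, y) * SS x y) ^ 2 ≤ (9 / 4) ^ 2 := pow_le_pow_left₀ hb0 hb1 2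
  have hbn : 0 ≤ bb (x, y) := by
    have : 0 < SS x y := by linarith
    exact nonneg_of_mul_nonneg_left hb0 this
  have hbs : bb (x, y) ≤ 1 := by nlinarith
  have hbs2 : bb (x, y) ^ 2 ≤ 1 / 2 := by
    have : bb (x, y) * 99.99 ≤ 9 / 4 := by nlinarith
    nlinarith
  change bb (x, y) ^ 2 * EE (x, y) ≤ 9
  calc bb (x, y) ^ 2 * EE (x, y) ≤ bb (x, y) ^ 2 * (SS x y ^ 2 + 4.6) :=
        mul_le_mul_of_nonneg_left hE (sq_nonneg _)
    _ = (bb (x, y) * SS x y) ^ 2 + bb (x, y) ^ 2 * 4.6 := by ring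
    _ ≤ 9 := by nlinarith

theorem low_metNO (hU : ∀ x y, 0 < y → y ≤ 2 →
    CyG.dt metNO.E (x, y) + |CyG.dt metNO.b (x, y)| * metNO.E (x, y) < 0) : metNO.Low where
  neg := hU
  b_sq x _ h0 h2 := bb_sq_mul_EE_le x h0 h2

/-- The contract (RET) for `metNO`, from Lemma U. -/
theorem cRet_metNO (hU : ∀ x y, 0 < y → y ≤ 2 →
    CyG.dt metNO.E (x, y) + |CyG.dt metNO.b (x, y)| * metNO.E (x, y) < 0) :
    EB.CRet metNO beta :=
  retUp_metNO.cRet (low_metNO hU)

end Pool.Agent.CyGN
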