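import Mathlib

/-!
Trigonometric functions of the page, sections 4 to 6.
-/

namespace Pool.Agent.CyGN.Trig

open Set Real

noncomputable section

/-- s = sin(pi x) -/
def s (x : ℝ) : ℝ := Real.sin (Real.pi * x)

/-- c = cos(pi x) -/
def c (x : ℝ) : ℝ := Real.cos (Real.pi * x)

/-- u = s^2 -/
def u (x : ℝ) : ℝ := s x ^ 2

theorem sc (x : ℝ) : s x ^ 2 + c x ^ 2 = 1 := Real.sin_sq_add_cos_sq _

theorem hasDerivAt_pi (x : ℝ) : HasDerivAt (fun x : ℝ => Real.pi * x) Real.pi x := by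
  simpa using (hasDerivAt_id x).const_mul Real.pi

theorem s_hasDerivAt (x : ℝ) : HasDerivAt s (Real.pi * c x) x := by
  show HasDerivAt (fun x : ℝ => Real.sin (Real.pi * x)) (Real.pi * Real.cos (Real.pi * x)) x
  exact ((Real.hasDerivAt_sin (Real.pi * x)).comp x (hasDerivAt_pi x)).congr_deriv (by ring)

theorem c_hasDerivAt (x : ℝ) : HasDerivAt c (-(Real.pi * s x)) x := by
  show HasDerivAt (fun x : ℝ => Real.cos (Real.pi * x)) (-(Real.pi * Real.sin (Real.pi * x))) x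
  exact ((Real.hasDerivAt_cos (Real.pi * x)).comp x (hasDerivAt_pi x)).congr_deriv (by ring)

theorem u_hasDerivAt (x : ℝ) : HasDerivAt u (2 * Real.pi * s x * c x) x := by
  have := (s_hasDerivAt x).pow 2
  refine this.congr_deriv ?_
  simp; ring

theorem s_pos {x : ℝ} (h0 : 0 < x) (h1 : x < 1) : 0 < s x := by
  apply Real.sin_pos_of_pos_of_lt_pi
  · positivity
  · nlinarith [Real.pi_pos]

theorem s_nonneg {x : ℝ} (h0 : 0 ≤ x) (h1 : x ≤ 1) : 0 ≤ s x := by
  apply Real.sin_nonneg_of_nonneg_of_le_pi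
  · positivity
  · nlinarith [Real.pi_pos]

theorem s_le_one (x : ℝ) : s x ≤ 1 := Real.sin_le_one _

theorem abs_s_le_one (x : ℝ) : |s x| ≤ 1 := Real.abs_sin_le_one _

theorem u_nonneg (x : ℝ) : 0 ≤ u x := sq_nonneg _

theorem u_le_one (x : ℝ) : u x ≤ 1 := by
  have := sc x
  unfold u
  nlinarith [sq_nonneg (c x)]

theorem s_add_int (x : ℝ) (n : ℤ) : s (x + n) = (-1) ^ n * s x := by
  unfold s
  rw [mul_add, mul_comm Real.pi (n : ℝ), Real.sin_add_int_mul_pi]

theorem u_add_int (x : ℝ) (n : ℤ) : u (x + n) = u x := by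
  unfold u
  rw [s_add_int, mul_pow, ← zpow_natCast, ← zpow_mul, mul_comm n, zpow_mul]
  simp

theorem s_one_sub (x : ℝ) : s (1 - x) = s x := by
  unfold s
  rw [mul_sub, mul_one, Real.sin_pi_sub]

theorem s_zero : s 0 = 0 := by simp [s]

theorem s_one : s 1 = 0 := by simp [s]

theorem s_le_mul {x : ℝ} (h0 : 0 ≤ x) : s x ≤ Real.pi * x := Real.sin_le (by positivity)

theorem s_le_mul' {x : ℝ} (h1 : x ≤ 1) : s x ≤ Real.pi * (1 - x) := by
  rw [← s_one_sub]; exact s_le_mul (by linarith)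

theorem sin_quarter : Real.sin (Real.pi * (1 / 4)) = √2 / 2 := by
  rw [show Real.pi * (1 / 4) = Real.pi / 4 by ring, Real.sin_pi_div_four]

theorem sqrt2_lo : (1.4142 : ℝ) < √2 := by
  rw [Real.lt_sqrt (by norm_num)]; norm_num

theorem sqrt2_hi : √2 < (1.4143 : ℝ) := by
  rw [Real.sqrt_lt' (by norm_num)]; norm_num

theorem s_quarter : s (1 / 4) = √2 / 2 := sin_quarter

theorem s_threequarter : s (3 / 4) = √2 / 2 := by
  rw [← s_one_sub, show (1 : ℝ) - 3 / 4 = 1 / 4 by norm_num, s_quarter]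

theorem c_threequarter : c (3 / 4) = -(√2 / 2) := by
  unfold c
  rw [show Real.pi * (3 / 4) = Real.pi - Real.pi / 4 by ring, Real.cos_pi_sub, Real.cos_pi_div_four]

/-- s >= sqrt2/2 on [1/4,3/4] -/
theorem s_ge_mid {x : ℝ} (h0 : 1 / 4 ≤ x) (h1 : x ≤ 3 / 4) : √2 / 2 ≤ s x := by
  have hp := Real.pi_pos
  rcases le_or_gt x (1 / 2) with h | h
  · rw [← s_quarter]
    apply Real.sin_le_sin_of_le_of_le_pi_div_two <;> nlinarith
  · rw [← s_quarter, ← s_one_sub x]
    apply Real.sin_le_sin_of_le_of_le_pi_div_two <;> nlinarith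

theorem s_ge_mid' {x : ℝ} (h0 : 1 / 4 ≤ x) (h1 : x ≤ 3 / 4) : 0.7 ≤ s x := by
  have := s_ge_mid h0 h1
  have := sqrt2_lo
  linarith

/-- c <= -sqrt2/2 on [3/4,1] -/
theorem c_le_right {x : ℝ} (h0 : 3 / 4 ≤ x) (h1 : x ≤ 1) : c x ≤ -(√2 / 2) := by
  rw [← c_threequarter]
  have hp := Real.pi_pos
  apply Real.cos_le_cos_of_nonneg_of_le_pi <;> nlinarith

/-! ### the function G2 -/

/-- G2(x) = x - sin(2 pi x)/(2 pi) -/
def G2 (x : ℝ) : ℝ := x - Real.sin (2 * Real.pi * x) / (2 * Real.pi)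

theorem G2_hasDerivAt (x : ℝ) : HasDerivAt G2 (2 * u x) x := by
  have hp := Real.pi_pos.ne'
  have h1 : HasDerivAt (fun x : ℝ => 2 * Real.pi * x) (2 * Real.pi) x := by
    simpa using (hasDerivAt_id x).const_mul (2 * Real.pi)
  have h2 := (Real.hasDerivAt_sin (2 * Real.pi * x)).comp x h1
  have h3 := (hasDerivAt_id x).sub (h2.div_const (2 * Real.pi))
  refine (h3.congr_deriv ?_).congr_of_eventuallyEq (Filter.Eventually.of_forall fun y => ?_)
  · have : Real.cos (2 * Real.pi * x) = 1 - 2 * s x ^ 2 := by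
      rw [show 2 * Real.pi * x = 2 * (Real.pi * x) by ring, Real.cos_two_mul]
      have := Real.sin_sq_add_cos_sq (Real.pi * x)
      unfold s
      linarith
    rw [this]
    unfold u
    field_simp
    ring
  · simp [G2]

theorem G2_mono : Monotone G2 := by
  apply monotone_of_deriv_nonneg (fun x => (G2_hasDerivAt x).differentiableAt)
  intro x
  rw [(G2_hasDerivAt x).deriv]
  exact mul_nonneg (by norm_num) (u_nonneg x)

theorem G2_zero : G2 0 = 0 := by simp [G2]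

theorem G2_one : G2 1 = 1 := by simp [G2]

theorem G2_quarter : G2 (1 / 4) = 1 / 4 - 1 / (2 * Real.pi) := by
  unfold G2
  rw [show 2 * Real.pi * (1 / 4) = Real.pi / 2 by ring, Real.sin_pi_div_two]

theorem G2_threequarter : G2 (3 / 4) = 3 / 4 + 1 / (2 * Real.pi) := by
  unfold G2
  rw [show 2 * Real.pi * (3 / 4) = Real.pi / 2 + Real.pi by ring, Real.sin_add_pi,
    Real.sin_pi_div_two]
  ring

theorem G2_diff : G2 (3 / 4) - G2 (1 / 4) = 1 / 2 + 1 / Real.pi := by
  rw [G2_quarter, G2_threequarter]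
  have hp := Real.pi_pos.ne'
  field_simp
  ring

theorem G2_diff_ge : 0.818 ≤ G2 (3 / 4) - G2 (1 / 4) := by
  rw [G2_diff]
  have h : 0.318 ≤ 1 / Real.pi := by
    rw [le_div_iff₀ Real.pi_pos]
    nlinarith [Real.pi_lt_d4]
  linarith

/-! ### the function V3, derivative s^3 -/

/-- V3(x) = (2/3 - cos + cos^3/3)/pi -/
def V3 (x : ℝ) : ℝ := (2 / 3 - c x + c x ^ 3 / 3) / Real.pi

theorem V3_hasDerivAt (x : ℝ) : HasDerivAt V3 (s x ^ 3) x := by
  have hp := Real.pi_pos.ne'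
  have h1 := c_hasDerivAt x
  have h2 := ((h1.const_sub (2 / 3)).add ((h1.pow 3).div_const 3)).div_const Real.pi
  refine (h2.congr_deriv ?_).congr_of_eventuallyEq (Filter.Eventually.of_forall fun y => ?_)
  · have := sc x
    have h3 : c x ^ 2 = 1 - s x ^ 2 := by linarith
    simp only [Nat.cast_ofNat, show 3 - 1 = 2 from rfl]
    rw [h3]
    field_simp
    ring
  · simp [V3]

theorem V3_zero : V3 0 = 0 := by
  have : c 0 = 1 := by simp [c]
  unfold V3
  rw [this]; norm_num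

theorem V3_one : V3 1 = 4 / (3 * Real.pi) := by
  have : c 1 = -1 := by simp [c]
  have hp := Real.pi_pos.ne'
  unfold V3
  rw [this]
  field_simp
  ring

/-! ### the function H -/

/-- H = G2 - V3 -/
def H (x : ℝ) : ℝ := G2 x - V3 x

theorem H_eq (x : ℝ) : H x = x - Real.sin (2 * Real.pi * x) / (2 * Real.pi)
    - (2 / 3 - Real.cos (Real.pi * x) + Real.cos (Real.pi * x) ^ 3 / 3) / Real.pi := rfl

theorem H_hasDerivAt (x : ℝ) : HasDerivAt H (2 * u x - s x ^ 3) x :=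
  (G2_hasDerivAt x).sub (V3_hasDerivAt x)

theorem H_deriv_nonneg (x : ℝ) : 0 ≤ 2 * u x - s x ^ 3 := by
  have h1 := s_le_one x
  have h2 := sq_nonneg (s x)
  unfold u
  nlinarith

theorem H_mono : Monotone H := by
  apply monotone_of_deriv_nonneg (fun x => (H_hasDerivAt x).differentiableAt)
  intro x
  rw [(H_hasDerivAt x).deriv]
  exact H_deriv_nonneg x

theorem H_zero : H 0 = 0 := by
  unfold H; rw [G2_zero, V3_zero, sub_zero]

theorem H_nonneg {x : ℝ} (h : 0 ≤ x) : 0 ≤ H x := by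
  rw [← H_zero]; exact H_mono h

theorem H_threequarter : H (3 / 4) ≤ 0.5095 := by
  unfold H
  rw [G2_threequarter]
  unfold V3
  rw [c_threequarter]
  have hp := Real.pi_pos
  have h1 := Real.pi_lt_d4
  have h2 := sqrt2_lo
  have h3 : √2 ^ 2 = 2 := Real.sq_sqrt (by norm_num)
  have h4 : (-(√2 / 2)) ^ 3 = -(√2 / 4) := by
    have : (-(√2 / 2)) ^ 3 = -(√2 ^ 2 * √2 / 8) := by ring
    rw [this, h3]; ring
  rw [h4]
  have h5 : 3 / 4 + 1 / (2 * Real.pi) - (2 / 3 - -(√2 / 2) + -(√2 / 4) / 3) / Real.pi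
      = 3 / 4 - (1 / 6 + 5 * √2 / 12) / Real.pi := by
    field_simp
    ring
  rw [h5]
  have h6 : 0.2405 ≤ (1 / 6 + 5 * √2 / 12) / Real.pi := by
    rw [le_div_iff₀ hp]
    nlinarith
  linarith

theorem c_ge_left {x : ℝ} (h0 : 0 ≤ x) (h1 : x ≤ 5 / 12) : 1 / 4 ≤ c x := by
  have hp := Real.pi_pos
  have h2 : Real.cos (Real.pi * (5 / 12)) ≤ c x := by
    apply Real.cos_le_cos_of_nonneg_of_le_pi <;> nlinarith
  refine le_trans ?_ h2
  -- cos(5 pi/12) = sin (pi/12), (cos)^2 = (1 + cos(5 pi/6))/2 = (1 - sqrt3/2)/2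
  have h3 : Real.cos (Real.pi * (5 / 12)) ^ 2 = 1 / 2 + Real.cos (2 * (Real.pi * (5 / 12))) / 2 :=
    Real.cos_sq _
  have h4 : Real.cos (2 * (Real.pi * (5 / 12))) = -(√3 / 2) := by
    rw [show 2 * (Real.pi * (5 / 12)) = Real.pi - Real.pi / 6 by ring, Real.cos_pi_sub,
      Real.cos_pi_div_six]
  have h5 : √3 < 1.74 := by
    rw [Real.sqrt_lt' (by norm_num)]; norm_num
  have h6 : 0 ≤ Real.cos (Real.pi * (5 / 12)) := by
    apply Real.cos_nonneg_of_neg_pi_div_two_le_of_le <;> nlinarith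
  rw [h4] at h3
  nlinarith

theorem H_le {x : ℝ} (h0 : 0 ≤ x) (h1 : x ≤ 3 / 4) : H x ≤ 2 * s x ^ 3 := by
  rcases le_or_gt x (5 / 12) with h | h
  · -- 2 s^3 - H is monotone on [0,5/12]
    have hd : ∀ y : ℝ, HasDerivAt (fun y => 2 * s y ^ 3 - H y)
        (s y ^ 2 * (6 * Real.pi * c y - 2 + s y)) y := by
      intro y
      have := (((s_hasDerivAt y).pow 3).const_mul 2).sub (H_hasDerivAt y)
      refine this.congr_deriv ?_
      simp only [Nat.cast_ofNat, show 3 - 1 = 2 from rfl]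
      unfold u
      ring
    have hm : MonotoneOn (fun y => 2 * s y ^ 3 - H y) (Icc 0 (5 / 12)) := by
      apply monotoneOn_of_deriv_nonneg (convex_Icc _ _)
      · exact fun y _ => (hd y).continuousAt.continuousWithinAt
      · exact fun y _ => (hd y).differentiableAt.differentiableWithinAt
      · intro y hy
        rw [interior_Icc] at hy
        rw [(hd y).deriv]
        apply mul_nonneg (sq_nonneg _)
        have h2 := c_ge_left hy.1.le hy.2.le
        have h3 := s_nonneg (x := y) hy.1.le (by linarith [hy.2])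
        have h4 := Real.pi_gt_three
        nlinarith
    have h2 := hm ⟨le_refl 0, by norm_num⟩ ⟨h0, h⟩ h0
    simp only [s_zero, H_zero] at h2
    norm_num at h2
    exact h2
  · have h2 := H_mono h1
    have h3 := H_threequarter
    have h4 := s_ge_mid (x := x) (by linarith) h1
    have h5 := sqrt2_lo
    have h6 : (0.7071 : ℝ) ≤ s x := by linarith
    have h7 : (0.7071 : ℝ) ^ 3 ≤ s x ^ 3 := pow_le_pow_left₀ (by norm_num) h6 3
    norm_num at h7 h3 ⊢
    linarith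

/-! ### the function P = s (1 + (A/2) u) -/

/-- P -/
def P (A x : ℝ) : ℝ := s x * (1 + A / 2 * u x)

theorem P_hasDerivAt (A x : ℝ) : HasDerivAt (P A) (Real.pi * c x * (1 + 3 / 2 * A * u x)) x := by
  have h1 := (s_hasDerivAt x).mul (((u_hasDerivAt x).const_mul (A / 2)).const_add 1)
  refine h1.congr_deriv ?_
  unfold u
  ring

theorem P_hasDerivAt_A (A x : ℝ) : HasDerivAt (fun A => P A x) (s x ^ 3 / 2) A := by
  unfold P
  have h : HasDerivAt (fun A : ℝ => s x * (1 + A / 2 * u x)) (s x * (1 / 2 * u x)) A :=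
    ((((hasDerivAt_id A).div_const 2).mul_const (u x)).const_add 1).const_mul (s x)
  refine h.congr_deriv ?_
  unfold u
  ring

theorem w_le {A x : ℝ} (_h0 : 0 ≤ A) (h1 : A ≤ 9 / 4) : 1 + A / 2 * u x ≤ 17 / 8 := by
  have := u_le_one x
  have := u_nonneg x
  nlinarith

theorem w_ge {A x : ℝ} (h0 : 0 ≤ A) : 1 ≤ 1 + A / 2 * u x := by
  have := u_nonneg x
  nlinarith [mul_nonneg h0 this]

theorem P_sq_le {A x : ℝ} (h0 : 0 ≤ A) (h1 : A ≤ 9 / 4) : P A x ^ 2 ≤ 4.6 := by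
  have h2 := w_le (x := x) h0 h1
  have h3 := w_ge (x := x) h0
  have h4 := u_le_one x
  have h5 := u_nonneg x
  have h6 : P A x ^ 2 = u x * (1 + A / 2 * u x) ^ 2 := by
    unfold P u; ring
  rw [h6]
  have h7 : (1 + A / 2 * u x) ^ 2 ≤ (17 / 8) ^ 2 := pow_le_pow_left₀ (by linarith) h2 2
  have h8 : u x * (1 + A / 2 * u x) ^ 2 ≤ 1 * (17 / 8) ^ 2 :=
    mul_le_mul h4 h7 (by positivity) (by norm_num)
  norm_num at h8 ⊢
  linarith

theorem P_nonneg {A x : ℝ} (h0 : 0 ≤ A) (hx0 : 0 ≤ x) (hx1 : x ≤ 1) : 0 ≤ P A x := by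
  have h3 := w_ge (x := x) h0
  exact mul_nonneg (s_nonneg hx0 hx1) (by linarith)

theorem P_pos {A x : ℝ} (h0 : 0 ≤ A) (hx0 : 0 < x) (hx1 : x < 1) : 0 < P A x := by
  have h3 := w_ge (x := x) h0
  exact mul_pos (s_pos hx0 hx1) (by linarith)

theorem P_ge_s {A x : ℝ} (h0 : 0 ≤ A) (hx0 : 0 ≤ x) (hx1 : x ≤ 1) : s x ≤ P A x := by
  have h3 := w_ge (x := x) h0
  have h4 := s_nonneg hx0 hx1
  unfold P
  nlinarith

theorem P_le_right {A x : ℝ} (h0 : 0 ≤ A) (h1 : A ≤ 9 / 4) (hx1 : x ≤ 1) :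
    P A x ≤ 7 * (1 - x) := by
  have h2 := w_le (x := x) h0 h1
  have h3 := w_ge (x := x) h0
  have h4 := s_le_mul' hx1
  have h5 := Real.pi_lt_d2
  have h6 := Real.pi_pos
  rcases le_or_gt 0 (s x) with h | h
  · have h7 : P A x ≤ s x * (17 / 8) := mul_le_mul_of_nonneg_left h2 h
    have h8 : Real.pi * (1 - x) ≤ 3.15 * (1 - x) := by nlinarith
    linarith
  · have h7 : P A x ≤ 0 := mul_nonpos_of_nonpos_of_nonneg h.le (by linarith)
    linarith

theorem P_le_left {A x : ℝ} (h0 : 0 ≤ A) (h1 : A ≤ 9 / 4) (hx0 : 0 ≤ x) :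
    P A x ≤ 7 * x := by
  have h := P_le_right (A := A) (x := 1 - x) h0 h1 (by linarith)
  have e : P A (1 - x) = P A x := by
    unfold P u; rw [s_one_sub]
  rw [e] at h
  linarith

theorem Px_le_right {A x : ℝ} (h0 : 0 ≤ A) (hx0 : 3 / 4 ≤ x) (hx1 : x ≤ 1) :
    Real.pi * c x * (1 + 3 / 2 * A * u x) ≤ -2.22 := by
  have h1 := c_le_right hx0 hx1
  have h2 := sqrt2_lo
  have h3 := Real.pi_gt_d4
  have h4 := u_nonneg x
  have h5 : Real.pi * c x ≤ -2.22 := by
    have : c x ≤ -0.7071 := by linarith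
    nlinarith
  have h6 : 1 ≤ 1 + 3 / 2 * A * u x := by
    nlinarith [mul_nonneg h0 h4]
  nlinarith

theorem Px_abs_le {A x : ℝ} (h0 : 0 ≤ A) (h1 : A ≤ 9 / 4) :
    |Real.pi * c x * (1 + 3 / 2 * A * u x)| ≤ 14 := by
  have hc : |c x| ≤ 1 := Real.abs_cos_le_one _
  have h4 := u_nonneg x
  have h5 := u_le_one x
  have h6 : 1 ≤ 1 + 3 / 2 * A * u x := by nlinarith [mul_nonneg h0 h4]
  have h7 : 1 + 3 / 2 * A * u x ≤ 4.375 := by nlinarith
  rw [abs_mul, abs_mul, abs_of_pos Real.pi_pos, abs_of_pos (by linarith : 0 < 1 + 3 / 2 * A * u x)]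
  have h8 := Real.pi_lt_d2
  have h9 := Real.pi_pos
  have h10 : Real.pi * |c x| ≤ 3.15 * 1 := mul_le_mul h8.le hc (abs_nonneg _) (by norm_num)
  calc Real.pi * |c x| * (1 + 3 / 2 * A * u x) ≤ (3.15 * 1) * 4.375 :=
        mul_le_mul h10 h7 (by linarith) (by norm_num)
    _ ≤ 14 := by norm_num

/-! ### integrals -/

theorem integral_s : (∫ x in (0 : ℝ)..1, s x) = 2 / Real.pi := by
  have hp := Real.pi_pos.ne'
  have hd : ∀ x : ℝ, HasDerivAt (fun x => -(c x) / Real.pi) (s x) x := by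
    intro x
    refine ((c_hasDerivAt x).neg.div_const Real.pi).congr_deriv ?_
    field_simp
  have hc : Continuous s := by
    have : Differentiable ℝ s := fun x => (s_hasDerivAt x).differentiableAt
    exact this.continuous
  rw [intervalIntegral.integral_eq_sub_of_hasDerivAt (fun x _ => hd x) (hc.intervalIntegrable _ _)]
  simp [c]
  ring

theorem integral_u : (∫ x in (0 : ℝ)..1, u x) = 1 / 2 := by
  have hc : Continuous u := by
    have : Differentiable ℝ u := fun x => (u_hasDerivAt x).differentiableAt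
    exact this.continuous
  have hd : ∀ x : ℝ, HasDerivAt (fun x => G2 x / 2) (u x) x := by
    intro x
    refine ((G2_hasDerivAt x).div_const 2).congr_deriv ?_
    ring
  rw [intervalIntegral.integral_eq_sub_of_hasDerivAt (fun x _ => hd x) (hc.intervalIntegrable _ _),
    G2_one, G2_zero]
  norm_num

theorem integral_s3 : (∫ x in (0 : ℝ)..1, s x ^ 3) = 4 / (3 * Real.pi) := by
  have hc : Continuous (fun x => s x ^ 3) := by
    have : Differentiable ℝ s := fun x => (s_hasDerivAt x).differentiableAt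
    exact this.continuous.pow 3
  rw [intervalIntegral.integral_eq_sub_of_hasDerivAt (fun x _ => V3_hasDerivAt x)
    (hc.intervalIntegrable _ _), V3_one, V3_zero, sub_zero]

end

end Pool.Agent.CyGN.Trig
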