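import Pool.Agent.CyGN.Kid

set_option autoImplicit false

/-!
The functions `U₊ = P + q` and `U₋ = P - q` in the upper region, where `E = β² + P²` and
`b = (A/β) u`.
-/

namespace Pool.Agent.CyGN

open Pool.Agent.CyG Set Filter Topology
open scoped ContDiff

/-- `P_x`. -/
noncomputable def Pdx (A : ℝ → ℝ) (x y : ℝ) : ℝ :=
  Real.pi * Real.cos (Real.pi * x) * (1 + 3 / 2 * A y * uu x)

theorem hasDerivAt_PP_dx (A : ℝ → ℝ) (x y : ℝ) :
    HasDerivAt (fun x => PP A x y) (Pdx A x y) x := by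
  have h1 : HasDerivAt (fun x : ℝ => Real.pi * x) Real.pi x := by
    simpa using (hasDerivAt_id x).const_mul Real.pi
  have h2 : HasDerivAt (fun x : ℝ => Real.sin (Real.pi * x))
      (Real.pi * Real.cos (Real.pi * x)) x :=
    ((Real.hasDerivAt_sin (Real.pi * x)).comp x h1).congr_deriv (by ring)
  have h3 := h2.mul (((h2.pow 2).const_mul (A y / 2)).const_add 1)
  refine h3.congr_deriv ?_
  simp only [Pdx, uu, Pi.pow_apply]
  push_cast
  ring

theorem hasDerivAt_PP_dy {A : ℝ → ℝ} {A' : ℝ} {y : ℝ} (hA : HasDerivAt A A' y) (x : ℝ) :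
    HasDerivAt (fun y => PP A x y) (A' / 2 * Real.sin (Real.pi * x) ^ 3) y := by
  have := (((hA.div_const 2).mul_const (uu x)).const_add 1).const_mul (Real.sin (Real.pi * x))
  refine this.congr_deriv ?_
  simp only [uu]
  ring

namespace EB.Upper

variable {m : EB} {β A : ℝ → ℝ} {Y : ℝ} {x y q η : ℝ → ℝ}

/-- `Q = -β A'`. -/
noncomputable def Q (β A : ℝ → ℝ) (y : ℝ) : ℝ := -(β y * deriv A y)

/-- `a' = (A/β)'`. -/
noncomputable def a' (β A : ℝ → ℝ) (y : ℝ) : ℝ :=
  (deriv A y * β y - A y * deriv β y) / β y ^ 2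

/-- `X = Q + a' K`. -/
noncomputable def X (β A : ℝ → ℝ) (y e : ℝ) : ℝ := Q β A y + a' β A y * (β y ^ 2 - e ^ 2)

/-- `E_x` in the upper region. -/
theorem dx_E_eq (hU : m.Upper β A Y) {x y : ℝ} (hs : Y ≤ y) :
    CyG.dx m.E (x, y) = 2 * PP A x y * Pdx A x y := by
  have h1 : HasDerivAt (fun a => m.E (a, y)) (2 * PP A x y * Pdx A x y) x := by
    have h2 : HasDerivAt (fun a => β y ^ 2 + PP A a y ^ 2) (2 * PP A x y * Pdx A x y) x := by
      refine (((hasDerivAt_PP_dx A x y).pow 2).const_add _).congr_deriv ?_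
      push_cast
      ring
    refine h2.congr_of_eventuallyEq ?_
    filter_upwards with a
    exact hU.E_eq a y hs
  exact (hasDerivAt_dx m.smooth_E x y).unique h1

/-- `E_y` in the upper region. -/
theorem dt_E_eq (hU : m.Upper β A Y) {x y : ℝ} (hs : Y ≤ y) :
    CyG.dt m.E (x, y) = 2 * β y * deriv β y
      + PP A x y * deriv A y * Real.sin (Real.pi * x) ^ 3 := by
  have hβ := (hU.dβ _ hs).hasDerivAt
  have hP := hasDerivAt_PP_dy (hU.dA _ hs).hasDerivAt x
  have := dt_eq_of_Ici m.smooth_E ((hβ.pow 2).add (hP.pow 2))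
    (fun Z hZ => hU.E_eq x Z (hs.trans hZ))
  rw [this]
  push_cast
  ring

/-- `b_y` in the upper region. -/
theorem dt_b_eq (hU : m.Upper β A Y) {x y : ℝ} (hs : Y ≤ y) :
    CyG.dt m.b (x, y) = a' β A y * uu x := by
  have hβ := (hU.dβ _ hs).hasDerivAt
  have hA := (hU.dA _ hs).hasDerivAt
  exact dt_eq_of_Ici m.smooth_b ((hA.div hβ (hU.β_pos _ hs).ne').mul_const (uu x))
    (fun Z hZ => hU.b_eq x Z (hs.trans hZ))

/-- `E q'`. -/
theorem q_deriv (hU : m.Upper β A Y) (h : EB.Orbit m x y q η) (s : ℝ) (hs : Y ≤ y s) :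
    HasDerivAt q ((PP A (x s) (y s) * Pdx A (x s) (y s)
      - uu (x s) * X β A (y s) (η s)
      + A (y s) / β (y s) * uu (x s) * PP A (x s) (y s)
        * (deriv A (y s) / 2 * Real.sin (Real.pi * x s) ^ 3)) / m.E (x s, y s)) s := by
  refine (h.dq s).congr_deriv ?_
  rw [hU.dx_E_eq hs, hU.dt_E_eq hs, hU.dt_b_eq hs, hU.b_eq _ _ hs]
  have hE := h.E_ne s
  have hβ := (hU.β_pos _ hs).ne'
  simp only [X, Q, a']
  field_simp
  ring

/-- `E η'`. -/
theorem η_deriv (hU : m.Upper β A Y) (h : EB.Orbit m x y q η) (s : ℝ) (hs : Y ≤ y s) :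
    HasDerivAt η ((β (y s) * deriv β (y s)
      + PP A (x s) (y s) * (deriv A (y s) / 2 * Real.sin (Real.pi * x s) ^ 3)
      - a' β A (y s) * uu (x s) * q s * η s) / m.E (x s, y s)) s := by
  refine (h.dη s).congr_deriv ?_
  rw [hU.dt_E_eq hs, hU.dt_b_eq hs]
  have hE := h.E_ne s
  field_simp

/-- The derivative of `P` along an orbit. -/
theorem P_deriv (hU : m.Upper β A Y) (h : EB.Orbit m x y q η) (s : ℝ) (hs : Y ≤ y s) :
    HasDerivAt (fun r => PP A (x r) (y r))
      ((Pdx A (x s) (y s) * q s + deriv A (y s) / 2 * Real.sin (Real.pi * x s) ^ 3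
        * (η s + A (y s) / β (y s) * uu (x s) * q s)) / m.E (x s, y s)) s := by
  have hA := ((hU.dA _ hs).hasDerivAt.comp s (h.dy s)).div_const 2
  have h1 : HasDerivAt (fun r => Real.pi * x r) (Real.pi * (q s / m.E (x s, y s))) s :=
    (h.dx s).const_mul Real.pi
  have h2 : HasDerivAt (fun r => Real.sin (Real.pi * x r)) _ s := h1.sin
  have h3 := h2.mul ((hA.mul (h2.pow 2)).const_add 1)
  refine h3.congr_deriv ?_
  have hE := h.E_ne s
  rw [hU.b_eq _ _ hs]
  simp only [Pdx, uu, Function.comp_apply, Pi.mul_apply, Pi.pow_apply]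
  push_cast
  field_simp
  ring

/-- `U₊' = (P_x U₊ - u X + a u P_y U₊ + η P_y) / E`. -/
theorem Up_deriv (hU : m.Upper β A Y) (h : EB.Orbit m x y q η) (s : ℝ) (hs : Y ≤ y s) :
    HasDerivAt (fun r => PP A (x r) (y r) + q r)
      ((Pdx A (x s) (y s) * (PP A (x s) (y s) + q s) - uu (x s) * X β A (y s) (η s)
        + A (y s) / β (y s) * uu (x s) * (deriv A (y s) / 2 * Real.sin (Real.pi * x s) ^ 3)
          * (PP A (x s) (y s) + q s)
        + η s * (deriv A (y s) / 2 * Real.sin (Real.pi * x s) ^ 3)) / m.E (x s, y s)) s := by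
  refine ((hU.P_deriv h s hs).add (hU.q_deriv h s hs)).congr_deriv ?_
  ring

/-- `U₋' = (-P_x U₋ + u X - a u P_y U₋ + η P_y) / E`. -/
theorem Um_deriv (hU : m.Upper β A Y) (h : EB.Orbit m x y q η) (s : ℝ) (hs : Y ≤ y s) :
    HasDerivAt (fun r => PP A (x r) (y r) - q r)
      ((-(Pdx A (x s) (y s) * (PP A (x s) (y s) - q s)) + uu (x s) * X β A (y s) (η s)
        + A (y s) / β (y s) * uu (x s) * (deriv A (y s) / 2 * Real.sin (Real.pi * x s) ^ 3)
          * (q s - PP A (x s) (y s))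
        + η s * (deriv A (y s) / 2 * Real.sin (Real.pi * x s) ^ 3)) / m.E (x s, y s)) s := by
  refine ((hU.P_deriv h s hs).sub (hU.q_deriv h s hs)).congr_deriv ?_
  ring

/-- `K = -U₊ U₋`. -/
theorem K_eq (hU : m.Upper β A Y) (h : EB.Orbit m x y q η) (s : ℝ) (hs : Y ≤ y s) :
    β (y s) ^ 2 - η s ^ 2 = -((PP A (x s) (y s) + q s) * (PP A (x s) (y s) - q s)) := by
  have := hU.q_sq h s hs
  linarith

/-- The coefficient `c` in `U₋' = c U₋ + ½ u |A'| β (2 - s) / E`. -/
noncomputable def cm (m : EB) (β A : ℝ → ℝ) (x y q e : ℝ) : ℝ :=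
  (-Pdx A x y - a' β A y * uu x * (PP A x y + q)
    - A y / β y * uu x * (deriv A y / 2 * Real.sin (Real.pi * x) ^ 3)
    + deriv A y / 2 * Real.sin (Real.pi * x) ^ 3 * (PP A x y + q) / (e + β y)) / m.E (x, y)

/-- The coefficient `c` in `U₊' = c U₊ - ½ u |A'| β (2 + s) / E`. -/
noncomputable def cp (m : EB) (β A : ℝ → ℝ) (x y q e : ℝ) : ℝ :=
  (Pdx A x y + a' β A y * uu x * (PP A x y - q)
    + A y / β y * uu x * (deriv A y / 2 * Real.sin (Real.pi * x) ^ 3)
    + deriv A y / 2 * Real.sin (Real.pi * x) ^ 3 * (PP A x y - q) / (e + β y)) / m.E (x, y)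

/-- `U₋' = c U₋ + ½ u |A'| β (2 - s) / E` while `η > 0`. -/
theorem Um_deriv' (hU : m.Upper β A Y) (h : EB.Orbit m x y q η) (s : ℝ) (hs : Y ≤ y s)
    (hη : 0 < η s) :
    HasDerivAt (fun r => PP A (x r) (y r) - q r)
      (cm m β A (x s) (y s) (q s) (η s) * (PP A (x s) (y s) - q s)
        + 1 / 2 * uu (x s) * Q β A (y s) * (2 - Real.sin (Real.pi * x s)) / m.E (x s, y s)) s := by
  refine (hU.Um_deriv h s hs).congr_deriv ?_
  have hE := h.E_ne s
  have hβ := hU.β_pos _ hs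
  have hK := hU.K_eq h s hs
  have hne : η s + β (y s) ≠ 0 := by positivity
  have e1 : η s = β (y s) + (PP A (x s) (y s) + q s) * (PP A (x s) (y s) - q s)
      / (η s + β (y s)) := by
    field_simp
    linarith
  have e2 : X β A (y s) (η s) = Q β A (y s)
      - a' β A (y s) * ((PP A (x s) (y s) + q s) * (PP A (x s) (y s) - q s)) := by
    simp only [X]
    rw [hK]
    ring
  rw [e2]
  have e3 : η s * (deriv A (y s) / 2 * Real.sin (Real.pi * x s) ^ 3) =
      (β (y s) + (PP A (x s) (y s) + q s) * (PP A (x s) (y s) - q s) / (η s + β (y s)))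
      * (deriv A (y s) / 2 * Real.sin (Real.pi * x s) ^ 3) := by
    rw [← e1]
  rw [e3]
  simp only [cm, Q, uu]
  generalize (PP A (x s) (y s) + q s) / (η s + β (y s)) = W
  ring

/-- `U₊' = c U₊ - ½ u |A'| β (2 + s) / E` while `η > 0`. -/
theorem Up_deriv' (hU : m.Upper β A Y) (h : EB.Orbit m x y q η) (s : ℝ) (hs : Y ≤ y s)
    (hη : 0 < η s) :
    HasDerivAt (fun r => PP A (x r) (y r) + q r)
      (cp m β A (x s) (y s) (q s) (η s) * (PP A (x s) (y s) + q s)
        - 1 / 2 * uu (x s) * Q β A (y s) * (2 + Real.sin (Real.pi * x s)) / m.E (x s, y s)) s := by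
  refine (hU.Up_deriv h s hs).congr_deriv ?_
  have hE := h.E_ne s
  have hβ := hU.β_pos _ hs
  have hK := hU.K_eq h s hs
  have hne : η s + β (y s) ≠ 0 := by positivity
  have e1 : η s = β (y s) + (PP A (x s) (y s) + q s) * (PP A (x s) (y s) - q s)
      / (η s + β (y s)) := by
    field_simp
    linarith
  have e2 : X β A (y s) (η s) = Q β A (y s)
      - a' β A (y s) * ((PP A (x s) (y s) + q s) * (PP A (x s) (y s) - q s)) := by
    simp only [X]
    rw [hK]
    ring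
  rw [e2]
  have e3 : η s * (deriv A (y s) / 2 * Real.sin (Real.pi * x s) ^ 3) =
      (β (y s) + (PP A (x s) (y s) + q s) * (PP A (x s) (y s) - q s) / (η s + β (y s)))
      * (deriv A (y s) / 2 * Real.sin (Real.pi * x s) ^ 3) := by
    rw [← e1]
  rw [e3]
  simp only [cp, Q, uu]
  ring

end EB.Upper

end Pool.Agent.CyGN
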